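import Pool.Agent.Lib.MP_d46fce_co.Lower

/-!
Covering by `(l+1)`-sets and packings: estimates valid for all `l`.
-/

namespace Pool.Agent.Lib.MP_d46fce_co

theorem greedy' {ι α : Type} [Fintype α] [DecidableEq α] [Nonempty α] {z : ℕ} (I : Finset ι)
    (Z : ι → Finset α) (hZ : ∀ i ∈ I, (Z i).card ≤ z) (s : ℕ) :
    ∃ X : Finset α, X.card ≤ s ∧
      (((I.filter (fun i => X ⊆ Z i)).card : ℕ) : ℝ) ≤
        I.card * ((z : ℝ) / Fintype.card α) ^ s := by
  classical
  induction s with
  | zero => exact ⟨∅, le_rfl, by simp⟩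
  | succ s ih =>
    obtain ⟨X, h1, h2⟩ := ih
    set J := I.filter (fun i => X ⊆ Z i) with hJ
    have hsum : ∑ x : α, ((J.filter (fun i => x ∈ Z i)).card * Fintype.card α) ≤
        ∑ _x : α, J.card * z := by
      rw [← Finset.sum_mul]
      have : ∑ x : α, (J.filter (fun i => x ∈ Z i)).card = ∑ i ∈ J, (Z i).card := by
        simp only [Finset.card_filter]
        rw [Finset.sum_comm]
        refine Finset.sum_congr rfl fun i _ => ?_
        simp
      rw [this]
      have h3 : ∑ i ∈ J, (Z i).card ≤ J.card * z := by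
        rw [← smul_eq_mul]
        exact Finset.sum_le_card_nsmul _ _ _ fun i hi => hZ i (Finset.mem_filter.1 hi).1
      simp only [Finset.sum_const, Finset.card_univ, smul_eq_mul]
      rw [mul_comm (Fintype.card α)]
      exact Nat.mul_le_mul_right _ h3
    obtain ⟨x, -, hx⟩ := Finset.exists_le_of_sum_le Finset.univ_nonempty hsum
    refine ⟨insert x X, (Finset.card_insert_le _ _).trans (by omega), ?_⟩
    have e : I.filter (fun i => insert x X ⊆ Z i) = J.filter (fun i => x ∈ Z i) := by
      rw [hJ, Finset.filter_filter]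
      refine Finset.filter_congr fun i _ => ?_
      rw [Finset.insert_subset_iff, and_comm]
    rw [e]
    have hN' : (0 : ℝ) < Fintype.card α := by exact_mod_cast Fintype.card_pos
    have hx' : (((J.filter (fun i => x ∈ Z i)).card : ℕ) : ℝ) * Fintype.card α ≤ J.card * z := by
      exact_mod_cast hx
    calc (((J.filter (fun i => x ∈ Z i)).card : ℕ) : ℝ) ≤ J.card * ((z : ℝ) / Fintype.card α) := by
          rw [← mul_div_assoc, le_div_iff₀ hN']; exact hx'
      _ ≤ I.card * ((z : ℝ) / Fintype.card α) ^ s * ((z : ℝ) / Fintype.card α) :=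
          mul_le_mul_of_nonneg_right h2 (by positivity)
      _ = _ := by ring

theorem hm_le_cover' (m n k l s : ℕ) (hl : l < n) :
    (hm m n k l : ℝ) ≤ s + m * (1 - (n.choose (l + 1) : ℝ) / (2 * n + k).choose (l + 1)) ^ s := by
  classical
  have hc : Fintype.card {T : Finset (Fin (2 * n + k)) // T.card = l + 1} =
      (2 * n + k).choose (l + 1) := by simp [Fintype.card_finset_len]
  have hpos : 0 < (2 * n + k).choose (l + 1) := Nat.choose_pos (by omega)
  have hle : n.choose (l + 1) ≤ (2 * n + k).choose (l + 1) := Nat.choose_le_choose _ (by omega)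
  have : Nonempty {T : Finset (Fin (2 * n + k)) // T.card = l + 1} := by
    rw [← Fintype.card_pos_iff, hc]; exact hpos
  set y : ℝ := m * (1 - (n.choose (l + 1) : ℝ) / (2 * n + k).choose (l + 1)) ^ s with hy
  have e : (1 - (n.choose (l + 1) : ℝ) / (2 * n + k).choose (l + 1)) =
      (((2 * n + k).choose (l + 1) - n.choose (l + 1) : ℕ) : ℝ) / (2 * n + k).choose (l + 1) := by
    have : (0 : ℝ) < (2 * n + k).choose (l + 1) := by exact_mod_cast hpos
    rw [Nat.cast_sub hle]; field_simp
  have hy0 : 0 ≤ y := by rw [hy, e]; positivity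
  have : hm m n k l ≤ s + ⌊y⌋₊ := by
    refine hm_le fun W hW => ?_
    obtain ⟨X, h1, h2⟩ := greedy' (z := (2 * n + k).choose (l + 1) - n.choose (l + 1)) W
      (fun v => Finset.univ.filter
        (fun T : {T : Finset (Fin (2 * n + k)) // T.card = l + 1} => ¬ T.1 ⊆ v.1))
      (fun v _ => by
        have a1 := Finset.card_filter_add_card_filter_not
          (s := (Finset.univ : Finset {T : Finset (Fin (2 * n + k)) // T.card = l + 1}))
          (fun T => T.1 ⊆ v.1)
        have a2 : (Finset.univ.filter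
            (fun T : {T : Finset (Fin (2 * n + k)) // T.card = l + 1} => T.1 ⊆ v.1)).card =
            n.choose (l + 1) := by
          refine Eq.trans ?_ (show (v.1.powersetCard (l + 1)).card = n.choose (l + 1) by
            rw [Finset.card_powersetCard, v.2])
          refine Finset.card_bij (fun T _ => T.1) (fun T hT => ?_) (fun _ _ _ _ e => Subtype.ext e)
            (fun T hT => ?_)
          · exact Finset.mem_powersetCard.2 ⟨(Finset.mem_filter.1 hT).2, T.2⟩
          · rw [Finset.mem_powersetCard] at hT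
            exact ⟨⟨T, hT.2⟩, by simpa using hT.1, rfl⟩
        rw [Finset.card_univ, hc] at a1
        omega) s
    set R := W.filter (fun v => X ⊆ Finset.univ.filter
      (fun T : {T : Finset (Fin (2 * n + k)) // T.card = l + 1} => ¬ T.1 ⊆ v.1)) with hR
    have hRc : R.card ≤ ⌊y⌋₊ := Nat.le_floor (by rw [hc, hW] at h2; rw [hy, e]; exact h2)
    have hRm : ∀ v ∈ W, (¬ ∃ T : X, T.1.1 ⊆ v.1) → v ∈ R := by
      intro v hv h
      refine Finset.mem_filter.2 ⟨hv, fun T hT => ?_⟩
      simp only [Finset.mem_filter, Finset.mem_univ, true_and]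
      exact fun h' => h ⟨⟨T, hT⟩, h'⟩
    refine ⟨fun v => if h : ∃ T : X, T.1.1 ⊆ v.1 then (X.equivFin h.choose).val else
      if h : v ∈ R then s + (R.equivFin ⟨v, h⟩).val else 0, fun v hv => ?_, fun u hu v hv huv => ?_⟩
    · dsimp only
      by_cases h : ∃ T : X, T.1.1 ⊆ v.1
      · rw [dif_pos h]
        have := (X.equivFin h.choose).isLt
        omega
      · rw [dif_neg h, dif_pos (hRm v hv h)]
        have := (R.equivFin ⟨v, hRm v hv h⟩).isLt
        omega
    · dsimp only
      by_cases ha : ∃ T : X, T.1.1 ⊆ u.1 <;> by_cases hb : ∃ T : X, T.1.1 ⊆ v.1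
      · rw [dif_pos ha, dif_pos hb]
        intro e
        have e' := X.equivFin.injective (Fin.ext e)
        have := Finset.card_le_card (Finset.subset_inter ha.choose_spec (e' ▸ hb.choose_spec))
        rw [ha.choose.1.2] at this
        have := huv.2
        omega
      · rw [dif_pos ha, dif_neg hb, dif_pos (hRm v hv hb)]
        have := (X.equivFin ha.choose).isLt
        omega
      · rw [dif_neg ha, dif_pos hb, dif_pos (hRm u hu ha)]
        have := (X.equivFin hb.choose).isLt
        omega
      · rw [dif_neg ha, dif_neg hb, dif_pos (hRm u hu ha), dif_pos (hRm v hv hb)]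
        intro e
        have := R.equivFin.injective (Fin.ext (Nat.add_left_cancel e))
        exact huv.1 (congrArg Subtype.val this)
  calc (hm m n k l : ℝ) ≤ ((s + ⌊y⌋₊ : ℕ) : ℝ) := by exact_mod_cast this
    _ ≤ s + y := by push_cast; linarith [Nat.floor_le hy0]

theorem cover_upper (m n k l : ℕ) (hl : l < n) (F : ℝ)
    (hF : F = ((2 * n + k).choose (l + 1) : ℝ) / n.choose (l + 1)) :
    (hm m n k l : ℝ) ≤ 1 + F + F * Real.log (1 + m / F) := by
  have p1 : (0 : ℝ) < (2 * n + k).choose (l + 1) := by
    exact_mod_cast Nat.choose_pos (show l + 1 ≤ 2 * n + k by omega)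
  have p2 : (0 : ℝ) < n.choose (l + 1) := by exact_mod_cast Nat.choose_pos (show l + 1 ≤ n by omega)
  have p3 : (n.choose (l + 1) : ℝ) ≤ (2 * n + k).choose (l + 1) := by
    exact_mod_cast Nat.choose_le_choose _ (show n ≤ 2 * n + k by omega)
  have F0 : 0 < F := by rw [hF]; positivity
  set L := Real.log (1 + m / F) with hL
  have x0 : 0 ≤ m / F := by positivity
  have L0 : 0 ≤ L := Real.log_nonneg (by linarith)
  set s := ⌈F * L⌉₊ with hs
  have s1 : F * L ≤ s := Nat.le_ceil _
  have s2 : (s : ℝ) < F * L + 1 := Nat.ceil_lt_add_one (by positivity)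
  have a1 := hm_le_cover' m n k l s hl
  have e : (n.choose (l + 1) : ℝ) / (2 * n + k).choose (l + 1) = 1 / F := by
    rw [hF]; field_simp
  have a0 : 0 ≤ 1 - 1 / F := by rw [← e, sub_nonneg, div_le_one p1]; exact p3
  rw [e] at a1
  have a2 : 1 - 1 / F ≤ Real.exp (-(1 / F)) := by linarith [Real.add_one_le_exp (-(1 / F))]
  have a3 : (1 - 1 / F) ^ s ≤ Real.exp (-L) := by
    calc _ ≤ Real.exp (-(1 / F)) ^ s := by gcongr
      _ = Real.exp (s * -(1 / F)) := by rw [Real.exp_nat_mul]
      _ ≤ _ := by
        refine Real.exp_le_exp.2 ?_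
        have : L ≤ s / F := by rw [le_div_iff₀ F0]; linarith
        have e : (s : ℝ) * -(1 / F) = -(s / F) := by ring
        linarith
  have a4 : m * Real.exp (-L) ≤ F := by
    rw [Real.exp_neg, hL, Real.exp_log (by linarith), ← div_eq_mul_inv,
      div_le_iff₀ (by linarith)]
    have : F * (1 + m / F) = F + m := by field_simp
    linarith
  have a5 : (m : ℝ) * (1 - 1 / F) ^ s ≤ F := le_trans (by gcongr) a4
  linarith

theorem packing_lower {m n k l : ℕ} (hl : l < n) (hm2 : m ≤ (2 * n + k).choose n) :
    min (m : ℝ) (((2 * n + k).choose (l + 1) : ℝ) / (n.choose (l + 1) : ℝ) ^ 2) ≤ hm m n k l := by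
  classical
  obtain ⟨C, hC, hmax⟩ := Finset.exists_max_image
    ((Finset.univ : Finset (Finset (Vtx n k))).filter
      (fun C => ∀ u ∈ C, ∀ v ∈ C, u ≠ v → (genKneser n k l).Adj u v)) Finset.card
    ⟨∅, by simp⟩
  have hC' := (Finset.mem_filter.1 hC).2
  have hcov : ∀ v : Vtx n k, ∃ u ∈ C, l + 1 ≤ (u.1 ∩ v.1).card := by
    intro v
    by_contra hcon
    push Not at hcon
    have hv : v ∉ C := fun h => by
      have := hcon v h
      rw [Finset.inter_self, v.2] at this
      omega
    have := hmax (insert v C) (Finset.mem_filter.2 ⟨Finset.mem_univ _, ?_⟩)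
    · rw [Finset.card_insert_of_notMem hv] at this; omega
    · intro a ha b hb hab
      rcases Finset.mem_insert.1 ha with rfl | ha' <;> rcases Finset.mem_insert.1 hb with rfl | hb'
      · exact absurd rfl hab
      · exact ⟨hab, by have := hcon b hb'; rw [Finset.inter_comm]; omega⟩
      · exact ⟨hab, by have := hcon a ha'; omega⟩
      · exact hC' a ha' b hb' hab
  have hcount : (2 * n + k).choose n ≤
      C.card * (n.choose (l + 1) * (2 * n + k - (l + 1)).choose (n - (l + 1))) := by
    have h1 : (Finset.univ : Finset (Fin (2 * n + k))).powersetCard n ⊆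
        C.biUnion (fun u => (u.1.powersetCard (l + 1)).biUnion
          (fun T => (Finset.univ.powersetCard n).filter (T ⊆ ·))) := by
      intro A hA
      obtain ⟨u, hu, h⟩ := hcov ⟨A, (Finset.mem_powersetCard.1 hA).2⟩
      obtain ⟨T, t1, t2⟩ := Finset.exists_subset_card_eq h
      refine Finset.mem_biUnion.2 ⟨u, hu, Finset.mem_biUnion.2 ⟨T, ?_, ?_⟩⟩
      · exact Finset.mem_powersetCard.2 ⟨t1.trans Finset.inter_subset_left, t2⟩
      · exact Finset.mem_filter.2 ⟨hA, t1.trans Finset.inter_subset_right⟩
    have h2 := Finset.card_le_card h1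
    rw [Finset.card_powersetCard, Finset.card_univ, Fintype.card_fin] at h2
    refine h2.trans (Finset.card_biUnion_le_card_mul _ _ _ fun u _ => ?_)
    refine (Finset.card_biUnion_le_card_mul _ _ ((2 * n + k - (l + 1)).choose (n - (l + 1)))
      fun T hT => ?_).trans ?_
    · have hT' := (Finset.mem_powersetCard.1 hT).2
      rw [Finset.card_filter_powersetCard_subset T Finset.univ n (Finset.subset_univ _) (by omega),
        hT']
      simp
    · rw [Finset.card_powersetCard, u.2]
  have hid : (2 * n + k).choose n * n.choose (l + 1) =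
      (2 * n + k).choose (l + 1) * (2 * n + k - (l + 1)).choose (n - (l + 1)) :=
    Nat.choose_mul (by omega)
  have hp : 0 < (2 * n + k - (l + 1)).choose (n - (l + 1)) := Nat.choose_pos (by omega)
  have h3 : (2 * n + k).choose (l + 1) ≤ C.card * n.choose (l + 1) ^ 2 := by
    refine Nat.le_of_mul_le_mul_right ?_ hp
    rw [← hid]
    calc _ ≤ C.card * (n.choose (l + 1) * (2 * n + k - (l + 1)).choose (n - (l + 1))) *
          n.choose (l + 1) := Nat.mul_le_mul_right _ hcount
      _ = _ := by ring
  obtain ⟨D, d1, d2⟩ := Finset.exists_subset_card_eq (s := C) (n := min m C.card) (min_le_right _ _)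
  have h4 : min m C.card ≤ hm m n k l := by
    refine le_hm D (by rw [d2]; exact min_le_left _ _) hm2 fun c hc => ?_
    rw [Finset.card_image_of_injOn, d2]
    intro u hu v hv e
    by_contra hne
    exact hc u hu v hv (hC' u (d1 hu) v (d1 hv) hne) e
  have p2 : (0 : ℝ) < n.choose (l + 1) := by exact_mod_cast Nat.choose_pos (show l + 1 ≤ n by omega)
  have h5 : ((2 * n + k).choose (l + 1) : ℝ) / (n.choose (l + 1) : ℝ) ^ 2 ≤ C.card := by
    rw [div_le_iff₀ (by positivity)]; exact_mod_cast h3
  calc _ ≤ min (m : ℝ) C.card := min_le_min_left _ h5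
    _ ≤ _ := by exact_mod_cast h4

end Pool.Agent.Lib.MP_d46fce_co
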