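import Pool.Agent.Lib.MP_d46fce_co.Power
import Pool.Agent.Lib.MP_d46fce_co.General

/-!
Estimates of `h_m(n; k, l)` valid for all parameters.
-/

namespace Pool.Agent.Lib.MP_d46fce_co

theorem hm_le_card (m n k l : ℕ) : hm m n k l ≤ m := by
  classical
  refine hm_le fun W hW => ⟨fun v => if h : v ∈ W then (W.equivFin ⟨v, h⟩).val else 0,
    fun v hv => ?_, fun u hu v hv huv e => huv.1 ?_⟩
  · simp only [dif_pos hv]
    exact hW ▸ Fin.isLt _
  · simp only [dif_pos hu, dif_pos hv] at e
    exact congrArg Subtype.val (W.equivFin.injective (Fin.ext e))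

theorem log_le_flog {m f : ℝ} (hm : 0 ≤ m) (hf : 1 ≤ f) :
    Real.log (1 + m) ≤ f * Real.log (1 + m / f) := by
  simpa using flog_mono hm one_pos hf

theorem flog_le_three {m f : ℝ} (hm : 1 ≤ m) (hf : 0 < f) (h3 : f ≤ 3) :
    f * Real.log (1 + m / f) ≤ 3 * Real.log m + 3 * Real.log 2 := by
  refine (flog_mono (by linarith) hf h3).trans ?_
  have := Real.log_le_log (show 0 < 1 + m / 3 by positivity) (show 1 + m / 3 ≤ m * 2 by linarith)
  rw [Real.log_mul (by linarith) (by norm_num)] at this
  linarith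

theorem lower_main {m n k l : ℕ} (hl : l < n) (h1 : 1 ≤ m) (h2 : m ≤ (2 * n + k).choose n)
    (T Λ : ℝ) (hT : T = (l + 1) * (k + l + 1))
    (hΛ : Λ = (2 * n + k : ℝ) / n * Real.log (1 + m / ((2 * n + k : ℝ) / n))) :
    min (T / min (l + 1 : ℝ) (Real.log (2 * T))) (1 + Λ / Real.log (2 + n / (k + l + 1))) ≤
      1080000 * hm m n k l := by
  have hone : (1 : ℝ) ≤ hm m n k l := by exact_mod_cast one_le_hm h1 h2
  have n1 : (1 : ℝ) ≤ n := by exact_mod_cast (show 1 ≤ n by omega)
  have m1 : (1 : ℝ) ≤ m := by exact_mod_cast h1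
  have k0 : (0 : ℝ) ≤ k := by positivity
  have l0 : (0 : ℝ) ≤ l := by positivity
  have T1 : 1 ≤ T := by rw [hT]; nlinarith
  have lg2 := log_two_ge
  have lT : Real.log 2 ≤ Real.log (2 * T) := Real.log_le_log (by norm_num) (by linarith)
  have a1 := lam_lower hl h1 h2
  have a2 := lower_closed hl h1 h2 T hT
  have a3 := pow_lower hl h1 h2
  rw [← hΛ] at a1
  rw [← hT] at a3
  set f : ℝ := (2 * n + k) / n with hf
  have f0 : 0 < f := by positivity
  have f1 : f * n = 2 * n + k := by rw [hf]; field_simp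
  set ℓ := Real.log (2 + n / (k + l + 1)) with hℓ
  have ℓ0 : Real.log 2 ≤ ℓ := Real.log_le_log (by norm_num)
    (by rw [le_add_iff_nonneg_right]; positivity)
  have ℓ1 : 0 < ℓ := by linarith
  have hmax : ∀ B : ℝ, (k : ℝ) + l + 1 ≤ B → T / Real.log (2 * T) ≤ B →
      T / min (l + 1 : ℝ) (Real.log (2 * T)) ≤ B := by
    intro B b1 b2
    rcases min_choice (l + 1 : ℝ) (Real.log (2 * T)) with h | h <;> rw [h]
    · rw [hT, mul_div_cancel_left₀ _ (by positivity)]; exact b1
    · exact b2
  rcases le_total (Λ / ℓ) (k + l + 1) with hX | hX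
  · rw [min_eq_right (by linarith)] at a1
    linarith [min_le_right (T / min (l + 1 : ℝ) (Real.log (2 * T))) (1 + Λ / ℓ)]
  rw [min_eq_left (by linarith)] at a1
  rcases le_or_gt k n with hk | hk
  · have hk' : (k : ℝ) ≤ n := by exact_mod_cast hk
    have b1 := flog_le_three m1 f0 (by rw [hf, div_le_iff₀ (by linarith)]; linarith)
    rw [← hΛ] at b1
    have b2 : Λ / ℓ ≤ 3 * (Real.log m / ℓ) + 3 := by
      rw [← mul_div_assoc, div_add' _ _ _ ℓ1.ne']
      exact div_le_div_of_nonneg_right (by linarith) ℓ1.le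
    have b3 : 0 ≤ Real.log m / ℓ := div_nonneg (Real.log_nonneg m1) ℓ1.le
    rcases min_choice (max ((k : ℝ) + l + 1) (T / Real.log (2 * T))) (1 + Real.log m / ℓ)
      with h | h <;> rw [h] at a2
    · refine (min_le_left _ _).trans ((hmax _ (le_max_left _ _) (le_max_right _ _)).trans ?_)
      linarith
    · refine (min_le_right _ _).trans ?_
      linarith
  · have hk' : (n : ℝ) + 1 ≤ k := by exact_mod_cast hk
    refine (min_le_left _ _).trans (hmax _ (by linarith) ?_)
    rw [div_le_iff₀ (by linarith)]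
    rcases le_total (l + 1 : ℝ) (27000 * Real.log (2 * T)) with h | h
    · calc T = (l + 1) * (k + l + 1) := hT
        _ ≤ (27000 * Real.log (2 * T)) * (40 * hm m n k l) :=
            mul_le_mul h (by linarith) (by positivity) (by linarith)
        _ = _ := by ring
    · rw [le_div_iff₀ ℓ1] at hX
      have b1 : 0.69 * (k + l + 1) ≤ Λ := by nlinarith
      have f3 : 3 ≤ f := by rw [hf, le_div_iff₀ (by linarith)]; linarith
      have b2 : Λ ≤ m := by
        have := Real.log_le_sub_one_of_pos (show 0 < 1 + m / f by positivity)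
        rw [hΛ]
        refine (mul_le_mul_of_nonneg_left this f0.le).trans (le_of_eq ?_)
        field_simp; ring
      have b3 : Real.log (1 + m / f) ≤ Real.log m := by
        refine Real.log_le_log (by positivity) ?_
        have : m / f ≤ m / 3 := div_le_div_of_nonneg_left (by linarith) (by norm_num) f3
        linarith
      have b4 : 0.23 * n ≤ Real.log m := by
        refine le_of_mul_le_mul_left (a := f) ?_ f0
        have := mul_le_mul_of_nonneg_left b3 f0.le
        nlinarith
      have b5 : Real.log (2 * T) ≤ T * Real.log m / (2000 * n * (2 * n + k)) := by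
        rw [le_div_iff₀ (by positivity)]
        calc _ ≤ ((l : ℝ) + 1) / 27000 * (2000 * n * (3 * (k + l + 1))) :=
              mul_le_mul (by linarith) (by gcongr; linarith) (by positivity) (by positivity)
          _ = T * (2 / 9 * n) := by rw [hT]; ring
          _ ≤ _ := mul_le_mul_of_nonneg_left (by linarith) (by linarith)
      have b6 := (Real.exp_le_exp.2 b5).trans a3
      rw [Real.exp_log (by linarith)] at b6
      nlinarith

theorem upper_one {m n k l : ℕ} (hl : l < n) (hl1 : 1 ≤ l) (h1 : 1 ≤ m)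
    (h2 : m ≤ (2 * n + k).choose n) :
    (hm m n k l : ℝ) ≤ Real.exp (66 + 9216 * (l * Real.log (1 + (k + l + 1) / n))) *
      (1 + Real.log (1 + m)) := by
  have n1 : (1 : ℝ) ≤ n := by exact_mod_cast (show 1 ≤ n by omega)
  have m1 : (1 : ℝ) ≤ m := by exact_mod_cast h1
  have k0 : (0 : ℝ) ≤ k := by positivity
  have l1 : (1 : ℝ) ≤ l := by exact_mod_cast hl1
  have L0 : 0 ≤ Real.log (1 + m) := Real.log_nonneg (by linarith)
  set κ : ℝ := (k + l + 1) / n with hκ
  have κ0 : 0 < κ := by positivity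
  set g := Real.log (1 + κ) with hg
  have g0 : 0 ≤ g := Real.log_nonneg (by linarith)
  have lg : 0 ≤ l * g := by positivity
  by_cases hc : 400 * (k + l + 1) ≤ n
  · have hc' : 400 * ((k : ℝ) + l + 1) ≤ n := by exact_mod_cast hc
    have a1 : κ / 2 ≤ g := by
      rw [hg, Real.le_log_iff_exp_le (by linarith)]
      exact exp_half_le κ κ0.le (by rw [hκ, div_le_one (by linarith)]; linarith)
    have a2 := maj_upper (m := m) hc
    rw [mul_div_assoc, ← hκ] at a2
    have a3 : Real.exp (66 + 2304 * ((l + 1) * κ)) ≤ Real.exp (66 + 9216 * (l * g)) :=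
      Real.exp_le_exp.2 (by nlinarith)
    have a4 : 1 ≤ Real.exp (66 + 9216 * (l * g)) := Real.one_le_exp (by linarith)
    nlinarith [mul_le_mul_of_nonneg_right a3 L0]
  · have hc' : (n : ℝ) ≤ 400 * (k + l + 1) := by exact_mod_cast (not_le.1 hc).le
    have a1 : 1 / 800 ≤ g := by
      rw [hg, Real.le_log_iff_exp_le (by linarith)]
      have b1 := exp_half_le (1 / 400) (by norm_num) (by norm_num)
      have b2 : 1 / 400 ≤ κ := by rw [hκ, le_div_iff₀ (by linarith)]; linarith
      norm_num at b1 ⊢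
      linarith
    set f : ℝ := (2 * n + k) / n with hf
    have f2 : 2 ≤ f := by rw [hf, le_div_iff₀ (by linarith)]; linarith
    have a2 : Real.log (3 * f) ≤ 4001 * g := by
      have b1 : 3 * f ≤ 6 * (1 + κ) := by
        rw [hf, hκ, ← mul_div_assoc, div_le_iff₀ (by linarith)]
        field_simp
        linarith
      have b2 := Real.log_le_log (by linarith) b1
      rw [Real.log_mul (x := 6) (by norm_num) (by linarith)] at b2
      linarith [Real.log_le_sub_one_of_pos (show (0 : ℝ) < 6 by norm_num)]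
    have a3 : 2 * (3 * f) ^ (2 * l) ≤ Real.exp (66 + 9216 * (l * g)) := by
      rw [Real.exp_add]
      refine mul_le_mul (by linarith [Real.add_one_le_exp 66]) ?_ (by positivity)
        (Real.exp_pos _).le
      rw [← Real.log_le_iff_le_exp (by positivity), Real.log_pow]
      push_cast
      nlinarith
    refine le_trans ?_ (mul_le_mul_of_nonneg_right a3 (by linarith))
    have a4 : (1 : ℝ) ≤ (3 * f) ^ (2 * l) := one_le_pow₀ (by linarith)
    rcases le_or_gt (2 * l) n with h | h
    · have h' : 2 * (l : ℝ) ≤ n := by exact_mod_cast h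
      have p2 : (0 : ℝ) < n.choose (l + 1) := by
        exact_mod_cast Nat.choose_pos (show l + 1 ≤ n by omega)
      have b1 := cover_upper m n k l hl _ rfl
      set F := ((2 * n + k).choose (l + 1) : ℝ) / n.choose (l + 1) with hF
      have b2 : 1 ≤ F := by
        rw [hF, one_le_div p2]
        exact_mod_cast Nat.choose_le_choose _ (show n ≤ 2 * n + k by omega)
      have b3 : F ≤ (3 * f) ^ (2 * l) := by
        have c1 : ((2 * n + k).choose (l + 1) : ℝ) ≤
            ((2 * n + k : ℕ) : ℝ) ^ (l + 1) / (l + 1).factorial := Nat.choose_le_pow_div _ _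
        have c2 : ((n + 1 - (l + 1) : ℕ) : ℝ) ^ (l + 1) / (l + 1).factorial ≤ n.choose (l + 1) :=
          Nat.pow_le_choose _ _
        rw [show n + 1 - (l + 1) = n - l by omega, Nat.cast_sub hl.le] at c2
        have c3 : ((2 * n + k : ℕ) : ℝ) ≤ 3 * f * (n - l) := by
          have : f * n = 2 * n + k := by rw [hf]; field_simp
          push_cast
          nlinarith
        rw [hF, div_le_iff₀ p2]
        calc _ ≤ (3 * f * (n - l)) ^ (l + 1) / (l + 1).factorial := c1.trans (by gcongr)
          _ = (3 * f) ^ (l + 1) * (((n : ℝ) - l) ^ (l + 1) / (l + 1).factorial) := by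
              rw [mul_pow, mul_div_assoc]
          _ ≤ _ := mul_le_mul (pow_le_pow_right₀ (by linarith) (by omega)) c2
              (div_nonneg (pow_nonneg (by linarith) _) (by positivity)) (by positivity)
      have b4 : Real.log (1 + m / F) ≤ Real.log (1 + m) :=
        Real.log_le_log (by positivity) (by linarith [div_le_self (show (0 : ℝ) ≤ m by linarith) b2])
      have b5 := mul_le_mul b3 b4 (Real.log_nonneg (by
        rw [le_add_iff_nonneg_right]; positivity)) (by linarith)
      nlinarith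
    · have b1 : (hm m n k l : ℝ) ≤ m := by exact_mod_cast hm_le_card m n k l
      have b2 := log_le_choose (by omega) h1 h2
      rw [← hf, ← Real.log_pow, Real.log_le_log_iff (by linarith) (by positivity)] at b2
      have b3 : (3 * f) ^ n ≤ (3 * f) ^ (2 * l) := pow_le_pow_right₀ (by linarith) h.le
      nlinarith

theorem upper_triv {m n k l : ℕ} (hn : 1 ≤ n) (h1 : 1 ≤ m) (h : ¬ 120000 * (k + l + 1) ≤ 2 * n + k) :
    (hm m n k l : ℝ) ≤
      Real.exp (14400000000 * (((k + l + 1 : ℝ) / (2 * n + k)) ^ 2 * Real.log m)) := by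
  have m1 : (1 : ℝ) ≤ m := by exact_mod_cast h1
  have n1 : (1 : ℝ) ≤ n := by exact_mod_cast hn
  have h' : (2 * n + k : ℝ) ≤ 120000 * (k + l + 1) := by exact_mod_cast (not_le.1 h).le
  have b1 : (hm m n k l : ℝ) ≤ m := by exact_mod_cast hm_le_card m n k l
  refine b1.trans ?_
  rw [← Real.log_le_iff_le_exp (by linarith)]
  have b2 : 1 / 120000 ≤ (k + l + 1 : ℝ) / (2 * n + k) := by
    rw [div_le_div_iff₀ (by norm_num) (by positivity)]; linarith
  have b3 := mul_le_mul_of_nonneg_right (pow_le_pow_left₀ (by norm_num) b2 2) (Real.log_nonneg m1)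
  linarith

theorem upper_two {m n k l : ℕ} (hl : l < n) (hl1 : 1 ≤ l) (h1 : 1 ≤ m)
    (h2 : m ≤ (2 * n + k).choose n) :
    (hm m n k l : ℝ) ≤ Real.exp (100 + 14400000000 *
      (((k + l + 1 : ℝ) / (2 * n + k)) ^ 2 * Real.log m)) * (1 + Real.log (1 + m)) := by
  have m1 : (1 : ℝ) ≤ m := by exact_mod_cast h1
  have n1 : (1 : ℝ) ≤ n := by exact_mod_cast (show 1 ≤ n by omega)
  have L0 : 0 ≤ Real.log (1 + m) := Real.log_nonneg (by linarith)
  have L1 := Real.log_nonneg m1
  by_cases h : 120000 * (k + l + 1) ≤ 2 * n + k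
  · refine (chain_upper hl1 h1 h2 h).trans ?_
    have h' : 120000 * (k + l + 1 : ℝ) ≤ 2 * n + k := by exact_mod_cast h
    have b2 : (k + l + 1 : ℝ) / (2 * n + k) ≤ 1 / 120000 := by
      rw [div_le_div_iff₀ (by positivity) (by norm_num)]; linarith
    have b3 := pow_le_pow_left₀ (by positivity) b2 2
    have b0 : 0 ≤ ((k + l + 1 : ℝ) / (2 * n + k)) ^ 2 := sq_nonneg _
    generalize ((k + l + 1 : ℝ) / (2 * n + k)) ^ 2 = y at b0 b3
    have b4 : 0 ≤ y * Real.log m := by positivity
    have b5 : Real.exp (99 * (1 + 13000000 * y * Real.log (2 * m))) ≤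
        Real.exp (100 + 14400000000 * (y * Real.log m)) := by
      refine Real.exp_le_exp.2 ?_
      rw [Real.log_mul (by norm_num) (by linarith)]
      have := mul_le_mul b3 Real.log_two_lt_d9.le (Real.log_nonneg one_le_two) (by norm_num)
      linarith
    have b6 : 1 ≤ Real.exp (100 + 14400000000 * (y * Real.log m)) := Real.one_le_exp (by linarith)
    nlinarith [mul_le_mul_of_nonneg_right b5 L0]
  · refine (upper_triv (by omega) h1 h).trans ?_
    refine le_trans (Real.exp_le_exp.2 (by linarith)) (le_mul_of_one_le_right (Real.exp_pos _).le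
      (by linarith))

theorem log_le_T {m n k l : ℕ} (hn1 : 1 ≤ n) (h1 : 1 ≤ m) (h2 : m ≤ (2 * n + k).choose n) (T : ℝ)
    (hT : T = (l + 1) * (k + l + 1)) (hn : n ≤ 480 * T) : 1 + Real.log (1 + m) ≤ 6000 * T := by
  have m1 : (1 : ℝ) ≤ m := by exact_mod_cast h1
  have k0 : (0 : ℝ) ≤ k := by positivity
  have l0 : (0 : ℝ) ≤ l := by positivity
  have T1 : 1 ≤ T := by rw [hT]; nlinarith
  have T2 : (k : ℝ) ≤ T := by rw [hT]; nlinarith
  have b1 := log_le_card h1 h2
  have b2 := Real.log_le_log (show 0 < 1 + (m : ℝ) by linarith)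
    (show 1 + (m : ℝ) ≤ m * 2 by linarith)
  rw [Real.log_mul (by linarith) (by norm_num)] at b2
  have b3 := Real.log_two_lt_d9
  have n0 : (0 : ℝ) ≤ n := by positivity
  nlinarith

theorem upper_main {m n k l : ℕ} (hl : l < n) (h1 : 1 ≤ m) (h2 : m ≤ (2 * n + k).choose n)
    (T Λ a : ℝ) (hT : T = (l + 1) * (k + l + 1))
    (hΛ : Λ = (2 * n + k : ℝ) / n * Real.log (1 + m / ((2 * n + k : ℝ) / n)))
    (ha : a = min (l * Real.log (1 + (k + l + 1) / n))
      (((k + l + 1 : ℝ) / (2 * n + k)) ^ 2 * Real.log m)) :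
    (hm m n k l : ℝ) ≤ 6000 * Real.exp (100 + 14400000000 * a) *
      min T (1 + Λ / Real.log (2 + n / T)) := by
  have m1 : (1 : ℝ) ≤ m := by exact_mod_cast h1
  have n1 : (1 : ℝ) ≤ n := by exact_mod_cast (show 1 ≤ n by omega)
  have k0 : (0 : ℝ) ≤ k := by positivity
  have l0 : (0 : ℝ) ≤ l := by positivity
  have L0 : 0 ≤ Real.log (1 + m) := Real.log_nonneg (by linarith)
  have L1 := Real.log_nonneg m1
  have T1 : 1 ≤ T := by rw [hT]; nlinarith
  have Λ1 : Real.log (1 + m) ≤ Λ := hΛ ▸ log_le_flog (by linarith)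
    (by rw [le_div_iff₀ (by linarith)]; linarith)
  have g0 : 0 ≤ Real.log (1 + (k + l + 1) / n) :=
    Real.log_nonneg (by rw [le_add_iff_nonneg_right]; positivity)
  have a0 : 0 ≤ a := ha ▸ le_min (by positivity) (by positivity)
  have x0 : 0 ≤ n / T := by positivity
  have ℓ0 : 0 < Real.log (2 + n / T) := Real.log_pos (by linarith)
  have Λ0 : 0 ≤ Λ / Real.log (2 + n / T) := div_nonneg (by linarith) ℓ0.le
  have E1 : 1 ≤ Real.exp (100 + 14400000000 * a) := Real.one_le_exp (by linarith)
  suffices h : ∃ y : ℝ, 0 ≤ y ∧ y ≤ 6000 * T ∧ y ≤ 6000 * (1 + Λ / Real.log (2 + n / T)) ∧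
      (hm m n k l : ℝ) ≤ Real.exp (100 + 14400000000 * a) * y by
    obtain ⟨y, -, y1, y2, y3⟩ := h
    refine y3.trans ?_
    rw [mul_comm 6000, mul_assoc]
    refine mul_le_mul_of_nonneg_left ?_ (Real.exp_pos _).le
    rcases min_choice T (1 + Λ / Real.log (2 + n / T)) with h | h <;> rw [h] <;> assumption
  have triv : (hm m n k l : ℝ) ≤ Real.exp (100 + 14400000000 * a) * hm m n k l :=
    le_mul_of_one_le_left (by positivity) E1
  rcases Nat.eq_zero_or_pos l with rfl | hl1
  · have b1 := phi_upper (k := k) (show 1 ≤ n by omega) h1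
    unfold Phi at b1
    simp only [Nat.cast_zero, zero_add, add_zero, one_mul] at hT
    rw [← hΛ, ← hT] at b1
    refine ⟨_, by positivity, ?_, ?_, triv⟩
    · linarith [min_le_left ((k : ℝ) + 2) (1 + Λ / Real.log (2 + n / T))]
    · linarith [min_le_right ((k : ℝ) + 2) (1 + Λ / Real.log (2 + n / T))]
  have e : T = (((l + 1) * (k + l + 1) : ℕ) : ℝ) := by rw [hT]; push_cast; ring
  rcases le_total (480 * T) n with hn | hn
  · obtain ⟨b1, b2⟩ := upper_closed (m := m) (n := n) (k := k) (l := l) h1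
      (by rw [e] at hn; exact_mod_cast hn)
    rw [← e] at b2
    have b3 : (hm m n k l : ℝ) ≤ 1922 * T := by rw [e]; exact_mod_cast b1
    refine ⟨_, by positivity, by linarith, b2.trans ?_, triv⟩
    have c1 : 480 ≤ n / T := by rw [le_div_iff₀ (by linarith)]; exact hn
    have c2 : Real.log (2 + n / T) ≤ 2 * Real.log (n / T) := by
      rw [show (2 : ℝ) * Real.log (n / T) = (2 : ℕ) * Real.log (n / T) by norm_num,
        ← Real.log_pow]
      exact Real.log_le_log (by linarith) (by nlinarith)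
    have c3 : Real.log m ≤ Λ := (Real.log_le_log (by linarith) (by linarith)).trans Λ1
    have c4 : 20 * Real.log m / Real.log (n / T) ≤ 40 * (Λ / Real.log (2 + n / T)) := by
      rw [← mul_div_assoc, div_le_div_iff₀ (by linarith) ℓ0]
      nlinarith [mul_le_mul c3 c2 ℓ0.le (by linarith)]
    linarith
  · refine ⟨1 + Real.log (1 + m), by linarith, log_le_T (by omega) h1 h2 T hT hn, ?_, ?_⟩
    · have c1 : n / T ≤ 480 := by rw [div_le_iff₀ (by linarith)]; exact hn
      have c2 := Real.log_le_sub_one_of_pos (show 0 < 2 + n / T by linarith)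
      have c3 : Λ ≤ 6000 * (Λ / Real.log (2 + n / T)) := by
        rw [← mul_div_assoc, le_div_iff₀ ℓ0]
        nlinarith
      linarith
    · rcases min_choice (l * Real.log (1 + (k + l + 1) / n))
        (((k + l + 1 : ℝ) / (2 * n + k)) ^ 2 * Real.log m) with h | h <;> rw [h] at ha
      · refine (upper_one hl hl1 h1 h2).trans
          (mul_le_mul_of_nonneg_right (Real.exp_le_exp.2 ?_) (by linarith))
        rw [← ha]; linarith
      · rw [ha]; exact upper_two hl hl1 h1 h2

theorem upper_small {m n k l : ℕ} (hl : l < n) (hl1 : 1 ≤ l) (h1 : 1 ≤ m) (Λ y : ℝ)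
    (hΛ : Real.log (1 + m) ≤ Λ) (hy : y = n / ((k + l + 1) * (1 + Λ))) (y1 : 36 ≤ y) :
    (hm m n k l : ℝ) ≤ 2 + 4 * (Λ / Real.log (2 + y)) := by
  have m1 : (1 : ℝ) ≤ m := by exact_mod_cast h1
  have k0 : (0 : ℝ) ≤ k := by positivity
  have l1 : (1 : ℝ) ≤ l := by exact_mod_cast hl1
  have L1 := Real.log_nonneg m1
  have L2 : Real.log m ≤ Λ := (Real.log_le_log (by linarith) (by linarith)).trans hΛ
  have g1 : 2 * Real.log 6 ≤ Real.log y := by
    rw [show (2 : ℝ) * Real.log 6 = (2 : ℕ) * Real.log 6 by norm_num, ← Real.log_pow]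
    exact Real.log_le_log (by norm_num) (by linarith)
  have g2 : 1 ≤ Real.log 6 := by
    rw [Real.le_log_iff_exp_le (by norm_num)]
    linarith [Real.exp_one_lt_d9]
  have g3 : Real.log (2 + y) ≤ 2 * Real.log y := by
    rw [show (2 : ℝ) * Real.log y = (2 : ℕ) * Real.log y by norm_num, ← Real.log_pow]
    exact Real.log_le_log (by linarith) (by nlinarith)
  have g4 : 0 < Real.log (2 + y) := Real.log_pos (by linarith)
  set z : ℝ := 2 * Real.log m / Real.log y with hz
  have z0 : 0 ≤ z := div_nonneg (by linarith) (by linarith)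
  have z1 : z ≤ Λ := by
    rw [hz, div_le_iff₀ (by linarith)]
    nlinarith
  have z2 : z ≤ 4 * (Λ / Real.log (2 + y)) := by
    rw [hz, ← mul_div_assoc, div_le_div_iff₀ (by linarith) g4]
    nlinarith [mul_le_mul L2 g3 g4.le (by linarith)]
  set r : ℕ := ⌊z⌋₊ + 1 with hr
  have r1 : z < r := by rw [hr]; push_cast; exact Nat.lt_floor_add_one z
  have r2 : (r : ℝ) ≤ 1 + z := by rw [hr]; push_cast; linarith [Nat.floor_le z0]
  have r0 : (0 : ℝ) < r := by linarith
  have key : hm m n k l ≤ r + 1 := by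
    refine thr_upper (by omega) ?_
    have f1 : ((r.factorial : ℕ) : ℝ) ≤ (r : ℝ) ^ r := by exact_mod_cast Nat.factorial_le_pow r
    have f2 : y / 6 * r ≤ n / (3 * (k + 2 * l)) := by
      have e : (n : ℝ) = y * ((k + l + 1) * (1 + Λ)) := by
        rw [hy, div_mul_cancel₀ _ (mul_pos (by linarith) (by linarith)).ne']
      rw [le_div_iff₀ (by linarith), e]
      calc y / 6 * r * (3 * (k + 2 * l)) = y * ((k / 2 + l) * r) := by ring
        _ ≤ _ := mul_le_mul_of_nonneg_left (mul_le_mul (by linarith) (by linarith) r0.le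
            (by linarith)) (by linarith)
    have f3 : (m : ℝ) < (y / 6) ^ r := by
      rw [← Real.log_lt_log_iff (by linarith) (by positivity), Real.log_pow,
        Real.log_div (by linarith) (by norm_num)]
      rw [hz, div_lt_iff₀ (by linarith)] at r1
      nlinarith
    rw [lt_div_iff₀ (by exact_mod_cast r.factorial_pos)]
    calc (m : ℝ) * r.factorial ≤ m * (r : ℝ) ^ r := by gcongr
      _ < (y / 6) ^ r * (r : ℝ) ^ r := mul_lt_mul_of_pos_right f3 (by positivity)
      _ = (y / 6 * r) ^ r := (mul_pow _ _ _).symm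
      _ ≤ _ := by gcongr
  have key' : (hm m n k l : ℝ) ≤ r + 1 := by exact_mod_cast key
  linarith

theorem upper_fin {m n k l : ℕ} (hl : l < n) (h1 : 1 ≤ m) (h2 : m ≤ (2 * n + k).choose n)
    (T Λ a : ℝ) (hT : T = (l + 1) * (k + l + 1))
    (hΛ : Λ = (2 * n + k : ℝ) / n * Real.log (1 + m / ((2 * n + k : ℝ) / n)))
    (ha : a = min (l * Real.log (1 + (k + l + 1) / n))
      (((k + l + 1 : ℝ) / (2 * n + k)) ^ 2 * Real.log m)) :
    (hm m n k l : ℝ) ≤ 1000000 * Real.exp (100 + 14400000000 * a) *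
      min T (1 + Λ / Real.log (2 + n / (min (l + 1 : ℝ) (1 + Λ) * (k + l + 1)))) := by
  have m1 : (1 : ℝ) ≤ m := by exact_mod_cast h1
  have n1 : (1 : ℝ) ≤ n := by exact_mod_cast (show 1 ≤ n by omega)
  have k0 : (0 : ℝ) ≤ k := by positivity
  have l0 : (0 : ℝ) ≤ l := by positivity
  have L0 : 0 ≤ Real.log (1 + m) := Real.log_nonneg (by linarith)
  have L1 := Real.log_nonneg m1
  have T1 : 1 ≤ T := by rw [hT]; nlinarith
  have Λ1 : Real.log (1 + m) ≤ Λ := hΛ ▸ log_le_flog (by linarith)
    (by rw [le_div_iff₀ (by linarith)]; linarith)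
  have g0 : 0 ≤ Real.log (1 + (k + l + 1) / n) :=
    Real.log_nonneg (by rw [le_add_iff_nonneg_right]; positivity)
  have a0 : 0 ≤ a := ha ▸ le_min (by positivity) (by positivity)
  have E1 : 1 ≤ Real.exp (100 + 14400000000 * a) := Real.one_le_exp (by linarith)
  have x0 : 0 ≤ n / T := by positivity
  have ℓ0 : Real.log 2 ≤ Real.log (2 + n / T) := Real.log_le_log (by norm_num) (by linarith)
  have ℓ1 := Real.log_two_gt_d9
  have Λ0 : 0 ≤ Λ / Real.log (2 + n / T) := div_nonneg (by linarith) (by linarith)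
  have main := upper_main hl h1 h2 T Λ a hT hΛ ha
  generalize Real.exp (100 + 14400000000 * a) = E at main E1
  rcases le_or_gt (l + 1 : ℝ) (1 + Λ) with hc | hc
  · rw [min_eq_left hc, ← hT]
    exact main.trans (mul_le_mul_of_nonneg_right (by linarith) (le_min (by linarith) (by linarith)))
  rw [min_eq_right hc.le, mul_comm (1 + Λ)]
  set y : ℝ := n / ((k + l + 1) * (1 + Λ)) with hy
  have y0 : 0 ≤ y := div_nonneg (by linarith) (mul_nonneg (by linarith) (by linarith))
  have g4 : 0 < Real.log (2 + y) := Real.log_pos (by linarith)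
  have g5 : 0 ≤ Λ / Real.log (2 + y) := div_nonneg (by linarith) g4.le
  rcases min_choice T (1 + Λ / Real.log (2 + y)) with h | h <;> rw [h]
  · refine main.trans (mul_le_mul (by linarith) (min_le_left _ _)
      (le_min (by linarith) (by linarith)) (by linarith))
  rcases le_total 36 y with hy1 | hy1
  · have hl1 : 1 ≤ l := by
      rcases Nat.eq_zero_or_pos l with rfl | h0
      · simp only [Nat.cast_zero, zero_add] at hc; linarith
      · exact h0
    refine (upper_small hl hl1 h1 Λ y Λ1 hy hy1).trans ?_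
    nlinarith
  · have c1 := Real.log_le_sub_one_of_pos (show 0 < 2 + y by linarith)
    have c2 : Λ / Real.log (2 + n / T) ≤ 100 * (Λ / Real.log (2 + y)) := by
      rw [← mul_div_assoc, div_le_div_iff₀ (by linarith) g4]
      nlinarith [mul_le_mul_of_nonneg_left ℓ0 (show 0 ≤ Λ by linarith),
        mul_le_mul_of_nonneg_left (show Real.log (2 + y) ≤ 37 by linarith)
          (show 0 ≤ Λ by linarith)]
    have c3 : min T (1 + Λ / Real.log (2 + n / T)) ≤ 100 * (1 + Λ / Real.log (2 + y)) :=
      (min_le_right _ _).trans (by linarith)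
    refine main.trans ((mul_le_mul_of_nonneg_left c3 (by linarith)).trans ?_)
    nlinarith

end Pool.Agent.Lib.MP_d46fce_co
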