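import Mathlib

/-!
A functional form of Talagrand's convex distance inequality on the discrete cube, and two-sided
exponential moments for maxima of linear forms in independent signs.
-/

namespace Pool.Agent.Lib.MP_d46fce_co

open Finset

theorem exp_conv (lam s u : ℝ) (h0 : 0 ≤ lam) (h1 : lam ≤ 1) :
    Real.exp (lam * s + (1 - lam) * u) ≤ lam * Real.exp s + (1 - lam) * Real.exp u := by
  have := convexOn_exp.2 (Set.mem_univ s) (Set.mem_univ u) h0 (sub_nonneg.2 h1) (by ring)
  simpa only [smul_eq_mul] using this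

theorem exp_small (x : ℝ) (h0 : 0 ≤ x) (h1 : x ≤ 1 / 2) : Real.exp x ≤ 1 + 2 * x := by
  have h := Real.exp_bound_div_one_sub_of_interval h0 (by linarith)
  refine h.trans ?_
  rw [div_le_iff₀ (by linarith)]
  nlinarith

theorem tau_num (r : ℝ) (h0 : 0 < r) (h1 : r ≤ 1) : ∃ lam : ℝ, 0 ≤ lam ∧ lam ≤ 1 ∧
    (1 + Real.exp ((1 - lam) ^ 2 / 8) * (lam * r⁻¹ + (1 - lam))) * (1 + r) ≤ 4 := by
  by_cases h : r ≤ 1 / 2
  · refine ⟨0, le_rfl, zero_le_one, ?_⟩
    have := exp_small (1 / 8) (by norm_num) (by norm_num)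
    norm_num at this ⊢
    nlinarith [Real.exp_pos (1 / 8 : ℝ)]
  · obtain ⟨e, rfl⟩ : ∃ e, r = 1 - e := ⟨1 - r, by ring⟩
    have e0 : 0 ≤ e := by linarith
    have e1 : e ≤ 1 / 2 := by linarith
    refine ⟨1 - 2 * e, by linarith, by linarith, ?_⟩
    have a1 : Real.exp ((1 - (1 - 2 * e)) ^ 2 / 8) ≤ 1 + e ^ 2 := by
      have := exp_small (e ^ 2 / 2) (by positivity) (by nlinarith)
      rw [show (1 - (1 - 2 * e)) ^ 2 / 8 = e ^ 2 / 2 by ring]
      linarith
    have a2 : (1 - 2 * e) * (1 - e)⁻¹ + (1 - (1 - 2 * e)) ≤ 1 + e - e ^ 2 := by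
      have : (1 - 2 * e) * (1 - e)⁻¹ ≤ 1 - e - e ^ 2 := by
        rw [← div_eq_mul_inv, div_le_iff₀ h0]
        nlinarith [mul_nonneg e0 (mul_nonneg e0 e0)]
      linarith
    have a3 : 0 ≤ (1 - 2 * e) * (1 - e)⁻¹ + (1 - (1 - 2 * e)) := by
      have : 0 ≤ (1 - 2 * e) * (1 - e)⁻¹ := mul_nonneg (by linarith) (by positivity)
      linarith
    have a4 := mul_le_mul a1 a2 a3 (by positivity)
    have a5 : (1 + (1 + e ^ 2) * (1 + e - e ^ 2)) * (1 + (1 - e)) ≤ 4 := by
      have b1 : 0 ≤ e ^ 2 * (1 - 2 * e + 3 * e ^ 2 - e ^ 3) :=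
        mul_nonneg (sq_nonneg e) (by nlinarith [mul_nonneg e0 e0, mul_nonneg e0 (mul_nonneg e0 e0)])
      nlinarith
    refine le_trans (mul_le_mul_of_nonneg_right (by linarith) (by linarith)) a5

theorem sum_cons {N : ℕ} (f : (Fin (N + 1) → Bool) → ℝ) (b : Bool) :
    ∑ x, f x = ∑ x : Fin N → Bool, f (Fin.cons b x) + ∑ x : Fin N → Bool, f (Fin.cons (!b) x) := by
  rw [← (Fin.consEquiv (fun _ : Fin (N + 1) => Bool)).sum_comp, Fintype.sum_prod_type]
  cases b <;> simp [Fin.consEquiv, add_comm]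

theorem conv_min {lam P1 P0 R1 R0 a X : ℝ} (l0 : 0 ≤ lam) (l1 : lam ≤ 1) (h1 : P1 ≤ R1)
    (h0 : P0 ≤ R0) (x1 : X ≤ P1) (x0 : X ≤ P0 + a) : X ≤ lam * R1 + (1 - lam) * (R0 + a) := by
  nlinarith [mul_le_mul_of_nonneg_left (x1.trans h1) l0,
    mul_le_mul_of_nonneg_left (show X ≤ R0 + a by linarith) (sub_nonneg.2 l1)]

theorem tau (N : ℕ) (φ : (Fin N → Bool) → ℝ) :
    ∃ (v : (Fin N → Bool) → Fin N → ℝ) (w : (Fin N → Bool) → ℝ),
      (∀ x (α : Fin N → ℝ), (∀ i, 0 ≤ α i) → ∃ y,
        φ y + ∑ i, (if x i = y i then 0 else α i) ≤ w x + ∑ i, α i * v x i) ∧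
      (∑ x, Real.exp (w x + (∑ i, v x i ^ 2) / 8)) * (∑ y, Real.exp (-φ y)) ≤ 4 ^ N := by
  induction N with
  | zero =>
    refine ⟨fun _ _ => 0, φ, fun x α _ => ⟨x, by simp⟩, ?_⟩
    simp [← Real.exp_add]
  | succ N ih =>
    choose v w h1 h2 using fun b : Bool => ih (fun x => φ (Fin.cons b x))
    set a : Bool → ℝ := fun b => ∑ y : Fin N → Bool, Real.exp (-φ (Fin.cons b y)) with ha
    have apos : ∀ b, 0 < a b := fun b => Finset.sum_pos (fun _ _ => Real.exp_pos _) univ_nonempty
    obtain ⟨b, hb⟩ : ∃ b, a (!b) ≤ a b := by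
      rcases le_total (a true) (a false) with h | h
      · exact ⟨false, h⟩
      · exact ⟨true, h⟩
    obtain ⟨lam, l0, l1, l2⟩ := tau_num (a (!b) / a b) (div_pos (apos _) (apos _))
      ((div_le_one (apos _)).2 hb)
    refine ⟨fun x => if x 0 = b then Fin.cons 0 (v b (Fin.tail x)) else
        Fin.cons (1 - lam) (fun i => lam * v (!b) (Fin.tail x) i + (1 - lam) * v b (Fin.tail x) i),
      fun x => if x 0 = b then w b (Fin.tail x) else
        lam * w (!b) (Fin.tail x) + (1 - lam) * w b (Fin.tail x), fun x α hα => ?_, ?_⟩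
    · obtain ⟨y0, hy0⟩ := h1 b (Fin.tail x) (Fin.tail α) (fun i => hα _)
      by_cases hx : x 0 = b
      · refine ⟨Fin.cons b y0, ?_⟩
        simp only [hx, if_true, Fin.sum_univ_succ, Fin.cons_zero, Fin.cons_succ, mul_zero, zero_add]
        exact hy0
      · have hx' : x 0 = !b := by cases b <;> simpa using hx
        obtain ⟨y1, hy1⟩ := h1 (!b) (Fin.tail x) (Fin.tail α) (fun i => hα _)
        have e : ∑ i : Fin N, α i.succ *
            (lam * v (!b) (Fin.tail x) i + (1 - lam) * v b (Fin.tail x) i) =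
            lam * ∑ i, Fin.tail α i * v (!b) (Fin.tail x) i +
              (1 - lam) * ∑ i, Fin.tail α i * v b (Fin.tail x) i := by
          rw [Finset.mul_sum, Finset.mul_sum, ← Finset.sum_add_distrib]
          refine Finset.sum_congr rfl fun i _ => ?_
          simp only [Fin.tail]; ring
        rcases le_total
          (φ (Fin.cons (!b) y1) + ∑ i, (if Fin.tail x i = y1 i then 0 else Fin.tail α i))
          (φ (Fin.cons b y0) + ∑ i, (if Fin.tail x i = y0 i then 0 else Fin.tail α i) + α 0)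
          with h | h
        · refine ⟨Fin.cons (!b) y1, ?_⟩
          simp only [hx, if_false, Fin.sum_univ_succ, Fin.cons_zero, Fin.cons_succ]
          rw [if_pos hx', e, zero_add]
          exact (conv_min l0 l1 hy1 hy0 le_rfl h).trans (le_of_eq (by ring))
        · refine ⟨Fin.cons b y0, ?_⟩
          simp only [hx, if_false, Fin.sum_univ_succ, Fin.cons_zero, Fin.cons_succ]
          rw [e, add_comm (α 0), ← add_assoc]
          exact (conv_min l0 l1 hy1 hy0 h le_rfl).trans (le_of_eq (by ring))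
    · rw [sum_cons _ b, sum_cons _ b]
      have hnb : ¬ ((!b) = b) := by cases b <;> simp
      simp only [Fin.cons_zero, Fin.tail_cons, if_true, hnb, if_false, Fin.sum_univ_succ,
        Fin.cons_succ]
      set A : Bool → (Fin N → Bool) → ℝ := fun c x => w c x + (∑ i, v c x i ^ 2) / 8 with hA
      set S : Bool → ℝ := fun c => ∑ x, Real.exp (A c x) with hS
      have hSa : ∀ c, S c * a c ≤ 4 ^ N := h2
      set K := Real.exp ((1 - lam) ^ 2 / 8) * (lam * (a (!b) / a b)⁻¹ + (1 - lam)) with hK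
      have key : ∀ x : Fin N → Bool,
          Real.exp (lam * w (!b) x + (1 - lam) * w b x +
            ((1 - lam) ^ 2 + ∑ i, (lam * v (!b) x i + (1 - lam) * v b x i) ^ 2) / 8) * a b ≤
          K * (lam * (Real.exp (A (!b) x) * a (!b)) + (1 - lam) * (Real.exp (A b x) * a b)) := by
        intro x
        have c1 : ∑ i, (lam * v (!b) x i + (1 - lam) * v b x i) ^ 2 ≤
            lam * ∑ i, v (!b) x i ^ 2 + (1 - lam) * ∑ i, v b x i ^ 2 := by
          rw [Finset.mul_sum, Finset.mul_sum, ← Finset.sum_add_distrib]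
          refine Finset.sum_le_sum fun i _ => ?_
          nlinarith [mul_nonneg (mul_nonneg l0 (sub_nonneg.2 l1)) (sq_nonneg (v (!b) x i - v b x i))]
        have c2 := exp_conv lam (A (!b) x + Real.log (a (!b))) (A b x + Real.log (a b)) l0 l1
        rw [Real.exp_add (A (!b) x), Real.exp_add (A b x), Real.exp_log (apos _),
          Real.exp_log (apos _)] at c2
        have c3 := exp_conv lam (Real.log (a b) - Real.log (a (!b))) 0 l0 l1
        rw [Real.exp_sub, Real.exp_log (apos _), Real.exp_log (apos _), Real.exp_zero,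
          mul_one, ← inv_div] at c3
        calc _ = Real.exp (lam * w (!b) x + (1 - lam) * w b x +
              ((1 - lam) ^ 2 + ∑ i, (lam * v (!b) x i + (1 - lam) * v b x i) ^ 2) / 8 +
                Real.log (a b)) := by rw [Real.exp_add _ (Real.log _), Real.exp_log (apos _)]
          _ ≤ Real.exp ((1 - lam) ^ 2 / 8 + (lam * (Real.log (a b) - Real.log (a (!b))) +
                (1 - lam) * 0) + (lam * (A (!b) x + Real.log (a (!b))) +
                (1 - lam) * (A b x + Real.log (a b)))) := by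
              refine Real.exp_le_exp.2 ?_
              simp only [hA]
              linarith
          _ ≤ _ := by
              rw [Real.exp_add, Real.exp_add, hK]
              exact mul_le_mul (mul_le_mul_of_nonneg_left c3 (Real.exp_pos _).le) c2
                (Real.exp_pos _).le (mul_nonneg (Real.exp_pos _).le
                  ((Real.exp_pos _).le.trans c3))
      have K0 : 0 ≤ K := by
        have := inv_pos.2 (div_pos (apos (!b)) (apos b))
        have := sub_nonneg.2 l1
        rw [hK]; positivity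
      have d1 := Finset.sum_le_sum fun x (_ : x ∈ (univ : Finset (Fin N → Bool))) => key x
      rw [← Finset.sum_mul, ← Finset.mul_sum, Finset.sum_add_distrib, ← Finset.mul_sum,
        ← Finset.mul_sum, ← Finset.sum_mul, ← Finset.sum_mul] at d1
      have d2 : lam * (S (!b) * a (!b)) + (1 - lam) * (S b * a b) ≤ 4 ^ N := by
        nlinarith [mul_le_mul_of_nonneg_left (hSa (!b)) l0,
          mul_le_mul_of_nonneg_left (hSa b) (sub_nonneg.2 l1)]
      have d3 := d1.trans (mul_le_mul_of_nonneg_left d2 K0)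
      have e0 : ∑ x : Fin N → Bool, Real.exp (w b x + ((0 : ℝ) ^ 2 + ∑ i, v b x i ^ 2) / 8) = S b := by
        simp [hS, hA]
      rw [e0]
      set S' := ∑ x : Fin N → Bool, Real.exp (lam * w (!b) x + (1 - lam) * w b x +
            ((1 - lam) ^ 2 + ∑ i, (lam * v (!b) x i + (1 - lam) * v b x i) ^ 2) / 8)
      have e1 : a b + a (!b) = a b * (1 + a (!b) / a b) := by
        have := (apos b).ne'
        field_simp
      have r0 : 0 ≤ 1 + a (!b) / a b := by have := div_pos (apos (!b)) (apos b); linarith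
      calc (S b + S') * (a b + a (!b)) = (S b * a b + S' * a b) * (1 + a (!b) / a b) := by
            rw [e1]; ring
        _ ≤ (4 ^ N + K * 4 ^ N) * (1 + a (!b) / a b) :=
            mul_le_mul_of_nonneg_right (add_le_add (hSa b) d3) r0
        _ = 4 ^ N * ((1 + K) * (1 + a (!b) / a b)) := by ring
        _ ≤ 4 ^ N * 4 := mul_le_mul_of_nonneg_left l2 (by positivity)
        _ = _ := by ring

/-- the sign attached to a bit -/
def sgn (b : Bool) : ℝ := if b then 1 else -1

/-- the linear form with coefficients `a` at the sign vector `g` -/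
noncomputable def lin {N : ℕ} (a : Fin N → ℝ) (g : Fin N → Bool) : ℝ := ∑ i, a i * sgn (g i)

theorem lin_sub_le {N : ℕ} (a : Fin N → ℝ) (x y : Fin N → Bool) :
    lin a x ≤ lin a y + ∑ i, (if x i = y i then 0 else 2 * |a i|) := by
  unfold lin
  rw [← Finset.sum_add_distrib]
  refine Finset.sum_le_sum fun i _ => ?_
  have h1 := le_abs_self (a i)
  have h2 := neg_abs_le (a i)
  cases hx : x i <;> cases hy : y i <;> simp [sgn] <;> linarith

theorem mgf_prod {N : ℕ} (F : (Fin N → Bool) → ℝ) (L2 lam : ℝ) (hl : 0 ≤ lam)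
    (hF : ∀ x, ∃ a : Fin N → ℝ, ∑ i, a i ^ 2 ≤ L2 ∧ F x = lin a x ∧ ∀ y, lin a y ≤ F y) :
    (∑ x, Real.exp (lam * F x)) * (∑ y, Real.exp (-(lam * F y))) ≤
      4 ^ N * Real.exp (8 * lam ^ 2 * L2) := by
  obtain ⟨v, w, h1, h2⟩ := tau N (fun y => lam * F y)
  have key : ∀ x, Real.exp (lam * F x) ≤
      Real.exp (w x + (∑ i, v x i ^ 2) / 8) * Real.exp (8 * lam ^ 2 * L2) := by
    intro x
    obtain ⟨a, a1, a2, a3⟩ := hF x
    obtain ⟨y, hy⟩ := h1 x (fun i => lam * (2 * |a i|)) (fun i => by positivity)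
    rw [← Real.exp_add]
    refine Real.exp_le_exp.2 ?_
    have b1 := mul_le_mul_of_nonneg_left (lin_sub_le a x y) hl
    rw [mul_add, Finset.mul_sum] at b1
    simp only [mul_ite, mul_zero] at b1
    have b2 := mul_le_mul_of_nonneg_left (a3 y) hl
    have b3 : ∑ i, lam * (2 * |a i|) * v x i ≤
        (∑ i, v x i ^ 2) / 8 + 8 * lam ^ 2 * ∑ i, a i ^ 2 := by
      rw [Finset.sum_div, Finset.mul_sum, ← Finset.sum_add_distrib]
      refine Finset.sum_le_sum fun i _ => ?_
      rw [← sq_abs (a i)]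
      nlinarith [sq_nonneg (v x i - 8 * lam * |a i|)]
    have b4 := mul_le_mul_of_nonneg_left a1 (show 0 ≤ 8 * lam ^ 2 by positivity)
    rw [a2]
    linarith
  have h3 := Finset.sum_le_sum fun x (_ : x ∈ (univ : Finset (Fin N → Bool))) => key x
  rw [← Finset.sum_mul] at h3
  have h4 : 0 ≤ ∑ y, Real.exp (-(lam * F y)) := Finset.sum_nonneg fun _ _ => (Real.exp_pos _).le
  calc _ ≤ (∑ x, Real.exp (w x + (∑ i, v x i ^ 2) / 8)) * Real.exp (8 * lam ^ 2 * L2) *
        (∑ y, Real.exp (-(lam * F y))) := mul_le_mul_of_nonneg_right h3 h4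
    _ = (∑ x, Real.exp (w x + (∑ i, v x i ^ 2) / 8)) * (∑ y, Real.exp (-(lam * F y))) *
        Real.exp (8 * lam ^ 2 * L2) := by ring
    _ ≤ _ := mul_le_mul_of_nonneg_right h2 (Real.exp_pos _).le

theorem card_cube (N : ℕ) : ((univ : Finset (Fin N → Bool)).card : ℝ) = 2 ^ N := by simp

theorem jensen_exp {N : ℕ} (G : (Fin N → Bool) → ℝ) (hG : ∑ x, G x = 0) :
    (2 : ℝ) ^ N ≤ ∑ x, Real.exp (G x) := by
  have h := Finset.sum_le_sum fun x (_ : x ∈ (univ : Finset (Fin N → Bool))) =>
    Real.add_one_le_exp (G x)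
  rw [Finset.sum_add_distrib, hG, Finset.sum_const, nsmul_eq_mul, card_cube] at h
  linarith

/-- the mean over the cube -/
noncomputable def mean {N : ℕ} (F : (Fin N → Bool) → ℝ) : ℝ := (∑ x, F x) / 2 ^ N

theorem sum_sub_mean {N : ℕ} (F : (Fin N → Bool) → ℝ) (c : ℝ) :
    ∑ x, c * (F x - mean F) = 0 := by
  rw [← Finset.mul_sum, Finset.sum_sub_distrib, Finset.sum_const, nsmul_eq_mul, card_cube, mean]
  field_simp
  ring

theorem mgf_two {N : ℕ} (F : (Fin N → Bool) → ℝ) (L2 lam : ℝ) (hl : 0 ≤ lam)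
    (hF : ∀ x, ∃ a : Fin N → ℝ, ∑ i, a i ^ 2 ≤ L2 ∧ F x = lin a x ∧ ∀ y, lin a y ≤ F y) :
    ∑ x, Real.exp (lam * (F x - mean F)) ≤ 2 ^ N * Real.exp (8 * lam ^ 2 * L2) ∧
    ∑ x, Real.exp (-lam * (F x - mean F)) ≤ 2 ^ N * Real.exp (8 * lam ^ 2 * L2) := by
  have h := mgf_prod F L2 lam hl hF
  have e : (∑ x, Real.exp (lam * F x)) * (∑ y, Real.exp (-(lam * F y))) =
      (∑ x, Real.exp (lam * (F x - mean F))) * ∑ x, Real.exp (-lam * (F x - mean F)) := by
    have e1 : ∀ x, Real.exp (lam * (F x - mean F)) =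
        Real.exp (lam * F x) * Real.exp (-(lam * mean F)) := fun x => by
      rw [← Real.exp_add]; congr 1; ring
    have e2 : ∀ x, Real.exp (-lam * (F x - mean F)) =
        Real.exp (-(lam * F x)) * Real.exp (lam * mean F) := fun x => by
      rw [← Real.exp_add]; congr 1; ring
    simp only [e1, e2, ← Finset.sum_mul]
    rw [Real.exp_neg (lam * mean F)]
    have := (Real.exp_pos (lam * mean F)).ne'
    field_simp
  rw [e, show (4 : ℝ) ^ N = 2 ^ N * 2 ^ N by rw [← mul_pow]; norm_num] at h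
  have j1 := jensen_exp _ (sum_sub_mean F lam)
  have j2 := jensen_exp _ (sum_sub_mean F (-lam))
  have p : (0 : ℝ) < 2 ^ N := by positivity
  constructor
  · refine le_of_mul_le_mul_right ?_ p
    nlinarith [mul_le_mul_of_nonneg_left j2 (p.le.trans j1)]
  · refine le_of_mul_le_mul_right ?_ p
    nlinarith [mul_le_mul_of_nonneg_right j1 (p.le.trans j2)]

/-- the sum of a function with an exponential moment over an event -/
theorem sum_event {H : Type} [Fintype H] (G : H → ℝ) (E : Finset H) (lam u B : ℝ) (hl : 0 < lam)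
    (h : ∑ x, Real.exp (lam * G x) ≤ B) :
    ∑ x ∈ E, G x ≤ E.card * u + B * Real.exp (-(lam * u)) / lam := by
  have key : ∀ x, G x ≤ u + Real.exp (lam * G x) * (Real.exp (-(lam * u)) / lam) := by
    intro x
    rw [← mul_div_assoc, ← Real.exp_add, ← sub_le_iff_le_add', le_div_iff₀ hl]
    linarith [Real.add_one_le_exp (lam * G x + -(lam * u))]
  refine (Finset.sum_le_sum fun x _ => key x).trans ?_
  rw [Finset.sum_add_distrib, Finset.sum_const, nsmul_eq_mul, ← Finset.sum_mul, mul_div_assoc]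
  have h2 : ∑ x ∈ E, Real.exp (lam * G x) ≤ B :=
    (Finset.sum_le_sum_of_subset_of_nonneg (Finset.subset_univ E)
      fun _ _ _ => (Real.exp_pos _).le).trans h
  have := mul_le_mul_of_nonneg_right h2 (show 0 ≤ Real.exp (-(lam * u)) / lam by positivity)
  linarith

end Pool.Agent.Lib.MP_d46fce_co
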