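import Pool.Agent.Lib.MP_d46fce_co.Final
import Pool.Agent.Lib.MP_d46fce_co.Tau

/-!
Blow-ups of generalized Kneser graphs and the measure of intersecting families.
-/

namespace Pool.Agent.Lib.MP_d46fce_co

open Finset

theorem cross_step {p q R a0 a1 b0 b1 : ℝ} (hp : 0 ≤ p) (hq : 0 ≤ q) (hpq : p + q = 1)
    (ha0 : 0 ≤ a0) (ha1 : 0 ≤ a1) (hb0 : 0 ≤ b0) (h00 : a0 * b0 ≤ R)
    (h01 : a0 * b1 ≤ R) (h10 : a1 * b0 ≤ R) (h11 : p ^ 2 * (a1 * b1) ≤ q ^ 2 * R) :
    (p * a1 + q * a0) * (p * b1 + q * b0) ≤ R := by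
  have e : R = (p ^ 2 + q ^ 2) * R + p * q * R + p * q * R := by
    have : (p ^ 2 + q ^ 2) + p * q + p * q = (p + q) ^ 2 := by ring
    rw [← add_mul, ← add_mul, this, hpq]; ring
  have h1 := mul_le_mul_of_nonneg_left h01 (mul_nonneg hp hq)
  have h2 := mul_le_mul_of_nonneg_left h10 (mul_nonneg hp hq)
  have h3 : p ^ 2 * (a1 * b1) + q ^ 2 * (a0 * b0) ≤ (p ^ 2 + q ^ 2) * R := by
    rcases le_or_gt (a1 * b1) R with h | h
    · nlinarith [mul_le_mul_of_nonneg_left h (sq_nonneg p),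
        mul_le_mul_of_nonneg_left h00 (sq_nonneg q)]
    · have R0 : 0 ≤ R := (mul_nonneg ha0 hb0).trans h00
      have h4 : a0 * b0 * (a1 * b1) ≤ R * R := by
        have := mul_le_mul h01 h10 (mul_nonneg ha1 hb0) R0
        linarith
      refine le_of_mul_le_mul_right ?_ (lt_of_le_of_lt R0 h)
      nlinarith [mul_le_mul_of_nonneg_left h4 (sq_nonneg q),
        mul_nonneg (sub_nonneg.2 h.le) (sub_nonneg.2 h11)]
  nlinarith

theorem cross {α : Type} [DecidableEq α] (p r : ℝ) (hp : 0 ≤ p) (hp1 : p ≤ 1) (hr0 : 0 ≤ r)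
    (hr1 : r ≤ 1) (hr : p = r * (1 - p)) (L : List α) (hL : L.Nodup) (t : ℕ) (f g : Finset α → ℝ)
    (hf : ∀ P, 0 ≤ f P ∧ f P ≤ 1) (hg : ∀ P, 0 ≤ g P ∧ g P ≤ 1)
    (h : ∀ P Q : Finset α, (∀ x ∈ P, x ∈ L) → (∀ x ∈ Q, x ∈ L) → f P ≠ 0 → g Q ≠ 0 →
      t ≤ (P ∩ Q).card) :
    Ex (fun _ => p) L f * Ex (fun _ => p) L g ≤ r ^ (2 * t) := by
  have pos : ∀ (L : List α) (f : Finset α → ℝ), (∀ P, 0 ≤ f P) → 0 ≤ Ex (fun _ => p) L f := by
    intro L f hf
    have := Ex_mono (fun _ => p) L (fun _ => ⟨hp, hp1⟩) (fun _ => 0) f hf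
    rwa [Ex_const] at this
  induction L generalizing t f g with
  | nil =>
    simp only [Ex]
    rcases Nat.eq_zero_or_pos t with rfl | ht
    · simpa using mul_le_one₀ (hf ∅).2 (hg ∅).1 (hg ∅).2
    · by_cases h1 : f ∅ = 0
      · rw [h1, zero_mul]; positivity
      by_cases h2 : g ∅ = 0
      · rw [h2, mul_zero]; positivity
      have := h ∅ ∅ (by simp) (by simp) h1 h2
      simp at this
      omega
  | cons x L ih =>
    obtain ⟨hx, hL'⟩ := List.nodup_cons.1 hL
    have s0 : ∀ P : Finset α, (∀ y ∈ P, y ∈ L) → ∀ y ∈ P, y ∈ x :: L :=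
      fun P h y hy => List.mem_cons_of_mem _ (h y hy)
    have s1 : ∀ P : Finset α, (∀ y ∈ P, y ∈ L) → ∀ y ∈ insert x P, y ∈ x :: L := by
      intro P h y hy
      rcases Finset.mem_insert.1 hy with rfl | hy
      · exact List.mem_cons_self
      · exact s0 P h y hy
    simp only [Ex]
    refine cross_step hp (by linarith) (by ring) (pos _ _ fun P => (hf _).1)
      (pos _ _ fun P => (hf _).1) (pos _ _ fun P => (hg _).1)
      (ih hL' t _ _ hf hg fun P Q a b => h P Q (s0 P a) (s0 Q b))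
      (ih hL' t _ _ hf (fun P => hg _) fun P Q a b c d => ?_)
      (ih hL' t _ _ (fun P => hf _) hg fun P Q a b c d => ?_) ?_
    · have := h P _ (s0 P a) (s1 Q b) c d
      rwa [Finset.inter_insert_of_notMem (fun e => hx (a x e))] at this
    · have := h _ Q (s1 P a) (s0 Q b) c d
      rwa [Finset.insert_inter_of_notMem (fun e => hx (b x e))] at this
    · have h1 := ih hL' (t - 1) (fun P => f (insert x P)) (fun P => g (insert x P))
        (fun P => hf _) (fun P => hg _) fun P Q a b c d => by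
          have h2 := h _ _ (s1 P a) (s1 Q b) c d
          rw [← Finset.insert_inter_distrib] at h2
          have := Finset.card_insert_le x (P ∩ Q)
          omega
      have h2 : r ^ 2 * r ^ (2 * (t - 1)) ≤ r ^ (2 * t) := by
        rw [← pow_add]
        exact pow_le_pow_of_le_one hr0 hr1 (by omega)
      calc _ ≤ p ^ 2 * r ^ (2 * (t - 1)) := mul_le_mul_of_nonneg_left h1 (sq_nonneg p)
        _ = (1 - p) ^ 2 * (r ^ 2 * r ^ (2 * (t - 1))) := by
            conv_lhs => rw [hr]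
            ring
        _ ≤ _ := mul_le_mul_of_nonneg_left h2 (sq_nonneg _)

theorem le_hm_real {m n k l : ℕ} (x : ℝ) (W : Finset (Vtx n k)) (hW : W.card ≤ m)
    (hm' : m ≤ (2 * n + k).choose n)
    (h : ∀ c : Vtx n k → ℕ, (∀ u ∈ W, ∀ v ∈ W, (genKneser n k l).Adj u v → c u ≠ c v) →
      x ≤ (W.image c).card) : x ≤ hm m n k l :=
  Nat.ceil_le.1 (le_hm W hW hm' fun c hc => Nat.ceil_le.2 (h c hc))

theorem top_big {n k l : ℕ} (hl : l < n) (hk : 2 * n ≤ k) :
    (n : ℝ) ≤ (2 * n + k) * ((2 * n / k) ^ (l + 1) * hm ((2 * n + k).choose n) n k l) := by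
  classical
  have n0 : (0 : ℝ) < n := by exact_mod_cast (show 0 < n by omega)
  have hk' : (2 * n : ℝ) ≤ k := by exact_mod_cast hk
  have k0 : (0 : ℝ) < k := by linarith
  set r : ℝ := 2 * n / k with hr
  set p : ℝ := 2 * n / (2 * n + k) with hp
  have r0 : 0 < r := by positivity
  have r1 : r ≤ 1 := (div_le_one k0).2 hk'
  have p0 : 0 ≤ p := by positivity
  have p1 : p ≤ 1 := (div_le_one (by positivity)).2 (by linarith)
  rw [← mul_assoc, ← div_le_iff₀' (by positivity)]
  refine le_hm_real _ univ (by rw [Finset.card_univ, card_vtx]) le_rfl fun c hc => ?_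
  rw [div_le_iff₀' (by positivity)]
  set f : ℕ → Finset (Fin (2 * n + k)) → ℝ :=
    fun i P => if ∃ A : Vtx n k, A.1 ⊆ P ∧ c A = i then 1 else 0 with hf
  have f01 : ∀ i P, 0 ≤ f i P ∧ f i P ≤ 1 := fun i P => by
    simp only [hf]; split_ifs <;> norm_num
  set L := List.finRange (2 * n + k) with hL
  have a1 : ∀ i, Ex (fun _ => p) L (f i) ≤ r ^ (l + 1) := by
    intro i
    have := cross p r p0 p1 r0.le r1 (by rw [hp, hr]; field_simp; ring) L (List.nodup_finRange _)
      (l + 1) (f i) (f i) (f01 i) (f01 i) fun P Q _ _ h1 h2 => by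
        simp only [hf, ne_eq, ite_eq_right_iff, one_ne_zero, imp_false, not_not] at h1 h2
        obtain ⟨A, a1, a2⟩ := h1
        obtain ⟨B, b1, b2⟩ := h2
        refine le_trans ?_ (Finset.card_le_card (Finset.inter_subset_inter a1 b1))
        by_contra h3
        by_cases h4 : A = B
        · rw [← h4, Finset.inter_self, A.2] at h3
          omega
        · exact hc A (Finset.mem_univ _) B (Finset.mem_univ _) ⟨h4, by omega⟩ (a2.trans b2.symm)
    rw [pow_mul', sq] at this
    exact (le_abs_self _).trans (abs_le_of_sq_le_sq' (by rw [sq, sq]; exact this)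
      (by positivity) |> abs_le.2)
  have a2 := Ex_mono (fun _ => p) L (fun _ => ⟨p0, p1⟩) (fun P => (P.card : ℝ))
    (fun P => n + (2 * n + k) * ∑ i ∈ univ.image c, f i P) fun P => by
      have b0 : 0 ≤ ∑ i ∈ univ.image c, f i P := Finset.sum_nonneg fun i _ => (f01 i P).1
      rcases le_or_gt n P.card with h | h
      · obtain ⟨A, a1, a2⟩ := Finset.exists_subset_card_eq h
        have b1 : f (c ⟨A, a2⟩) P ≤ ∑ i ∈ univ.image c, f i P :=
          Finset.single_le_sum (f := fun i => f i P) (fun i _ => (f01 i P).1)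
            (Finset.mem_image_of_mem c (Finset.mem_univ _))
        have b2 : f (c ⟨A, a2⟩) P = 1 := if_pos ⟨⟨A, a2⟩, a1, rfl⟩
        have b3 : (P.card : ℝ) ≤ 2 * n + k := by
          have := Finset.card_le_univ P
          rw [Fintype.card_fin] at this
          exact_mod_cast this
        nlinarith
      · have : (P.card : ℝ) ≤ n := by exact_mod_cast h.le
        nlinarith
  rw [Ex_card _ _ (List.nodup_finRange _), Ex_add, Ex_const, Ex_mul, Ex_sum] at a2
  have a3 : (L.map (fun _ => p)).sum = 2 * n := by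
    rw [hL, List.map_const', List.sum_replicate, List.length_finRange, nsmul_eq_mul, hp]
    push_cast
    field_simp
  have a4 := Finset.sum_le_card_nsmul (univ.image c) _ _ fun i _ => a1 i
  rw [nsmul_eq_mul] at a4
  rw [a3] at a2
  nlinarith

theorem hm_le_image {m n k l : ℕ} (c : Vtx n k → ℕ)
    (hc : ∀ u v, (genKneser n k l).Adj u v → c u ≠ c v) : hm m n k l ≤ (univ.image c).card := by
  refine hm_le fun W _ => ⟨fun v => ((univ.image c).equivFin
    ⟨c v, Finset.mem_image_of_mem c (Finset.mem_univ v)⟩).val, fun v _ => Fin.isLt _,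
    fun u _ v _ huv e => hc u v huv ?_⟩
  exact congrArg Subtype.val ((univ.image c).equivFin.injective (Fin.ext e))

theorem blow {m n k l n' k' l' b c : ℕ} (hb : 1 ≤ b) (hn : n = n' * b + c) (hl : l' * b + c ≤ l)
    (hN : (2 * n' + k') * b + c ≤ 2 * n + k) (h1 : (2 * n' + k').choose n' ≤ m)
    (h2 : m ≤ (2 * n + k).choose n) : hm ((2 * n' + k').choose n') n' k' l' ≤ hm m n k l := by
  classical
  obtain ⟨ι⟩ : Nonempty ((Fin (2 * n' + k') × Fin b ⊕ Fin c) ↪ Fin (2 * n + k)) :=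
    Function.Embedding.nonempty_of_card_le (by simpa using hN)
  set ψ : Vtx n' k' → Vtx n k := fun A => ⟨((A.1 ×ˢ univ).disjSum univ).map ι, by
    simp [A.2, hn]⟩ with hψ
  have hadj : ∀ A B, (genKneser n' k' l').Adj A B → (genKneser n k l).Adj (ψ A) (ψ B) := by
    intro A B h
    refine ⟨fun e => h.1 (Subtype.ext ?_), ?_⟩
    · have e1 := Finset.map_injective ι (congrArg Subtype.val e)
      ext x
      have := congrArg (fun S => (Sum.inl (x, ⟨0, hb⟩) : Fin (2 * n' + k') × Fin b ⊕ Fin c) ∈ S) e1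
      simpa using this
    · have e1 : ((A.1 ×ˢ (univ : Finset (Fin b))).disjSum (univ : Finset (Fin c))) ∩
          ((B.1 ×ˢ univ).disjSum univ) = ((A.1 ∩ B.1) ×ˢ univ).disjSum univ := by
        ext x
        rcases x with x | x <;> simp
      simp only [hψ]
      rw [← Finset.map_inter, e1, Finset.card_map, Finset.card_disjSum, Finset.card_product,
        Finset.card_univ, Finset.card_univ, Fintype.card_fin, Fintype.card_fin]
      exact le_trans (Nat.add_le_add_right (Nat.mul_le_mul_right _ h.2) _) hl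
  refine le_hm (univ.image ψ) (Finset.card_image_le.trans (by rwa [Finset.card_univ, card_vtx])) h2
    fun col hcol => ?_
  rw [Finset.image_image]
  exact hm_le_image _ fun u v huv => hcol _ (Finset.mem_image_of_mem ψ (Finset.mem_univ _)) _
    (Finset.mem_image_of_mem ψ (Finset.mem_univ _)) (hadj u v huv)

/-- the parameters of a blow-up with blocks of size `b` -/
theorem blow_par {n k l b : ℕ} (hl : l < n) (hb : 1 ≤ b) (hbl : 2 * b ≤ l + 1) :
    ∃ n' k' l' : ℕ, l' < n' ∧ n' * b ≤ n ∧ n ≤ 2 * (n' * b) ∧ k' * b ≤ k ∧ k ≤ k' * b + n ∧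
      l + 1 ≤ 2 * ((l' + 1) * b) ∧ k + l + 1 ≤ 4 * ((k' + l' + 1) * b) ∧
      ∀ m, (2 * n' + k').choose n' ≤ m → m ≤ (2 * n + k).choose n →
        hm ((2 * n' + k').choose n') n' k' l' ≤ hm m n k l := by
  have a1 := Nat.div_add_mod' n b
  have a2 := Nat.mod_lt n hb
  have a3 := Nat.div_add_mod' k b
  have a4 := Nat.mod_lt k hb
  have a5 := Nat.div_add_mod' (l - n % b) b
  have a6 := Nat.mod_lt (l - n % b) hb
  have a7 : (l - n % b) / b < n / b := lt_of_mul_lt_mul_right (a := b) (by omega) (Nat.zero_le _)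
  have a8 : b ≤ n / b * b := Nat.le_mul_of_pos_left b (Nat.zero_lt_of_lt a7)
  refine ⟨n / b, k / b, (l - n % b) / b, a7, by omega, by omega, by omega, by omega, ?_, ?_,
    fun m h1 h2 => blow hb a1.symm (by omega) ?_ h1 h2⟩
  · rw [add_mul]; omega
  · rw [add_mul, add_mul]; omega
  · rw [add_mul, mul_assoc]; omega

end Pool.Agent.Lib.MP_d46fce_co
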