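import Pool.Agent.Lib.MP_d46fce_co.Tau

/-!
A chaining argument: graphs on sign vectors whose edges join nearly opposite vectors have large
independent sets.
-/

namespace Pool.Agent.Lib.MP_d46fce_co

open Finset

theorem sum_exp_pi {N : ℕ} {Q : Type} [Fintype Q] [DecidableEq Q] (w : Fin N → Q → ℝ) :
    ∑ h : Fin N → Q, Real.exp (∑ i, w i (h i)) = ∏ i, ∑ q, Real.exp (w i q) := by
  rw [Finset.prod_univ_sum, Fintype.piFinset_univ]
  exact Finset.sum_congr rfl fun h _ => Real.exp_sum _ _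

theorem sum_exp_lin {N : ℕ} (a : Fin N → ℝ) (lam : ℝ) :
    ∑ g, Real.exp (lam * lin a g) = 2 ^ N * ∏ i, Real.cosh (lam * a i) := by
  have := sum_exp_pi (fun i (b : Bool) => lam * (a i * sgn b))
  simp only [lin, Finset.mul_sum]
  rw [this, show (2 : ℝ) ^ N = ∏ _i : Fin N, (2 : ℝ) by simp, ← Finset.prod_mul_distrib]
  refine Finset.prod_congr rfl fun i _ => ?_
  simp only [Fintype.sum_bool, sgn, Real.cosh_eq]
  norm_num
  ring

theorem sum_exp_lin_le {N : ℕ} (a : Fin N → ℝ) (lam L2 : ℝ) (h : ∑ i, a i ^ 2 ≤ L2) :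
    ∑ g, Real.exp (lam * lin a g) ≤ 2 ^ N * Real.exp (lam ^ 2 * L2 / 2) := by
  rw [sum_exp_lin]
  refine mul_le_mul_of_nonneg_left ?_ (by positivity)
  refine (Finset.prod_le_prod (fun i _ => (Real.cosh_pos _).le)
    fun i _ => Real.cosh_le_exp_half_sq _).trans ?_
  rw [← Real.exp_sum]
  refine Real.exp_le_exp.2 ?_
  rw [← Finset.sum_div]
  simp only [mul_pow]
  rw [← Finset.mul_sum]
  have := mul_le_mul_of_nonneg_left h (sq_nonneg lam)
  linarith

theorem exists_matching {V : Type} [DecidableEq V] (G : SimpleGraph V) (I : Finset V) :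
    ∃ S ⊆ I, ∃ π : V → V, (∀ v ∈ S, π v ∈ S ∧ π (π v) = v ∧ G.Adj v (π v)) ∧
      ∀ u ∈ I \ S, ∀ v ∈ I \ S, ¬ G.Adj u v := by
  classical
  obtain ⟨S, hS, hmax⟩ := Finset.exists_max_image (I.powerset.filter
    (fun S => ∃ π : V → V, ∀ v ∈ S, π v ∈ S ∧ π (π v) = v ∧ G.Adj v (π v))) Finset.card
    ⟨∅, Finset.mem_filter.2 ⟨by simp, id, by simp⟩⟩
  obtain ⟨h1, π, h2⟩ := Finset.mem_filter.1 hS
  have h1' := Finset.mem_powerset.1 h1
  refine ⟨S, h1', π, h2, fun u hu v hv huv => ?_⟩
  obtain ⟨u1, u2⟩ := Finset.mem_sdiff.1 hu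
  obtain ⟨v1, v2⟩ := Finset.mem_sdiff.1 hv
  have hne := huv.ne
  have := hmax (insert u (insert v S)) (Finset.mem_filter.2 ⟨Finset.mem_powerset.2
    (Finset.insert_subset u1 (Finset.insert_subset v1 h1')),
    fun x => if x = u then v else if x = v then u else π x, fun x hx => ?_⟩)
  · rw [Finset.card_insert_of_notMem (by simp [hne, u2]), Finset.card_insert_of_notMem v2] at this
    omega
  · rcases Finset.mem_insert.1 hx with rfl | hx
    · simp [hne.symm, huv]
    rcases Finset.mem_insert.1 hx with rfl | hx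
    · simp [hne.symm, huv.symm]
    have x1 : x ≠ u := fun e => u2 (e ▸ hx)
    have x2 : x ≠ v := fun e => v2 (e ▸ hx)
    obtain ⟨p1, p2, p3⟩ := h2 x hx
    have y1 : π x ≠ u := fun e => u2 (e ▸ p1)
    have y2 : π x ≠ v := fun e => v2 (e ▸ p1)
    simp [x1, x2, y1, y2, p1, p2, p3]

/-- the opposite sign vector -/
def opp {N : ℕ} (g : Fin N → Bool) : Fin N → Bool := fun i => !g i

theorem lin_opp {N : ℕ} (a : Fin N → ℝ) (g : Fin N → Bool) : lin a (opp g) = -lin a g := by
  unfold lin opp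
  rw [← Finset.sum_neg_distrib]
  refine Finset.sum_congr rfl fun i _ => ?_
  cases g i <;> simp [sgn]

theorem sum_opp {N : ℕ} (f : (Fin N → Bool) → ℝ) : ∑ g, f (opp g) = ∑ g, f g := by
  have h : Function.Involutive (opp (N := N)) := fun g => by funext i; simp [opp]
  exact Equiv.sum_comp h.toPerm f

theorem lin_sub {N : ℕ} (a b : Fin N → ℝ) (g : Fin N → Bool) :
    lin (fun i => a i - b i) g = lin a g - lin b g := by
  simp only [lin, sub_mul, Finset.sum_sub_distrib]

theorem lin_smul {N : ℕ} (c : ℝ) (a : Fin N → ℝ) (g : Fin N → Bool) :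
    lin (fun i => c * a i) g = c * lin a g := by
  simp only [lin, mul_assoc, Finset.mul_sum]

theorem sum_swap_event {V H : Type} [DecidableEq V] [Fintype H] (W : Finset V) (S : H → Finset V)
    (hS : ∀ g, S g ⊆ W) (f : H → V → ℝ) :
    ∑ g, ∑ A ∈ S g, f g A = ∑ A ∈ W, ∑ g ∈ univ.filter (fun g => A ∈ S g), f g A := by
  refine Finset.sum_comm' fun g A => ?_
  simp only [Finset.mem_univ, true_and, Finset.mem_filter]
  exact ⟨fun h => ⟨h, hS g h⟩, fun h => h.1⟩

theorem chain {V : Type} [DecidableEq V] (G : SimpleGraph V) {N : ℕ} (χ : V → Fin N → ℝ)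
    (hχ : ∀ v i, |χ v i| = 1) (D : ℝ) (D0 : 0 < D)
    (hD : ∀ u v, G.Adj u v → ∑ i, |χ u i + χ v i| ≤ D) (W : Finset V) (θ p : ℝ) (J : ℕ)
    (hJ : 1 ≤ J) (hp : 0 < p) (hθ : 0 < θ)
    (anti : ∀ v ∈ W, 2 * p * 2 ^ N ≤ (univ.filter (fun g => θ ≤ lin (χ v) g)).card)
    (c0 : 256 * J * D ≤ θ ^ 2) (c1 : 1 ≤ p * Real.exp (θ ^ 2 / (256 * J * D)))
    (c2 : 16 * D * Real.log (2 * W.card) < J * θ ^ 2) :
    ∃ I ⊆ W, (∀ u ∈ I, ∀ v ∈ I, ¬ G.Adj u v) ∧ p * W.card ≤ I.card := by
  classical
  rcases W.eq_empty_or_nonempty with rfl | hW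
  · exact ⟨∅, le_rfl, by simp, by simp⟩
  by_contra hcon
  push Not at hcon
  have m0 : (0 : ℝ) < W.card := by exact_mod_cast hW.card_pos
  have J0 : (0 : ℝ) < J := by exact_mod_cast hJ
  choose S hS π hπ hind using fun g : Fin N → Bool =>
    exists_matching G (W.filter (fun v => θ ≤ lin (χ v) g))
  have hSW : ∀ g, S g ⊆ W := fun g => (hS g).trans (Finset.filter_subset _ _)
  have hSθ : ∀ g, ∀ v ∈ S g, θ ≤ lin (χ v) g := fun g v hv => (Finset.mem_filter.1 (hS g hv)).2
  set E : V → Finset (Fin N → Bool) := fun A => univ.filter (fun g => A ∈ S g) with hE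
  set Z : ℝ := ∑ A ∈ W, ((E A).card : ℝ) with hZ
  have Z1 : ∑ g, ((S g).card : ℝ) = Z := by
    have := sum_swap_event W S hSW (fun _ _ => (1 : ℝ))
    simpa using this
  have Z2 : p * W.card * 2 ^ N ≤ Z := by
    have a1 : ∀ g, ((W.filter (fun v => θ ≤ lin (χ v) g)).card : ℝ) ≤ p * W.card + (S g).card := by
      intro g
      have b1 := hcon _ (Finset.sdiff_subset.trans (Finset.filter_subset _ _)) (hind g)
      have b2 := Finset.card_sdiff_add_card_eq_card (hS g)
      have b3 : (((W.filter (fun v => θ ≤ lin (χ v) g) \ S g).card + (S g).card : ℕ) : ℝ) =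
        (W.filter (fun v => θ ≤ lin (χ v) g)).card := by exact_mod_cast b2
      push_cast at b3
      linarith
    have a2 := Finset.sum_le_sum fun g (_ : g ∈ (univ : Finset (Fin N → Bool))) => a1 g
    rw [Finset.sum_add_distrib, Z1, Finset.sum_const, nsmul_eq_mul, card_cube] at a2
    have a3 := sum_swap_event W (fun g : Fin N → Bool => W.filter (fun v => θ ≤ lin (χ v) g))
      (fun g => Finset.filter_subset _ _) (fun _ _ => (1 : ℝ))
    simp only [Finset.sum_const, nsmul_eq_mul, mul_one] at a3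
    have a4 : ∑ _A ∈ W, 2 * p * 2 ^ N ≤ ∑ A ∈ W, ((univ.filter
        (fun g : Fin N → Bool => A ∈ W.filter (fun v => θ ≤ lin (χ v) g))).card : ℝ) := by
      refine Finset.sum_le_sum fun A hA => (anti A hA).trans (le_of_eq ?_)
      congr 2
      ext g
      simp [hA]
    rw [Finset.sum_const, nsmul_eq_mul] at a4
    linarith
  have Z0 : 0 < Z := lt_of_lt_of_le (by positivity) Z2
  set vec : V → V × Bool → Fin N → ℝ := fun A q i => sgn q.2 * χ q.1 i - χ A i with hvec
  set Ball : ℕ → V → Finset (V × Bool) := fun j A =>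
    (W ×ˢ univ).filter (fun q => ∑ i, |vec A q i| ≤ j * D) with hBall
  have hself : ∀ j, ∀ A ∈ W, (A, true) ∈ Ball j A := by
    intro j A hA
    simp only [hBall, hvec, Finset.mem_filter, Finset.mem_product, hA, Finset.mem_univ, sgn]
    simp only [if_true, one_mul, sub_self, abs_zero, Finset.sum_const_zero, and_self, true_and]
    positivity
  have hex : ∀ j A g, ∃ q : V × Bool, A ∈ W →
      q ∈ Ball j A ∧ ∀ q' ∈ Ball j A, lin (vec A q') g ≤ lin (vec A q) g := by
    intro j A g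
    by_cases hA : A ∈ W
    · obtain ⟨q, h1, h2⟩ := Finset.exists_max_image (Ball j A) (fun q => lin (vec A q) g)
        ⟨_, hself j A hA⟩
      exact ⟨q, fun _ => ⟨h1, h2⟩⟩
    · exact ⟨(A, true), fun h => absurd h hA⟩
  choose q hq using hex
  set F : ℕ → V → (Fin N → Bool) → ℝ := fun j A g => lin (vec A (q j A g)) g with hF
  set L2 : ℝ := 2 * J * D with hL2
  have L0 : 0 < L2 := by positivity
  have hsq : ∀ j ≤ J, ∀ A, ∀ r ∈ Ball j A, ∑ i, vec A r i ^ 2 ≤ L2 := by
    intro j hj A r hr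
    have a1 := (Finset.mem_filter.1 hr).2
    have a2 : ∑ i, vec A r i ^ 2 ≤ ∑ i, 2 * |vec A r i| := by
      refine Finset.sum_le_sum fun i _ => ?_
      have b1 : |vec A r i| ≤ 2 := by
        refine (abs_sub _ _).trans ?_
        rw [abs_mul, hχ, hχ]
        cases r.2 <;> norm_num [sgn]
      rw [← sq_abs]
      nlinarith [abs_nonneg (vec A r i)]
    rw [← Finset.mul_sum] at a2
    have a3 : (j : ℝ) * D ≤ J * D := by gcongr
    linarith
  have hFa : ∀ j ≤ J, ∀ A ∈ W, ∀ x, ∃ a : Fin N → ℝ, ∑ i, a i ^ 2 ≤ L2 ∧ F j A x = lin a x ∧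
      ∀ y, lin a y ≤ F j A y := fun j hj A hA x =>
    ⟨vec A (q j A x), hsq j hj A _ (hq j A x hA).1, rfl,
      fun y => (hq j A y hA).2 _ (hq j A x hA).1⟩
  have hstep : ∀ j g, ∀ A ∈ S g, F j A g + 2 * θ ≤ F (j + 1) (π g A) (opp g) := by
    intro j g A hA
    obtain ⟨p1, -, p3⟩ := hπ g A hA
    have hA' := hSW g hA
    have a1 := (hq j A g hA').1
    set r := q j A g with hr
    have a2 : (r.1, !r.2) ∈ Ball (j + 1) (π g A) := by
      obtain ⟨b1, b2⟩ := Finset.mem_filter.1 a1
      refine Finset.mem_filter.2 ⟨by simpa using b1, ?_⟩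
      have b3 := hD _ _ p3
      have b4 : ∑ i, |vec (π g A) (r.1, !r.2) i| ≤
          ∑ i, (|vec A r i| + |χ A i + χ (π g A) i|) := by
        refine Finset.sum_le_sum fun i _ => ?_
        have : vec (π g A) (r.1, !r.2) i = -(vec A r i + (χ A i + χ (π g A) i)) := by
          simp only [hvec]
          cases r.2 <;> simp [sgn] <;> ring
        rw [this, abs_neg]
        exact abs_add_le _ _
      rw [Finset.sum_add_distrib] at b4
      push_cast
      linarith
    refine le_trans ?_ ((hq (j + 1) (π g A) (opp g) (hSW g p1)).2 _ a2)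
    have a3 := hSθ g A hA
    have a4 := hSθ g _ p1
    simp only [hF, ← hr, hvec, lin_opp, lin_sub, lin_smul]
    cases r.2 <;> simp [sgn] <;> linarith
  set lam : ℝ := θ / (32 * L2) with hlam
  have lam0 : 0 < lam := by positivity
  set τ : ℝ := 2 ^ N * Real.exp (8 * lam ^ 2 * L2) * Real.exp (-(lam * (θ / 2))) / lam with hτ
  have hτZ : 2 * (W.card * τ) ≤ θ / 2 * Z := by
    set y : ℝ := θ ^ 2 / (256 * J * D) with hy
    have y1 : 1 ≤ y := by rw [hy, one_le_div (by positivity)]; exact c0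
    have e1 : Real.exp (8 * lam ^ 2 * L2) * Real.exp (-(lam * (θ / 2))) = (Real.exp y)⁻¹ := by
      rw [← Real.exp_add, ← Real.exp_neg]
      congr 1
      rw [hlam, hy, hL2]; field_simp; ring
    have e2 : lam * θ = 4 * y := by rw [hlam, hy, hL2]; field_simp; ring
    have e3 : (Real.exp y)⁻¹ ≤ p := by
      rw [inv_le_iff_one_le_mul₀ (Real.exp_pos y)]; exact c1
    have e4 : τ ≤ 2 ^ N * p * (θ / 4) := by
      rw [hτ, mul_assoc (2 ^ N), e1, div_le_iff₀ lam0]
      have : (2 : ℝ) ^ N * p * (θ / 4) * lam = 2 ^ N * (p * y) := by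
        linear_combination (2 : ℝ) ^ N * p / 4 * e2
      rw [this]
      refine mul_le_mul_of_nonneg_left ?_ (by positivity)
      nlinarith
    have e5 := mul_le_mul_of_nonneg_left e4 m0.le
    nlinarith [mul_le_mul_of_nonneg_left Z2 hθ.le]
  set M : ℕ → ℝ := fun j => ∑ A ∈ W, (E A).card * mean (F j A) with hM
  have hM1 : ∀ j, j + 1 ≤ J → M j + θ / 2 * Z ≤ M (j + 1) := by
    intro j hj
    have a1 : ∑ g, ∑ A ∈ S g, (F j A g + 2 * θ) ≤ ∑ g, ∑ B ∈ S g, F (j + 1) B (opp g) := by
      refine Finset.sum_le_sum fun g _ => ?_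
      refine (Finset.sum_le_sum fun A hA => hstep j g A hA).trans (le_of_eq ?_)
      exact Finset.sum_nbij' (π g) (π g) (fun A hA => (hπ g A hA).1) (fun A hA => (hπ g A hA).1)
        (fun A hA => (hπ g A hA).2.1) (fun A hA => (hπ g A hA).2.1) (fun _ _ => rfl)
    rw [sum_swap_event W S hSW, sum_swap_event W S hSW] at a1
    have a2 : ∀ B ∈ W, ∑ g ∈ E B, F (j + 1) B (opp g) ≤
        (E B).card * mean (F (j + 1) B) + (E B).card * (θ / 2) + τ := by
      intro B hB
      have b1 := (mgf_two _ L2 lam lam0.le (hFa (j + 1) hj B hB)).1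
      rw [← sum_opp] at b1
      have b2 := sum_event (fun g => F (j + 1) B (opp g) - mean (F (j + 1) B)) (E B) lam (θ / 2)
        _ lam0 b1
      rw [Finset.sum_sub_distrib, Finset.sum_const, nsmul_eq_mul] at b2
      linarith
    have a3 : ∀ A ∈ W, (E A).card * mean (F j A) + (E A).card * (3 * θ / 2) - τ ≤
        ∑ g ∈ E A, (F j A g + 2 * θ) := by
      intro A hA
      have b1 := (mgf_two _ L2 lam lam0.le (hFa j (by omega) A hA)).2
      simp only [neg_mul_comm] at b1
      have b2 := sum_event (fun g => -(F j A g - mean (F j A))) (E A) lam (θ / 2) _ lam0 b1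
      rw [Finset.sum_neg_distrib, Finset.sum_sub_distrib, Finset.sum_const, nsmul_eq_mul] at b2
      rw [Finset.sum_add_distrib, Finset.sum_const, nsmul_eq_mul]
      linarith
    have a4 := (Finset.sum_le_sum a3).trans (a1.trans (Finset.sum_le_sum a2))
    simp only [Finset.sum_add_distrib, Finset.sum_sub_distrib, Finset.sum_const, nsmul_eq_mul,
      ← Finset.sum_mul] at a4
    simp only [hM]
    linarith
  have hM2 : ∀ j ≤ J, j * (θ / 2 * Z) ≤ M j := by
    intro j hj
    induction j with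
    | zero =>
      simp only [Nat.cast_zero, zero_mul]
      refine Finset.sum_nonneg fun A hA => mul_nonneg (by positivity) ?_
      refine div_nonneg (Finset.sum_nonneg fun g _ => ?_) (by positivity)
      refine le_trans (le_of_eq ?_) ((hq 0 A g hA).2 _ (hself 0 A hA))
      simp [hvec, lin, sgn]
    | succ j ih =>
      have := hM1 j hj
      have := ih (by omega)
      push_cast
      linarith
  have hbig : ∀ A ∈ W, mean (F J A) * (J * θ / (2 * L2)) ≤
      Real.log (2 * W.card) + J * θ ^ 2 / (16 * D) := by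
    intro A hA
    set l' : ℝ := J * θ / (2 * L2) with hl'
    have a1 := jensen_exp _ (sum_sub_mean (F J A) l')
    have a2 : ∀ g, Real.exp (l' * (F J A g - mean (F J A))) ≤
        Real.exp (-(l' * mean (F J A))) * ∑ r ∈ Ball J A, Real.exp (l' * lin (vec A r) g) := by
      intro g
      rw [mul_sub, sub_eq_neg_add, Real.exp_add]
      refine mul_le_mul_of_nonneg_left ?_ (Real.exp_pos _).le
      exact Finset.single_le_sum (f := fun r => Real.exp (l' * lin (vec A r) g))
        (fun _ _ => (Real.exp_pos _).le) (hq J A g hA).1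
    have a3 := a1.trans (Finset.sum_le_sum fun g _ => a2 g)
    rw [← Finset.mul_sum, Finset.sum_comm] at a3
    have a4 := Finset.sum_le_sum fun r (hr : r ∈ Ball J A) =>
      sum_exp_lin_le (vec A r) l' L2 (hsq J le_rfl A r hr)
    rw [Finset.sum_const, nsmul_eq_mul] at a4
    have a5 : ((Ball J A).card : ℝ) ≤ 2 * W.card := by
      have := Finset.card_filter_le (W ×ˢ (univ : Finset Bool))
        (fun q => ∑ i, |vec A q i| ≤ J * D)
      rw [Finset.card_product, Finset.card_univ, Fintype.card_bool, mul_comm W.card] at this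
      exact_mod_cast this
    have a6 := a3.trans (mul_le_mul_of_nonneg_left (a4.trans
      (mul_le_mul_of_nonneg_right a5 (by positivity))) (Real.exp_pos _).le)
    have a7 : 1 ≤ Real.exp (-(l' * mean (F J A)) + Real.log (2 * W.card) + l' ^ 2 * L2 / 2) := by
      rw [Real.exp_add, Real.exp_add, Real.exp_log (by positivity)]
      refine le_of_mul_le_mul_left (a := 2 ^ N) ?_ (by positivity)
      linarith
    rw [Real.one_le_exp_iff] at a7
    have a8 : l' ^ 2 * L2 / 2 = J * θ ^ 2 / (16 * D) := by rw [hl', hL2]; field_simp; ring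
    linarith
  have f1 : M J * (J * θ / (2 * L2)) ≤ Z * (Real.log (2 * W.card) + J * θ ^ 2 / (16 * D)) := by
    simp only [hM, hZ, Finset.sum_mul]
    refine Finset.sum_le_sum fun A hA => ?_
    rw [mul_assoc]
    exact mul_le_mul_of_nonneg_left (hbig A hA) (by positivity)
  have f2 := mul_le_mul_of_nonneg_right (hM2 J le_rfl) (show 0 ≤ J * θ / (2 * L2) by positivity)
  have f3 : J * (θ / 2 * Z) * (J * θ / (2 * L2)) = Z * (2 * (J * θ ^ 2 / (16 * D))) := by
    rw [hL2]; field_simp; ring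
  have f4 : Real.log (2 * W.card) < J * θ ^ 2 / (16 * D) := by
    rw [lt_div_iff₀ (by positivity)]; linarith
  nlinarith [mul_lt_mul_of_pos_left f4 Z0]

end Pool.Agent.Lib.MP_d46fce_co
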