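import Pool.Agent.Shared.Schrijver

/-!
A discrete Borsuk-Ulam statement: odd functions on the subsets of `range N` that vary slowly have
an approximate common zero at a subset with few changes.
-/

namespace Pool.Agent.Lib.MP_d46fce_co

open Pool.Agent.Shared.Tucker Pool.Agent.Shared.Schrijver

/-- `V` extends the sign vector `X` after flipping the signs at odd positions -/
def Ext (N : ℕ) (X : SV) (V : Finset ℕ) : Prop :=
  V ⊆ Finset.range N ∧ (∀ j ∈ X.1, (j ∈ V ↔ Even j)) ∧ (∀ j ∈ X.2, (j ∈ V ↔ ¬ Even j))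

theorem Ext.swap {N : ℕ} {X : SV} {V : Finset ℕ} (hX : Good N X) (h : Ext N X V) :
    Ext N X.swap (Finset.range N \ V) := by
  refine ⟨Finset.sdiff_subset, fun j hj => ?_, fun j hj => ?_⟩
  · have h1 := h.2.2 j hj
    have h2 := hX.2.2.1 j hj
    simp only [Finset.mem_sdiff, Finset.mem_range]
    tauto
  · have h1 := h.2.1 j hj
    have h2 := hX.2.1 j hj
    simp only [Finset.mem_sdiff, Finset.mem_range]
    tauto

theorem Ext.anti {N : ℕ} {X Y : SV} {V : Finset ℕ} (h : Ext N Y V) (hXY : X ≤ Y) : Ext N X V :=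
  ⟨h.1, fun j hj => h.2.1 j (hXY.1 hj), fun j hj => h.2.2 j (hXY.2 hj)⟩

theorem exists_ext {N : ℕ} {X : SV} (hX : Good N X) : ∃ V, Ext N X V := by
  classical
  refine ⟨(Finset.range N).filter (fun j => (j ∈ X.1 ↔ Even j)), Finset.filter_subset _ _,
    fun j hj => ?_, fun j hj => ?_⟩
  · have := hX.2.1 j hj
    simp [this, hj]
  · have h1 := hX.2.2.1 j hj
    have h2 : j ∉ X.1 := fun h => Finset.disjoint_left.1 hX.1 h hj
    simp [h1, h2]

theorem altL_consec {L : List ℕ} {X : SV} (hd : Disjoint X.1 X.2) (h : AltL L X)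
    (hL : L.Pairwise (· < ·)) {j : ℕ} (h1 : j ∈ L) (h2 : j + 1 ∈ L) :
    (j ∈ X.1 ∧ j + 1 ∈ X.2) ∨ (j ∈ X.2 ∧ j + 1 ∈ X.1) := by
  induction L generalizing X with
  | nil => simp at h1
  | cons x t ih =>
    rw [List.pairwise_cons] at hL
    rcases List.mem_cons.1 h1 with rfl | h1
    · have h3 : j + 1 ∈ t := by
        rcases List.mem_cons.1 h2 with h | h
        · omega
        · exact h
      cases t with
      | nil => simp at h3
      | cons z t =>
        have h4 : z = j + 1 := by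
          have a1 := hL.1 z (by simp)
          rcases List.mem_cons.1 h3 with h | h
          · omega
          · have := (List.pairwise_cons.1 hL.2).1 _ h
            omega
        subst h4
        exact Or.inl ⟨h.1, h.2.1⟩
    · have h3 : j + 1 ∈ t := by
        rcases List.mem_cons.1 h2 with h | h
        · have := hL.1 j h1; omega
        · exact h
      exact (ih (X := X.swap) hd.symm h.2 hL.2 h1 h3).symm

/-- `V` is constant along consecutive integers outside the exceptional set `C` -/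
def Few (N : ℕ) (C V : Finset ℕ) : Prop :=
  ∀ j, j + 1 < N → j ∉ C → j + 1 ∉ C → (j ∈ V ↔ j + 1 ∈ V)

theorem high_spec {N M : ℕ} {X : SV} (hX : Good N X) (h : Alt X (N - M)) :
    ∃ C : Finset ℕ, C.card ≤ M ∧ (∀ V, Ext N X V → Few N C V) ∧
      ∀ V V', Ext N X V → Ext N X V' → V \ V' ⊆ C := by
  obtain ⟨L, p1, p2, p3⟩ := h
  have hnd : L.Nodup := p1.imp fun h => ne_of_lt h
  have hsub : L.toFinset ⊆ Finset.range N := by
    intro x hx
    rcases Finset.mem_union.1 (p2.mem x (List.mem_toFinset.1 hx)) with h | h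
    · exact Finset.mem_range.2 (hX.2.1 x h)
    · exact Finset.mem_range.2 (hX.2.2.1 x h)
  refine ⟨Finset.range N \ L.toFinset, ?_, ?_, ?_⟩
  · rw [Finset.card_sdiff_of_subset hsub, List.toFinset_card_of_nodup hnd, p3, Finset.card_range]
    omega
  · intro V hV j hj h1 h2
    have m1 : j ∈ L := by
      by_contra hh
      exact h1 (by simp [hh]; omega)
    have m2 : j + 1 ∈ L := by
      by_contra hh
      exact h2 (by simp [hh]; omega)
    rcases altL_consec hX.1 p2 p1 m1 m2 with h | h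
    · rw [hV.2.1 _ h.1, hV.2.2 _ h.2, Nat.even_add_one, not_not]
    · rw [hV.2.2 _ h.1, hV.2.1 _ h.2, Nat.even_add_one]
  · intro V V' hV hV' j hj
    rw [Finset.mem_sdiff] at hj ⊢
    refine ⟨hV.1 hj.1, fun hh => ?_⟩
    rcases Finset.mem_union.1 (p2.mem j (List.mem_toFinset.1 hh)) with h | h
    · exact hj.2 ((hV'.2.1 j h).2 ((hV.2.1 j h).1 hj.1))
    · exact hj.2 ((hV'.2.2 j h).2 ((hV.2.2 j h).1 hj.1))

theorem high_spec' {N M : ℕ} {X : SV} (hX : Good N X)
    (h : Alt X (N - M) ∨ Alt X.swap (N - M)) :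
    ∃ C : Finset ℕ, C.card ≤ M ∧ (∀ V, Ext N X V → Few N C V) ∧
      ∀ V V', Ext N X V → Ext N X V' → V \ V' ⊆ C := by
  rcases h with h | h
  · exact high_spec hX h
  · obtain ⟨C, c1, c2, c3⟩ := high_spec hX.swap h
    refine ⟨C, c1, fun V hV j hj h1 h2 => ?_, fun V V' hV hV' j hj => ?_⟩
    · have := c2 _ (hV.swap hX) j hj h1 h2
      simp only [Finset.mem_sdiff, Finset.mem_range] at this
      have h3 : j < N := by omega
      tauto
    · refine c3 _ _ (hV'.swap hX) (hV.swap hX) ?_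
      have := Finset.mem_range.1 (hV.1 (Finset.mem_sdiff.1 hj).1)
      simp only [Finset.mem_sdiff, Finset.mem_range] at hj ⊢
      tauto

/-- **Discrete Borsuk-Ulam.** -/
theorem cube_zero (N M : ℕ) (hN : M < N) (ε : ℝ) (F : ℕ → Finset ℕ → ℝ)
    (hodd : ∀ i, ∀ V ⊆ Finset.range N, F i (Finset.range N \ V) = - F i V)
    (hlip : ∀ i, ∀ V ⊆ Finset.range N, ∀ V' ⊆ Finset.range N, ∀ C : Finset ℕ, C.card ≤ M →
      V \ V' ⊆ C → V' \ V ⊆ C → F i V - F i V' ≤ 2 * ε) :
    ∃ V ⊆ Finset.range N, ∃ C : Finset ℕ, C.card ≤ M ∧ Few N C V ∧ ∀ i < M, |F i V| ≤ ε := by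
  classical
  by_contra hcon
  push Not at hcon
  set T := N - M with hT
  set p : SV → ℕ := fun X => Nat.findGreatest (Alt X) T with hp0
  have p_spec : ∀ X, Alt X (p X) := fun X =>
    Nat.findGreatest_spec (P := Alt X) (Nat.zero_le _) ⟨[], List.Pairwise.nil, trivial, rfl⟩
  have p_le : ∀ X, p X ≤ T := fun X => Nat.findGreatest_le _
  have p_ge : ∀ X j, j ≤ T → Alt X j → j ≤ p X := fun X j h1 h2 => Nat.le_findGreatest h1 h2
  have p_mono : ∀ X Y, X ≤ Y → p X ≤ p Y := by
    intro X Y h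
    obtain ⟨L, h1, h2, h3⟩ := p_spec X
    exact p_ge Y _ (p_le X) ⟨L, h1, h2.mono h, h3⟩
  set S : SV → Set ℕ := fun X => {v | ∃ i < M, ∃ V, Ext N X V ∧
    ((v = i ∧ F i V < -ε) ∨ (v = i + 1 ∧ ε < F i V))} with hS
  have S_anti : ∀ X Y, X ≤ Y → S Y ⊆ S X := by
    rintro X Y h v ⟨i, hi, V, hV, hv⟩
    exact ⟨i, hi, V, hV.anti h, hv⟩
  have S_le : ∀ X, ∀ v ∈ S X, v ≤ M := by
    rintro X v ⟨i, hi, V, -, hv⟩
    omega
  have high : ∀ X, Good N X → (p X = T ∨ p X.swap = T) →
      ∃ C : Finset ℕ, C.card ≤ M ∧ (∀ V, Ext N X V → Few N C V) ∧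
        ∀ V V', Ext N X V → Ext N X V' → V \ V' ⊆ C := by
    intro X hX h
    refine high_spec' hX (h.imp (fun h => ?_) (fun h => ?_))
    · rw [← hT, ← h]; exact p_spec X
    · rw [← hT, ← h]; exact p_spec X.swap
  have S_ne : ∀ X, Good N X → (p X = T ∨ p X.swap = T) → (S X).Nonempty := by
    intro X hX h
    obtain ⟨C, c1, c2, -⟩ := high X hX h
    obtain ⟨V, hV⟩ := exists_ext hX
    obtain ⟨i, hi, hF⟩ := hcon V hV.1 C c1 (c2 V hV)
    rcases lt_abs.1 hF with h | h
    · exact ⟨i + 1, i, hi, V, hV, Or.inr ⟨rfl, h⟩⟩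
    · exact ⟨i, i, hi, V, hV, Or.inl ⟨rfl, by linarith⟩⟩
  set q : SV → ℕ := fun X => sInf (S X) with hq
  set w : SV → ℕ := fun X => if p X = T ∨ p X.swap = T then T - 1 + q X else p X with hw
  refine (tucker N (by omega) w ?_ ?_).elim ?_
  rotate_left 2
  · rintro X ⟨hX, hX'⟩
    have h2 := p_le X
    simp only [hw] at hX'
    split_ifs at hX' with h
    · have h1 : q X ≤ M := S_le X _ (Nat.sInf_mem (S_ne X hX h))
      omega
    · omega
  · intro X Y _ hY h
    have h1 := p_mono X Y h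
    have h2 := p_mono X.swap Y.swap ⟨h.2, h.1⟩
    have h4 := p_le X
    have h5 := p_le Y
    have h6 := p_le Y.swap
    simp only [hw]
    split_ifs with a1 a2 a2
    · have h3 : q X ≤ q Y := Nat.sInf_le (S_anti X Y h (Nat.sInf_mem (S_ne Y hY a2)))
      omega
    · omega
    · omega
    · omega
  · intro X hX
    simp only [hw, Prod.swap_swap]
    by_cases h : p X = T ∨ p X.swap = T
    · rw [if_pos h, if_pos h.symm]
      intro e
      have e' : q X = q X.swap := by omega
      have h' : p X.swap = T ∨ p X.swap.swap = T := by simpa using h.symm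
      obtain ⟨C, c1, -, c3⟩ := high X hX h
      obtain ⟨i, hi, V, hV, hv⟩ := Nat.sInf_mem (S_ne X hX h)
      obtain ⟨i', hi', V', hV', hv'⟩ := Nat.sInf_mem (S_ne X.swap hX.swap h')
      have hW : Ext N X (Finset.range N \ V') := by simpa using hV'.swap hX.swap
      have o1 := hodd i V hV.1
      have o2 := hodd i' V' hV'.1
      change (q X = i ∧ _) ∨ (q X = i + 1 ∧ _) at hv
      change (q X.swap = i' ∧ _) ∨ (q X.swap = i' + 1 ∧ _) at hv'
      rcases hv with hv | hv
      · rcases hv' with hv' | hv'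
        · have ei : i' = i := by omega
          subst ei
          have := hlip i' _ hW.1 V hV.1 C c1 (c3 _ _ hW hV) (c3 _ _ hV hW)
          linarith [hv.2, hv'.2]
        · have : q X ≤ i' := Nat.sInf_le ⟨i', hi', _, hW, Or.inl ⟨rfl, by linarith [hv'.2]⟩⟩
          omega
      · have : q X.swap ≤ i :=
          Nat.sInf_le ⟨i, hi, _, hV.swap hX, Or.inl ⟨rfl, by linarith [hv.2]⟩⟩
        omega
    · rw [if_neg h, if_neg (fun h' => h h'.symm)]
      intro e
      have h1 := p_le X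
      rcases Alt.succ hX (p_spec X) (e ▸ p_spec X.swap) with h2 | h2
      · have := p_ge _ _ (by omega) h2; omega
      · have := p_ge _ _ (by omega) h2; omega

end Pool.Agent.Lib.MP_d46fce_co
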