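import Pool.Agent.Lib.MP_d46fce_co.Prod
import Pool.Agent.Lib.MP_d46fce_co.Cube

/-!
The core inequality: discrete Borsuk-Ulam plus an exponential moment bound.
-/

namespace Pool.Agent.Lib.MP_d46fce_co

/-- the fraction of block `x` (of length `K`) that lies in `V` -/
noncomputable def frac (K : ℕ) (V : Finset ℕ) (x : ℕ) : ℝ :=
  (((Finset.range K).filter (fun j => x * K + j ∈ V)).card : ℝ) / K

theorem frac_mem (K : ℕ) (V : Finset ℕ) (x : ℕ) : 0 ≤ frac K V x ∧ frac K V x ≤ 1 := by
  refine ⟨by unfold frac; positivity, ?_⟩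
  unfold frac
  refine div_le_one_of_le₀ ?_ (by positivity)
  have := Finset.card_filter_le (Finset.range K) (fun j => x * K + j ∈ V)
  rw [Finset.card_range] at this
  exact_mod_cast this

theorem frac_compl {N K : ℕ} (hK : 0 < K) (V : Finset ℕ) {x : ℕ} (hx : x < N) :
    frac K (Finset.range (N * K) \ V) x = 1 - frac K V x := by
  unfold frac
  have h1 := Finset.card_filter_add_card_filter_not (s := Finset.range K) (fun j => x * K + j ∈ V)
  have h2 : (Finset.range K).filter (fun j => x * K + j ∈ Finset.range (N * K) \ V) =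
      (Finset.range K).filter (fun j => ¬ x * K + j ∈ V) := by
    refine Finset.filter_congr fun j hj => ?_
    have := Finset.mem_range.1 hj
    have h3 : x * K + j < N * K := by nlinarith
    simp [h3]
  rw [h2, Finset.card_range] at *
  have hK' : (0 : ℝ) < K := by exact_mod_cast hK
  have h3 : (((Finset.range K).filter (fun j => x * K + j ∈ V)).card : ℝ) +
      (((Finset.range K).filter (fun j => ¬ x * K + j ∈ V)).card : ℝ) = K := by exact_mod_cast h1
  field_simp
  linarith

theorem frac_sub (K : ℕ) (V V' C : Finset ℕ) (h : V \ V' ⊆ C) (x : ℕ) :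
    frac K V x - frac K V' x ≤ frac K C x := by
  unfold frac
  rw [← sub_div]
  refine div_le_div_of_nonneg_right ?_ (by positivity)
  have h1 : ((Finset.range K).filter (fun j => x * K + j ∈ V)).card ≤
      ((Finset.range K).filter (fun j => x * K + j ∈ V')).card +
      ((Finset.range K).filter (fun j => x * K + j ∈ C)).card := by
    refine le_trans (Finset.card_le_card fun j hj => ?_) (Finset.card_union_le _ _)
    simp only [Finset.mem_filter, Finset.mem_union] at hj ⊢
    by_cases h2 : x * K + j ∈ V'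
    · exact Or.inl ⟨hj.1, h2⟩
    · exact Or.inr ⟨hj.1, h (Finset.mem_sdiff.2 ⟨hj.2, h2⟩)⟩
  have h2 : (((Finset.range K).filter (fun j => x * K + j ∈ V)).card : ℝ) ≤
      ((Finset.range K).filter (fun j => x * K + j ∈ V')).card +
      ((Finset.range K).filter (fun j => x * K + j ∈ C)).card := by exact_mod_cast h1
  linarith

theorem frac_sum (N K : ℕ) (C : Finset ℕ) :
    ∑ x ∈ Finset.range N, frac K C x ≤ (C.card : ℝ) / K := by
  unfold frac
  rw [← Finset.sum_div]
  refine div_le_div_of_nonneg_right ?_ (by positivity)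
  have h1 : ∑ x ∈ Finset.range N, ((Finset.range K).filter (fun j => x * K + j ∈ C)).card ≤
      C.card := by
    rw [← Finset.card_sigma]
    refine Finset.card_le_card_of_injOn (fun p => p.1 * K + p.2) (fun p hp => ?_) ?_
    · simp only [Finset.coe_sigma, Set.mem_sigma_iff, Finset.mem_coe, Finset.mem_filter] at hp
      exact hp.2.2
    · rintro ⟨x, j⟩ hp ⟨x', j'⟩ hp' e
      simp only [Finset.coe_sigma, Set.mem_sigma_iff, Finset.mem_coe, Finset.mem_filter,
        Finset.mem_range] at hp hp' e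
      have e1 : x = x' := by
        rcases lt_trichotomy x x' with h | h | h
        · nlinarith [hp.2.1, hp'.2.1]
        · exact h
        · nlinarith [hp.2.1, hp'.2.1]
      subst e1
      have e2 : j = j' := by omega
      subst e2
      rfl
  exact_mod_cast h1

theorem pure_block {N K : ℕ} {C V : Finset ℕ} (h : Few (N * K) C V) {x : ℕ} (hx : x < N)
    (hC : ∀ c ∈ C, c / K ≠ x) : ∀ j < K, (x * K + j ∈ V ↔ x * K ∈ V) := by
  have hn : ∀ j < K, x * K + j ∉ C := by
    intro j hj hc
    refine hC _ hc ?_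
    rw [add_comm, Nat.add_mul_div_right _ _ (by omega), Nat.div_eq_of_lt hj, zero_add]
  intro j
  induction j with
  | zero => simp
  | succ j ih =>
    intro hj
    rw [← ih (by omega), ← add_assoc]
    exact (h _ (by nlinarith) (hn j (by omega)) (hn (j + 1) hj)).symm

theorem frac_pure {N K : ℕ} (hK : 0 < K) {C V : Finset ℕ} (h : Few (N * K) C V) {x : ℕ}
    (hx : x < N) (hC : ∀ c ∈ C, c / K ≠ x) : frac K V x = if x * K ∈ V then 1 else 0 := by
  have h1 := pure_block h hx hC
  unfold frac
  split_ifs with h2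
  · rw [Finset.filter_true_of_mem (fun j hj => (h1 j (Finset.mem_range.1 hj)).2 h2),
      Finset.card_range]
    exact div_self (by positivity)
  · rw [Finset.filter_false_of_mem (fun j hj h3 => h2 ((h1 j (Finset.mem_range.1 hj)).1 h3))]
    simp

theorem pure_next {N K : ℕ} (hK : 0 < K) {C V : Finset ℕ} (h : Few (N * K) C V) {x : ℕ}
    (hx : x + 1 < N) (hC : ∀ c ∈ C, c / K ≠ x) (hC' : ∀ c ∈ C, c / K ≠ x + 1) :
    (x * K ∈ V ↔ (x + 1) * K ∈ V) := by
  obtain ⟨J, rfl⟩ : ∃ J, K = J + 1 := ⟨K - 1, by omega⟩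
  rw [← pure_block h (by omega) hC J (by omega)]
  have e : (x + 1) * (J + 1) = x * (J + 1) + J + 1 := by ring
  rw [e]
  refine h _ (by nlinarith) (fun hc => hC _ hc ?_) (fun hc => hC' _ hc ?_)
  · rw [add_comm, Nat.add_mul_div_right _ _ (by omega), Nat.div_eq_of_lt (by omega), zero_add]
  · rw [← e, Nat.mul_div_cancel _ (by omega)]

theorem list_range_sum (N : ℕ) (f : ℕ → ℝ) :
    ((List.range N).map f).sum = ∑ x ∈ Finset.range N, f x := by
  induction N with
  | zero => simp
  | succ N ih => rw [List.range_succ, List.map_append, List.sum_append, ih, Finset.sum_range_succ]; simp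

/-- a product measure with few fractional coordinates that balances all the functions `g i` -/
theorem balance (N M : ℕ) (hN : 1 ≤ N) (hM : 1 ≤ M) (t : ℝ) (g : ℕ → Finset ℕ → ℝ)
    (hg : ∀ i, Lip (g i)) (ht : ∀ i P Q, Disjoint P Q → t ≤ g i P + g i Q) :
    ∃ (y : ℕ → ℝ) (B : Finset ℕ) (u : ℕ → Prop), (∀ x, 0 ≤ y x ∧ y x ≤ 1) ∧ B.card ≤ M ∧
      B ⊆ Finset.range N ∧ (∀ x < N, x ∉ B → (u x → y x = 1) ∧ (¬ u x → y x = 0)) ∧
      (∀ x, x + 1 < N → x ∉ B → x + 1 ∉ B → (u x ↔ u (x + 1))) ∧
      ∀ i < M, t / 2 - 1 / 4 ≤ Ex y (List.range N) (g i) ∧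
        t / 2 - 1 / 4 ≤ Ex (fun x => 1 - y x) (List.range N) (g i) := by
  classical
  set K := 2 * M with hK
  have hK0 : 0 < K := by omega
  set L := List.range N with hL
  have hc : ∀ V x, 0 ≤ 1 - frac K V x ∧ 1 - frac K V x ≤ 1 := fun V x => by
    have := frac_mem K V x
    constructor <;> linarith
  obtain ⟨V, -, C, c1, c2, c3⟩ := cube_zero (N * K) M (by nlinarith) (1 / 2)
    (fun i V => Ex (frac K V) L (g i) - Ex (fun x => 1 - frac K V x) L (g i)) (by
      intro i V _
      rw [Ex_congr_prob (frac K (Finset.range (N * K) \ V)) (fun x => 1 - frac K V x) L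
          (fun x hx => frac_compl hK0 V (List.mem_range.1 hx)),
        Ex_congr_prob (fun x => 1 - frac K (Finset.range (N * K) \ V) x) (frac K V) L
          (fun x hx => by rw [frac_compl hK0 V (List.mem_range.1 hx)]; ring)]
      ring) (by
      intro i V _ V' _ C hC h1 h2
      have a1 := abs_le.1 (Ex_lip _ _ L (frac_mem K V) (frac_mem K V') _ (hg i))
      have a2 := abs_le.1 (Ex_lip _ _ L (hc V) (hc V') _ (hg i))
      rw [hL, list_range_sum] at a1 a2
      have b0 : ∀ x, |frac K V x - frac K V' x| ≤ frac K C x := fun x =>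
        abs_le.2 ⟨by have := frac_sub K V' V C h2 x; linarith, frac_sub K V V' C h1 x⟩
      have b1 : ∑ x ∈ Finset.range N, |frac K V x - frac K V' x| ≤ (C.card : ℝ) / K :=
        (Finset.sum_le_sum fun x _ => b0 x).trans (frac_sum N K C)
      have b2 : ∑ x ∈ Finset.range N, |1 - frac K V x - (1 - frac K V' x)| ≤ (C.card : ℝ) / K := by
        refine le_trans (le_of_eq (Finset.sum_congr rfl fun x _ => ?_)) b1
        rw [abs_sub_comm]; congr 1; ring
      have b3 : (C.card : ℝ) / K ≤ 1 / 2 := by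
        rw [div_le_div_iff₀ (by exact_mod_cast hK0) (by norm_num), hK]
        have : (C.card : ℝ) ≤ M := by exact_mod_cast hC
        push_cast; linarith
      rw [← hL] at a1 a2
      linarith [a1.2, a2.1])
  set B := (Finset.range N).filter (fun x => ∃ c ∈ C, c / K = x) with hB
  have hB' : ∀ x < N, x ∉ B → ∀ c ∈ C, c / K ≠ x := fun x hx h c hc e =>
    h (Finset.mem_filter.2 ⟨Finset.mem_range.2 hx, c, hc, e⟩)
  refine ⟨frac K V, B, fun x => x * K ∈ V, frac_mem K V, ?_, Finset.filter_subset _ _, ?_, ?_, ?_⟩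
  · refine le_trans (Finset.card_le_card (t := C.image (· / K)) fun x hx => ?_)
      (Finset.card_image_le.trans c1)
    obtain ⟨c, hc, e⟩ := (Finset.mem_filter.1 hx).2
    exact Finset.mem_image.2 ⟨c, hc, e⟩
  · intro x hx h
    rw [frac_pure hK0 c2 hx (hB' x hx h)]
    exact ⟨fun h => if_pos h, fun h => if_neg h⟩
  · intro x hx h1 h2
    exact pure_next hK0 c2 hx (hB' x (by omega) h1) (hB' _ hx h2)
  · intro i hi
    have h1 := abs_le.1 (c3 i hi)
    have h2 := Ex_couple (frac K V) (fun x => 1 - frac K V x) L List.nodup_range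
      (fun x => (frac_mem K V x).1) (fun x => (hc V x).1) (fun x => by simp) t (g i) (g i)
      (fun P Q h => ht i P Q h.2.2.1)
    constructor <;> linarith [h1.1, h1.2]

theorem core (n k M D : ℕ) (t : ℝ) (hn : 1 ≤ n) (hM : 1 ≤ M) (ht1 : 1 ≤ t)
    (hD : M ≤ D ∨ 2 * n + k ≤ D) (hkD : (k : ℝ) + 2 + t / 2 ≤ 2 * D)
    (g : ℕ → Finset ℕ → ℝ) (hg : ∀ i, Lip (g i))
    (ht : ∀ i P Q, Disjoint P Q → t ≤ g i P + g i Q)
    (hcov : ∀ P ⊆ Finset.range (2 * n + k), n ≤ P.card → ∀ B : Finset ℕ, B.card ≤ M →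
      Few (2 * n + k) B P → ∃ i < M, g i P ≤ 0) :
    t * (k + t) ≤ 16 * D * Real.log (4 * M) := by
  classical
  set N := 2 * n + k with hN
  obtain ⟨y, B, u, y1, B1, B2, y2, y3, y4⟩ := balance N M (by omega) hM t g hg ht
  set L := List.range N with hL
  have hBD : (B.card : ℝ) ≤ D := by
    have := Finset.card_le_card B2
    rw [Finset.card_range] at this
    exact_mod_cast (show B.card ≤ D by omega)
  have hk0 : (0 : ℝ) ≤ k := by positivity
  have hD0 : (0 : ℝ) < D := by linarith
  set τ : ℝ := t / 2 - 1 / 4 with hτ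
  have τ0 : 0 < τ := by linarith
  set p : ℝ := (k + 2) / (2 * D) with hp
  set s : ℝ := τ / (2 * D) with hs
  have p0 : 0 ≤ p := by positivity
  have s0 : 0 ≤ s := by positivity
  have ps : p + s ≤ 1 := by
    rw [hp, hs, ← add_div, div_le_one (by positivity)]; linarith
  set θ : ℕ → ℝ := fun x => if x ∈ B then 1 - p else 1 with hθ
  have θ1 : ∀ x, 0 ≤ θ x ∧ θ x ≤ 1 := fun x => by
    simp only [hθ]; split_ifs <;> constructor <;> linarith
  set ψ : ℕ → ℝ := fun x => if x ∈ B then (p + s) * s else 0 with hψ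
  have ψs : (L.map ψ).sum ≤ (p + s) * (τ / 2) := by
    rw [hL, list_range_sum, hψ]
    simp only [Finset.sum_ite_mem, Finset.sum_const, nsmul_eq_mul]
    have h1 : ((Finset.range N ∩ B).card : ℝ) ≤ D :=
      le_trans (by exact_mod_cast Finset.card_le_card Finset.inter_subset_right) hBD
    have h2 : (D : ℝ) * s = τ / 2 := by rw [hs]; field_simp
    calc _ ≤ (D : ℝ) * ((p + s) * s) := mul_le_mul_of_nonneg_right h1 (by positivity)
      _ = (p + s) * (D * s) := by ring
      _ = _ := by rw [h2]
  have hexp : ∀ z : ℕ → ℝ, (∀ x, 0 ≤ z x ∧ z x ≤ 1) → (∀ x < N, x ∉ B → z x = 0 ∨ z x = 1) →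
      ∀ i, τ ≤ Ex z L (g i) → Ex (fun x => θ x * z x) L (fun P => Real.exp (-((p + s) * g i P))) ≤
        Real.exp (-((p + s) * (τ / 2))) := by
    intro z z1 z2 i hi
    refine (Ex_exp (fun x => θ x * z x) z ψ (p + s) L (fun x => ?_) z1 ?_ (g i) (hg i)).trans ?_
    · have := θ1 x
      have := z1 x
      constructor <;> nlinarith
    · intro x hx δ h0 h1
      simp only [hθ, hψ]
      split_ifs with hxB
      · exact two_point p s (z x) δ p0 s0 ps (z1 x).1 (z1 x).2 h0 h1
      · rcases z2 x (List.mem_range.1 hx) hxB with h | h <;> simp [h]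
    · refine Real.exp_le_exp.2 ?_
      have : (p + s) * τ ≤ (p + s) * Ex z L (g i) := mul_le_mul_of_nonneg_left hi (by positivity)
      linarith
  have y1' : ∀ x, 0 ≤ 1 - y x ∧ 1 - y x ≤ 1 := fun x => by
    have := y1 x
    constructor <;> linarith
  set f : Finset ℕ → ℝ := fun P => ∑ i ∈ Finset.range M, Real.exp (-((p + s) * g i P)) +
    (-(1 / (k + 2))) * (P.card : ℝ) with hf
  have key := Ex_couple (fun x => θ x * y x) (fun x => θ x * (1 - y x)) L List.nodup_range
    (fun x => mul_nonneg (θ1 x).1 (y1 x).1) (fun x => mul_nonneg (θ1 x).1 (y1' x).1)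
    (fun x => by have := (θ1 x).2; linarith) (1 - N / (k + 2)) f f (by
      intro P Q hr
      have hP : P ⊆ Finset.range N := fun x hx => Finset.mem_range.2 (List.mem_range.1 (hr.1 x hx).1)
      have hQ : Q ⊆ Finset.range N :=
        fun x hx => Finset.mem_range.2 (List.mem_range.1 (hr.2.1 x hx).1)
      have hPQ : P.card + Q.card ≤ N := by
        rw [← Finset.card_union_of_disjoint hr.2.2.1]
        exact (Finset.card_le_card (Finset.union_subset hP hQ)).trans (Finset.card_range _).le
      have hu : ∀ x < N, x ∉ B → (x ∈ P ↔ u x) ∧ (x ∈ Q ↔ ¬ u x) := by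
        intro x hx hxB
        have h1 := hr.2.2.2 x (List.mem_range.2 hx) (by simp [hθ, hxB])
        have h2 : x ∈ P → u x := fun h => by
          by_contra h3
          exact (hr.1 x h).2 (by simp [(y2 x hx hxB).2 h3])
        have h3 : x ∈ Q → ¬ u x := fun h h3 => (hr.2.1 x h).2 (by simp [(y2 x hx hxB).1 h3])
        tauto
      have pos : ∀ R : Finset ℕ, 0 ≤ ∑ i ∈ Finset.range M, Real.exp (-((p + s) * g i R)) :=
        fun R => Finset.sum_nonneg fun i _ => (Real.exp_pos _).le
      have one : ∀ R ⊆ Finset.range N, n ≤ R.card → Few N B R →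
          1 ≤ ∑ i ∈ Finset.range M, Real.exp (-((p + s) * g i R)) := by
        intro R h1 h2 h3
        obtain ⟨i, hi, h4⟩ := hcov R h1 h2 B B1 h3
        refine le_trans ?_ (Finset.single_le_sum (f := fun i => Real.exp (-((p + s) * g i R)))
          (fun i _ => (Real.exp_pos _).le) (Finset.mem_range.2 hi))
        refine Real.one_le_exp ?_
        have : 0 ≤ p + s := by positivity
        nlinarith
      have hk2 : (0 : ℝ) < k + 2 := by positivity
      have e : ∀ a b : ℝ, -(1 / (k + 2)) * a + -(1 / (k + 2)) * b = -((a + b) / (k + 2)) := by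
        intro a b; field_simp; ring
      have e1 := e P.card Q.card
      simp only [hf]
      by_cases hbig : n ≤ P.card ∨ n ≤ Q.card
      · have h1 : ((P.card : ℝ) + Q.card) / (k + 2) ≤ N / (k + 2) :=
          div_le_div_of_nonneg_right (by exact_mod_cast hPQ) hk2.le
        rcases hbig with h | h
        · have := one P hP h (fun x hx a b => by
            rw [(hu x (by omega) a).1, (hu _ hx b).1]; exact y3 x hx a b)
          linarith [pos Q]
        · have := one Q hQ h (fun x hx a b => by
            rw [(hu x (by omega) a).2, (hu _ hx b).2, y3 x hx a b])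
          linarith [pos P]
      · have h1 : ((P.card : ℝ) + Q.card) / (k + 2) ≤ N / (k + 2) - 1 := by
          rw [le_sub_iff_add_le, div_add_one hk2.ne']
          refine div_le_div_of_nonneg_right ?_ hk2.le
          exact_mod_cast (show P.card + Q.card + (k + 2) ≤ N by omega)
        linarith [pos P, pos Q])
  simp only [hf] at key
  rw [Ex_add, Ex_add, Ex_sum, Ex_sum, Ex_mul, Ex_mul, Ex_card _ _ List.nodup_range,
    Ex_card _ _ List.nodup_range, list_range_sum, list_range_sum] at key
  have s1 : ∑ i ∈ Finset.range M, Ex (fun x => θ x * y x) L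
      (fun P => Real.exp (-((p + s) * g i P))) ≤ M * Real.exp (-((p + s) * (τ / 2))) := by
    refine (Finset.sum_le_sum fun i hi => hexp y y1 (fun x hx h => ?_) i
      (y4 i (Finset.mem_range.1 hi)).1).trans (by simp)
    have := y2 x hx h
    tauto
  have s2 : ∑ i ∈ Finset.range M, Ex (fun x => θ x * (1 - y x)) L
      (fun P => Real.exp (-((p + s) * g i P))) ≤ M * Real.exp (-((p + s) * (τ / 2))) := by
    refine (Finset.sum_le_sum fun i hi => hexp (fun x => 1 - y x) y1' (fun x hx h => ?_) i
      (y4 i (Finset.mem_range.1 hi)).2).trans (by simp)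
    have := y2 x hx h
    by_cases hux : u x
    · left; rw [this.1 hux]; ring
    · right; rw [this.2 hux]; ring
  have s3 : (N : ℝ) - (k + 2) / 2 ≤ ∑ x ∈ Finset.range N, θ x * y x +
      ∑ x ∈ Finset.range N, θ x * (1 - y x) := by
    rw [← Finset.sum_add_distrib]
    have e : ∀ x, θ x * y x + θ x * (1 - y x) = 1 - (if x ∈ B then p else 0) := fun x => by
      simp only [hθ]; split_ifs <;> ring
    simp only [e, Finset.sum_sub_distrib, Finset.sum_ite_mem, Finset.sum_const, nsmul_eq_mul,
      Finset.card_range, mul_one]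
    have h1 : ((Finset.range N ∩ B).card : ℝ) ≤ D :=
      le_trans (by exact_mod_cast Finset.card_le_card Finset.inter_subset_right) hBD
    have h2 : (D : ℝ) * p = (k + 2) / 2 := by rw [hp]; field_simp
    have := mul_le_mul_of_nonneg_right h1 p0
    linarith
  have hk2 : (0 : ℝ) < k + 2 := by positivity
  have s4 : -(1 / ((k : ℝ) + 2)) * ∑ x ∈ Finset.range N, θ x * y x +
      -(1 / ((k : ℝ) + 2)) * ∑ x ∈ Finset.range N, θ x * (1 - y x) ≤ 1 / 2 - N / (k + 2) := by
    have h1 := mul_le_mul_of_nonneg_left s3 (show (0 : ℝ) ≤ 1 / (k + 2) by positivity)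
    have h2 : 1 / ((k : ℝ) + 2) * (N - (k + 2) / 2) = N / (k + 2) - 1 / 2 := by field_simp
    linarith
  have s5 : 1 ≤ 4 * M * Real.exp (-((p + s) * (τ / 2))) := by linarith
  have hM' : (0 : ℝ) < 4 * M := by have : (1 : ℝ) ≤ M := by exact_mod_cast hM
                                   linarith
  have s6 : (p + s) * (τ / 2) ≤ Real.log (4 * M) := by
    have := Real.log_nonneg s5
    rw [Real.log_mul hM'.ne' (Real.exp_pos _).ne', Real.log_exp] at this
    linarith
  have s7 : (p + s) * (τ / 2) * (16 * D) = 4 * ((k + 2 + τ) * τ) := by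
    rw [hp, hs]; field_simp; ring
  have s8 := mul_le_mul_of_nonneg_right s6 (show (0 : ℝ) ≤ 16 * D by positivity)
  have s9 : t * (k + t) ≤ 4 * ((k + 2 + τ) * τ) := by
    rw [hτ]; nlinarith
  linarith

end Pool.Agent.Lib.MP_d46fce_co
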