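import Pool.Agent.Lib.MP_d46fce_co.Defs
import Pool.Agent.Shared.Schrijver

namespace Pool.Agent.Lib.MP_d46fce_co

open Pool.Agent.Shared.Schrijver

theorem card_vtx (n k : ℕ) : Fintype.card (Vtx n k) = (2 * n + k).choose n := by
  simp [Vtx, Fintype.card_finset_len]

theorem hm_le {m n k l q : ℕ}
    (h : ∀ W : Finset (Vtx n k), W.card = m → ∃ c : Vtx n k → ℕ, (∀ v ∈ W, c v < q) ∧
      ∀ u ∈ W, ∀ v ∈ W, (genKneser n k l).Adj u v → c u ≠ c v) : hm m n k l ≤ q := by
  refine Finset.sup_le fun W hW => ?_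
  obtain ⟨c, h1, h2⟩ := h W (Finset.mem_powersetCard.1 hW).2
  have hc : ((genKneser n k l).induce (W : Set (Vtx n k))).Colorable q :=
    ⟨SimpleGraph.Coloring.mk (fun v => (⟨c v.1, h1 v.1 v.2⟩ : Fin q))
      (fun {u v} huv e => h2 u.1 u.2 v.1 v.2 huv (congrArg Fin.val e))⟩
  exact ENat.toNat_le_of_le_natCast hc.chromaticNumber_le

theorem le_hm {m n k l q : ℕ} (W : Finset (Vtx n k)) (hW : W.card ≤ m)
    (hm' : m ≤ (2 * n + k).choose n)
    (h : ∀ c : Vtx n k → ℕ, (∀ u ∈ W, ∀ v ∈ W, (genKneser n k l).Adj u v → c u ≠ c v) →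
      q ≤ (W.image c).card) : q ≤ hm m n k l := by
  classical
  obtain ⟨W', h1, -, h3⟩ := Finset.exists_subsuperset_card_eq (Finset.subset_univ W) hW
    (by rw [Finset.card_univ, card_vtx]; exact hm')
  refine le_trans ?_ (Finset.le_sup (f := fun W : Finset (Vtx n k) =>
    ((genKneser n k l).induce (W : Set (Vtx n k))).chromaticNumber.toNat)
    (Finset.mem_powersetCard.2 ⟨Finset.subset_univ W', h3⟩))
  obtain ⟨C⟩ := ((genKneser n k l).induce (W' : Set (Vtx n k))).colorable_chromaticNumber_of_fintype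
  set c : Vtx n k → ℕ := fun v => if hv : v ∈ W' then (C ⟨v, hv⟩).val else 0 with hc
  refine (h c fun u hu v hv huv => ?_).trans ?_
  · simp only [hc, dif_pos (h1 hu), dif_pos (h1 hv)]
    intro e
    exact C.valid (v := ⟨u, h1 hu⟩) (w := ⟨v, h1 hv⟩) huv (Fin.ext e)
  · refine le_trans (Finset.card_le_card (t := Finset.range _) fun x hx => ?_)
      (Finset.card_range _).le
    obtain ⟨v, hv, rfl⟩ := Finset.mem_image.1 hx
    simp only [hc, dif_pos (h1 hv)]
    exact Finset.mem_range.2 (Fin.isLt _)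

theorem one_le_hm {m n k l : ℕ} (h1 : 1 ≤ m) (hm' : m ≤ (2 * n + k).choose n) :
    1 ≤ hm m n k l := by
  have : Nonempty (Vtx n k) := by
    rw [← Fintype.card_pos_iff, card_vtx]; omega
  obtain ⟨v⟩ := this
  exact le_hm {v} (by simpa using h1) hm' (fun c _ => by simp)

/-- joins of blown up Schrijver type graphs -/
theorem lower_or {m n k l a r t j : ℕ} (hl : l < n) (ha : 1 ≤ a) (hn : n ≤ l + t * a)
    (hs : l + j * ((2 * a + r) * t) ≤ 2 * n + k)
    (hm1 : j * (2 * (2 * a + r).choose r) ≤ m ∨ m = (2 * n + k).choose n)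
    (hm2 : m ≤ (2 * n + k).choose n) : j * (r + 2) ≤ hm m n k l := by
  classical
  obtain ⟨ι⟩ : Nonempty ((Fin l ⊕ Fin j × Fin (2 * a + r) × Fin t) ↪ Fin (2 * n + k)) :=
    Function.Embedding.nonempty_of_card_le (by simpa using hs)
  set L : Finset (Fin (2 * n + k)) := Finset.univ.image (fun x => ι (Sum.inl x)) with hL
  have hLc : L.card = l := by
    rw [hL, Finset.card_image_of_injective]
    · simp
    · exact ι.injective.comp Sum.inl_injective
  set B : Fin j → Finset ℕ → Finset (Fin (2 * n + k)) := fun β F =>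
    ((Finset.univ.filter (fun x : Fin (2 * a + r) => x.val ∈ F)) ×ˢ (Finset.univ : Finset (Fin t))).image
      (fun p => ι (Sum.inr (β, p))) with hB
  have hBc : ∀ β, ∀ F ∈ fam a r, (B β F).card = a * t := by
    intro β F hF
    simp only [hB]
    rw [Finset.card_image_of_injective, Finset.card_product]
    · congr 1
      · refine Eq.trans ?_ (fam_spec hF).1
        refine Finset.card_bij (fun x _ => x.val) (fun x hx => by simpa using hx)
          (fun x _ y _ e => Fin.ext e) (fun y hy => ?_)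
        exact ⟨⟨y, (fam_spec hF).2 y hy⟩, by simpa using hy, rfl⟩
      · simp
    · intro p p' e
      simpa using ι.injective e
  have hLB : ∀ β F, Disjoint L (B β F) := by
    intro β F
    refine Finset.disjoint_left.2 fun x h1 h2 => ?_
    obtain ⟨y, -, rfl⟩ := Finset.mem_image.1 h1
    obtain ⟨p, -, e⟩ := Finset.mem_image.1 h2
    simpa using ι.injective e
  have hBB : ∀ β F β' F', (β ≠ β' ∨ Disjoint F F') → Disjoint (B β F) (B β' F') := by
    intro β F β' F' h
    refine Finset.disjoint_left.2 fun x h1 h2 => ?_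
    obtain ⟨p, hp, rfl⟩ := Finset.mem_image.1 h1
    obtain ⟨p', hp', e⟩ := Finset.mem_image.1 h2
    have e' := ι.injective e
    simp only [Sum.inr.injEq, Prod.mk.injEq] at e'
    obtain ⟨rfl, rfl⟩ := e'
    rcases h with h | h
    · exact h rfl
    · simp only [Finset.mem_product, Finset.mem_filter, Finset.mem_univ, true_and, and_true] at hp hp'
      exact Finset.disjoint_left.1 h hp hp'
  obtain ⟨v0⟩ : Nonempty (Vtx n k) := by
    rw [← Fintype.card_pos_iff, card_vtx]; exact Nat.choose_pos (by omega)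
  have hex : ∀ β F, ∃ v : Vtx n k, F ∈ fam a r →
      ∃ S, S ⊆ B β F ∧ S.card = n - l ∧ v.1 = L ∪ S := by
    intro β F
    by_cases hF : F ∈ fam a r
    · obtain ⟨S, h1, h2⟩ := Finset.exists_subset_card_eq (s := B β F) (n := n - l)
        (by rw [hBc β F hF, mul_comm]; omega)
      refine ⟨⟨L ∪ S, ?_⟩, fun _ => ⟨S, h1, h2, rfl⟩⟩
      rw [Finset.card_union_of_disjoint (Finset.disjoint_of_subset_right h1 (hLB β F))]
      omega
    · exact ⟨v0, fun h => absurd h hF⟩
  choose φ hφ using hex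
  have hadj : ∀ β, ∀ F ∈ fam a r, ∀ β', ∀ F' ∈ fam a r, (β ≠ β' ∨ Disjoint F F') →
      (genKneser n k l).Adj (φ β F) (φ β' F') := by
    intro β F hF β' F' hF' h
    obtain ⟨S, s1, s2, s3⟩ := hφ β F hF
    obtain ⟨S', t1, t2, t3⟩ := hφ β' F' hF'
    have hd : Disjoint S S' :=
      Finset.disjoint_of_subset_left s1 (Finset.disjoint_of_subset_right t1 (hBB β F β' F' h))
    have hi : ((φ β F).1 ∩ (φ β' F').1).card ≤ l := by
      rw [s3, t3, ← hLc]
      refine Finset.card_le_card fun x hx => ?_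
      rw [Finset.mem_inter, Finset.mem_union, Finset.mem_union] at hx
      by_contra hxL
      exact Finset.disjoint_left.1 hd (hx.1.resolve_left hxL) (hx.2.resolve_left hxL)
    refine ⟨fun e => ?_, hi⟩
    rw [← e, Finset.inter_self, (φ β F).2] at hi
    omega
  refine le_hm ((Finset.univ ×ˢ fam a r).image (fun p : Fin j × Finset ℕ => φ p.1 p.2)) ?_ hm2 ?_
  · rcases hm1 with hm1 | hm1
    · refine Finset.card_image_le.trans (le_trans ?_ hm1)
      rw [Finset.card_product, Finset.card_univ, Fintype.card_fin]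
      exact Nat.mul_le_mul_left _ (card_fam a r)
    · rw [hm1, ← card_vtx]
      exact Finset.card_le_univ _
  · intro c hc
    have hmem : ∀ β, ∀ F ∈ fam a r, φ β F ∈
        (Finset.univ ×ˢ fam a r).image (fun p : Fin j × Finset ℕ => φ p.1 p.2) :=
      fun β F hF => Finset.mem_image.2 ⟨(β, F), by simp [hF], rfl⟩
    have h1 : ∀ β, r + 2 ≤ ((fam a r).image (fun F => c (φ β F))).card := fun β =>
      schrijver a r ha _ fun F hF F' hF' hd =>
        hc _ (hmem β F hF) _ (hmem β F' hF') (hadj β F hF β F' hF' (Or.inr hd))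
    have h2 : (Finset.univ.biUnion (fun β => (fam a r).image (fun F => c (φ β F)))).card =
        ∑ β, ((fam a r).image (fun F => c (φ β F))).card := by
      refine Finset.card_biUnion fun β _ β' _ hne => ?_
      refine Finset.disjoint_left.2 fun x h1 h2 => ?_
      obtain ⟨F, hF, rfl⟩ := Finset.mem_image.1 h1
      obtain ⟨F', hF', e⟩ := Finset.mem_image.1 h2
      exact hc _ (hmem β F hF) _ (hmem β' F' hF') (hadj β F hF β' F' hF' (Or.inl hne)) e.symm
    calc j * (r + 2) = ∑ _β : Fin j, (r + 2) := by simp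
      _ ≤ ∑ β, ((fam a r).image (fun F => c (φ β F))).card := Finset.sum_le_sum fun β _ => h1 β
      _ = _ := h2.symm
      _ ≤ _ := by
        refine Finset.card_le_card fun x hx => ?_
        obtain ⟨β, -, hx⟩ := Finset.mem_biUnion.1 hx
        obtain ⟨F, hF, rfl⟩ := Finset.mem_image.1 hx
        exact Finset.mem_image_of_mem c (hmem β F hF)

theorem lower {m n k l a r t j : ℕ} (hl : l < n) (ha : 1 ≤ a) (hn : n ≤ l + t * a)
    (hs : l + j * ((2 * a + r) * t) ≤ 2 * n + k) (hm1 : j * (2 * (2 * a + r).choose r) ≤ m)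
    (hm2 : m ≤ (2 * n + k).choose n) : j * (r + 2) ≤ hm m n k l :=
  lower_or hl ha hn hs (Or.inl hm1) hm2

/-- the whole graph needs at least `k + l + 2` colours -/
theorem top_lower {n k l r : ℕ} (hl : l < n) (hr : r ≤ k + l) :
    r + 2 ≤ hm ((2 * n + k).choose n) n k l := by
  have := lower_or (m := (2 * n + k).choose n) (k := k) (a := n - l) (r := r) (t := 1) (j := 1) hl
    (by omega) (by omega) (by omega) (Or.inr rfl) le_rfl
  omega

end Pool.Agent.Lib.MP_d46fce_co
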