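import Pool.Agent.Lib.MP_d46fce_co.Chain
import Pool.Agent.Lib.MP_d46fce_co.Lower

/-!
Upper bounds for `h_m(n; k, l)` from large independent sets: thinned majority classes and the
chaining argument.
-/

namespace Pool.Agent.Lib.MP_d46fce_co

open Finset

theorem greedy_aux {V : Type} [DecidableEq V] (G : SimpleGraph V) (m : ℕ) (p : ℝ) (hp : p ≤ 1)
    (h : ∀ W : Finset V, W.card ≤ m →
      ∃ I ⊆ W, (∀ u ∈ I, ∀ v ∈ I, ¬ G.Adj u v) ∧ p * W.card ≤ I.card) (s : ℕ) :
    ∀ W : Finset V, W.card ≤ m → ∃ R ⊆ W, (R.card : ℝ) ≤ W.card * (1 - p) ^ s ∧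
      ∃ c : V → ℕ, (∀ v ∈ W \ R, c v < s) ∧
        ∀ u ∈ W \ R, ∀ v ∈ W \ R, G.Adj u v → c u ≠ c v := by
  induction s with
  | zero => exact fun W _ => ⟨W, le_rfl, by simp, fun _ => 0, by simp, by simp⟩
  | succ s ih =>
    intro W hW
    obtain ⟨I, i1, i2, i3⟩ := h W hW
    obtain ⟨R, r1, r2, c, c1, c2⟩ := ih (W \ I)
      ((Finset.card_le_card Finset.sdiff_subset).trans hW)
    have hmem : ∀ v ∈ W \ R, v ∉ I → v ∈ (W \ I) \ R := fun v hv h =>
      Finset.mem_sdiff.2 ⟨Finset.mem_sdiff.2 ⟨(Finset.mem_sdiff.1 hv).1, h⟩,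
        (Finset.mem_sdiff.1 hv).2⟩
    refine ⟨R, r1.trans Finset.sdiff_subset, r2.trans ?_, fun v => if v ∈ I then s else c v,
      fun v hv => ?_, fun u hu v hv huv => ?_⟩
    · have b : (((W \ I).card + I.card : ℕ) : ℝ) = W.card := by
        exact_mod_cast Finset.card_sdiff_add_card_eq_card i1
      push_cast at b
      rw [pow_succ', ← mul_assoc]
      exact mul_le_mul_of_nonneg_right (by linarith) (pow_nonneg (by linarith) s)
    · dsimp only
      split_ifs with h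
      · omega
      · have := c1 v (hmem v hv h); omega
    · dsimp only
      split_ifs with h1 h2 h2
      · exact absurd huv (i2 u h1 v h2)
      · have := c1 v (hmem v hv h2); omega
      · have := c1 u (hmem u hu h1); omega
      · exact c2 u (hmem u hu h1) v (hmem v hv h2) huv

theorem hm_le_greedy (m n k l : ℕ) (x : ℝ) (hx : 0 ≤ x)
    (h : ∀ W : Finset (Vtx n k), W.card ≤ m → ∃ I ⊆ W,
      (∀ u ∈ I, ∀ v ∈ I, ¬ (genKneser n k l).Adj u v) ∧ Real.exp (-x) * W.card ≤ I.card) :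
    (hm m n k l : ℝ) ≤ 1 + Real.exp x * Real.log (1 + m) := by
  classical
  have m0 : (0 : ℝ) ≤ m := by positivity
  have L0 : 0 ≤ Real.log (1 + m) := Real.log_nonneg (by linarith)
  set s := ⌈Real.exp x * Real.log (1 + m)⌉₊ with hs
  have s1 : Real.exp x * Real.log (1 + m) ≤ s := Nat.le_ceil _
  have s2 : (s : ℝ) < Real.exp x * Real.log (1 + m) + 1 := Nat.ceil_lt_add_one (by positivity)
  have p1 : Real.exp (-x) ≤ 1 := Real.exp_le_one_iff.2 (by linarith)
  have key : hm m n k l ≤ s := by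
    refine hm_le fun W hW => ?_
    obtain ⟨R, -, r2, c, c1, c2⟩ := greedy_aux _ m _ p1 h s W hW.le
    have a1 : (1 - Real.exp (-x)) ^ s ≤ (1 + (m : ℝ))⁻¹ := by
      calc _ ≤ Real.exp (-Real.exp (-x)) ^ s :=
            pow_le_pow_left₀ (by linarith) (by linarith [Real.add_one_le_exp (-Real.exp (-x))]) s
        _ = Real.exp (-(Real.exp (-x) * s)) := by rw [← Real.exp_nat_mul]; congr 1; ring
        _ ≤ Real.exp (-Real.log (1 + m)) := by
            refine Real.exp_le_exp.2 (neg_le_neg ?_)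
            have := mul_le_mul_of_nonneg_left s1 (Real.exp_pos (-x)).le
            rwa [← mul_assoc, ← Real.exp_add, neg_add_cancel, Real.exp_zero, one_mul] at this
        _ = _ := by rw [Real.exp_neg, Real.exp_log (by linarith)]
    have a2 : (R.card : ℝ) < 1 := by
      rw [hW] at r2
      refine lt_of_le_of_lt (r2.trans (mul_le_mul_of_nonneg_left a1 m0)) ?_
      rw [← div_eq_mul_inv, div_lt_one (by linarith)]
      linarith
    have a3 : R = ∅ := Finset.card_eq_zero.1 (by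
      have : R.card < 1 := by exact_mod_cast a2
      omega)
    rw [a3, Finset.sdiff_empty] at c1 c2
    exact ⟨c, c1, c2⟩
  have : (hm m n k l : ℝ) ≤ s := by exact_mod_cast key
  linarith

theorem paley {H : Type} [Fintype H] [Nonempty H] (W : H → ℝ) (lam θ A B : ℝ) (hl : 0 ≤ lam)
    (hB0 : 0 < B) (hA : A * Fintype.card H ≤ ∑ h, Real.exp (lam * W h))
    (hB : ∑ h, Real.exp (2 * lam * W h) ≤ B * Fintype.card H)
    (hθ : 2 * Real.exp (lam * θ) ≤ A) :
    A ^ 2 / (4 * B) * Fintype.card H ≤ (univ.filter (fun h => θ ≤ W h)).card := by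
  classical
  set G := univ.filter (fun h => θ ≤ W h) with hG
  have c0 : (0 : ℝ) < Fintype.card H := by exact_mod_cast Fintype.card_pos
  have a1 := Finset.sum_filter_add_sum_filter_not univ (fun h => θ ≤ W h)
    (fun h => Real.exp (lam * W h))
  have a2 : ∑ h ∈ univ.filter (fun h => ¬ θ ≤ W h), Real.exp (lam * W h) ≤
      Fintype.card H * Real.exp (lam * θ) := by
    refine (Finset.sum_le_card_nsmul _ _ (Real.exp (lam * θ)) fun h hh => ?_).trans ?_
    · exact Real.exp_le_exp.2 (mul_le_mul_of_nonneg_left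
        (not_le.1 (Finset.mem_filter.1 hh).2).le hl)
    · rw [nsmul_eq_mul]
      refine mul_le_mul_of_nonneg_right ?_ (Real.exp_pos _).le
      exact_mod_cast Finset.card_le_univ _
  have a3 : A * Fintype.card H / 2 ≤ ∑ h ∈ G, Real.exp (lam * W h) := by nlinarith
  have a4 := sq_sum_le_card_mul_sum_sq (s := G) (f := fun h => Real.exp (lam * W h))
  have a5 : ∑ h ∈ G, Real.exp (lam * W h) ^ 2 ≤ B * Fintype.card H := by
    refine le_trans ?_ hB
    refine (Finset.sum_le_sum_of_subset_of_nonneg (Finset.subset_univ G)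
      fun _ _ _ => by positivity).trans (le_of_eq (Finset.sum_congr rfl fun h _ => ?_))
    rw [← Real.exp_nat_mul]; congr 1; push_cast; ring
  have A0 : 0 ≤ A := le_trans (by positivity) hθ
  have a6 := (pow_le_pow_left₀ (by positivity) a3 2).trans (a4.trans
    (mul_le_mul_of_nonneg_left a5 (by positivity)))
  rw [div_mul_eq_mul_div, div_le_iff₀ (by positivity)]
  refine le_of_mul_le_mul_right ?_ c0
  nlinarith

theorem cosh_ge (x : ℝ) : 1 + x ^ 2 / 2 ≤ Real.cosh x := by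
  wlog h : 0 ≤ x generalizing x
  · have := this (-x) (by linarith)
    rwa [Real.cosh_neg, neg_sq] at this
  have h1 : x / 2 ≤ Real.sinh (x / 2) := Real.self_le_sinh_iff.2 (by linarith)
  have h2 := Real.cosh_two_mul (x / 2)
  rw [Real.cosh_sq, show 2 * (x / 2) = x by ring] at h2
  nlinarith

theorem exp_half_le (x : ℝ) (h0 : 0 ≤ x) (h1 : x ≤ 1) : Real.exp (x / 2) ≤ 1 + x := by
  have := exp_small (x / 2) (by linarith) (by linarith)
  linarith

theorem anti_signs {N : ℕ} (a : Fin N → ℝ) (ha : ∀ i, |a i| = 1) (s : ℝ) (s1 : 1 ≤ s)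
    (s2 : 32 * s ≤ N) :
    2 * Real.exp (-(99 * s)) * 2 ^ N ≤
      (univ.filter (fun g => Real.sqrt (s * N) ≤ lin a g)).card := by
  have N0 : (0 : ℝ) < N := by linarith
  set θ := Real.sqrt (s * N) with hθ
  have θ0 : 0 ≤ θ := Real.sqrt_nonneg _
  have θ2 : θ ^ 2 = s * N := Real.sq_sqrt (by positivity)
  set lam := 8 * θ / N with hlam
  have l2 : lam ^ 2 = 64 * s / N := by rw [hlam, div_pow, mul_pow, θ2]; field_simp; norm_num
  have l3 : lam * θ = 8 * s := by
    rw [hlam, div_mul_eq_mul_div, mul_assoc, ← sq, θ2]; field_simp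
  have l4 : lam ^ 2 / 2 ≤ 1 := by rw [l2, div_div, div_le_one (by positivity)]; linarith
  have hc : (Fintype.card (Fin N → Bool) : ℝ) = 2 ^ N := by simp
  have key := paley (lin a) lam θ (Real.exp (16 * s)) (Real.exp (128 * s)) (by positivity)
    (Real.exp_pos _) ?_ ?_ ?_
  · rw [hc] at key
    refine le_trans (mul_le_mul_of_nonneg_right ?_ (by positivity)) key
    rw [le_div_iff₀ (by positivity), ← Real.exp_nat_mul]
    have e1 : Real.exp ((2 : ℕ) * (16 * s)) =
        Real.exp (3 * s) * (Real.exp (-(99 * s)) * Real.exp (128 * s)) := by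
      rw [← Real.exp_add, ← Real.exp_add]; congr 1; push_cast; ring
    have e2 : 8 ≤ Real.exp (3 * s) := by
      have b1 : (2 : ℝ) ≤ Real.exp s := by linarith [Real.add_one_le_exp s]
      have b2 := pow_le_pow_left₀ (by norm_num) b1 3
      rw [← Real.exp_nat_mul] at b2
      norm_num at b2 ⊢
      exact b2
    rw [e1]
    nlinarith [mul_pos (Real.exp_pos (-(99 * s))) (Real.exp_pos (128 * s))]
  · rw [hc, sum_exp_lin, mul_comm]
    refine mul_le_mul_of_nonneg_left ?_ (by positivity)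
    have e : Real.exp (16 * s) = ∏ _i : Fin N, Real.exp (lam ^ 2 / 2 / 2) := by
      rw [Finset.prod_const, Finset.card_univ, Fintype.card_fin, ← Real.exp_nat_mul, l2]
      congr 1; field_simp; norm_num
    rw [e]
    refine Finset.prod_le_prod (fun _ _ => (Real.exp_pos _).le) fun i _ => ?_
    refine (exp_half_le _ (by positivity) l4).trans (le_trans (le_of_eq ?_) (cosh_ge _))
    rw [mul_pow, ← sq_abs (a i), ha]; ring
  · rw [hc, mul_comm (Real.exp _)]
    refine (sum_exp_lin_le a (2 * lam) N (le_of_eq ?_)).trans (le_of_eq ?_)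
    · simp [← sq_abs (a _), ha]
    · rw [mul_pow, l2]; congr 2; field_simp; norm_num
  · rw [l3, show 16 * s = 8 * s + 8 * s by ring, Real.exp_add]
    exact mul_le_mul_of_nonneg_right (by linarith [Real.add_one_le_exp (8 * s)])
      (Real.exp_pos _).le

/-- the sign vector of a vertex -/
def chi {n k : ℕ} (A : Vtx n k) (i : Fin (2 * n + k)) : ℝ := if i ∈ A.1 then 1 else -1

theorem abs_chi {n k : ℕ} (A : Vtx n k) (i : Fin (2 * n + k)) : |chi A i| = 1 := by
  unfold chi; split_ifs <;> simp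

theorem chi_adj {n k l : ℕ} (A B : Vtx n k) (h : (genKneser n k l).Adj A B) :
    ∑ i, |chi A i + chi B i| ≤ 2 * (k + 2 * l) := by
  have e : ∀ i, |chi A i + chi B i| =
      (if i ∈ A.1 ∩ B.1 then 2 else 0) + (if i ∈ (A.1 ∪ B.1)ᶜ then 2 else 0) := by
    intro i
    unfold chi
    by_cases h1 : i ∈ A.1 <;> by_cases h2 : i ∈ B.1 <;> simp [h1, h2] <;> norm_num
  simp only [e, Finset.sum_add_distrib, Finset.sum_ite_mem, Finset.univ_inter, Finset.sum_const,
    nsmul_eq_mul]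
  have h1 := Finset.card_union_add_card_inter A.1 B.1
  have h2 := Finset.card_add_card_compl (A.1 ∪ B.1)
  rw [A.2, B.2] at h1
  rw [Fintype.card_fin] at h2
  have h3 := h.2
  have h4 : (A.1 ∩ B.1).card + ((A.1 ∪ B.1)ᶜ).card ≤ k + 2 * l := by omega
  have h5 : ((A.1 ∩ B.1).card : ℝ) + ((A.1 ∪ B.1)ᶜ).card ≤ k + 2 * l := by exact_mod_cast h4
  linarith

theorem log_le_card {m n k : ℕ} (h1 : 1 ≤ m) (h2 : m ≤ (2 * n + k).choose n) :
    Real.log m ≤ (2 * n + k : ℝ) * Real.log 2 := by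
  have h3 : (m : ℝ) ≤ 2 ^ (2 * n + k) := by
    exact_mod_cast h2.trans (Nat.choose_le_two_pow _ _)
  have := Real.log_le_log (by exact_mod_cast h1) h3
  rwa [Real.log_pow, Nat.cast_add, Nat.cast_mul, Nat.cast_ofNat] at this

theorem chain_upper {m n k l : ℕ} (hl : 1 ≤ l) (h1 : 1 ≤ m) (h2 : m ≤ (2 * n + k).choose n)
    (h : 120000 * (k + l + 1) ≤ 2 * n + k) :
    (hm m n k l : ℝ) ≤ 1 + Real.exp (99 * (1 + 13000000 * ((k + l + 1 : ℝ) / (2 * n + k)) ^ 2 *
      Real.log (2 * m))) * Real.log (1 + m) := by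
  have hN : ((2 * n + k : ℕ) : ℝ) = 2 * n + k := by push_cast; ring
  set N : ℝ := 2 * n + k with hN'
  set u : ℝ := k + l + 1 with hu
  have l1 : (1 : ℝ) ≤ l := by exact_mod_cast hl
  have k0 : (0 : ℝ) ≤ k := by positivity
  have u2 : 2 ≤ u := by linarith
  have h' : 120000 * u ≤ N := by rw [hu, hN']; exact_mod_cast h
  have N0 : 0 < N := by linarith
  have m1 : (1 : ℝ) ≤ m := by exact_mod_cast h1
  have lg0 : 0 < Real.log (2 * m) := Real.log_pos (by linarith)
  have lg1 : Real.log (2 * m) ≤ N + 1 := by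
    rw [Real.log_mul (by norm_num) (by linarith)]
    have := log_le_card h1 h2
    have := Real.log_two_lt_d9
    nlinarith
  set s : ℝ := 1 + 13000000 * (u / N) ^ 2 * Real.log (2 * m) with hs
  have s1 : 1 ≤ s := by rw [hs, le_add_iff_nonneg_right]; positivity
  have s2 : 32 * s ≤ N := by
    have a1 : u / N ≤ 1 / 120000 := by rw [div_le_div_iff₀ N0 (by norm_num)]; linarith
    have a2 : (u / N) ^ 2 * Real.log (2 * m) ≤ (1 / 120000) ^ 2 * (N + 1) := by gcongr
    rw [hs, mul_assoc]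
    linarith
  refine hm_le_greedy m n k l _ (by positivity) fun W hW => ?_
  set J := ⌊N / (101376 * u)⌋₊ with hJ
  have j1 : (J : ℝ) ≤ N / (101376 * u) := Nat.floor_le (by positivity)
  have j2 : N / (101376 * u) < J + 1 := Nat.lt_floor_add_one _
  have j3 : 1 ≤ J := Nat.le_floor (by
    rw [Nat.cast_one, le_div_iff₀ (by positivity)]; linarith)
  have j4 : (1 : ℝ) ≤ J := by exact_mod_cast j3
  have j5 : 256 * J * (4 * u) * 99 ≤ N := by
    rw [le_div_iff₀ (by positivity)] at j1; linarith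
  have j6 : N ≤ 202752 * u * J := by
    rw [div_lt_iff₀ (by positivity)] at j2; nlinarith
  have j7 : 0 < 256 * J * (4 * u) := by positivity
  have θ2 : Real.sqrt (s * (2 * n + k : ℕ)) ^ 2 = s * N := by
    rw [hN]; exact Real.sq_sqrt (by positivity)
  refine chain (genKneser n k l) chi abs_chi (4 * u) (by positivity)
    (fun A B hAB => (chi_adj A B hAB).trans (by linarith)) W (Real.sqrt (s * (2 * n + k : ℕ)))
    (Real.exp (-(99 * s))) J j3 (Real.exp_pos _) (Real.sqrt_pos.2 (by rw [hN]; positivity))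
    (fun v _ => anti_signs _ (abs_chi v) s s1 (by rw [hN]; exact s2)) ?_ ?_ ?_
  · rw [θ2]; nlinarith
  · rw [θ2, ← Real.exp_add, Real.one_le_exp_iff, ← sub_eq_neg_add, sub_nonneg, le_div_iff₀ j7]
    nlinarith
  · rw [θ2]
    have a1 : Real.log (2 * W.card) ≤ Real.log (2 * m) := by
      rcases Nat.eq_zero_or_pos W.card with h0 | h0
      · rw [h0]; simpa using lg0.le
      · have : (0 : ℝ) < W.card := by exact_mod_cast h0
        exact Real.log_le_log (by positivity) (by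
          have : (W.card : ℝ) ≤ m := by exact_mod_cast hW
          linarith)
    have a2 : s * N * N = N * N + 13000000 * u ^ 2 * Real.log (2 * m) := by
      rw [hs]; field_simp
    have a3 := mul_le_mul_of_nonneg_left j6 (show 0 ≤ s * N by positivity)
    refine lt_of_mul_lt_mul_left (a := 202752 * u) ?_ (by positivity)
    have a4 := mul_le_mul_of_nonneg_left a1 (show 0 ≤ 13000000 * u ^ 2 by positivity)
    have a5 : 0 ≤ u ^ 2 * Real.log (2 * m) := by positivity
    have a6 := mul_le_mul_of_nonneg_left a1 (show 0 ≤ u ^ 2 by positivity)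
    nlinarith [mul_pos N0 N0]

theorem prod_chi {n k : ℕ} (A : Vtx n k) (f : ℝ → ℝ) :
    ∏ i, f (chi A i) = (f 1 * f (-1)) ^ n * f (-1) ^ k := by
  have e : ∀ i, f (chi A i) = if i ∈ A.1 then f 1 else f (-1) := fun i => by
    unfold chi; split_ifs <;> rfl
  simp only [e]
  rw [Finset.prod_ite, Finset.prod_const, Finset.prod_const]
  have h1 : (univ.filter (fun i => i ∈ A.1)).card = n := by simp [A.2]
  have h2 := Finset.card_filter_add_card_filter_not (s := univ) (fun i => i ∈ A.1)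
  rw [h1, Finset.card_univ, Fintype.card_fin] at h2
  rw [h1, show (univ.filter (fun i => ¬ i ∈ A.1)).card = n + k by omega, mul_pow, pow_add, mul_assoc]

/-- the signed count of the selected points -/
noncomputable def sel {n k q : ℕ} (A : Vtx n k) (h : Fin (2 * n + k) → Fin (q + 1)) : ℝ :=
  ∑ i, if h i = 0 then chi A i else 0

theorem sel_inter {n k q : ℕ} (A B : Vtx n k) (h : Fin (2 * n + k) → Fin (q + 1)) :
    sel A h + sel B h ≤ 2 * (A.1 ∩ B.1).card := by
  unfold sel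
  rw [← Finset.sum_add_distrib]
  have e : (2 : ℝ) * (A.1 ∩ B.1).card = ∑ i, if i ∈ A.1 ∩ B.1 then 2 else 0 := by
    simp only [Finset.sum_ite_mem, Finset.univ_inter, Finset.sum_const, nsmul_eq_mul, mul_comm]
  rw [e]
  refine Finset.sum_le_sum fun i _ => ?_
  unfold chi
  by_cases h0 : h i = 0 <;> by_cases h1 : i ∈ A.1 <;> by_cases h2 : i ∈ B.1 <;>
    simp [h0, h1, h2]
  norm_num

theorem sum_exp_sel {n k q : ℕ} (A : Vtx n k) (lam ρ : ℝ) (hρ : ρ * (q + 1) = 1) :
    ∑ h : Fin (2 * n + k) → Fin (q + 1), Real.exp (lam * sel A h) =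
      (1 + ρ * (1 - ρ) * (2 * Real.cosh lam - 2)) ^ n * (1 + ρ * (Real.exp (-lam) - 1)) ^ k *
        Fintype.card (Fin (2 * n + k) → Fin (q + 1)) := by
  have h1 := sum_exp_pi (fun i (x : Fin (q + 1)) => lam * if x = 0 then chi A i else 0)
  simp only [sel, Finset.mul_sum]
  rw [h1]
  have h2 : ∀ i, ∑ x : Fin (q + 1), Real.exp (lam * if x = 0 then chi A i else 0) =
      (1 + ρ * (Real.exp (lam * chi A i) - 1)) * (q + 1) := by
    intro i
    rw [Fin.sum_univ_succ]
    simp only [if_true, Fin.succ_ne_zero, if_false, mul_zero, Real.exp_zero, Finset.sum_const,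
      Finset.card_univ, Fintype.card_fin, nsmul_eq_mul, mul_one]
    linear_combination (1 - Real.exp (lam * chi A i)) * hρ
  simp only [h2]
  rw [Finset.prod_mul_distrib, prod_chi A (fun c => 1 + ρ * (Real.exp (lam * c) - 1))]
  simp only [mul_one, mul_neg, Finset.prod_const, Finset.card_univ, Fintype.card_fin,
    Fintype.card_pi]
  push_cast
  congr 3
  have h3 : Real.exp lam * Real.exp (-lam) = 1 := by rw [← Real.exp_add]; simp
  rw [Real.cosh_eq]
  linear_combination ρ ^ 2 * h3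

theorem mgf_low (n k : ℕ) {ρ lam t : ℝ} (r0 : 0 ≤ ρ) (r2 : ρ ≤ 1 / 2) (r3 : ρ * k ≤ t)
    (l0 : 0 ≤ lam) (l1 : lam ≤ 1 / 2) :
    Real.exp (n * (ρ * (1 - ρ)) * lam ^ 2 / 2 - 2 * (lam * t)) ≤
      (1 + ρ * (1 - ρ) * (2 * Real.cosh lam - 2)) ^ n * (1 + ρ * (Real.exp (-lam) - 1)) ^ k := by
  have v0 : 0 ≤ ρ * (1 - ρ) := mul_nonneg r0 (by linarith)
  have v1 : ρ * (1 - ρ) ≤ 1 := by nlinarith
  generalize ρ * (1 - ρ) = v at v0 v1
  have l2 : lam ^ 2 ≤ 1 := by nlinarith
  have a1 : Real.exp (v * lam ^ 2 / 2) ≤ 1 + v * (2 * Real.cosh lam - 2) := by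
    refine (exp_half_le _ (by positivity) (mul_le_one₀ v1 (sq_nonneg _) l2)).trans ?_
    have := mul_le_mul_of_nonneg_left (show lam ^ 2 ≤ 2 * Real.cosh lam - 2 by
      linarith [cosh_ge lam]) v0
    linarith
  have a2 : Real.exp (-(2 * (ρ * lam))) ≤ 1 + ρ * (Real.exp (-lam) - 1) := by
    have b0 : 0 ≤ ρ * lam := by positivity
    have b2 : ρ * lam ≤ 1 / 4 := by nlinarith
    have b1 : Real.exp (-(2 * (ρ * lam))) ≤ 1 - ρ * lam := by
      generalize ρ * lam = y at b0 b2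
      rw [Real.exp_neg, inv_le_comm₀ (Real.exp_pos _) (by linarith), inv_eq_one_div,
        div_le_iff₀ (by linarith)]
      have c1 := mul_le_mul_of_nonneg_right (Real.add_one_le_exp (2 * y))
        (show 0 ≤ 1 - y by linarith)
      nlinarith [mul_nonneg b0 (show 0 ≤ 1 - 2 * y by linarith)]
    have := mul_le_mul_of_nonneg_left (Real.add_one_le_exp (-lam)) r0
    linarith
  refine le_trans ?_ (mul_le_mul (pow_le_pow_left₀ (Real.exp_pos _).le a1 n)
    (pow_le_pow_left₀ (Real.exp_pos _).le a2 k) (by positivity)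
    (pow_nonneg ((Real.exp_pos _).le.trans a1) n))
  rw [← Real.exp_nat_mul, ← Real.exp_nat_mul, ← Real.exp_add]
  refine Real.exp_le_exp.2 ?_
  have := mul_le_mul_of_nonneg_left r3 l0
  linarith

theorem mgf_up (n k : ℕ) {ρ lam : ℝ} (r0 : 0 ≤ ρ) (r2 : ρ ≤ 1 / 2) (l0 : 0 ≤ lam)
    (l1 : lam ≤ 1 / 2) :
    (1 + ρ * (1 - ρ) * (2 * Real.cosh (2 * lam) - 2)) ^ n *
      (1 + ρ * (Real.exp (-(2 * lam)) - 1)) ^ k ≤
      Real.exp (8 * (n * (ρ * (1 - ρ)) * lam ^ 2)) := by
  have v0 : 0 ≤ ρ * (1 - ρ) := mul_nonneg r0 (by linarith)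
  generalize ρ * (1 - ρ) = v at v0
  have a0 : 0 ≤ v * (2 * Real.cosh (2 * lam) - 2) :=
    mul_nonneg v0 (by linarith [Real.one_le_cosh (2 * lam)])
  have a1 : 1 + v * (2 * Real.cosh (2 * lam) - 2) ≤ Real.exp (8 * (v * lam ^ 2)) := by
    have b1 := (Real.cosh_le_exp_half_sq (2 * lam)).trans
      (exp_small _ (by positivity) (by nlinarith))
    have b2 := mul_le_mul_of_nonneg_left
      (show 2 * Real.cosh (2 * lam) - 2 ≤ 8 * lam ^ 2 by linarith) v0
    linarith [Real.add_one_le_exp (8 * (v * lam ^ 2))]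
  have a2 : 1 + ρ * (Real.exp (-(2 * lam)) - 1) ≤ 1 := by
    have : Real.exp (-(2 * lam)) ≤ 1 := Real.exp_le_one_iff.2 (by linarith)
    nlinarith
  have a3 : 0 ≤ 1 + ρ * (Real.exp (-(2 * lam)) - 1) := by
    nlinarith [Real.exp_pos (-(2 * lam))]
  refine (mul_le_mul (pow_le_pow_left₀ (by linarith) a1 n) (pow_le_one₀ a3 a2) (pow_nonneg a3 k)
    (by positivity)).trans (le_of_eq ?_)
  rw [mul_one, ← Real.exp_nat_mul]
  congr 1; ring

theorem sel_lam {x t y : ℝ} (t1 : 1 ≤ t) (x2 : 100 * t ≤ x) (x1 : t ^ 2 ≤ 4 * y * x) :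
    ∃ lam : ℝ, 0 ≤ lam ∧ lam ≤ 1 / 2 ∧ 3 * (lam * t) + 2 ≤ x * lam ^ 2 / 2 ∧
      x * lam ^ 2 ≤ 288 * y + 8 := by
  obtain ⟨σ, s1, s2⟩ : ∃ σ : ℝ, 10 ≤ σ ∧ σ ^ 2 = x :=
    ⟨Real.sqrt x, Real.le_sqrt_of_sq_le (by linarith), Real.sq_sqrt (by linarith)⟩
  have s0 : 0 < σ := by linarith
  have z0 : 0 ≤ t / σ := by positivity
  have l2 : x * ((6 * (t / σ) + 2) / σ) ^ 2 = (6 * (t / σ) + 2) ^ 2 := by rw [← s2]; field_simp
  refine ⟨(6 * (t / σ) + 2) / σ, by positivity, ?_, ?_, ?_⟩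
  · rw [div_le_iff₀ s0, ← le_sub_iff_add_le, ← mul_div_assoc, div_le_iff₀ s0]
    nlinarith
  · rw [l2, div_mul_eq_mul_div, mul_div_assoc]
    nlinarith
  · have a1 : (t / σ) ^ 2 ≤ 4 * y := by
      rw [div_pow, s2, div_le_iff₀ (by linarith)]
      exact x1
    rw [l2]
    nlinarith [sq_nonneg (3 * (t / σ) - 1)]

theorem sel_rho {n k t q : ℝ} (t1 : 1 ≤ t) (k0 : 0 ≤ k) (q3 : 1 ≤ q) (q1 : k ≤ (q + 1) * t)
    (q2 : (q + 1) * t ≤ 2 * (k + t)) (h : 400 * (k + t) ≤ n) :
    ∃ ρ : ℝ, 0 ≤ ρ ∧ ρ * (q + 1) = 1 ∧ ρ ≤ 1 / 2 ∧ ρ * k ≤ t ∧ 100 * t ≤ n * (ρ * (1 - ρ)) ∧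
      t ^ 2 ≤ 4 * (t * (k + t) / n) * (n * (ρ * (1 - ρ))) := by
  obtain ⟨ρ, r0, r1⟩ : ∃ ρ : ℝ, 0 < ρ ∧ ρ * (q + 1) = 1 :=
    ⟨1 / (q + 1), by positivity, by field_simp⟩
  have r2 : ρ ≤ 1 / 2 := by nlinarith
  have r3 : ρ * k ≤ t := by
    have := mul_le_mul_of_nonneg_left q1 r0.le
    rwa [← mul_assoc, r1, one_mul] at this
  have r4 : t ≤ ρ * (2 * (k + t)) := by
    have := mul_le_mul_of_nonneg_left q2 r0.le
    rwa [← mul_assoc, r1, one_mul] at this
  have v0 : ρ / 2 ≤ ρ * (1 - ρ) := by nlinarith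
  have n0 : 0 < n := by linarith
  have r5 : t ≤ 4 * (k + t) * (ρ * (1 - ρ)) := by
    have := mul_le_mul_of_nonneg_left v0 (show 0 ≤ 4 * (k + t) by positivity)
    linarith
  refine ⟨ρ, r0.le, r1, r2, r3, ?_, ?_⟩
  · have := mul_le_mul_of_nonneg_right h (show 0 ≤ ρ * (1 - ρ) by linarith)
    linarith
  · have e : 4 * (t * (k + t) / n) * (n * (ρ * (1 - ρ))) = t * (4 * (k + t) * (ρ * (1 - ρ))) := by
      field_simp
    rw [e, sq]
    exact mul_le_mul_of_nonneg_left r5 (by linarith)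

theorem anti_sel {n k l : ℕ} (h : 400 * (k + l + 1) ≤ n) (A : Vtx n k) :
    Real.exp (-(66 + 2304 * ((l + 1) * (k + l + 1) / n))) *
      Fintype.card (Fin (2 * n + k) → Fin (k / (l + 1) + 1 + 1)) ≤
      (univ.filter (fun g : Fin (2 * n + k) → Fin (k / (l + 1) + 1 + 1) =>
        (l + 1 : ℝ) ≤ sel A g)).card := by
  have q0 : 1 ≤ k / (l + 1) + 1 := Nat.le_add_left _ _
  have q1 : k ≤ (k / (l + 1) + 1 + 1) * (l + 1) := by
    have := Nat.lt_div_mul_add (a := k) (b := l + 1) (by omega)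
    nlinarith
  have q2 : (k / (l + 1) + 1 + 1) * (l + 1) ≤ 2 * (k + (l + 1)) := by
    have := Nat.div_mul_le_self k (l + 1)
    nlinarith
  generalize k / (l + 1) + 1 = q at q0 q1 q2
  have t1 : (1 : ℝ) ≤ l + 1 := by rw [le_add_iff_nonneg_left]; positivity
  obtain ⟨ρ, r0, r1, r2, r3, x2, x1⟩ := sel_rho (n := n) (k := k) (q := q) t1 (by positivity)
    (by exact_mod_cast q0) (by exact_mod_cast q1) (by exact_mod_cast q2) (by exact_mod_cast h)
  obtain ⟨lam, l0, l1, l3, l4⟩ := sel_lam t1 x2 x1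
  have l5 : 0 ≤ lam * (l + 1) := by positivity
  have key := paley (fun g : Fin (2 * n + k) → Fin (q + 1) => sel A g) lam (l + 1)
    (Real.exp (n * (ρ * (1 - ρ)) * lam ^ 2 / 2 - 2 * (lam * (l + 1))))
    (Real.exp (8 * (n * (ρ * (1 - ρ)) * lam ^ 2))) l0 (Real.exp_pos _)
    (by rw [sum_exp_sel A lam ρ r1]
        exact mul_le_mul_of_nonneg_right (mgf_low n k r0 r2 r3 l0 l1) (by positivity))
    (by rw [sum_exp_sel A (2 * lam) ρ r1]
        exact mul_le_mul_of_nonneg_right (mgf_up n k r0 r2 l0 l1) (by positivity))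
    (by refine le_trans ?_ (Real.exp_le_exp.2 (show 1 + lam * (l + 1) ≤ _ by linarith))
        rw [Real.exp_add]
        exact mul_le_mul_of_nonneg_right (by linarith [Real.add_one_le_exp 1])
          (Real.exp_pos _).le)
  refine le_trans (mul_le_mul_of_nonneg_right ?_ (by positivity)) key
  rw [le_div_iff₀ (by positivity)]
  refine le_trans ?_ (one_le_pow₀ (Real.one_le_exp (by linarith)))
  have a2 : (4 : ℝ) ≤ Real.exp 2 := by
    have b1 : (2 : ℝ) ≤ Real.exp 1 := by linarith [Real.add_one_le_exp 1]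
    rw [show (2 : ℝ) = 1 + 1 by norm_num, Real.exp_add]
    nlinarith
  refine le_trans (mul_le_mul_of_nonneg_left (mul_le_mul_of_nonneg_right a2 (Real.exp_pos _).le)
    (Real.exp_pos _).le) ?_
  rw [← Real.exp_add, ← Real.exp_add, Real.exp_le_one_iff, add_assoc (k : ℝ)]
  linarith

theorem maj_upper {m n k l : ℕ} (h : 400 * (k + l + 1) ≤ n) :
    (hm m n k l : ℝ) ≤ 1 + Real.exp (66 + 2304 * ((l + 1) * (k + l + 1) / n)) *
      Real.log (1 + m) := by
  classical
  refine hm_le_greedy m n k l _ (by positivity) fun W _ => ?_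
  set p := Real.exp (-(66 + 2304 * ((l + 1) * (k + l + 1) / n))) with hp
  have a1 := sum_swap_event W (fun g : Fin (2 * n + k) → Fin (k / (l + 1) + 1 + 1) =>
    W.filter (fun A => (l + 1 : ℝ) ≤ sel A g)) (fun g => Finset.filter_subset _ _)
    (fun _ _ => (1 : ℝ))
  simp only [Finset.sum_const, nsmul_eq_mul, mul_one] at a1
  have a2 : ∑ _g : Fin (2 * n + k) → Fin (k / (l + 1) + 1 + 1), p * W.card ≤
      ∑ g : Fin (2 * n + k) → Fin (k / (l + 1) + 1 + 1),
        ((W.filter (fun A => (l + 1 : ℝ) ≤ sel A g)).card : ℝ) := by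
    rw [a1]
    refine le_trans (le_of_eq ?_) (Finset.sum_le_sum fun A hA => (anti_sel h A).trans
      (le_of_eq ?_))
    · simp only [Finset.sum_const, nsmul_eq_mul, Finset.card_univ, hp]; ring
    · congr 2
      ext g
      simp [hA]
  obtain ⟨g, -, hg⟩ := Finset.exists_le_of_sum_le Finset.univ_nonempty a2
  refine ⟨_, Finset.filter_subset _ _, fun u hu v hv huv => ?_, hg⟩
  have b1 := sel_inter u v g
  have b2 := (Finset.mem_filter.1 hu).2
  have b3 := (Finset.mem_filter.1 hv).2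
  have b4 : ((u.1 ∩ v.1).card : ℝ) ≤ l := by exact_mod_cast huv.2
  linarith

end Pool.Agent.Lib.MP_d46fce_co
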