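import Pool.Agent.Lib.MP_d46fce_co.Blow
import Pool.Agent.Lib.MP_d46fce_co.Cover

/-!
The lower bound `m ^ (T / (C n N))` and a common form of the logarithmic lower bounds.
-/

namespace Pool.Agent.Lib.MP_d46fce_co

theorem flog_mono {m f f' : ℝ} (hm : 0 ≤ m) (hf : 0 < f) (h : f ≤ f') :
    f * Real.log (1 + m / f) ≤ f' * Real.log (1 + m / f') := by
  have f0 : 0 < f' := by linarith
  have a0 : 0 < 1 + m / f := by positivity
  have a1 := exp_conv (f / f') (Real.log (1 + m / f)) 0 (by positivity) ((div_le_one f0).2 h)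
  rw [Real.exp_log a0, Real.exp_zero, mul_zero, add_zero] at a1
  have a2 : f / f' * (1 + m / f) + (1 - f / f') * 1 = 1 + m / f' := by field_simp; ring
  rw [a2, ← Real.le_log_iff_exp_le (by positivity), div_mul_eq_mul_div, div_le_iff₀' f0] at a1
  exact a1

theorem flog_ge {m f : ℝ} (hm : 0 ≤ m) (hf : 0 < f) :
    0.69 * min m f ≤ f * Real.log (1 + m / f) := by
  have h2 := log_two_ge
  rcases le_total m f with h | h
  · rw [min_eq_left h]
    rcases hm.eq_or_lt with rfl | h0
    · simp
    · have := flog_mono hm h0 h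
      rw [div_self h0.ne', one_add_one_eq_two] at this
      nlinarith
  · rw [min_eq_right h]
    have : Real.log 2 ≤ Real.log (1 + m / f) :=
      Real.log_le_log (by norm_num) (by linarith [(one_le_div hf).2 h])
    nlinarith

theorem lam_lower {m n k l : ℕ} (hl : l < n) (h1 : 1 ≤ m) (h2 : m ≤ (2 * n + k).choose n) :
    min ((k : ℝ) + l + 2) (1 + (2 * n + k : ℝ) / n * Real.log (1 + m / ((2 * n + k : ℝ) / n)) /
      Real.log (2 + n / (k + l + 1))) ≤ 40 * hm m n k l := by
  refine le_trans ?_ (phi_lower hl h1 h2)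
  unfold Phi
  have l1 : (l : ℝ) < n := by exact_mod_cast hl
  have l0 : (0 : ℝ) ≤ l := by positivity
  have k0 : (0 : ℝ) ≤ k := by positivity
  have n0 : (0 : ℝ) < n := by linarith
  have d0 : (0 : ℝ) < n - l := by linarith
  rw [Nat.cast_sub hl.le]
  push_cast
  refine min_le_min le_rfl (add_le_add_right ?_ _)
  have a1 : (2 * n + k : ℝ) / n ≤ (2 * (n - l) + (k + l)) / (n - l) := by
    rw [div_le_div_iff₀ n0 d0]; nlinarith
  have a2 := flog_mono (m := m) (by positivity) (by positivity) a1
  refine div_le_div₀ (le_trans (mul_nonneg (by positivity) (Real.log_nonneg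
    (by rw [le_add_iff_nonneg_right]; positivity))) a2) a2 (Real.log_pos ?_) ?_
  · have : 0 ≤ (n - l : ℝ) / (k + l + 1) := by positivity
    linarith
  · refine Real.log_le_log (by positivity) (add_le_add_right ?_ _)
    exact div_le_div_of_nonneg_right (by linarith) (by positivity)

theorem log_le_choose {m n k : ℕ} (hn : 1 ≤ n) (h1 : 1 ≤ m) (h2 : m ≤ (2 * n + k).choose n) :
    Real.log m ≤ n * Real.log (3 * ((2 * n + k : ℝ) / n)) := by
  have n0 : (0 : ℝ) < n := by exact_mod_cast hn
  have a1 := choose_le_pow (2 * n + k) n ((2 * n + k : ℝ) / n) (by push_cast; field_simp; rfl)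
    (by positivity)
  rw [← Real.log_pow]
  exact Real.log_le_log (by exact_mod_cast h1) (le_trans (by exact_mod_cast h2) a1)

/-- the choice of the block size -/
theorem exists_block {X L : ℝ} (hL : 0 < L) (h : L ≤ X) :
    ∃ b : ℕ, 1 ≤ b ∧ X ≤ b * L ∧ b * L ≤ 2 * X ∧ ∀ t : ℕ, t < 2 * b → t * L ≤ 4 * X := by
  have a1 : X / L ≤ ⌈X / L⌉₊ := Nat.le_ceil _
  have a0 : 1 ≤ X / L := (one_le_div hL).2 h
  have a2 : (⌈X / L⌉₊ : ℝ) < X / L + 1 := Nat.ceil_lt_add_one (by linarith)
  have a3 : (⌈X / L⌉₊ : ℝ) * L ≤ 2 * X := by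
    have : (⌈X / L⌉₊ : ℝ) ≤ 2 * X / L := by rw [mul_div_assoc]; linarith
    rwa [le_div_iff₀ hL] at this
  refine ⟨⌈X / L⌉₊, by exact_mod_cast a0.trans a1, (div_le_iff₀ hL).1 a1, a3, fun t ht => ?_⟩
  have : (t : ℝ) ≤ 2 * ⌈X / L⌉₊ := by exact_mod_cast ht.le
  nlinarith

theorem pow_small {m n k l : ℕ} (hl : l < n) (h1 : 2 ≤ m) (h2 : m ≤ (2 * n + k).choose n)
    (hk : k ≤ 8 * n) :
    (l + 1) * (k + l + 1) * Real.log m / (2000 * n * (2 * n + k)) ≤ Real.log (4 * hm m n k l) := by
  have L0 : 0 < Real.log m := Real.log_pos (by exact_mod_cast h1)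
  have hone : (1 : ℝ) ≤ hm m n k l := by exact_mod_cast one_le_hm (by omega) h2
  have n0 : (0 : ℝ) < n := by exact_mod_cast (show 0 < n by omega)
  have hk' : (k : ℝ) ≤ 8 * n := by exact_mod_cast hk
  have hl' : (l : ℝ) + 1 ≤ n := by exact_mod_cast hl
  have k0 : (0 : ℝ) ≤ k := by positivity
  have l0 : (0 : ℝ) ≤ l := by positivity
  have lt2 := Real.log_two_lt_d9
  obtain ⟨b, b1, b2, b3, b4⟩ := exists_block L0 (log_le_card (by omega) h2)
  rw [div_le_iff₀ (by positivity)]
  have G1 : 1 ≤ Real.log (4 * hm m n k l) := by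
    rw [Real.le_log_iff_exp_le (by positivity)]
    linarith [Real.exp_one_lt_d9]
  by_cases hb : 2 * b ≤ l + 1
  · obtain ⟨n', k', l', c1, c2, -, c4, -, c6, c7, c8⟩ := blow_par (k := k) hl b1 hb
    have b0 : (0 : ℝ) < b := by exact_mod_cast b1
    have d1 : ((2 * n' + k' : ℕ) : ℝ) * b ≤ 2 * n + k := by
      exact_mod_cast (show (2 * n' + k') * b ≤ 2 * n + k by rw [add_mul, mul_assoc]; omega)
    have d2 : (2 * n' + k').choose n' ≤ m := by
      refine (Nat.choose_le_two_pow _ _).trans ?_
      have e1 : ((2 * n' + k' : ℕ) : ℝ) * Real.log 2 ≤ Real.log m := by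
        refine le_of_mul_le_mul_left (a := (b : ℝ)) ?_ b0
        nlinarith [log_two_ge]
      rw [← Real.log_pow, Real.log_le_log_iff (by positivity) (by positivity)] at e1
      exact_mod_cast e1
    have d3 := top_closed (k := k') c1 _ rfl
    have d4 : (hm ((2 * n' + k').choose n') n' k' l' : ℝ) ≤ hm m n k l := by
      exact_mod_cast c8 m d2 h2
    have d5 : (1 : ℝ) ≤ hm ((2 * n' + k').choose n') n' k' l' := by
      exact_mod_cast one_le_hm (Nat.choose_pos (by omega)) le_rfl
    have d6 : ((l' : ℝ) + 1) * (k' + l' + 1) ≤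
        16 * (2 * n' + k' : ℕ) * Real.log (4 * hm m n k l) := by
      refine d3.trans (mul_le_mul (mul_le_mul_of_nonneg_left ?_ (by norm_num))
        (Real.log_le_log (by linarith) (by linarith)) (Real.log_nonneg (by linarith))
        (by positivity))
      exact_mod_cast min_le_right _ _
    have c6' : (l : ℝ) + 1 ≤ 2 * ((l' + 1) * b) := by exact_mod_cast c6
    have c7' : (k : ℝ) + l + 1 ≤ 4 * ((k' + l' + 1) * b) := by exact_mod_cast c7
    generalize Real.log (4 * hm m n k l) = G at G1 d6
    have G0 : 0 < G := by linarith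
    have d7 : ((l : ℝ) + 1) * (k + l + 1) ≤ 128 * (2 * n + k) * G * b := by
      calc _ ≤ 2 * (((l' : ℝ) + 1) * b) * (4 * ((k' + l' + 1) * b)) :=
            mul_le_mul c6' c7' (by positivity) (by positivity)
        _ = 8 * b * b * (((l' : ℝ) + 1) * (k' + l' + 1)) := by ring
        _ ≤ 8 * b * b * (16 * (2 * n' + k' : ℕ) * G) := by gcongr
        _ = 128 * ((2 * n' + k' : ℕ) * b) * G * b := by ring
        _ ≤ _ := by gcongr
    calc _ ≤ 128 * (2 * n + k) * G * b * Real.log m := by gcongr
      _ = 128 * (2 * n + k) * G * (b * Real.log m) := by ring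
      _ ≤ 128 * (2 * n + k) * G * (15 * n) :=
          mul_le_mul_of_nonneg_left (by nlinarith) (by positivity)
      _ ≤ _ := by
          have : 0 ≤ (n : ℝ) * (2 * n + k) * G := by positivity
          linarith
  · have c1 := b4 (l + 1) (by omega)
    push_cast at c1
    calc _ = (k + l + 1) * ((l + 1) * Real.log m) := by ring
      _ ≤ (9 * n) * (4 * (2 * n + k)) :=
          mul_le_mul (by linarith) (by nlinarith) (by positivity) (by positivity)
      _ ≤ 1 * (2000 * n * (2 * n + k)) := by nlinarith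
      _ ≤ _ := by gcongr

theorem pow_large {m n k l : ℕ} (hl : l < n) (h1 : 2 ≤ m) (h2 : m ≤ (2 * n + k).choose n)
    (hk : 8 * n ≤ k) :
    (l + 1) * (k + l + 1) * Real.log m / (2000 * n * (2 * n + k)) ≤
      Real.log (480 * hm m n k l) := by
  have L0 : 0 < Real.log m := Real.log_pos (by exact_mod_cast h1)
  have hone : (1 : ℝ) ≤ hm m n k l := by exact_mod_cast one_le_hm (by omega) h2
  have n0 : (0 : ℝ) < n := by exact_mod_cast (show 0 < n by omega)
  have hk' : 8 * (n : ℝ) ≤ k := by exact_mod_cast hk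
  have hl' : (l : ℝ) + 1 ≤ n := by exact_mod_cast hl
  have l0 : (0 : ℝ) ≤ l := by positivity
  set f : ℝ := (2 * n + k) / n with hf
  have f1 : f * n = 2 * n + k := by rw [hf]; field_simp
  have f2 : 10 ≤ f := by rw [hf, le_div_iff₀ n0]; linarith
  set G := Real.log (6 * f) with hG
  have G0 : 0 < G := Real.log_pos (by linarith)
  have L1 : Real.log m ≤ n * G := (log_le_choose (by omega) (by omega) h2).trans
    (mul_le_mul_of_nonneg_left (Real.log_le_log (by linarith) (by linarith)) n0.le)
  obtain ⟨b, b1, b2, b3, b4⟩ := exists_block L0 L1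
  have red : (l + 1) * (k + l + 1) * Real.log m / (2000 * n * (2 * n + k)) ≤
      (l + 1) * Real.log m / (2000 * n) := by
    rw [div_le_div_iff₀ (by positivity) (by positivity)]
    have : 0 ≤ ((l : ℝ) + 1) * Real.log m * n := by positivity
    nlinarith
  refine red.trans ?_
  by_cases hb : 2 * b ≤ l + 1
  · obtain ⟨n', k', l', c1, c2, c3, c4, c5, c6, -, c8⟩ := blow_par (k := k) hl b1 hb
    have b0 : (0 : ℝ) < b := by exact_mod_cast b1
    have n1 : (1 : ℝ) ≤ n' := by exact_mod_cast (show 1 ≤ n' by omega)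
    have c2' : (n' : ℝ) * b ≤ n := by exact_mod_cast c2
    have c3' : (n : ℝ) ≤ 2 * (n' * b) := by exact_mod_cast c3
    have c4' : (k' : ℝ) * b ≤ k := by exact_mod_cast c4
    have c5' : (k : ℝ) ≤ k' * b + n := by exact_mod_cast c5
    have c6' : (l : ℝ) + 1 ≤ 2 * ((l' + 1) * b) := by exact_mod_cast c6
    have d1 : ((2 * n' + k' : ℕ) : ℝ) ≤ n' * (2 * f) := by
      refine le_of_mul_le_mul_right (a := (b : ℝ)) ?_ b0
      push_cast
      nlinarith
    have d2 : (2 * n' + k').choose n' ≤ m := by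
      have e0 := choose_le_pow _ _ _ d1 (by linarith)
      have e1 : n' * G ≤ Real.log m := by
        refine le_of_mul_le_mul_left (a := (b : ℝ)) ?_ b0
        nlinarith
      rw [hG, ← Real.log_pow, Real.log_le_log_iff (by positivity) (by positivity)] at e1
      rw [← mul_assoc, show (3 : ℝ) * 2 = 6 by norm_num] at e0
      exact_mod_cast e0.trans e1
    have d3 : 2 * n' ≤ k' := Nat.le_of_mul_le_mul_right (c := b) (by rw [mul_assoc]; omega) b1
    have d4 := top_big c1 d3
    have d5 : ((k' + l' + 2 : ℕ) : ℝ) ≤ hm ((2 * n' + k').choose n') n' k' l' := by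
      exact_mod_cast top_lower (k := k') c1 (le_refl (k' + l'))
    have d6 : (hm ((2 * n' + k').choose n') n' k' l' : ℝ) ≤ hm m n k l := by
      exact_mod_cast c8 m d2 h2
    generalize (hm ((2 * n' + k').choose n') n' k' l' : ℝ) = h' at d4 d5 d6
    push_cast at d5
    have k1 : (0 : ℝ) < k' := by exact_mod_cast (show 0 < k' by omega)
    have l1 : (0 : ℝ) ≤ l' := by positivity
    set r : ℝ := 2 * n' / k' with hr
    have r0 : 0 < r := by positivity
    have d7 : 1 ≤ r ^ (l' + 1) * h' ^ 2 := by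
      refine le_of_mul_le_mul_left (a := (n' : ℝ)) ?_ (by linarith)
      have e1 : (2 * n' + k' : ℝ) ≤ n' * h' := by nlinarith
      have e2 := mul_le_mul_of_nonneg_right e1 (show 0 ≤ r ^ (l' + 1) * h' by
        have : 0 ≤ h' := by linarith
        positivity)
      nlinarith
    have d8 : G ≤ 4 * -Real.log r := by
      have e1 : 7 / 16 * (f - 2) ≤ r⁻¹ := by
        rw [hr, inv_div, le_div_iff₀ (by positivity)]
        refine le_of_mul_le_mul_right (a := (b : ℝ) * n) ?_ (by positivity)
        have : (f - 2) * n = k := by linarith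
        nlinarith [mul_le_mul_of_nonneg_left c2' (show (0 : ℝ) ≤ k by linarith)]
      have e2 : 6 * f ≤ (7 / 16 * (f - 2)) ^ 4 := by
        have g1 : (7 / 2 : ℝ) ^ 3 ≤ (7 / 16 * (f - 2)) ^ 3 :=
          pow_le_pow_left₀ (by norm_num) (by linarith) 3
        rw [pow_succ]
        nlinarith
      rw [← Real.log_inv, show (4 : ℝ) = (4 : ℕ) by norm_num, ← Real.log_pow]
      exact Real.log_le_log (by linarith) (e2.trans (pow_le_pow_left₀ (by linarith) e1 4))
    have d9 := Real.log_nonneg d7
    have h0 : 0 < h' := by linarith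
    rw [Real.log_mul (by positivity) (by positivity), Real.log_pow, Real.log_pow] at d9
    push_cast at d9
    have d10 : Real.log h' ≤ Real.log (480 * hm m n k l) :=
      Real.log_le_log (by linarith) (by linarith)
    have d11 : ((l' : ℝ) + 1) * G ≤ 8 * Real.log (480 * hm m n k l) := by
      nlinarith [mul_le_mul_of_nonneg_left d8 (show (0 : ℝ) ≤ l' + 1 by linarith)]
    have d12 : 0 ≤ Real.log (480 * hm m n k l) := Real.log_nonneg (by linarith)
    rw [div_le_iff₀ (by positivity)]
    calc _ ≤ 2 * ((l' + 1) * b) * Real.log m := by gcongr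
      _ = 2 * (l' + 1) * (b * Real.log m) := by ring
      _ ≤ 2 * (l' + 1) * (2 * (n * G)) := by gcongr
      _ = 4 * n * ((l' + 1) * G) := by ring
      _ ≤ 4 * n * (8 * Real.log (480 * hm m n k l)) := by gcongr
      _ ≤ _ := by nlinarith
  · have c1 := b4 (l + 1) (by omega)
    push_cast at c1
    have m2 : (2 : ℝ) ≤ m := by exact_mod_cast h1
    have c2 := lam_lower hl (by omega) h2
    rw [← hf] at c2
    have c3 := flog_ge (m := m) (by linarith) (show 0 < f by linarith)
    have c4 : Real.log (2 + n / (k + l + 1)) ≤ 1.38 := by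
      have e1 : (n : ℝ) / (k + l + 1) ≤ 1 / 8 := by
        rw [div_le_div_iff₀ (by linarith) (by norm_num)]; linarith
      have e2 : 0 ≤ (n : ℝ) / (k + l + 1) := div_nonneg n0.le (by linarith)
      linarith [Real.log_le_sub_one_of_pos (show 0 < 2 + (n : ℝ) / (k + l + 1) by linarith)]
    have c5 : 0 < Real.log (2 + n / (k + l + 1)) :=
      Real.log_pos (by linarith [div_nonneg n0.le (show (0 : ℝ) ≤ k + l + 1 by linarith)])
    have c0 : 0 < min (m : ℝ) f := lt_min (by linarith) (by linarith)
    have c6 : min (m : ℝ) f / 2 ≤ 40 * hm m n k l := by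
      refine le_trans (le_min ?_ ?_) c2
      · have e1 : f ≤ k + 2 := by
          rw [hf, div_le_iff₀ n0]
          nlinarith
        linarith [min_le_right (m : ℝ) f]
      · have : min (m : ℝ) f / 2 ≤ f * Real.log (1 + m / f) / Real.log (2 + n / (k + l + 1)) := by
          rw [div_le_div_iff₀ (by norm_num) c5]; nlinarith
        linarith
    refine le_trans ?_ (Real.log_le_log (show 0 < 6 * min (m : ℝ) f by linarith) (by linarith))
    rw [div_le_iff₀ (by positivity)]
    rcases le_total (m : ℝ) f with h | h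
    · rw [min_eq_left h]
      have := Real.log_le_log (show (0 : ℝ) < m by linarith) (show (m : ℝ) ≤ 6 * m by linarith)
      nlinarith
    · rw [min_eq_right h, ← hG]
      nlinarith

theorem pow_lower {m n k l : ℕ} (hl : l < n) (h1 : 1 ≤ m) (h2 : m ≤ (2 * n + k).choose n) :
    Real.exp ((l + 1) * (k + l + 1) * Real.log m / (2000 * n * (2 * n + k))) ≤
      480 * hm m n k l := by
  have hone : (1 : ℝ) ≤ hm m n k l := by exact_mod_cast one_le_hm h1 h2
  rcases h1.eq_or_lt with rfl | h3
  · simp only [Nat.cast_one, Real.log_one, mul_zero, zero_div, Real.exp_zero]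
    linarith
  rw [← Real.le_log_iff_exp_le (by linarith)]
  rcases le_total k (8 * n) with h | h
  · exact (pow_small hl h3 h2 h).trans (Real.log_le_log (by linarith) (by linarith))
  · exact pow_large hl h3 h2 h

end Pool.Agent.Lib.MP_d46fce_co
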