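import Pool.Agent.Lib.MP_d46fce_co.Cover

/-!
Anti-concentration of signed sums on the discrete box, and sign matrices whose rows are spread out.
-/

namespace Pool.Agent.Lib.MP_d46fce_co

open Finset

theorem central_sq (n : ℕ) : n.centralBinom ^ 2 * (2 * n + 1) ≤ 16 ^ n := by
  induction n with
  | zero => simp
  | succ n ih =>
    have e := Nat.succ_mul_centralBinom_succ n
    refine Nat.le_of_mul_le_mul_left (c := (n + 1) ^ 2) ?_ (by positivity)
    calc (n + 1) ^ 2 * ((n + 1).centralBinom ^ 2 * (2 * (n + 1) + 1))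
        = ((n + 1) * (n + 1).centralBinom) ^ 2 * (2 * n + 3) := by ring
      _ = 4 * ((2 * n + 1) * (2 * n + 3)) * (n.centralBinom ^ 2 * (2 * n + 1)) := by rw [e]; ring
      _ ≤ 4 * (4 * (n + 1) ^ 2) * 16 ^ n :=
          Nat.mul_le_mul (Nat.mul_le_mul_left _ (by nlinarith)) ih
      _ = _ := by ring

theorem choose_half_le (r : ℕ) : (r.choose (r / 2) : ℝ) ≤ 2 ^ r * (2 / Real.sqrt (r + 1)) := by
  have key : r.choose (r / 2) ^ 2 * (r + 1) ≤ (2 ^ r * 2) ^ 2 := by
    have e16 : ∀ n : ℕ, 16 ^ n = (2 ^ (2 * n)) ^ 2 := fun n => by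
      rw [← pow_mul, show 2 * n * 2 = 4 * n by ring, pow_mul]; norm_num
    obtain ⟨n, rfl | rfl⟩ := Nat.even_or_odd' r
    · rw [Nat.mul_div_cancel_left _ two_pos, ← Nat.centralBinom_eq_two_mul_choose]
      refine (central_sq n).trans ?_
      rw [e16]
      gcongr; omega
    · have h1 : (2 * n + 1).choose ((2 * n + 1) / 2) ≤ 2 * n.centralBinom := by
        rw [show (2 * n + 1) / 2 = n by omega, ← Nat.choose_symm_half, Nat.choose_succ_succ',
          two_mul n.centralBinom]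
        exact add_le_add (Nat.choose_le_centralBinom _ _) (Nat.choose_le_centralBinom _ _)
      have h2 := central_sq n
      rw [e16] at h2
      calc _ ≤ (2 * n.centralBinom) ^ 2 * (2 * (2 * n + 1)) :=
            Nat.mul_le_mul (Nat.pow_le_pow_left h1 2) (by omega)
        _ = 8 * (n.centralBinom ^ 2 * (2 * n + 1)) := by ring
        _ ≤ 16 * (2 ^ (2 * n)) ^ 2 := Nat.mul_le_mul (by norm_num) h2
        _ = _ := by ring
  have r0 : 0 < Real.sqrt (r + 1) := Real.sqrt_pos.2 (by positivity)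
  rw [← mul_div_assoc, le_div_iff₀ r0]
  refine (pow_le_pow_iff_left₀ (by positivity) (by positivity) two_ne_zero).1 ?_
  rw [mul_pow, Real.sq_sqrt (by positivity)]
  exact_mod_cast key

theorem window_card (r : ℕ) (z H W : ℝ) (hH : 0 < H) (hW : 0 ≤ W) :
    (((range r).filter fun c : ℕ => |z + 2 * H * c| ≤ W).card : ℝ) ≤ W / H + 1 := by
  classical
  set A := (range r).filter fun c : ℕ => |z + 2 * H * c| ≤ W with hA
  rcases A.eq_empty_or_nonempty with h | h
  · rw [h, card_empty, Nat.cast_zero]; positivity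
  have h1 : A ⊆ Icc (A.min' h) (A.min' h + ⌊W / H⌋₊) := by
    intro c hc
    have c1 := A.min'_le c hc
    have c2 := abs_le.1 (mem_filter.1 hc).2
    have c3 := abs_le.1 (mem_filter.1 (A.min'_mem h)).2
    refine mem_Icc.2 ⟨c1, ?_⟩
    rw [← Nat.sub_le_iff_le_add', Nat.le_floor_iff (by positivity), Nat.cast_sub c1,
      le_div_iff₀ hH]
    linarith [c2.2, c3.1]
  have h2 := card_le_card h1
  rw [Nat.card_Icc, show A.min' h + ⌊W / H⌋₊ + 1 - A.min' h = ⌊W / H⌋₊ + 1 by omega] at h2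
  have h3 : (A.card : ℝ) ≤ ⌊W / H⌋₊ + 1 := by exact_mod_cast h2
  linarith [Nat.floor_le (show 0 ≤ W / H by positivity)]

theorem elo_count {ι : Type} [DecidableEq ι] (R : Finset ι) (c : ι → ℝ) (z H W : ℝ) (hH : 0 < H)
    (hW : 0 ≤ W) (hc : ∀ j, c j = 2 * H ∨ c j = -(2 * H)) :
    ((R.powerset.filter fun ε => |z + ∑ j ∈ ε, c j| ≤ W).card : ℝ) ≤
      2 ^ R.card * ((W / H + 1) * (2 / Real.sqrt (R.card + 1))) := by
  classical
  set N := R.filter fun j => c j < 0 with hN
  have h1 : (R.powerset.filter fun ε => |z + ∑ j ∈ ε, c j| ≤ W).card ≤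
      (R.powerset.filter fun ε => |z - 2 * H * N.card + 2 * H * (ε.card : ℕ)| ≤ W).card := by
    refine card_le_card_of_injOn (fun ε => symmDiff ε N) (fun ε hε => ?_)
      fun ε _ ε' _ h => symmDiff_left_injective N h
    obtain ⟨h1, h2⟩ := mem_filter.1 (mem_coe.1 hε)
    have h3 := mem_powerset.1 h1
    have h4 : symmDiff ε N ⊆ R := symmDiff_subset_union.trans
      (union_subset h3 (filter_subset _ _))
    refine mem_coe.2 (mem_filter.2 ⟨mem_powerset.2 h4, ?_⟩)
    have e : ∀ (A : Finset ι) (f : ι → ℝ), A ⊆ R →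
        ∑ j ∈ A, f j = ∑ j ∈ R, if j ∈ A then f j else 0 := fun A f hA => by
      rw [sum_ite_mem, inter_eq_right.2 hA]
    have e2 : 2 * H * ((symmDiff ε N).card : ℝ) = 2 * H * N.card + ∑ j ∈ ε, c j := by
      rw [card_eq_sum_ones, card_eq_sum_ones, Nat.cast_sum, Nat.cast_sum, e _ _ h4, e _ _ h3,
        e N _ (filter_subset _ _), mul_sum, mul_sum, ← sum_add_distrib]
      refine sum_congr rfl fun j hj => ?_
      simp only [mem_symmDiff, hN, mem_filter, hj, true_and]
      rcases hc j with h | h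
      · have : ¬ c j < 0 := by linarith
        by_cases h5 : j ∈ ε <;> simp [h5, this]
        linarith
      · have : c j < 0 := by linarith
        by_cases h5 : j ∈ ε <;> simp [h5, this]
        linarith
    rw [e2]
    convert h2 using 2
    ring
  refine (Nat.cast_le.2 h1).trans ?_
  rw [card_filter, Nat.cast_sum]
  rw [sum_powerset_apply_card (fun c : ℕ =>
    (((if |z - 2 * H * N.card + 2 * H * c| ≤ W then 1 else 0 : ℕ)) : ℝ))]
  calc _ ≤ ∑ m ∈ range (R.card + 1), (if |z - 2 * H * N.card + 2 * H * m| ≤ W then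
          (R.card.choose (R.card / 2) : ℝ) else 0) := by
        refine sum_le_sum fun m _ => ?_
        split_ifs
        · simp only [Nat.cast_one, nsmul_eq_mul, mul_one]
          exact_mod_cast Nat.choose_le_middle _ _
        · simp
    _ ≤ (W / H + 1) * (2 ^ R.card * (2 / Real.sqrt (R.card + 1))) := by
        rw [← sum_filter, sum_const, nsmul_eq_mul]
        exact mul_le_mul (window_card _ _ _ _ hH hW) (choose_half_le _) (by positivity)
          (by positivity)
    _ = _ := by ring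

/-- centred value of a point of the discrete interval -/
def cen {H : ℕ} (a : Fin (2 * H)) : ℝ := 2 * (a : ℝ) - (2 * H - 1)

/-- exchange of the two halves of the discrete interval -/
def fl {H : ℕ} (a : Fin (2 * H)) : Fin (2 * H) :=
  if h : (a : ℕ) < H then ⟨a + H, by omega⟩ else ⟨a - H, by omega⟩

theorem fl_fl {H : ℕ} (a : Fin (2 * H)) : fl (fl a) = a := by
  have e : ∀ a : Fin (2 * H), (fl a : ℕ) = if (a : ℕ) < H then (a : ℕ) + H else a - H := by
    intro a
    unfold fl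
    split_ifs <;> rfl
  have := a.2
  ext
  rw [e, e]
  split_ifs <;> omega

theorem cen_fl {H : ℕ} (a : Fin (2 * H)) :
    cen (fl a) - cen a = 2 * H ∨ cen (fl a) - cen a = -(2 * H) := by
  unfold fl cen
  split_ifs with h
  · left; push_cast; ring
  · right; simp only; rw [Nat.cast_sub (not_lt.1 h)]; ring

theorem cen_rev {H : ℕ} (a : Fin (2 * H)) : cen a.rev = -cen a := by
  unfold cen
  rw [Fin.val_rev, Nat.cast_sub (by omega)]
  push_cast; ring

theorem anti_cond {d H : ℕ} (hH : 0 < H) (R : Finset (Fin d)) (g : Fin d → Bool)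
    (Φ W : (Fin d → Fin (2 * H)) → ℝ) (Φ0 : ∀ b, 0 ≤ Φ b) (W0 : ∀ b, 0 ≤ W b)
    (h : ∀ b b', (∀ j ∉ R, b j = b' j) → Φ b = Φ b' ∧ W b = W b') :
    ∑ b, (if |lin (fun j => cen (b j)) g| ≤ W b then Φ b else 0) ≤
      ∑ b, Φ b * ((W b / H + 1) * (2 / Real.sqrt (R.card + 1))) := by
  classical
  set fs : Finset (Fin d) → (Fin d → Fin (2 * H)) → Fin d → Fin (2 * H) :=
    fun ε b j => if j ∈ ε then fl (b j) else b j with hfs
  have inv : ∀ ε, Function.Involutive (fs ε) := fun ε b => by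
    funext j
    simp only [hfs]
    split_ifs
    · exact fl_fl _
    · rfl
  set F : (Fin d → Fin (2 * H)) → ℝ :=
    fun b => if |lin (fun j => cen (b j)) g| ≤ W b then Φ b else 0 with hF
  have e1 : ∑ ε ∈ R.powerset, ∑ b, F (fs ε b) = 2 ^ R.card * ∑ b, F b := by
    have e0 : ∀ ε, ∑ b, F (fs ε b) = ∑ b, F b := fun ε => Equiv.sum_comp (inv ε).toPerm F
    simp only [e0]
    rw [sum_const, card_powerset, nsmul_eq_mul]
    push_cast; rfl
  refine le_of_mul_le_mul_left ?_ (show (0 : ℝ) < 2 ^ R.card by positivity)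
  rw [← e1, sum_comm, mul_sum]
  refine sum_le_sum fun b _ => ?_
  have e2 : ∀ ε ∈ R.powerset, F (fs ε b) = if |lin (fun j => cen (b j)) g +
      ∑ j ∈ ε, (cen (fl (b j)) - cen (b j)) * sgn (g j)| ≤ W b then Φ b else 0 := by
    intro ε hε
    obtain ⟨c1, c2⟩ := h (fs ε b) b fun j hj => if_neg fun h' => hj (mem_powerset.1 hε h')
    have c3 : lin (fun j => cen (fs ε b j)) g = lin (fun j => cen (b j)) g +
        ∑ j ∈ ε, (cen (fl (b j)) - cen (b j)) * sgn (g j) := by
      unfold lin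
      rw [← sum_ite_mem_eq ε, ← sum_add_distrib]
      refine sum_congr rfl fun j _ => ?_
      simp only [hfs]
      split_ifs <;> ring
    simp only [hF, c1, c2, c3]
  rw [sum_congr rfl e2, ← sum_filter, sum_const, nsmul_eq_mul, mul_left_comm, mul_comm _ (Φ b)]
  refine mul_le_mul_of_nonneg_left (elo_count R _ _ H (W b) (by exact_mod_cast hH) (W0 b)
    fun j => ?_) (Φ0 b)
  rcases cen_fl (b j) with h | h <;> cases g j <;> simp [h, sgn]

theorem exp_sq_le (y : ℝ) (K : ℕ) (hK : ⌊|y| / 2 + 1 / 2⌋₊ < K) :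
    Real.exp (y ^ 2 / 4) ≤ Real.exp 1 * ∑ k ∈ range K,
      (Real.exp (k * y) + Real.exp (-k * y)) * Real.exp (-(k : ℝ) ^ 2) := by
  set k := ⌊|y| / 2 + 1 / 2⌋₊ with hk
  have k1 : (k : ℝ) ≤ |y| / 2 + 1 / 2 := Nat.floor_le (by positivity)
  have k2 : |y| / 2 + 1 / 2 < k + 1 := Nat.lt_floor_add_one _
  have h1 : Real.exp (k * |y|) ≤ Real.exp (k * y) + Real.exp (-k * y) := by
    rcases abs_choice y with h | h <;> rw [h]
    · linarith [Real.exp_pos (-k * y)]
    · rw [show (k : ℝ) * -y = -k * y by ring]; linarith [Real.exp_pos (k * y)]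
  refine le_trans ?_ (mul_le_mul_of_nonneg_left (single_le_sum (f := fun k : ℕ =>
    (Real.exp (k * y) + Real.exp (-k * y)) * Real.exp (-(k : ℝ) ^ 2))
    (fun i _ => by positivity) (mem_range.2 hK)) (Real.exp_pos 1).le)
  refine le_trans ?_ (mul_le_mul_of_nonneg_left (mul_le_mul_of_nonneg_right h1
    (Real.exp_pos _).le) (Real.exp_pos 1).le)
  rw [← Real.exp_add, ← Real.exp_add, ← sq_abs y]
  refine Real.exp_le_exp.2 ?_
  nlinarith [mul_nonneg (show 0 ≤ k - |y| / 2 + 1 by linarith)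
    (show 0 ≤ 1 - (k - |y| / 2) by linarith)]

theorem mgf_sq {N : ℕ} (a : Fin N → ℝ) (t : ℝ) (ht : 0 < t) (h : ∑ i, a i ^ 2 ≤ t) :
    ∑ q, Real.exp (lin a q ^ 2 / (4 * t)) ≤ 2 ^ N * Real.exp 3 := by
  have s0 := Real.sqrt_pos.2 ht
  obtain ⟨K, hK⟩ := Finite.exists_le fun q => ⌊|lin a q / Real.sqrt t| / 2 + 1 / 2⌋₊
  have e : ∀ q, lin a q ^ 2 / (4 * t) = (lin a q / Real.sqrt t) ^ 2 / 4 := fun q => by
    rw [div_pow, Real.sq_sqrt ht.le]; ring
  simp only [e]
  refine (sum_le_sum fun q _ => exp_sq_le _ (K + 1) (Nat.lt_succ_of_le (hK q))).trans ?_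
  rw [← mul_sum, sum_comm]
  have h1 : ∀ c : ℝ, ∑ q, Real.exp (c * (lin a q / Real.sqrt t)) ≤ 2 ^ N * Real.exp (c ^ 2 / 2) := by
    intro c
    have := sum_exp_lin_le a (c / Real.sqrt t) t h
    rw [div_pow, Real.sq_sqrt ht.le, div_mul_cancel₀ _ ht.ne'] at this
    simpa only [div_mul_eq_mul_div, mul_div_assoc] using this
  have e1 := Real.exp_one_gt_d9
  have h2 : ∀ k : ℕ, ∑ q, (Real.exp (k * (lin a q / Real.sqrt t)) +
      Real.exp (-k * (lin a q / Real.sqrt t))) * Real.exp (-(k : ℝ) ^ 2) ≤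
      2 ^ N * 2 * (2 / 3) ^ k := by
    intro k
    rw [← sum_mul, sum_add_distrib]
    have c1 := h1 k
    have c2 := h1 (-k)
    rw [neg_sq] at c2
    have c3 : Real.exp ((k : ℝ) ^ 2 / 2) * Real.exp (-(k : ℝ) ^ 2) ≤ (2 / 3) ^ k := by
      have c4 : Real.exp (-(1 / 2)) ≤ 2 / 3 := by
        rw [Real.exp_neg, inv_le_comm₀ (Real.exp_pos _) (by norm_num)]
        linarith [Real.add_one_le_exp (1 / 2)]
      refine le_trans ?_ (pow_le_pow_left₀ (Real.exp_pos _).le c4 k)
      rw [← Real.exp_add, ← Real.exp_nat_mul]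
      refine Real.exp_le_exp.2 ?_
      have : (k : ℝ) ≤ k ^ 2 := by exact_mod_cast Nat.le_self_pow two_ne_zero k
      linarith
    calc _ ≤ (2 ^ N * Real.exp ((k : ℝ) ^ 2 / 2) + 2 ^ N * Real.exp ((k : ℝ) ^ 2 / 2)) *
          Real.exp (-(k : ℝ) ^ 2) :=
          mul_le_mul_of_nonneg_right (add_le_add c1 c2) (Real.exp_pos _).le
      _ = 2 ^ N * 2 * (Real.exp ((k : ℝ) ^ 2 / 2) * Real.exp (-(k : ℝ) ^ 2)) := by ring
      _ ≤ _ := mul_le_mul_of_nonneg_left c3 (by positivity)
  have h3 : ∑ k ∈ range (K + 1), ((2 : ℝ) / 3) ^ k ≤ 3 := by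
    rw [geom_sum_eq (by norm_num), div_le_iff_of_neg (by norm_num)]
    linarith [pow_pos (show (0 : ℝ) < 2 / 3 by norm_num) (K + 1)]
  have h4 := sum_le_sum fun k (_ : k ∈ range (K + 1)) => h2 k
  rw [← mul_sum] at h4
  have h5 : Real.exp 3 = Real.exp 1 * (Real.exp 1 * Real.exp 1) := by
    rw [← Real.exp_add, ← Real.exp_add]; norm_num
  calc _ ≤ Real.exp 1 * (2 ^ N * 2 * 3) := mul_le_mul_of_nonneg_left
        (h4.trans (mul_le_mul_of_nonneg_left h3 (by positivity))) (Real.exp_pos _).le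
    _ = 2 ^ N * (Real.exp 1 * 6) := by ring
    _ ≤ _ := by
        rw [h5]
        gcongr
        nlinarith

/-- coefficients in `{0, 1, -1}` -/
def co : Option Bool → ℝ
  | none => 0
  | some s => sgn s

theorem exists_rip (N d E : ℕ) (hN : 0 < N) (hE : 0 < E) (J : ℕ → Finset (Fin d)) :
    ∃ G : Fin d → Fin N → Bool, ∀ e < E, ∀ a : Fin N → Option Bool,
      ∑ j ∈ J e, lin (fun i => co (a i)) (G j) ^ 2 ≤ 4 * (∑ i, co (a i) ^ 2) *
        (3 * (J e).card + (∑ i, co (a i) ^ 2) * Real.log (8 * N * E)) := by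
  classical
  have N0 : (0 : ℝ) < N := by exact_mod_cast hN
  have E1 : (1 : ℝ) ≤ E := by exact_mod_cast hE
  set L := Real.log (8 * N * E) with hL
  set t : (Fin N → Option Bool) → ℝ := fun a => ∑ i, co (a i) ^ 2 with ht
  have t0 : ∀ a, a ≠ (fun _ => none) → 0 < t a := by
    intro a ha
    obtain ⟨i, hi⟩ := Function.ne_iff.1 ha
    refine lt_of_lt_of_le ?_ (single_le_sum (f := fun i => co (a i) ^ 2)
      (fun i _ => sq_nonneg _) (mem_univ i))
    rcases h : a i with _ | _ | _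
    · exact absurd h hi
    all_goals simp [co, sgn]
  set X : ℕ → (Fin N → Option Bool) → (Fin d → Fin N → Bool) → ℝ := fun e a G =>
    (∑ j ∈ J e, lin (fun i => co (a i)) (G j) ^ 2) / (4 * t a) - 3 * (J e).card - t a * L with hX
  have h1 : ∀ e a, a ≠ (fun _ => none) →
      ∑ G, Real.exp (X e a G) ≤ (2 ^ N) ^ d * Real.exp (-(t a * L)) := by
    intro e a ha
    have e1 : ∀ G, X e a G = (∑ j, if j ∈ J e then
        lin (fun i => co (a i)) (G j) ^ 2 / (4 * t a) + -3 else 0) + -(t a * L) := by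
      intro G
      rw [sum_ite_mem_eq, sum_add_distrib, sum_const, nsmul_eq_mul, ← sum_div]
      simp only [hX]; ring
    simp only [e1, Real.exp_add]
    rw [← sum_mul, sum_exp_pi (fun j q => if j ∈ J e then
        lin (fun i => co (a i)) q ^ 2 / (4 * t a) + -3 else 0)]
    refine mul_le_mul_of_nonneg_right ?_ (Real.exp_pos _).le
    refine (prod_le_prod (g := fun _ => (2 : ℝ) ^ N) (fun j _ => by positivity)
      fun j _ => ?_).trans (by simp)
    split_ifs
    · simp only [Real.exp_add]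
      rw [← sum_mul]
      refine (mul_le_mul_of_nonneg_right (mgf_sq _ _ (t0 a ha) le_rfl) (Real.exp_pos _).le).trans ?_
      rw [mul_assoc, ← Real.exp_add]
      simp
    · simp
  have h2 : ∑ a ∈ univ.erase (fun _ => none), Real.exp (-(t a * L)) ≤ 1 / (2 * E) := by
    have e1 := sum_exp_pi (N := N) (fun _ (o : Option Bool) => -(co o ^ 2 * L))
    have e2 : Real.exp (-L) = 1 / (8 * N * E) := by
      rw [Real.exp_neg, hL, Real.exp_log (by positivity), one_div]
    simp only [Fintype.sum_option, Fintype.sum_bool, co, sgn] at e1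
    norm_num at e1
    rw [sum_erase_eq_sub (mem_univ _)]
    have e3 : ∑ a, Real.exp (-(t a * L)) = (1 + (Real.exp (-L) + Real.exp (-L))) ^ N := by
      rw [← e1]
      refine sum_congr rfl fun a _ => ?_
      simp only [ht, sum_mul, co, sgn]
    have e4 : (1 + (Real.exp (-L) + Real.exp (-L))) ^ N ≤ 1 + 1 / (2 * E) := by
      refine le_trans ?_ (exp_half_le _ (by positivity)
        (by rw [div_le_one (by positivity)]; linarith))
      have e5 : 1 / (2 * (E : ℝ)) / 2 = N * (Real.exp (-L) + Real.exp (-L)) := by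
        rw [e2]; field_simp; norm_num
      rw [e5, Real.exp_nat_mul]
      exact pow_le_pow_left₀ (by positivity) ((add_comm _ _).le.trans (Real.add_one_le_exp _)) N
    rw [e3]
    simp only [ht, co]
    norm_num at e4 ⊢
    linarith
  have h3 : ∑ G, ∑ e ∈ range E, ∑ a ∈ univ.erase (fun _ => none), Real.exp (X e a G) <
      ∑ _G : Fin d → Fin N → Bool, (1 : ℝ) := by
    rw [sum_comm]
    calc _ ≤ ∑ _e ∈ range E, ((2 : ℝ) ^ N) ^ d * (1 / (2 * E)) := by
          refine sum_le_sum fun e _ => ?_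
          rw [sum_comm]
          refine (sum_le_sum fun a ha => h1 e a (mem_erase.1 ha).1).trans ?_
          rw [← mul_sum]
          exact mul_le_mul_of_nonneg_left h2 (by positivity)
      _ = (2 ^ N) ^ d / 2 := by
          rw [sum_const, card_range, nsmul_eq_mul]; field_simp
      _ < _ := by
          simp only [sum_const, card_univ, Fintype.card_pi, Fintype.card_bool, prod_const,
            Fintype.card_fin, nsmul_eq_mul, mul_one]
          push_cast
          exact half_lt_self (by positivity)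
  obtain ⟨G, -, hG⟩ := exists_lt_of_sum_lt h3
  refine ⟨G, fun e he a => ?_⟩
  by_cases ha : a = fun _ => none
  · simp [ha, co, lin]
  have h4 : Real.exp (X e a G) < 1 := lt_of_le_of_lt ((single_le_sum (f := fun a => Real.exp (X e a G))
    (fun _ _ => (Real.exp_pos _).le) (mem_erase.2 ⟨ha, mem_univ _⟩)).trans
    (single_le_sum (f := fun e => ∑ a ∈ univ.erase (fun _ => none), Real.exp (X e a G))
      (fun _ _ => sum_nonneg fun _ _ => (Real.exp_pos _).le) (mem_range.2 he))) hG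
  simp only [hX] at h4
  rw [Real.exp_lt_one_iff, sub_sub, sub_neg, div_lt_iff₀' (mul_pos four_pos (t0 a ha))] at h4
  exact h4.le

theorem rip_sum {N d : ℕ} (G : Fin d → Fin N → Bool) (J : Finset (Fin d)) (L lam : ℝ)
    (hl : 0 < lam) (hG : ∀ a : Fin N → Option Bool,
      ∑ j ∈ J, lin (fun i => co (a i)) (G j) ^ 2 ≤ 4 * (∑ i, co (a i) ^ 2) *
        (3 * J.card + (∑ i, co (a i) ^ 2) * L))
    (η : Fin d → ℝ) (h : 8 * (∑ j ∈ J, η j ^ 2) * L ≤ lam ^ 2) :
    ∑ i, (if lam ≤ |∑ j ∈ J, η j * sgn (G j i)| then |∑ j ∈ J, η j * sgn (G j i)| else 0) ≤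
      24 * (∑ j ∈ J, η j ^ 2) * J.card / lam := by
  classical
  set U : Fin N → ℝ := fun i => ∑ j ∈ J, η j * sgn (G j i) with hU
  set a : Fin N → Option Bool := fun i => if lam ≤ |U i| then some (decide (0 ≤ U i)) else none
    with ha
  have a1 : ∀ i, (if lam ≤ |U i| then |U i| else 0) = co (a i) * U i ∧
      co (a i) ^ 2 * lam ≤ co (a i) * U i := by
    intro i
    simp only [ha]
    split_ifs with h1
    · by_cases h2 : 0 ≤ U i
      · rw [abs_of_nonneg h2] at h1 ⊢; simp [co, sgn, h2, h1]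
      · rw [abs_of_neg (not_le.1 h2)] at h1 ⊢; simp [co, sgn, h2, h1]
    · simp [co]
  rw [sum_congr rfl fun i _ => (a1 i).1]
  have a2 := sum_le_sum fun i (_ : i ∈ univ) => (a1 i).2
  rw [← sum_mul] at a2
  have a3 : ∑ i, co (a i) * U i = ∑ j ∈ J, η j * lin (fun i => co (a i)) (G j) := by
    simp only [hU, lin, mul_sum]
    rw [sum_comm]
    exact sum_congr rfl fun j _ => sum_congr rfl fun i _ => by ring
  have a4 := sum_mul_sq_le_sq_mul_sq J η fun j => lin (fun i => co (a i)) (G j)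
  rw [← a3] at a4
  have a5 := hG a
  have t0 : 0 ≤ ∑ i, co (a i) ^ 2 := sum_nonneg fun _ _ => sq_nonneg _
  have En0 : 0 ≤ ∑ j ∈ J, η j ^ 2 := sum_nonneg fun _ _ => sq_nonneg _
  have J0 : (0 : ℝ) ≤ J.card := by positivity
  generalize ∑ i, co (a i) * U i = S at *
  generalize ∑ i, co (a i) ^ 2 = t at *
  generalize ∑ j ∈ J, η j ^ 2 = En at *
  generalize (J.card : ℝ) = c at *
  have a6 := a4.trans (mul_le_mul_of_nonneg_left a5 En0)
  have S0 : 0 ≤ S := le_trans (by positivity) a2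
  rw [le_div_iff₀ hl]
  rcases S0.eq_or_lt with h0 | h0
  · rw [← h0, zero_mul]; positivity
  refine le_of_mul_le_mul_left ?_ h0
  have b1 : (t * lam) ^ 2 ≤ S ^ 2 := pow_le_pow_left₀ (by positivity) a2 2
  have b2 : 8 * En * L * t ^ 2 ≤ S ^ 2 :=
    (mul_le_mul_of_nonneg_right h (sq_nonneg t)).trans (by linarith)
  have b3 : S ^ 2 ≤ 24 * En * c * t := by linarith
  have b4 := mul_le_mul_of_nonneg_right b3 hl.le
  have b5 := mul_le_mul_of_nonneg_left a2 (show 0 ≤ 24 * En * c by positivity)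
  linarith

end Pool.Agent.Lib.MP_d46fce_co
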