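import Pool.Agent.Lib.MP_d46fce_co.Tri
import Pool.Agent.Lib.MP_d46fce_co.Rip
import Pool.Agent.Lib.MP_d46fce_co.Power

/-!
A lower bound for `h_m(n; k, l)` from half-space sets attached to the points of a discrete box.
-/

namespace Pool.Agent.Lib.MP_d46fce_co

open Finset

/-- dyadic classes of coordinates, counted from the end -/
def cls (d e : ℕ) : Finset (Fin d) := univ.filter fun j => Nat.log 2 (d - j) = e

/-- the coordinates that come after a dyadic class -/
def fut (d e : ℕ) : Finset (Fin d) := univ.filter fun j => d - j < 2 ^ e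

theorem cls_fut {d e : ℕ} {i j : Fin d} (hj : j ∈ cls d e) (h : i ≤ j) : i ∉ fut d e := by
  have h1 := (mem_filter.1 hj).2
  have h2 := Nat.pow_log_le_self 2 (show d - j ≠ 0 by omega)
  have h3 : (i : ℕ) ≤ j := h
  rw [h1] at h2
  simp only [fut, mem_filter, mem_univ, true_and]
  omega

theorem cls_card (d e : ℕ) :
    ((cls d e).card : ℝ) * (2 / Real.sqrt ((fut d e).card + 1)) ≤ 2 * Real.sqrt d := by
  have h1 : (cls d e).card ≤ d := by simpa using card_le_univ (cls d e)
  have h2 : (cls d e).card ≤ (fut d e).card + 1 := by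
    rcases (cls d e).eq_empty_or_nonempty with h | ⟨j, hj⟩
    · simp [h]
    have a1 : (cls d e).card ≤ (Ico (2 ^ e) (2 ^ (e + 1))).card := by
      refine card_le_card_of_injOn (fun j => d - j) (fun i hi => ?_) fun i _ i' _ h => ?_
      · have b1 := (mem_filter.1 (mem_coe.1 hi)).2
        have b2 := Nat.pow_log_le_self 2 (show d - i ≠ 0 by omega)
        have b3 := Nat.lt_pow_succ_log_self one_lt_two (d - i)
        rw [b1] at b2 b3
        exact mem_coe.2 (mem_Ico.2 ⟨b2, b3⟩)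
      · simp only at h
        ext; omega
    have a2 : (Ico 1 (2 ^ e)).card ≤ (fut d e).card := by
      have b1 := (mem_filter.1 hj).2
      have b2 := Nat.pow_log_le_self 2 (show d - j ≠ 0 by omega)
      rw [b1] at b2
      refine card_le_card_of_surjOn (fun j => d - j) fun c hc => ?_
      have b3 := mem_Ico.1 (mem_coe.1 hc)
      refine ⟨⟨d - c, by omega⟩, mem_coe.2 (mem_filter.2 ⟨mem_univ _, ?_⟩), ?_⟩ <;>
        simp only <;> omega
    rw [Nat.card_Ico] at a1 a2
    omega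
  have r0 : 0 < Real.sqrt ((fut d e).card + 1) := Real.sqrt_pos.2 (by positivity)
  rw [← mul_div_assoc, div_le_iff₀ r0, mul_assoc, ← Real.sqrt_mul (by positivity), mul_comm]
  refine mul_le_mul_of_nonneg_left (Real.le_sqrt_of_sq_le ?_) zero_le_two
  rw [sq]
  exact_mod_cast Nat.mul_le_mul h1 h2

theorem sum_cls {d : ℕ} (f : Fin d → ℝ) :
    ∑ e ∈ range (Nat.log 2 d + 1), ∑ j ∈ cls d e, f j = ∑ j, f j :=
  sum_fiberwise_of_maps_to (g := fun j : Fin d => Nat.log 2 (d - j)) (fun j _ => mem_range.2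
    (Nat.lt_succ_of_le (Nat.log_mono_right (Nat.sub_le d j)))) f

theorem exists_Y {N d H : ℕ} (hH : 0 < H) (G : Fin d → Fin N → Bool) (L θ S0 E : ℝ) (hL : 0 ≤ L)
    (hE : E = (Nat.log 2 d + 1 : ℕ))
    (hG : ∀ e < Nat.log 2 d + 1, ∀ a : Fin N → Option Bool,
      ∑ j ∈ cls d e, lin (fun i => co (a i)) (G j) ^ 2 ≤ 4 * (∑ i, co (a i) ^ 2) *
        (3 * (cls d e).card + (∑ i, co (a i) ^ 2) * L))
    (hθ : H ≤ θ) (h1 : 128 * S0 * L ≤ (θ / E) ^ 2)
    (T : (Fin d → Fin (2 * H)) → Fin d → Fin (2 * H))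
    (T2 : ∀ b b' j, (∀ i, i ≤ j → b i = b' i) → T b j = T b' j) :
    ∃ Y : (Fin d → Fin (2 * H)) → ℝ, (∀ b, 0 ≤ Y b) ∧
      ∑ b, Y b ≤ 384 * E ^ 2 * Real.sqrt d / (H * θ) * ∑ b, ∑ j, ((T b j : ℝ) - b j) ^ 2 ∧
      ∀ b, ∑ j, ((T b j : ℝ) - b j) ^ 2 ≤ 4 * S0 →
        ((univ.filter fun i => θ + |lin (fun j => cen (b j)) fun j => G j i| <
          |(lin (fun j => cen (T b j)) fun j => G j i) -
            lin (fun j => cen (b j)) fun j => G j i|).card : ℝ) ≤ Y b := by
  classical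
  have H0 : (0 : ℝ) < H := by exact_mod_cast hH
  have E0 : 0 < E := by rw [hE]; positivity
  have θ0 : 0 < θ := by linarith
  set η : (Fin d → Fin (2 * H)) → Fin d → ℝ := fun b j => cen (T b j) - cen (b j) with hη
  have η1 : ∀ b j, η b j ^ 2 = 4 * ((T b j : ℝ) - b j) ^ 2 := fun b j => by
    simp only [hη, cen]; ring
  set U : ℕ → Fin N → (Fin d → Fin (2 * H)) → ℝ :=
    fun e i b => ∑ j ∈ cls d e, η b j * sgn (G j i) with hU
  set En : ℕ → (Fin d → Fin (2 * H)) → ℝ := fun e b => ∑ j ∈ cls d e, η b j ^ 2 with hEn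
  have En0 : ∀ e b, 0 ≤ En e b := fun e b => sum_nonneg fun _ _ => sq_nonneg _
  set Φ : ℕ → Fin N → (Fin d → Fin (2 * H)) → ℝ :=
    fun e i b => if θ / E ≤ |U e i b| ∧ En e b ≤ 16 * S0 then 1 else 0 with hΦ
  have Φ0 : ∀ e i b, 0 ≤ Φ e i b := fun e i b => by simp only [hΦ]; split_ifs <;> norm_num
  set y : ℕ → Fin N → (Fin d → Fin (2 * H)) → ℝ := fun e i b =>
    if |lin (fun j => cen (b j)) fun j => G j i| ≤ E * |U e i b| then Φ e i b else 0 with hy
  have y0 : ∀ e i b, 0 ≤ y e i b := fun e i b => by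
    simp only [hy]; split_ifs
    · exact Φ0 e i b
    · exact le_rfl
  refine ⟨fun b => ∑ i, ∑ e ∈ range (Nat.log 2 d + 1), y e i b,
    fun b => sum_nonneg fun i _ => sum_nonneg fun e _ => y0 e i b, ?_, fun b hb => ?_⟩
  · have key : ∀ e ∈ range (Nat.log 2 d + 1), ∑ b, ∑ i, y e i b ≤
        ∑ b, 96 * E ^ 2 * Real.sqrt d / (H * θ) * En e b := by
      intro e he
      have a1 : ∀ i, ∑ b, y e i b ≤ ∑ b, Φ e i b * ((E * |U e i b| / H + 1) *
          (2 / Real.sqrt ((fut d e).card + 1))) := by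
        intro i
        refine anti_cond hH (fut d e) _ _ _ (Φ0 e i) (fun b => by positivity) fun b b' h => ?_
        have b1 : ∀ j ∈ cls d e, η b j = η b' j := fun j hj => by
          simp only [hη]
          rw [T2 b b' j fun i hi => h i (cls_fut hj hi), h j (cls_fut hj le_rfl)]
        have b2 : U e i b = U e i b' := sum_congr rfl fun j hj => by rw [b1 j hj]
        have b3 : En e b = En e b' := sum_congr rfl fun j hj => by rw [b1 j hj]
        simp only [hΦ, b2, b3, and_self]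
      rw [sum_comm]
      refine (sum_le_sum fun i _ => a1 i).trans ?_
      rw [sum_comm]
      refine sum_le_sum fun b _ => ?_
      set ρ := 2 / Real.sqrt ((fut d e).card + 1) with hρ
      have ρ0 : 0 ≤ ρ := by positivity
      by_cases hb : En e b ≤ 16 * S0
      · have a2 := rip_sum G (cls d e) L (θ / E) (by positivity) (hG e (mem_range.1 he)) (η b)
          (le_trans (by nlinarith [mul_le_mul_of_nonneg_right hb hL]) h1)
        have a3 : ∀ i, Φ e i b * ((E * |U e i b| / H + 1) * ρ) ≤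
            2 * E / H * ρ * if θ / E ≤ |U e i b| then |U e i b| else 0 := by
          intro i
          simp only [hΦ, hb, and_true]
          split_ifs with h
          · rw [div_le_iff₀' E0] at h
            have : 1 ≤ E * |U e i b| / H := by rw [le_div_iff₀ H0]; linarith
            calc _ ≤ 1 * ((E * |U e i b| / H + E * |U e i b| / H) * ρ) := by gcongr
              _ = _ := by ring
          · simp
        refine (sum_le_sum fun i _ => a3 i).trans ?_
        rw [← mul_sum]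
        refine (mul_le_mul_of_nonneg_left a2 (by positivity)).trans ?_
        calc _ = 48 * E ^ 2 / (H * θ) * En e b * ((cls d e).card * ρ) := by
              simp only [hEn]; field_simp; ring
          _ ≤ 48 * E ^ 2 / (H * θ) * En e b * (2 * Real.sqrt d) :=
              mul_le_mul_of_nonneg_left (cls_card d e) (mul_nonneg (by positivity) (En0 e b))
          _ = _ := by ring
      · simp only [hΦ, hb, and_false, if_false, zero_mul, sum_const_zero]
        exact mul_nonneg (by positivity) (En0 e b)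
    calc _ = ∑ e ∈ range (Nat.log 2 d + 1), ∑ b, ∑ i, y e i b := by
          rw [sum_comm (s := range _)]
          exact sum_congr rfl fun b _ => sum_comm
      _ ≤ _ := sum_le_sum key
      _ = _ := by
          rw [sum_comm, mul_sum]
          refine sum_congr rfl fun b _ => ?_
          rw [← mul_sum, sum_cls (fun j => η b j ^ 2)]
          simp only [η1]
          rw [← mul_sum]; ring
  · rw [card_filter, Nat.cast_sum]
    refine sum_le_sum fun i _ => ?_
    split_ifs with h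
    swap
    · exact_mod_cast sum_nonneg fun e _ => y0 e i b
    have a1 : (lin (fun j => cen (T b j)) fun j => G j i) -
        (lin (fun j => cen (b j)) fun j => G j i) = ∑ e ∈ range (Nat.log 2 d + 1), U e i b := by
      rw [sum_cls (fun j => η b j * sgn (G j i)), ← lin_sub]; rfl
    rw [a1] at h
    set z := |lin (fun j => cen (b j)) fun j => G j i| with hz
    have z0 : 0 ≤ z := abs_nonneg _
    obtain ⟨e, he, a2⟩ := exists_le_of_sum_le (s := range (Nat.log 2 d + 1)) (by simp)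
      (f := fun _ => (θ + z) / E) (g := fun e => |U e i b|) (by
        rw [sum_const, card_range, nsmul_eq_mul, ← hE, mul_div_cancel₀ _ E0.ne']
        exact h.le.trans (abs_sum_le_sum_abs _ _))
    have a3 : En e b ≤ 16 * S0 := by
      have b1 : En e b ≤ ∑ j, η b j ^ 2 :=
        sum_le_sum_of_subset_of_nonneg (subset_univ _) fun _ _ _ => sq_nonneg _
      simp only [η1] at b1
      rw [← mul_sum] at b1
      linarith
    have a4 : θ / E ≤ |U e i b| := le_trans (by gcongr; linarith) a2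
    rw [div_le_iff₀' E0] at a2
    refine le_trans (le_of_eq ?_) (single_le_sum (f := fun e => y e i b) (fun e _ => y0 e i b) he)
    simp only [hy, hΦ]
    rw [if_pos (by linarith), if_pos ⟨a4, a3⟩, Nat.cast_one]

theorem good_card {N d H : ℕ} (hH : 0 < H) (G : Fin d → Fin N → Bool) (θ q : ℝ) (hθ : H ≤ θ)
    (hq : 0 < q) (h : N * ((θ / H + 1) * (2 / Real.sqrt (d + 1))) ≤ q / 2) :
    ((2 * H : ℕ) : ℝ) ^ d ≤ 2 * (univ.filter fun b : Fin d → Fin (2 * H) =>
      ((univ.filter fun i => |lin (fun j => cen (b j)) fun j => G j i| ≤ θ).card : ℝ) ≤ q).card := by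
  classical
  have H0 : (0 : ℝ) < H := by exact_mod_cast hH
  set cnt : (Fin d → Fin (2 * H)) → ℝ := fun b =>
    ((univ.filter fun i => |lin (fun j => cen (b j)) fun j => G j i| ≤ θ).card : ℝ) with hcnt
  have c0 : ((univ : Finset (Fin d → Fin (2 * H))).card : ℝ) = ((2 * H : ℕ) : ℝ) ^ d := by simp
  have a1 : ∑ b, cnt b ≤ ((2 * H : ℕ) : ℝ) ^ d * (q / 2) := by
    simp only [hcnt, card_filter, Nat.cast_sum, Nat.cast_ite, Nat.cast_one, Nat.cast_zero]
    rw [sum_comm]
    refine (sum_le_sum fun i _ => anti_cond hH univ (fun j => G j i) (fun _ => 1) (fun _ => θ)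
      (fun _ => zero_le_one) (fun _ => by linarith) fun _ _ _ => ⟨rfl, rfl⟩).trans ?_
    rw [sum_const, sum_const, nsmul_eq_mul, nsmul_eq_mul, c0, one_mul, mul_left_comm]
    simp only [card_univ, Fintype.card_fin]
    exact mul_le_mul_of_nonneg_left h (by positivity)
  have a2 : ((univ.filter fun b => ¬ cnt b ≤ q).card : ℝ) * q ≤ ∑ b, cnt b := by
    rw [← nsmul_eq_mul, ← sum_const]
    exact (sum_le_sum fun b hb => (not_le.1 (mem_filter.1 hb).2).le).trans
      (sum_le_sum_of_subset_of_nonneg (filter_subset _ _) fun b _ _ => by positivity)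
  have a3 : ((univ.filter fun b => cnt b ≤ q).card : ℝ) + (univ.filter fun b => ¬ cnt b ≤ q).card =
      ((2 * H : ℕ) : ℝ) ^ d := by
    rw [← c0]; exact_mod_cast card_filter_add_card_filter_not _
  have a4 : ((univ.filter fun b => ¬ cnt b ≤ q).card : ℝ) ≤ ((2 * H : ℕ) : ℝ) ^ d / 2 :=
    le_of_mul_le_mul_right (by linarith) hq
  linarith

theorem geo_lower {m n k l d H : ℕ} (hl : l < n) (hk : 2 ≤ k) (hH : 0 < H) (h1 : (2 * H) ^ d ≤ m)
    (h2 : m ≤ (2 * n + k).choose n) (θ x S0 E L : ℝ) (hE : E = (Nat.log 2 d + 1 : ℕ))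
    (hL : L = Real.log (8 * (n + k / 2 : ℕ) * E)) (hθ : H ≤ θ) (S1 : 0 < S0)
    (hS : 2 * d + 8 * ((2 * H : ℕ) : ℝ) ^ 2 * Real.log (2 * x) ≤ S0)
    (c1 : (n + k / 2 : ℕ) * ((θ / H + 1) * (2 / Real.sqrt (d + 1))) ≤ ((k / 2 : ℕ) : ℝ) / 2)
    (c2 : 128 * S0 * L ≤ (θ / E) ^ 2) (hd : 0 < d)
    (c3 : 4 * (384 * E ^ 2 * Real.sqrt d / (H * θ) * S0) ≤ l) : x ≤ hm m n k l := by
  classical
  have H0 : (0 : ℝ) < H := by exact_mod_cast hH
  have θ0 : 0 < θ := by linarith
  have E1 : 1 ≤ E := by rw [hE]; exact_mod_cast Nat.le_add_left 1 _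
  set N := n + k / 2 with hN
  have N1 : (1 : ℝ) ≤ N := by exact_mod_cast (show 1 ≤ N by omega)
  have L0 : 0 ≤ L := hL ▸ Real.log_nonneg (by nlinarith)
  obtain ⟨G, hG⟩ := exists_rip N d (Nat.log 2 d + 1) (by omega) (by omega) (cls d)
  rw [← hE, ← hL] at hG
  set z : (Fin d → Fin (2 * H)) → Fin N → ℝ :=
    fun b i => lin (fun j => cen (b j)) fun j => G j i with hz
  set Good := univ.filter fun b : Fin d → Fin (2 * H) =>
    ((univ.filter fun i => |z b i| ≤ θ).card : ℝ) ≤ (k / 2 : ℕ) with hGood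
  have g1 : ((2 * H : ℕ) : ℝ) ^ d ≤ 2 * Good.card :=
    good_card hH G θ _ hθ (by exact_mod_cast (show 0 < k / 2 by omega)) c1
  obtain ⟨em⟩ : Nonempty (Fin N × Bool ↪ Fin (2 * n + k)) :=
    Function.Embedding.nonempty_of_card_le (by simp; omega)
  set A : (Fin d → Fin (2 * H)) → Finset (Fin N × Bool) :=
    fun b => univ.filter fun p => θ < sgn p.2 * z b p.1 with hA
  have ex : ∀ b, ∃ v : Vtx n k, b ∈ Good → v.1 ⊆ (A b).map em := by
    intro b
    by_cases hb : b ∈ Good
    · have a1 : (univ.filter fun i => |z b i| ≤ θ).card ≤ k / 2 := by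
        exact_mod_cast (mem_filter.1 hb).2
      have a2 := card_filter_add_card_filter_not (s := univ) fun i => |z b i| ≤ θ
      have a3 : (univ.filter fun i => ¬ |z b i| ≤ θ).card ≤ (A b).card := by
        refine card_le_card_of_injOn (fun i => (i, decide (0 ≤ z b i))) (fun i hi => ?_)
          fun i _ i' _ h => congrArg Prod.fst h
        have b1 := not_le.1 (mem_filter.1 (mem_coe.1 hi)).2
        refine mem_coe.2 (mem_filter.2 ⟨mem_univ _, ?_⟩)
        by_cases b2 : 0 ≤ z b i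
        · rw [abs_of_nonneg b2] at b1; simpa [sgn, b2] using b1
        · rw [abs_of_neg (not_le.1 b2)] at b1; simpa [sgn, b2] using b1
      rw [card_univ, Fintype.card_fin] at a2
      obtain ⟨v, v1, v2⟩ := exists_subset_card_eq (s := (A b).map em) (n := n)
        (by rw [card_map]; omega)
      exact ⟨⟨v, v2⟩, fun _ => v1⟩
    · obtain ⟨v, -, v2⟩ := exists_subset_card_eq (s := (univ : Finset (Fin (2 * n + k)))) (n := n)
        (by simp; omega)
      exact ⟨⟨v, v2⟩, fun h => absurd h hb⟩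
  choose v hv using ex
  have M0 : (0 : ℝ) < ((2 * H : ℕ) : ℝ) ^ d := by positivity
  refine le_hm_real x (Good.image v) (card_image_le.trans ((card_le_univ _).trans
    (by simpa using h1))) h2 fun c hc => not_lt.1 fun hx => ?_
  rw [image_image] at hx
  have gne : Good.Nonempty := card_pos.1 (by
    have : (0 : ℝ) < Good.card := by linarith
    exact_mod_cast this)
  obtain ⟨γ, -, hγ⟩ := exists_max_image (Good.image (c ∘ v))
    (fun γ => (Good.filter fun b => (c ∘ v) b = γ).card) (gne.image _)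
  set S := Good.filter fun b => (c ∘ v) b = γ with hSd
  have s1 : (Good.card : ℝ) ≤ S.card * (Good.image (c ∘ v)).card := by
    exact_mod_cast card_le_mul_card_image Good S.card hγ
  have s2 : ((2 * H : ℕ) : ℝ) ^ d ≤ 2 * x * S.card := by
    nlinarith [mul_le_mul_of_nonneg_left hx.le (show (0 : ℝ) ≤ S.card by positivity)]
  have s3 : 0 < S.card := by
    rcases Nat.eq_zero_or_pos S.card with h | h
    · rw [h] at s2; simp only [Nat.cast_zero, mul_zero] at s2; linarith
    · exact h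
  have trans : ∀ S' : Finset (Fin d → Fin (2 * H)), S'.card = S.card →
      ∃ (T : (Fin d → Fin (2 * H)) → Fin d → Fin (2 * H)) (P Y : (Fin d → Fin (2 * H)) → ℝ),
        (∀ b, T b ∈ S') ∧ (∀ b, 0 ≤ P b) ∧ (∀ b, 0 ≤ Y b) ∧
        ∑ b, (P b + Y b) ≤ ((2 * H : ℕ) : ℝ) ^ d / 2 ∧ ∀ b, P b ≤ 1 →
          ((univ.filter fun i => θ + |z b i| < |z (T b) i - z b i|).card : ℝ) ≤ l * Y b := by
    intro S' hS'
    have S3 : (0 : ℝ) < S.card := by exact_mod_cast s3
    obtain ⟨T, T1, T2, T3⟩ := tri (2 * H) (by omega) d S' (card_pos.1 (by omega))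
    obtain ⟨Y, Y0, Y1, Y2⟩ := exists_Y hH G L θ S0 E L0 hE hG hθ c2 T T2
    rw [hS'] at T3
    have a1 : Real.log (((2 * H : ℕ) : ℝ) ^ d / S.card) ≤ Real.log (2 * x) :=
      Real.log_le_log (by positivity) (by rwa [div_le_iff₀ S3])
    have a2 : ∑ b, ∑ j, ((T b j : ℝ) - b j) ^ 2 ≤ ((2 * H : ℕ) : ℝ) ^ d * S0 :=
      T3.trans (mul_le_mul_of_nonneg_left (le_trans (by gcongr) hS) M0.le)
    set B := 384 * E ^ 2 * Real.sqrt d / (H * θ) with hB
    have B0 : 0 < B := by
      have : (0 : ℝ) < d := by exact_mod_cast hd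
      positivity
    have l0 : (0 : ℝ) < l := lt_of_lt_of_le (by positivity) c3
    refine ⟨T, fun b => (∑ j, ((T b j : ℝ) - b j) ^ 2) / (4 * S0), fun b => Y b / l, T1,
      fun b => by positivity, fun b => div_nonneg (Y0 b) l0.le, ?_, fun b hb => ?_⟩
    · rw [sum_add_distrib, ← sum_div, ← sum_div]
      have b1 : (∑ b, ∑ j, ((T b j : ℝ) - b j) ^ 2) / (4 * S0) ≤ ((2 * H : ℕ) : ℝ) ^ d / 4 := by
        rw [div_le_iff₀ (by positivity)]; linarith
      have b2 : (∑ b, Y b) / l ≤ ((2 * H : ℕ) : ℝ) ^ d / 4 := by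
        rw [div_le_iff₀ l0]
        nlinarith [mul_le_mul_of_nonneg_left a2 B0.le, mul_le_mul_of_nonneg_left c3 M0.le]
      linarith
    · rw [mul_div_cancel₀ _ l0.ne']
      exact Y2 b ((div_le_one (by positivity)).1 hb)
  have rinj : Function.Injective fun (b : Fin d → Fin (2 * H)) j => (b j).rev := fun b b' h =>
    funext fun j => Fin.rev_injective (congrFun h j)
  obtain ⟨T, P, Y, T1, P0, Y0, a1, a2⟩ := trans S rfl
  obtain ⟨T', P', Y', T1', P0', Y0', a1', a2'⟩ := trans (S.image fun b j => (b j).rev)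
    (card_image_of_injective _ rinj)
  have : Nonempty (Fin (2 * H)) := ⟨⟨0, by omega⟩⟩
  obtain ⟨b, -, hb⟩ := exists_le_of_sum_le (s := univ) univ_nonempty
    (f := fun b => (P b + Y b) + (P' b + Y' b)) (g := fun _ => 1) (by
      rw [sum_add_distrib, sum_const, nsmul_eq_mul, mul_one]
      simp only [card_univ, Fintype.card_pi, Fintype.card_fin, prod_const, Nat.cast_pow]
      linarith)
  have b1 := a2 b (by linarith [Y0 b, P0' b, Y0' b])
  have b2 := a2' b (by linarith [Y0 b, P0 b, Y0' b])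
  obtain ⟨y, hy, hy'⟩ := mem_image.1 (T1' b)
  have zy : ∀ i, z (T' b) i = -z y i := by
    intro i
    rw [← hy']
    simp only [hz, lin, cen_rev, neg_mul, sum_neg_distrib]
  obtain ⟨x1, x2⟩ := mem_filter.1 (T1 b)
  obtain ⟨y1, y2⟩ := mem_filter.1 hy
  have key : ((v (T b)).1 ∩ (v y).1).card ≤ l := by
    have d1 : ((v (T b)).1 ∩ (v y).1).card ≤ (A (T b) ∩ A y).card := by
      rw [← card_map em, map_inter]
      exact card_le_card (inter_subset_inter (hv _ x1) (hv _ y1))
    have d2 : (A (T b) ∩ A y).card ≤ ((univ.filter fun i => θ + |z b i| < |z (T b) i - z b i|) ∪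
        univ.filter fun i => θ + |z b i| < |z (T' b) i - z b i|).card := by
      refine card_le_card_of_injOn Prod.fst (fun p hp => ?_) fun p hp p' hp' h => ?_
      · obtain ⟨e1, e2⟩ := mem_inter.1 (mem_coe.1 hp)
        have e3 := (mem_filter.1 e1).2
        have e4 := (mem_filter.1 e2).2
        simp only [coe_union, coe_filter, mem_univ, true_and, Set.mem_union, Set.mem_ofPred_eq, zy]
        have e5 := le_abs_self (z (T b) p.1 - z b p.1)
        have e6 := neg_le_abs (z (T b) p.1 - z b p.1)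
        have e7 := le_abs_self (-z y p.1 - z b p.1)
        have e8 := neg_le_abs (-z y p.1 - z b p.1)
        rcases abs_choice (z b p.1) with e9 | e9 <;> rw [e9] <;>
          cases h : p.2 <;> simp only [h, sgn, if_true, Bool.false_eq_true, if_false] at e3 e4
        · left; linarith
        · right; linarith
        · right; linarith
        · left; linarith
      · have e3 := (mem_filter.1 (mem_inter.1 (mem_coe.1 hp)).1).2
        have e4 := (mem_filter.1 (mem_inter.1 (mem_coe.1 hp')).1).2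
        rw [← h] at e4
        refine Prod.ext h ?_
        cases h1 : p.2 <;> cases h2 : p'.2 <;>
          simp only [h1, h2, sgn, if_true, Bool.false_eq_true, if_false] at e3 e4 <;>
          first | rfl | linarith
    have d3 : (((v (T b)).1 ∩ (v y).1).card : ℝ) ≤ _ :=
      Nat.cast_le.2 (d1.trans (d2.trans (card_union_le _ _)))
    push_cast at d3
    have d4 : (l : ℝ) * (Y b + Y' b) ≤ l * 1 :=
      mul_le_mul_of_nonneg_left (by linarith [P0 b, P0' b]) (by positivity)
    exact_mod_cast (show (((v (T b)).1 ∩ (v y).1).card : ℝ) ≤ l by linarith)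
  refine hc _ (mem_image_of_mem v x1) _ (mem_image_of_mem v y1) ⟨fun e => ?_, key⟩ (x2.trans y2.symm)
  rw [e, inter_self, (v y).2] at key
  omega

theorem geo_param {m n k l d : ℕ} (hl : l < n) (hk : 2 ≤ k) (hd : 0 < d) (h1 : (2 * d) ^ d ≤ m)
    (h2 : m ≤ (2 * n + k).choose n) (σ τ Λ : ℝ) (hτ : τ = k / (2 * n + k))
    (hΛ : Λ = Real.log (2 * (2 * n + k))) (σ1 : 1 ≤ σ) (s1 : 5013504 * Λ ^ 3 * σ ≤ τ ^ 2 * d)
    (s2 : 2506752 * Λ ^ 2 * σ ≤ τ * l) : Real.exp σ / 2 ≤ hm m n k l := by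
  have n1 : (1 : ℝ) ≤ n := by exact_mod_cast (show 1 ≤ n by omega)
  have k2 : (2 : ℝ) ≤ k := by exact_mod_cast hk
  have d1 : (1 : ℝ) ≤ d := by exact_mod_cast hd
  have τ0 : 0 < τ := by rw [hτ]; positivity
  have dN : d ≤ 2 * n + k := by
    have a1 : 2 ^ d ≤ 2 ^ (2 * n + k) := (Nat.pow_le_pow_left (by omega) d).trans
      (h1.trans (h2.trans (Nat.choose_le_two_pow _ _)))
    exact (Nat.pow_le_pow_iff_right one_lt_two).1 a1
  have dN' : (d : ℝ) ≤ 2 * n + k := by exact_mod_cast dN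
  have Λ1 : 1 ≤ Λ := by
    rw [hΛ, Real.le_log_iff_exp_le (by positivity)]
    linarith [Real.exp_one_lt_d9]
  obtain ⟨E, hE⟩ : ∃ E : ℝ, E = (Nat.log 2 d + 1 : ℕ) := ⟨_, rfl⟩
  have E1 : 1 ≤ E := by rw [hE]; exact_mod_cast Nat.le_add_left 1 _
  have E2 : E ≤ d := by rw [hE]; exact_mod_cast Nat.log_lt_self 2 hd.ne'
  have E3 : E ≤ 2 * Λ := by
    have a1 : ((2 ^ (Nat.log 2 d + 1) : ℕ) : ℝ) ≤ 2 * (2 * n + k) := by
      have := Nat.pow_log_le_self 2 hd.ne'
      exact_mod_cast (show 2 ^ (Nat.log 2 d + 1) ≤ 2 * (2 * n + k) by rw [pow_succ]; omega)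
    have a2 := Real.log_le_log (by positivity) a1
    rw [Nat.cast_pow, Real.log_pow, ← hE, ← hΛ, Nat.cast_ofNat] at a2
    nlinarith [Real.log_two_gt_d9]
  have q1 : ((n + k / 2 : ℕ) : ℝ) * 2 ≤ 2 * n + k := by
    exact_mod_cast (show (n + k / 2) * 2 ≤ 2 * n + k by omega)
  have q2 : (k : ℝ) ≤ 3 * ((k / 2 : ℕ) : ℝ) := by exact_mod_cast (show k ≤ 3 * (k / 2) by omega)
  have q3 : (1 : ℝ) ≤ ((n + k / 2 : ℕ) : ℝ) := by exact_mod_cast (show 1 ≤ n + k / 2 by omega)
  set L := Real.log (8 * (n + k / 2 : ℕ) * E) with hL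
  have L1 : L ≤ 2 * Λ := by
    rw [hΛ, show (2 : ℝ) * Real.log (2 * (2 * n + k)) = (2 : ℕ) * Real.log (2 * (2 * n + k)) by
      norm_num, ← Real.log_pow]
    have a1 := mul_le_mul q1 (E2.trans dN') (by linarith) (by linarith)
    exact Real.log_le_log (by positivity) (by nlinarith)
  have r0 : 0 < Real.sqrt d := Real.sqrt_pos.2 (by linarith)
  have r1 := Real.sq_sqrt (show (0 : ℝ) ≤ d by linarith)
  have r2 : Real.sqrt d ≤ Real.sqrt (d + 1) := Real.sqrt_le_sqrt (by linarith)
  set r := Real.sqrt d with hr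
  have t1 : 12 ≤ τ * r := by
    refine le_of_sq_le_sq ?_ (by positivity)
    rw [mul_pow, r1]
    nlinarith [mul_le_mul (one_le_pow₀ (n := 3) Λ1) σ1 zero_le_one (by positivity)]
  refine geo_lower (H := d) hl hk hd h1 h2 (τ * d * r / 12) _ (34 * d ^ 2 * σ) E L hE hL
    (by nlinarith) (by positivity) ?_ ?_ ?_ hd ?_
  · rw [mul_div_cancel₀ _ two_ne_zero, Real.log_exp]
    push_cast
    nlinarith [mul_le_mul_of_nonneg_left σ1 (sq_nonneg (d : ℝ))]
  · have a1 : τ * d * r / 12 / d = τ * r / 12 := by field_simp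
    have a2 : 2 / Real.sqrt (d + 1) ≤ 2 / r := by gcongr
    have a3 : (τ * r / 12 + 1) * (2 / Real.sqrt (d + 1)) ≤ τ * r / 6 * (2 / r) :=
      mul_le_mul (by linarith) a2 (by positivity) (by positivity)
    rw [show τ * r / 6 * (2 / r) = τ / 3 by field_simp; norm_num] at a3
    have a4 : τ * (2 * n + k) = k := by rw [hτ]; field_simp
    rw [a1]
    nlinarith [mul_le_mul_of_nonneg_left a3 (show (0 : ℝ) ≤ ((n + k / 2 : ℕ) : ℝ) by linarith),
      mul_le_mul_of_nonneg_left q1 τ0.le]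
  · rw [div_pow, le_div_iff₀ (by positivity)]
    have a1 : L * E ^ 2 ≤ 2 * Λ * (2 * Λ) ^ 2 :=
      mul_le_mul L1 (pow_le_pow_left₀ (by linarith) E3 2) (by positivity) (by linarith)
    calc _ = 4352 * d ^ 2 * σ * (L * E ^ 2) := by ring
      _ ≤ 4352 * d ^ 2 * σ * (2 * Λ * (2 * Λ) ^ 2) := by gcongr
      _ = d ^ 2 / 144 * (5013504 * Λ ^ 3 * σ) := by ring
      _ ≤ d ^ 2 / 144 * (τ ^ 2 * d) := by gcongr
      _ = (τ * d) ^ 2 * r ^ 2 / 144 := by rw [r1]; ring
      _ = _ := by ring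
  · have a1 : E ^ 2 ≤ (2 * Λ) ^ 2 := pow_le_pow_left₀ (by linarith) E3 2
    calc _ = 626688 * E ^ 2 * σ / τ := by rw [← hr]; field_simp; norm_num
      _ ≤ 626688 * (2 * Λ) ^ 2 * σ / τ := by gcongr
      _ ≤ _ := by rw [div_le_iff₀' τ0]; linarith

theorem geo_final {m n k l : ℕ} (hl : l < n) (h1 : 1 ≤ m) (h2 : m ≤ (2 * n + k).choose n) :
    Real.exp (min (l * Real.log (1 + (k + l + 1) / n))
      (((k + l + 1 : ℝ) / (2 * n + k)) ^ 2 * Real.log m) /
        (200000000 * Real.log (2 * (2 * n + k)) ^ 5)) ≤ 480 * hm m n k l := by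
  have hone : (1 : ℝ) ≤ hm m n k l := by exact_mod_cast one_le_hm h1 h2
  have n1 : (1 : ℝ) ≤ n := by exact_mod_cast (show 1 ≤ n by omega)
  have ln : (l : ℝ) + 1 ≤ n := by exact_mod_cast hl
  have m1 : (1 : ℝ) ≤ m := by exact_mod_cast h1
  have k0 : (0 : ℝ) ≤ k := by positivity
  have l0 : (0 : ℝ) ≤ l := by positivity
  have L0 := Real.log_nonneg m1
  set Λ := Real.log (2 * (2 * n + k)) with hΛ
  have Λ1 : 1 ≤ Λ := by
    rw [hΛ, Real.le_log_iff_exp_le (by positivity)]
    linarith [Real.exp_one_lt_d9]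
  have Λ5 : 1 ≤ Λ ^ 5 := one_le_pow₀ Λ1
  set a := min (l * Real.log (1 + (k + l + 1) / n))
      (((k + l + 1 : ℝ) / (2 * n + k)) ^ 2 * Real.log m) with ha
  have a1 : a ≤ l * Real.log (1 + (k + l + 1) / n) := min_le_left _ _
  have a2 : a ≤ ((k + l + 1 : ℝ) / (2 * n + k)) ^ 2 * Real.log m := min_le_right _ _
  rcases le_or_gt k l with hk | hk
  · refine le_trans (Real.exp_le_exp.2 ?_) (pow_lower hl h1 h2)
    have hk' : (k : ℝ) ≤ l := by exact_mod_cast hk
    have b1 : ((k + l + 1 : ℝ) / (2 * n + k)) ^ 2 ≤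
        (l + 1) * (k + l + 1) / (n * (2 * n + k)) := by
      rw [sq, ← div_mul_div_comm]
      refine mul_le_mul_of_nonneg_right ?_ (by positivity)
      rw [div_le_div_iff₀ (by positivity) (by positivity)]
      nlinarith
    have b2 := a2.trans (mul_le_mul_of_nonneg_right b1 L0)
    rw [div_le_iff₀ (by positivity)]
    refine b2.trans ?_
    calc _ = (l + 1) * (k + l + 1) * Real.log m / (2000 * n * (2 * n + k)) * 2000 := by
          field_simp
      _ ≤ _ := by gcongr; linarith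
  set σ := a / (200000000 * Λ ^ 5) with hσ
  rcases le_or_gt σ 1 with σ1 | σ1
  · linarith [Real.exp_le_exp.2 σ1, Real.exp_one_lt_d9]
  have e1 : a = 200000000 * Λ ^ 5 * σ := by rw [hσ]; field_simp
  have a0 : 0 < a := by rw [e1]; positivity
  have hl1 : 1 ≤ l := by
    rcases Nat.eq_zero_or_pos l with rfl | h
    · simp only [Nat.cast_zero, zero_mul] at a1; linarith
    · exact h
  have hm2 : 2 ≤ m := by
    rcases h1.eq_or_lt with rfl | h
    · simp only [Nat.cast_one, Real.log_one, mul_zero] at a2; linarith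
    · exact h
  have hk' : (l : ℝ) + 1 ≤ k := by exact_mod_cast hk
  set τ : ℝ := k / (2 * n + k) with hτ
  have τ0 : 0 ≤ τ := by positivity
  have u0 : 0 ≤ (k + l + 1 : ℝ) / (2 * n + k) := by positivity
  have u1 : (k + l + 1 : ℝ) / (2 * n + k) ≤ 2 * τ := by
    rw [hτ, ← mul_div_assoc]; gcongr; linarith
  have u2 : Real.log (1 + (k + l + 1) / n) ≤ 3 * Λ * ((k + l + 1) / (2 * n + k)) := by
    rcases le_total (k + l + 1 : ℝ) n with h | h
    · have b1 := Real.log_le_sub_one_of_pos (show (0 : ℝ) < 1 + (k + l + 1) / n by positivity)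
      have b2 : (k + l + 1 : ℝ) / n ≤ 3 * ((k + l + 1) / (2 * n + k)) := by
        rw [← mul_div_assoc, div_le_div_iff₀ (by positivity) (by positivity)]
        nlinarith
      nlinarith
    · have b1 : Real.log (1 + (k + l + 1) / n) ≤ Λ := Real.log_le_log (by positivity)
        (by linarith [div_le_self (show (0 : ℝ) ≤ k + l + 1 by positivity) n1])
      have b2 : 1 ≤ 3 * ((k + l + 1 : ℝ) / (2 * n + k)) := by
        rw [← mul_div_assoc, le_div_iff₀ (by positivity)]; linarith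
      nlinarith
  classical
  set d := Nat.findGreatest (fun d => (2 * d) ^ d ≤ m) m with hd
  have d0 : 1 ≤ d := Nat.le_findGreatest (P := fun d => (2 * d) ^ d ≤ m) h1 (by simpa using hm2)
  have d1 : (2 * d) ^ d ≤ m :=
    Nat.findGreatest_spec (P := fun d => (2 * d) ^ d ≤ m) h1 (by simpa using hm2)
  have d2 : d < 2 ^ d := Nat.lt_two_pow_self
  have d3 : 2 ^ d ≤ m := (Nat.pow_le_pow_left (by omega) d).trans d1
  have d4 : m < (2 * (d + 1)) ^ (d + 1) := not_le.1
    (Nat.findGreatest_is_greatest (P := fun d => (2 * d) ^ d ≤ m) (Nat.lt_succ_self d) (by omega))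
  have dN : d ≤ 2 * n + k := (Nat.pow_le_pow_iff_right one_lt_two).1
    (d3.trans (h2.trans (Nat.choose_le_two_pow _ _)))
  have dN' : (d : ℝ) ≤ 2 * n + k := by exact_mod_cast dN
  have d0' : (1 : ℝ) ≤ d := by exact_mod_cast d0
  have d5 : Real.log m ≤ 4 * Λ * d := by
    have b1 : (m : ℝ) ≤ (2 * (d + 1)) ^ (d + 1) := by exact_mod_cast d4.le
    have b2 := Real.log_le_log (by linarith) b1
    have b3 : Real.log (2 * (d + 1)) ≤ 2 * Λ := by
      rw [hΛ, show (2 : ℝ) * Real.log (2 * (2 * n + k)) = (2 : ℕ) * Real.log (2 * (2 * n + k)) by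
        norm_num, ← Real.log_pow]
      exact Real.log_le_log (by positivity) (by nlinarith)
    rw [Real.log_pow] at b2
    push_cast at b2
    nlinarith [mul_le_mul (show (d : ℝ) + 1 ≤ 2 * d by linarith) b3
      (Real.log_nonneg (by linarith)) (by linarith)]
  have Λσ : 0 ≤ Λ ^ 3 * σ := by positivity
  have key := geo_param hl (by omega) d0 d1 h2 σ τ Λ hτ hΛ σ1.le ?_ ?_
  · linarith
  · have b1 : a ≤ (2 * τ) ^ 2 * (4 * Λ * d) :=
      a2.trans (mul_le_mul (pow_le_pow_left₀ u0 u1 2) d5 L0 (by positivity))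
    refine le_of_mul_le_mul_left ?_ (show 0 < 16 * Λ by positivity)
    have b2 : Λ ^ 4 * σ * 1 ≤ Λ ^ 4 * σ * Λ := by gcongr
    nlinarith [show 0 ≤ Λ ^ 4 * σ by positivity]
  · have b1 : a ≤ l * (3 * Λ * (2 * τ)) :=
      a1.trans (mul_le_mul_of_nonneg_left (u2.trans (by gcongr)) l0)
    refine le_of_mul_le_mul_left ?_ (show 0 < 6 * Λ by positivity)
    have b2 : Λ ^ 3 * σ * 1 ≤ Λ ^ 3 * σ * Λ ^ 2 := by gcongr; exact one_le_pow₀ Λ1
    nlinarith

end Pool.Agent.Lib.MP_d46fce_co
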