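import Mathlib

/-!
Generalized Kneser graphs and the largest chromatic number of their `m`-vertex subgraphs.
-/

namespace Pool.Agent.Lib.MP_d46fce_co

/-- the `n`-subsets of a set with `2n + k` elements -/
abbrev Vtx (n k : ℕ) : Type := {A : Finset (Fin (2 * n + k)) // A.card = n}

/-- the graph `G_(n,k,l)`: distinct `n`-sets are adjacent when they share at most `l` elements -/
def genKneser (n k l : ℕ) : SimpleGraph (Vtx n k) where
  Adj A B := A ≠ B ∧ (A.1 ∩ B.1).card ≤ l
  symm := ⟨fun _ _ h => ⟨h.1.symm, by rw [Finset.inter_comm]; exact h.2⟩⟩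
  loopless := ⟨fun _ h => h.1 rfl⟩

/-- `h_m(n; k, l)`: the largest chromatic number of a subgraph of `G_(n,k,l)` induced on exactly
`m` vertices -/
noncomputable def hm (m n k l : ℕ) : ℕ :=
  ((Finset.univ : Finset (Vtx n k)).powersetCard m).sup
    (fun W => ((genKneser n k l).induce (W : Set (Vtx n k))).chromaticNumber.toNat)

end Pool.Agent.Lib.MP_d46fce_co
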