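import Pool.Agent.Lib.MP_d46fce_co.Main
import Pool.Agent.Lib.MP_d46fce_co.General

/-!
All estimates for `h_m(n; k, l)` in one place (lemma file; the hand-ins state them separately).
-/

namespace Pool.Agent.Lib.MP_d46fce_co.Estimates

open Pool.Agent.Lib.MP_d46fce_co

theorem all_estimates (m n k l : ℕ) (hl : l < n) (h1 : 1 ≤ m) (h2 : m ≤ (2 * n + k).choose n) :
    (Phi m n k / 40 ≤ (hm m n k 0 : ℝ) ∧ (hm m n k 0 : ℝ) ≤ 3 * Phi m n k) ∧
    Phi m (n - l) (k + l) / 40 ≤ (hm m n k l : ℝ) ∧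
    (∀ r : ℕ, (m : ℝ) < ((n : ℝ) / (3 * (k + 2 * l))) ^ r / r.factorial → hm m n k l ≤ r + 1) ∧
    (∀ r : ℕ, r ≤ k + l → 2 * (36 * (((n : ℝ) - l) / (k + l + 1)) + 9) ^ r ≤ (m : ℝ) →
      r + 2 ≤ hm m n k l) ∧
    (∀ F : ℝ, F = ((2 * n + k).choose (l + 1) : ℝ) / n.choose (l + 1) →
      min (m : ℝ) (F / n.choose (l + 1)) ≤ hm m n k l ∧
      (hm m n k l : ℝ) ≤ 1 + F + F * Real.log (1 + m / F)) := by
  refine ⟨⟨?_, phi_upper (by omega) h1⟩, ?_, fun r h => thr_upper (by omega) h,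
    fun r hr h => thr_lower hl hr ?_ h2, fun F hF => ⟨?_, cover_upper m n k l hl F hF⟩⟩
  · have := phi_lower (l := 0) (k := k) (show 0 < n by omega) h1 h2
    simp only [Nat.sub_zero, Nat.add_zero] at this
    linarith
  · have := phi_lower hl h1 h2
    linarith
  · rw [Nat.cast_sub hl.le]
    push_cast
    exact h
  · rw [hF, div_div, ← sq]
    exact packing_lower hl h2

end Pool.Agent.Lib.MP_d46fce_co.Estimates
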