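import Pool.Agent.Lib.MP_d46fce_co.Lower

/-!
Upper bounds for `h_m(n; k, l)` from colourings by majority classes inside blocks.
-/

namespace Pool.Agent.Lib.MP_d46fce_co

theorem greedy_real {ι H : Type} [Fintype H] [Nonempty H] [DecidableEq H] (I : Finset ι)
    (Z : ι → Finset H) (ε : ℝ) (hε : 0 ≤ ε)
    (hZ : ∀ i ∈ I, ((Z i).card : ℝ) ≤ ε * Fintype.card H) (s : ℕ) :
    ∃ X : Finset H, X.card ≤ s ∧
      (((I.filter (fun i => X ⊆ Z i)).card : ℕ) : ℝ) ≤ I.card * ε ^ s := by
  classical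
  induction s with
  | zero => exact ⟨∅, le_rfl, by simp⟩
  | succ s ih =>
    obtain ⟨X, h1, h2⟩ := ih
    set J := I.filter (fun i => X ⊆ Z i) with hJ
    have hsum : ∑ x : H, ((J.filter (fun i => x ∈ Z i)).card : ℝ) ≤ ∑ _x : H, J.card * ε := by
      have : ∑ x : H, (J.filter (fun i => x ∈ Z i)).card = ∑ i ∈ J, (Z i).card := by
        simp only [Finset.card_filter]
        rw [Finset.sum_comm]
        refine Finset.sum_congr rfl fun i _ => ?_
        simp
      rw [← Nat.cast_sum, this, Nat.cast_sum]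
      refine (Finset.sum_le_sum fun i hi => hZ i (Finset.mem_filter.1 hi).1).trans (le_of_eq ?_)
      simp only [Finset.sum_const, Finset.card_univ, nsmul_eq_mul]
      ring
    obtain ⟨x, -, hx⟩ := Finset.exists_le_of_sum_le Finset.univ_nonempty hsum
    refine ⟨insert x X, (Finset.card_insert_le _ _).trans (by omega), ?_⟩
    have e : I.filter (fun i => insert x X ⊆ Z i) = J.filter (fun i => x ∈ Z i) := by
      rw [hJ, Finset.filter_filter]
      refine Finset.filter_congr fun i _ => ?_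
      rw [Finset.insert_subset_iff, and_comm]
    rw [e]
    calc (((J.filter (fun i => x ∈ Z i)).card : ℕ) : ℝ) ≤ J.card * ε := hx
      _ ≤ I.card * ε ^ s * ε := mul_le_mul_of_nonneg_right h2 hε
      _ = _ := by ring

theorem centralBinom_sq (a : ℕ) : a.centralBinom ^ 2 * (3 * a + 1) ≤ 16 ^ a := by
  induction a with
  | zero => simp
  | succ a ih =>
    have h := Nat.succ_mul_centralBinom_succ a
    have h1 : (a + 1) ^ 2 * (3 * a + 1) * ((a + 1).centralBinom ^ 2 * (3 * (a + 1) + 1)) ≤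
        (a + 1) ^ 2 * (3 * a + 1) * 16 ^ (a + 1) := by
      calc (a + 1) ^ 2 * (3 * a + 1) * ((a + 1).centralBinom ^ 2 * (3 * (a + 1) + 1))
          = ((a + 1) * (a + 1).centralBinom) ^ 2 * (3 * a + 1) * (3 * a + 4) := by ring
        _ = (4 * (2 * a + 1) ^ 2 * (3 * a + 4)) * (a.centralBinom ^ 2 * (3 * a + 1)) := by
            rw [h]; ring
        _ ≤ (16 * (a + 1) ^ 2 * (3 * a + 1)) * 16 ^ a :=
            Nat.mul_le_mul (by nlinarith) ih
        _ = _ := by ring
    exact Nat.le_of_mul_le_mul_left h1 (by positivity)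

/-- `A` has a majority of margin `t` inside `F` -/
def Maj {β : Type} [DecidableEq β] (t : ℕ) (A F : Finset β) : Prop := F.card + t ≤ 2 * (F ∩ A).card

instance {β : Type} [DecidableEq β] (t : ℕ) (A F : Finset β) : Decidable (Maj t A F) :=
  inferInstanceAs (Decidable (F.card + t ≤ 2 * (F ∩ A).card))

theorem Maj.inter {β : Type} [DecidableEq β] {t : ℕ} {A B F : Finset β} (h1 : Maj t A F)
    (h2 : Maj t B F) : t ≤ (A ∩ B).card := by
  have h3 := Finset.card_union_add_card_inter (F ∩ A) (F ∩ B)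
  have h4 : (F ∩ A ∪ F ∩ B).card ≤ F.card :=
    Finset.card_le_card (Finset.union_subset Finset.inter_subset_left Finset.inter_subset_left)
  have h5 : (F ∩ A ∩ (F ∩ B)).card ≤ (A ∩ B).card :=
    Finset.card_le_card (Finset.inter_subset_inter Finset.inter_subset_right
      Finset.inter_subset_right)
  unfold Maj at h1 h2
  omega

theorem block_bound (a t : ℕ) (A B : Finset (Fin (2 * a))) (h : ((A ∪ B)ᶜ).card < t) :
    (Finset.univ.filter (fun F => ¬ Maj t A F ∧ ¬ Maj t B F)).card ≤ 4 * t * a.centralBinom := by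
  set c := (Aᶜ).card with hc
  have h1 : (Finset.univ.filter (fun F => ¬ Maj t A F ∧ ¬ Maj t B F)).card ≤
      ((Finset.Ico (c + t - 4 * t) (c + t)).biUnion
        (fun v => (Finset.univ : Finset (Fin (2 * a))).powersetCard v)).card := by
    refine Finset.card_le_card_of_injOn (fun F => symmDiff F Aᶜ) (fun F hF => ?_)
      (fun F _ F' _ e => symmDiff_left_injective _ e)
    simp only [Finset.coe_filter, Finset.mem_univ, true_and, Set.mem_ofPred_eq, Maj] at hF
    have e1 : symmDiff F Aᶜ = (F ∩ A) ∪ (Aᶜ \ F) := by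
      ext x
      simp only [Finset.mem_symmDiff, Finset.mem_compl, Finset.mem_union, Finset.mem_inter,
        Finset.mem_sdiff]
      tauto
    have e2 : (symmDiff F Aᶜ).card = (F ∩ A).card + (Aᶜ \ F).card := by
      rw [e1, Finset.card_union_of_disjoint]
      refine Finset.disjoint_left.2 fun x h1 h2 => ?_
      exact (Finset.mem_sdiff.1 h2).2 (Finset.mem_inter.1 h1).1
    have e3 := Finset.card_sdiff_add_card_inter Aᶜ F
    have e4 : (Aᶜ ∩ F).card + (F ∩ A).card = F.card := by
      rw [← Finset.card_sdiff_add_card_inter F A]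
      congr 2
      ext x
      simp only [Finset.mem_compl, Finset.mem_inter, Finset.mem_sdiff]
      tauto
    have e5 : F.card ≤ (F ∩ A).card + (F ∩ B).card + ((A ∪ B)ᶜ).card := by
      have s1 : F ⊆ (F ∩ A ∪ F ∩ B) ∪ (A ∪ B)ᶜ := by
        intro x hx
        simp only [Finset.mem_compl, Finset.mem_union, Finset.mem_inter]
        tauto
      have s2 := Finset.card_le_card s1
      have s3 := Finset.card_union_le (F ∩ A ∪ F ∩ B) (A ∪ B)ᶜ
      have s4 := Finset.card_union_le (F ∩ A) (F ∩ B)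
      omega
    simp only [Finset.coe_biUnion, Finset.coe_Ico, Set.mem_iUnion, Finset.mem_coe,
      Finset.mem_powersetCard, Finset.subset_univ, true_and, Set.mem_Ico, exists_prop]
    exact ⟨_, ⟨by omega, by omega⟩, rfl⟩
  refine h1.trans (Finset.card_biUnion_le.trans ?_)
  refine (Finset.sum_le_card_nsmul _ _ a.centralBinom fun v _ => ?_).trans ?_
  · rw [Finset.card_powersetCard, Finset.card_univ, Fintype.card_fin]
    exact Nat.choose_le_centralBinom v a
  · rw [Nat.card_Ico, smul_eq_mul]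
    exact Nat.mul_le_mul_right _ (by omega)

/-- a row of a subset of a product -/
def row {r b : ℕ} (T : Finset (Fin r × Fin b)) (β : Fin r) : Finset (Fin b) :=
  Finset.univ.filter (fun j => (β, j) ∈ T)

theorem pair_bound (r a t κ : ℕ) (ht : 1 ≤ t) (T T' : Finset (Fin r × Fin (2 * a)))
    (h : ((T ∪ T')ᶜ).card ≤ κ) :
    ((Finset.univ.filter (fun p : Fin r × Finset (Fin (2 * a)) =>
      ¬ Maj t (row T p.1) p.2 ∧ ¬ Maj t (row T' p.1) p.2)).card : ℝ) ≤
      (κ : ℝ) / t * 4 ^ a + r * (4 * t * a.centralBinom) := by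
  have ht' : (0 : ℝ) < t := by exact_mod_cast ht
  have e1 : (Finset.univ.filter (fun p : Fin r × Finset (Fin (2 * a)) =>
      ¬ Maj t (row T p.1) p.2 ∧ ¬ Maj t (row T' p.1) p.2)).card =
      ∑ β : Fin r, (Finset.univ.filter (fun F => ¬ Maj t (row T β) F ∧ ¬ Maj t (row T' β) F)).card := by
    simp only [Finset.card_filter]
    rw [Fintype.sum_prod_type]
  have e2 : ∑ β : Fin r, ((row T β ∪ row T' β)ᶜ).card = ((T ∪ T')ᶜ).card := by
    have : ∀ β, (row T β ∪ row T' β)ᶜ = Finset.univ.filter (fun j => (β, j) ∈ (T ∪ T')ᶜ) := by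
      intro β; ext j; simp [row]
    simp only [this, Finset.card_filter]
    rw [← Fintype.sum_prod_type (f := fun p : Fin r × Fin (2 * a) => if p ∈ (T ∪ T')ᶜ then 1 else 0)]
    simp only [Finset.sum_ite_mem, Finset.univ_inter, Finset.sum_const, smul_eq_mul, mul_one]
  have e3 : ∀ β, ((Finset.univ.filter
      (fun F => ¬ Maj t (row T β) F ∧ ¬ Maj t (row T' β) F)).card : ℝ) ≤
      (((row T β ∪ row T' β)ᶜ).card : ℝ) / t * 4 ^ a + 4 * t * a.centralBinom := by
    intro β
    by_cases hc : ((row T β ∪ row T' β)ᶜ).card < t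
    · have h1 : ((Finset.univ.filter
          (fun F => ¬ Maj t (row T β) F ∧ ¬ Maj t (row T' β) F)).card : ℝ) ≤
          4 * t * a.centralBinom := by exact_mod_cast block_bound a t _ _ hc
      have h2 : 0 ≤ (((row T β ∪ row T' β)ᶜ).card : ℝ) / t * 4 ^ a := by positivity
      linarith
    · have h1 : (Finset.univ.filter
          (fun F => ¬ Maj t (row T β) F ∧ ¬ Maj t (row T' β) F)).card ≤ 4 ^ a := by
        refine (Finset.card_le_univ _).trans (le_of_eq ?_)
        rw [Fintype.card_finset, Fintype.card_fin, pow_mul]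
        norm_num
      have h2 : (1 : ℝ) ≤ (((row T β ∪ row T' β)ᶜ).card : ℝ) / t := by
        rw [le_div_iff₀ ht', one_mul]
        exact_mod_cast not_lt.1 hc
      have h3 : (1 : ℝ) * 4 ^ a ≤ (((row T β ∪ row T' β)ᶜ).card : ℝ) / t * 4 ^ a :=
        mul_le_mul_of_nonneg_right h2 (by positivity)
      have h4 : ((Finset.univ.filter
          (fun F => ¬ Maj t (row T β) F ∧ ¬ Maj t (row T' β) F)).card : ℝ) ≤ 4 ^ a := by
        exact_mod_cast h1
      have h5 : (0 : ℝ) ≤ 4 * t * a.centralBinom := by positivity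
      linarith
  rw [e1, Nat.cast_sum]
  refine (Finset.sum_le_sum fun β _ => e3 β).trans ?_
  rw [Finset.sum_add_distrib, ← Finset.sum_mul, ← Finset.sum_div, ← Nat.cast_sum, e2]
  simp only [Finset.sum_const, Finset.card_univ, Fintype.card_fin, nsmul_eq_mul]
  have : (((T ∪ T')ᶜ).card : ℝ) ≤ κ := by exact_mod_cast h
  gcongr

theorem half_upper {m n k l r a s : ℕ} (hr : 1 ≤ r) (hN : r * (2 * a) ≤ 2 * n + k) (ε E : ℝ)
    (hε : ((k + l : ℕ) : ℝ) / (l + 1 : ℕ) * 4 ^ a + r * (4 * (l + 1 : ℕ) * a.centralBinom) ≤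
      ε * (r * 4 ^ a))
    (hE : (m : ℝ) ^ 2 ≤ E ∨ (4 : ℝ) ^ (r * (2 * a)) ≤ E) (hs : E * ε ^ s < 1) :
    hm m n k l ≤ s + 1 := by
  classical
  have ε0 : 0 ≤ ε := by
    have h1 : (0 : ℝ) < r * 4 ^ a := by positivity
    have h2 : 0 ≤ ε * (r * 4 ^ a) := le_trans (by positivity) hε
    exact nonneg_of_mul_nonneg_left h2 h1
  obtain ⟨ι⟩ : Nonempty ((Fin r × Fin (2 * a)) ↪ Fin (2 * n + k)) :=
    Function.Embedding.nonempty_of_card_le (by simpa using hN)
  have : Nonempty (Fin r) := ⟨⟨0, hr⟩⟩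
  set tr : Vtx n k → Finset (Fin r × Fin (2 * a)) :=
    fun v => Finset.univ.filter (fun p => ι p ∈ v.1) with htr
  refine hm_le fun W hW => ?_
  set I := ((W ×ˢ W).filter (fun p => (genKneser n k l).Adj p.1 p.2)).image
    (fun p => (tr p.1, tr p.2)) with hI
  have hIE : (I.card : ℝ) ≤ E := by
    rcases hE with hE | hE
    · refine le_trans ?_ hE
      have : I.card ≤ m ^ 2 := Finset.card_image_le.trans ((Finset.card_filter_le _ _).trans
        (by rw [Finset.card_product, hW, sq]))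
      exact_mod_cast this
    · refine le_trans ?_ hE
      have : I.card ≤ 4 ^ (r * (2 * a)) := (Finset.card_le_univ _).trans (le_of_eq (by
        rw [Fintype.card_prod, Fintype.card_finset, Fintype.card_prod, Fintype.card_fin,
          Fintype.card_fin, ← mul_pow]
        norm_num))
      exact_mod_cast this
  obtain ⟨X, hX1, hX2⟩ := greedy_real I (fun T => Finset.univ.filter
    (fun p : Fin r × Finset (Fin (2 * a)) =>
      ¬ Maj (l + 1) (row T.1 p.1) p.2 ∧ ¬ Maj (l + 1) (row T.2 p.1) p.2)) ε ε0 (by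
      intro T hT
      obtain ⟨⟨u, v⟩, huv, rfl⟩ := Finset.mem_image.1 hT
      have hadj : (u.1 ∩ v.1).card ≤ l := (Finset.mem_filter.1 huv).2.2
      refine (pair_bound r a (l + 1) (k + l) (by omega) _ _ ?_).trans (hε.trans (le_of_eq ?_))
      · have h1 : ((tr u ∪ tr v)ᶜ).card ≤ ((u.1 ∪ v.1)ᶜ).card := by
          refine Finset.card_le_card_of_injOn ι (fun p hp => ?_) ι.injective.injOn
          have hp' := Finset.mem_compl.1 (Finset.mem_coe.1 hp)
          refine Finset.mem_coe.2 (Finset.mem_compl.2 fun h => hp' ?_)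
          rcases Finset.mem_union.1 h with h | h
          · exact Finset.mem_union_left _ (Finset.mem_filter.2 ⟨Finset.mem_univ _, h⟩)
          · exact Finset.mem_union_right _ (Finset.mem_filter.2 ⟨Finset.mem_univ _, h⟩)
        have h2 := Finset.card_union_add_card_inter u.1 v.1
        rw [Finset.card_compl (u.1 ∪ v.1), Fintype.card_fin] at h1
        have h3 := u.2
        have h4 := v.2
        change ((tr u ∪ tr v)ᶜ).card ≤ k + l
        omega
      · rw [Fintype.card_prod, Fintype.card_finset, Fintype.card_fin, Fintype.card_fin, pow_mul]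
        push_cast
        norm_num) s
  have hX3 : ∀ T ∈ I, ¬ X ⊆ Finset.univ.filter (fun p : Fin r × Finset (Fin (2 * a)) =>
      ¬ Maj (l + 1) (row T.1 p.1) p.2 ∧ ¬ Maj (l + 1) (row T.2 p.1) p.2) := by
    intro T hT h
    have h2 : (I.card : ℝ) * ε ^ s ≤ E * ε ^ s := mul_le_mul_of_nonneg_right hIE (by positivity)
    have h3 := lt_of_le_of_lt (hX2.trans h2) hs
    have h4 := Finset.card_eq_zero.1 (Nat.cast_lt_one.1 h3)
    exact Finset.filter_eq_empty_iff.1 h4 hT h
  have hex : ∀ v : Vtx n k, ∃ j : ℕ, (∃ p : X, (X.equivFin p).val = j ∧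
      Maj (l + 1) (row (tr v) p.1.1) p.1.2) ∨
      (j = s ∧ ∀ p ∈ X, ¬ Maj (l + 1) (row (tr v) p.1) p.2) := by
    intro v
    by_cases h : ∃ p ∈ X, Maj (l + 1) (row (tr v) p.1) p.2
    · obtain ⟨p, h1, h2⟩ := h
      exact ⟨_, Or.inl ⟨⟨p, h1⟩, rfl, h2⟩⟩
    · push Not at h
      exact ⟨s, Or.inr ⟨rfl, h⟩⟩
  choose c hc using hex
  refine ⟨c, fun v _ => ?_, fun u hu v hv huv e => ?_⟩
  · rcases hc v with ⟨p, h, -⟩ | ⟨h, -⟩
    · have := (X.equivFin p).isLt; omega
    · omega
  · rcases hc u with ⟨p, h1, h2⟩ | ⟨h1, h2⟩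
    · rcases hc v with ⟨q, h3, h4⟩ | ⟨h3, -⟩
      · have hpq : p = q := X.equivFin.injective (Fin.ext (by omega))
        subst hpq
        have h5 := h2.inter h4
        have h6 : (row (tr u) p.1.1 ∩ row (tr v) p.1.1).card ≤ (u.1 ∩ v.1).card := by
          refine Finset.card_le_card_of_injOn (fun j => ι (p.1.1, j)) (fun j hj => ?_)
            (fun j _ j' _ e => ?_)
          · have hj' := Finset.mem_inter.1 (Finset.mem_coe.1 hj)
            exact Finset.mem_coe.2 (Finset.mem_inter.2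
              ⟨(Finset.mem_filter.1 (Finset.mem_filter.1 hj'.1).2).2,
                (Finset.mem_filter.1 (Finset.mem_filter.1 hj'.2).2).2⟩)
          · simpa using ι.injective e
        have h7 := huv.2
        omega
      · have := (X.equivFin p).isLt; omega
    · rcases hc v with ⟨q, h3, -⟩ | ⟨-, h4⟩
      · have := (X.equivFin q).isLt; omega
      · refine hX3 (tr u, tr v) (Finset.mem_image.2 ⟨(u, v), Finset.mem_filter.2
          ⟨Finset.mem_product.2 ⟨hu, hv⟩, huv⟩, rfl⟩) fun p hp => ?_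
        exact Finset.mem_filter.2 ⟨Finset.mem_univ _, h2 p hp, h4 p hp⟩

end Pool.Agent.Lib.MP_d46fce_co
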