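import Mathlib

namespace Pool.Agent.Lib.MP_d46fce_co

/-- the order of magnitude: with `f = (2n + k) / n`,
`min (k + 2) (1 + f * log (1 + m / f) / log (2 + n / (k + 1)))` -/
noncomputable def Phi (m n k : ℕ) : ℝ :=
  min ((k : ℝ) + 2)
    (1 + (2 * n + k : ℝ) / n * Real.log (1 + m / ((2 * n + k : ℝ) / n)) /
      Real.log (2 + (n : ℝ) / (k + 1)))

end Pool.Agent.Lib.MP_d46fce_co
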