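import Pool.Agent.Lib.MP_d46fce_co.Lower

/-!
Nested minimal separators: few vertices force few colours.
-/

namespace Pool.Agent.Lib.MP_d46fce_co

section general

variable {V : Type} [DecidableEq V] (G : SimpleGraph V)

/-- sets carrying a sign that is consistent with all walks of length at most three -/
def Signed (X : Finset V) : Prop :=
  ∃ σ : V → Bool, (∀ u ∈ X, ∀ w ∈ X, G.Adj u w → σ u ≠ σ w) ∧
    (∀ u ∈ X, ∀ w ∈ X, ∀ v, G.Adj u v → G.Adj v w → σ u = σ w) ∧
    (∀ u ∈ X, ∀ w ∈ X, ∀ v v', G.Adj u v → G.Adj v v' → G.Adj v' w → σ u ≠ σ w)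

/-- colourings with colours `0, …, r` in which colour `0` is forced away from neighbours -/
def Cov (r : ℕ) (Z : Finset V) : Prop :=
  ∃ c : V → ℕ, (∀ v, c v ≤ r) ∧ (∀ u v, G.Adj u v → c u ≠ 0 → c u ≠ c v) ∧
    ∀ u ∈ Z, ∀ v, G.Adj u v → c u = 0 → c v ≠ 0

theorem Cov.step {r : ℕ} {Z Z' : Finset V} (h : Cov G r Z') (hs : Signed G (Z \ Z')) :
    Cov G (r + 1) Z := by
  classical
  obtain ⟨c, c1, c2, c3⟩ := h
  obtain ⟨σ, s1, s2, s3⟩ := hs
  set P : V → Prop := fun v => (v ∈ Z \ Z' ∧ σ v = true) ∨
    ∃ u ∈ Z \ Z', σ u = false ∧ G.Adj u v with hP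
  have hind : ∀ u v, G.Adj u v → P u → P v → False := by
    rintro u v huv (⟨a1, a2⟩ | ⟨a, a1, a2, a3⟩) (⟨b1, b2⟩ | ⟨b, b1, b2, b3⟩)
    · exact s1 u a1 v b1 huv (by rw [a2, b2])
    · have := s2 u a1 b b1 v huv b3.symm
      rw [a2, b2] at this; simp at this
    · have := s2 a a1 v b1 u a3 huv
      rw [a2, b2] at this; simp at this
    · exact s3 a a1 b b1 u v a3 huv b3.symm (by rw [a2, b2])
  refine ⟨fun v => if P v then r + 1 else c v, fun v => ?_, fun u v huv => ?_,
    fun u hu v huv => ?_⟩
  · dsimp only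
    split_ifs
    · exact le_rfl
    · exact (c1 v).trans (by omega)
  · dsimp only
    have := c1 u
    have := c1 v
    split_ifs with h1 h2 h2
    · exact (hind u v huv h1 h2).elim
    · omega
    · omega
    · exact c2 u v huv
  · dsimp only
    by_cases h2 : P v
    · rw [if_pos h2]; omega
    by_cases h1 : P u
    · rw [if_pos h1]; omega
    rw [if_neg h1, if_neg h2]
    · by_cases hz : u ∈ Z'
      · exact c3 u hz v huv
      · exfalso
        have hu' : u ∈ Z \ Z' := Finset.mem_sdiff.2 ⟨hu, hz⟩
        cases e : σ u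
        · exact h2 (Or.inr ⟨u, hu', e, huv⟩)
        · exact h1 (Or.inl ⟨hu', e⟩)

theorem sep_main (y : V → V → ℤ) (T D : ℤ) (J : ℕ) (hD : 0 ≤ D)
    (hy : ∀ a u v, G.Adj u v → |y a u + y a v| ≤ 2 * D) (hT : ∀ a, T ≤ |y a a|)
    (hJ : 6 * D * J < T + 3 * D) (r : ℕ) (Z : Finset V) :
    Cov G r Z ∨ ∃ a ∈ Z, ∀ j ≤ J, (j + r).choose r ≤
      (Z.filter (fun v => T - 6 * D * j ≤ |y a v|)).card := by
  classical
  induction r generalizing Z with
  | zero =>
    rcases Z.eq_empty_or_nonempty with rfl | ⟨a, ha⟩
    · exact Or.inl ⟨fun _ => 0, fun _ => le_rfl, fun _ _ _ h => absurd rfl h, by simp⟩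
    · refine Or.inr ⟨a, ha, fun j _ => ?_⟩
      rw [Nat.choose_zero_right]
      refine Finset.card_pos.2 ⟨a, Finset.mem_filter.2 ⟨ha, ?_⟩⟩
      have := hT a
      have : 0 ≤ 6 * D * j := by positivity
      linarith
  | succ r ih =>
    obtain ⟨Z', hZ', hmin⟩ := Finset.exists_min_image
      (Z.powerset.filter (fun Z' => Signed G (Z \ Z'))) Finset.card
      ⟨Z, Finset.mem_filter.2 ⟨by simp, ⟨fun _ => true, by simp, by simp, by simp⟩⟩⟩
    rw [Finset.mem_filter, Finset.mem_powerset] at hZ'
    rcases ih Z' with h | ⟨a, ha, h⟩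
    · exact Or.inl (h.step G hZ'.2)
    refine Or.inr ⟨a, hZ'.1 ha, ?_⟩
    have lip : ∀ u v, G.Adj u v → |y a u| - 2 * D ≤ |y a v| := by
      intro u v huv
      have h1 := hy a u v huv
      have h2 : |y a u| ≤ |y a u + y a v| + |y a v| := by
        simpa using abs_sub (y a u + y a v) (y a v)
      linarith
    have flip : ∀ u v, G.Adj u v → D < |y a u| → D < |y a v| →
        decide (0 < y a u) ≠ decide (0 < y a v) := by
      intro u v huv h1 h2
      have h3 := abs_le.1 (hy a u v huv)
      rw [lt_abs] at h1 h2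
      intro e
      rw [decide_eq_decide] at e
      rcases h1 with h1 | h1 <;> rcases h2 with h2 | h2 <;> omega
    have step : ∀ j : ℕ, j + 1 ≤ J →
        (Z.filter (fun v => T - 6 * D * j ≤ |y a v|)).card +
          (Z'.filter (fun v => T - 6 * D * (j + 1 : ℕ) ≤ |y a v|)).card ≤
        (Z.filter (fun v => T - 6 * D * (j + 1 : ℕ) ≤ |y a v|)).card := by
      intro j hj
      set θ : ℤ := T - 6 * D * j with hθ
      have hθ' : T - 6 * D * (j + 1 : ℕ) = θ - 6 * D := by push_cast; ring
      rw [hθ']
      have hθ3 : 3 * D < θ := by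
        have : (j : ℤ) + 1 ≤ J := by exact_mod_cast hj
        nlinarith
      obtain ⟨σ, s1, s2, s3⟩ := hZ'.2
      set Z'' := Z'.filter (fun v => ¬ θ - 6 * D ≤ |y a v|) ∪
        Z.filter (fun v => θ - 6 * D ≤ |y a v| ∧ ¬ θ ≤ |y a v|) with hZ''
      have hcase : ∀ u ∈ Z \ Z'', θ ≤ |y a u| ∨ (u ∈ Z \ Z' ∧ |y a u| < θ - 6 * D) := by
        intro u hu
        simp only [hZ'', Finset.mem_sdiff, Finset.mem_union, Finset.mem_filter, not_or,
          not_and, not_not] at hu ⊢
        by_cases h1 : θ - 6 * D ≤ |y a u|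
        · exact Or.inl (hu.2.2 hu.1 h1)
        · exact Or.inr ⟨⟨hu.1, fun h2 => h1 (hu.2.1 h2)⟩, not_le.1 h1⟩
      have hsg : Signed G (Z \ Z'') := by
        refine ⟨fun v => if θ ≤ |y a v| then decide (0 < y a v) else σ v, ?_, ?_, ?_⟩
        · intro u hu w hw h1
          have l1 := lip u w h1
          have l1' := lip w u h1.symm
          rcases hcase u hu with a1 | a1 <;> rcases hcase w hw with a2 | a2
          · simp only [if_pos a1, if_pos a2]
            exact flip u w h1 (by linarith) (by linarith)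
          · exfalso; linarith [a2.2]
          · exfalso; linarith [a1.2]
          · have n1 : ¬ θ ≤ |y a u| := not_le.2 (by linarith [a1.2])
            have n2 : ¬ θ ≤ |y a w| := not_le.2 (by linarith [a2.2])
            simp only [if_neg n1, if_neg n2]
            exact s1 u a1.1 w a2.1 h1
        · intro u hu w hw v h1 h2
          have l1 := lip u v h1
          have l1' := lip v u h1.symm
          have l2 := lip v w h2
          have l2' := lip w v h2.symm
          rcases hcase u hu with a1 | a1 <;> rcases hcase w hw with a2 | a2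
          · simp only [if_pos a1, if_pos a2]
            have f1 := flip u v h1 (by linarith) (by linarith)
            have f2 := flip v w h2 (by linarith) (by linarith)
            revert f1 f2
            cases decide (0 < y a u) <;> cases decide (0 < y a v) <;>
              cases decide (0 < y a w) <;> simp
          · exfalso; linarith [a2.2]
          · exfalso; linarith [a1.2]
          · have n1 : ¬ θ ≤ |y a u| := not_le.2 (by linarith [a1.2])
            have n2 : ¬ θ ≤ |y a w| := not_le.2 (by linarith [a2.2])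
            simp only [if_neg n1, if_neg n2]
            exact s2 u a1.1 w a2.1 v h1 h2
        · intro u hu w hw v v' h1 h2 h3
          have l1 := lip u v h1
          have l1' := lip v u h1.symm
          have l2 := lip v v' h2
          have l2' := lip v' v h2.symm
          have l3 := lip v' w h3
          have l3' := lip w v' h3.symm
          rcases hcase u hu with a1 | a1 <;> rcases hcase w hw with a2 | a2
          · simp only [if_pos a1, if_pos a2]
            have f1 := flip u v h1 (by linarith) (by linarith)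
            have f2 := flip v v' h2 (by linarith) (by linarith)
            have f3 := flip v' w h3 (by linarith) (by linarith)
            revert f1 f2 f3
            cases decide (0 < y a u) <;> cases decide (0 < y a v) <;>
              cases decide (0 < y a v') <;> cases decide (0 < y a w) <;> simp
          · exfalso; linarith [a2.2]
          · exfalso; linarith [a1.2]
          · have n1 : ¬ θ ≤ |y a u| := not_le.2 (by linarith [a1.2])
            have n2 : ¬ θ ≤ |y a w| := not_le.2 (by linarith [a2.2])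
            simp only [if_neg n1, if_neg n2]
            exact s3 u a1.1 w a2.1 v v' h1 h2 h3
      have hle := hmin Z'' (Finset.mem_filter.2 ⟨Finset.mem_powerset.2
        (Finset.union_subset ((Finset.filter_subset _ _).trans hZ'.1) (Finset.filter_subset _ _)),
        hsg⟩)
      have e1 := Finset.card_filter_add_card_filter_not (s := Z')
        (fun v => θ - 6 * D ≤ |y a v|)
      have e2 := Finset.card_filter_add_card_filter_not
        (s := Z.filter (fun v => θ - 6 * D ≤ |y a v|)) (fun v => θ ≤ |y a v|)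
      have e3 : (Z.filter (fun v => θ - 6 * D ≤ |y a v|)).filter (fun v => θ ≤ |y a v|) =
          Z.filter (fun v => θ ≤ |y a v|) := by
        rw [Finset.filter_filter]
        exact Finset.filter_congr fun v _ => ⟨fun h => h.2, fun h => ⟨by linarith, h⟩⟩
      rw [e3, Finset.filter_filter] at e2
      have e4 := Finset.card_union_le (Z'.filter (fun v => ¬ θ - 6 * D ≤ |y a v|))
        (Z.filter (fun v => θ - 6 * D ≤ |y a v| ∧ ¬ θ ≤ |y a v|))
      rw [← hZ''] at e4
      omega
    intro j hj
    induction j with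
    | zero =>
      have := h 0 hj
      rw [zero_add, Nat.choose_self] at this ⊢
      exact this.trans (Finset.card_le_card (Finset.filter_subset_filter _ hZ'.1))
    | succ j ihj =>
      have h1 := ihj (by omega)
      have h2 := h (j + 1) hj
      have h3 := step j hj
      have e : (j + 1 + (r + 1)).choose (r + 1) =
          (j + (r + 1)).choose (r + 1) + (j + 1 + r).choose r := by
        rw [show j + 1 + (r + 1) = (j + 1 + r) + 1 by ring, Nat.choose_succ_succ,
          show j + (r + 1) = j + 1 + r by ring, add_comm]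
      omega

end general

theorem hm_le_sep (m n k l r : ℕ) (hn : 1 ≤ n)
    (h : m < (n / (3 * (k + 2 * l)) + r).choose r) : hm m n k l ≤ r + 1 := by
  classical
  refine hm_le fun W hW => ?_
  have hJ : 6 * ((k + 2 * l : ℕ) : ℤ) * ((n / (3 * (k + 2 * l)) : ℕ) : ℤ) <
      ((2 * n + k : ℕ) : ℤ) + 3 * ((k + 2 * l : ℕ) : ℤ) := by
    have h1 := Nat.mul_div_le n (3 * (k + 2 * l))
    have h2 : 6 * (k + 2 * l) * (n / (3 * (k + 2 * l))) < 2 * n + k + 3 * (k + 2 * l) := by
      rcases Nat.eq_zero_or_pos (k + 2 * l) with h0 | h0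
      · rw [h0]; omega
      · nlinarith
    exact_mod_cast h2
  refine (sep_main (genKneser n k l) (fun a v => 4 * ((a.1 ∩ v.1).card : ℤ) - 2 * n + k)
    ((2 * n + k : ℕ) : ℤ) ((k + 2 * l : ℕ) : ℤ) (n / (3 * (k + 2 * l))) (by positivity)
    ?_ ?_ hJ r W).elim ?_ ?_
  rotate_left 2
  · rintro ⟨c, c1, c2, c3⟩
    refine ⟨c, fun v _ => Nat.lt_succ_of_le (c1 v), fun u hu v _ huv => ?_⟩
    by_cases h0 : c u = 0
    · rw [h0]; exact (c3 u hu v huv h0).symm
    · exact c2 u v huv h0
  · rintro ⟨a, -, ha⟩
    have := (ha _ le_rfl).trans (Finset.card_filter_le _ _)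
    omega
  · intro a u v huv
    have h1 := Finset.card_union_add_card_inter u.1 v.1
    have h2 := Finset.card_union_add_card_inter (a.1 ∩ u.1) (a.1 ∩ v.1)
    have h3 : ((a.1 ∩ u.1) ∩ (a.1 ∩ v.1)).card ≤ (u.1 ∩ v.1).card :=
      Finset.card_le_card (Finset.inter_subset_inter Finset.inter_subset_right
        Finset.inter_subset_right)
    rw [← Finset.inter_union_distrib_left] at h2
    have h4 : (a.1 ∩ (u.1 ∪ v.1)).card ≤ a.1.card :=
      Finset.card_le_card Finset.inter_subset_left
    have h5 := Finset.card_union_add_card_inter a.1 (u.1 ∪ v.1)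
    have h6 : (a.1 ∪ (u.1 ∪ v.1)).card ≤ 2 * n + k := by
      simpa using Finset.card_le_univ (a.1 ∪ (u.1 ∪ v.1))
    have h7 := huv.2
    have ha := a.2
    have hu := u.2
    have hv := v.2
    rw [abs_le]
    push_cast
    constructor <;> omega
  · intro a
    rw [Finset.inter_self, a.2]
    refine le_trans ?_ (le_abs_self _)
    push_cast
    omega

end Pool.Agent.Lib.MP_d46fce_co
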