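import Pool.Agent.Lib.MP_d46fce_co.Upper
import Pool.Agent.Lib.MP_d46fce_co.Sep
import Pool.Agent.Lib.MP_d46fce_co.Phi

namespace Pool.Agent.Lib.MP_d46fce_co

theorem choose_le_pow (M r : ℕ) (x : ℝ) (hx : (M : ℝ) ≤ r * x) (hx0 : 0 ≤ x) :
    (M.choose r : ℝ) ≤ (3 * x) ^ r := by
  have h1 : (M.choose r : ℝ) ≤ (M : ℝ) ^ r / r.factorial := Nat.choose_le_pow_div r M
  have h2 : (r : ℝ) ^ r / r.factorial ≤ Real.exp r := Real.pow_div_factorial_le_exp _ (by positivity) r
  have h3 : Real.exp r ≤ 3 ^ r := by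
    rw [← Real.exp_one_pow]
    exact pow_le_pow_left₀ (Real.exp_pos 1).le (by linarith [Real.exp_one_lt_d9]) r
  calc (M.choose r : ℝ) ≤ (M : ℝ) ^ r / r.factorial := h1
    _ ≤ (r * x) ^ r / r.factorial := by gcongr
    _ = (r : ℝ) ^ r / r.factorial * x ^ r := by rw [mul_pow]; ring
    _ ≤ 3 ^ r * x ^ r := by gcongr; exact h2.trans h3
    _ = _ := by rw [mul_pow]

theorem lower_block {m n k l r j κ : ℕ} (hl : l < n) (hr : r ≤ κ)
    (hs : l + j * (2 * (n - l) + κ) ≤ 2 * n + k)
    (hm1 : (j : ℝ) * (2 * (36 * (((n - l : ℕ) : ℝ) / (κ + 1)) + 9) ^ r) ≤ m)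
    (hm2 : m ≤ (2 * n + k).choose n) : j * (r + 2) ≤ hm m n k l := by
  obtain ⟨n', rfl⟩ : ∃ n', n = l + n' := ⟨n - l, by omega⟩
  rw [Nat.add_sub_cancel_left] at hs hm1
  have hn' : 1 ≤ n' := by omega
  obtain ⟨t, ht⟩ : ∃ t, t = (κ + 2) / (r + 2) := ⟨_, rfl⟩
  have t1 : t * (r + 2) ≤ κ + 2 := ht ▸ Nat.div_mul_le_self _ _
  have t2 : κ + 2 < (t + 1) * (r + 2) := by
    have := Nat.lt_mul_div_succ (κ + 2) (show 0 < r + 2 by omega)
    rw [ht, mul_comm]; exact this
  have t3 : 1 ≤ t := ht ▸ Nat.div_pos (by omega) (by omega)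
  obtain ⟨b, hb⟩ : ∃ b, b = (n' - 1) / t := ⟨_, rfl⟩
  have b1 : b * t ≤ n' - 1 := hb ▸ Nat.div_mul_le_self _ _
  have b2 : n' - 1 < t * (b + 1) := hb ▸ Nat.lt_mul_div_succ _ (by omega)
  have b3 : b * t + 1 ≤ n' := by omega
  refine lower (a := b + 1) (t := t) hl (by omega) (by omega) (le_trans ?_ hs) ?_ hm2
  · have : (2 * (b + 1) + r) * t ≤ 2 * n' + κ := by nlinarith
    have := Nat.mul_le_mul_left j this
    omega
  · have key : ((2 * (b + 1) + r).choose r : ℝ) ≤ (36 * ((n' : ℝ) / (κ + 1)) + 9) ^ r := by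
      rcases Nat.eq_zero_or_pos r with rfl | hr0
      · simp
      have h1 : b * (κ + 1) ≤ 6 * r * n' := by
        have a1 : κ + 1 ≤ 2 * t * (r + 2) := by nlinarith
        have a2 : b * (κ + 1) ≤ b * (2 * t * (r + 2)) := Nat.mul_le_mul_left _ a1
        have a3 : b * (2 * t * (r + 2)) = 2 * (r + 2) * (b * t) := by ring
        have a4 : 2 * (r + 2) * (b * t) ≤ (6 * r) * n' := Nat.mul_le_mul (by omega) (by omega)
        omega
      have h2 : (b : ℝ) ≤ 6 * r * ((n' : ℝ) / (κ + 1)) := by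
        rw [← mul_div_assoc, le_div_iff₀ (by positivity)]
        exact_mod_cast h1
      have h3 : (1 : ℝ) ≤ r := by exact_mod_cast hr0
      have := choose_le_pow (2 * (b + 1) + r) r (12 * ((n' : ℝ) / (κ + 1)) + 3)
        (by push_cast; nlinarith) (by positivity)
      refine this.trans (le_of_eq ?_)
      congr 1; ring
    have : ((j * (2 * (2 * (b + 1) + r).choose r) : ℕ) : ℝ) ≤ m := by
      refine le_trans ?_ hm1
      push_cast
      gcongr
    exact_mod_cast this

theorem thr_lower {m n k l r : ℕ} (hl : l < n) (hr : r ≤ k + l)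
    (hm1 : 2 * (36 * (((n - l : ℕ) : ℝ) / ((k + l : ℕ) + 1)) + 9) ^ r ≤ (m : ℝ))
    (hm2 : m ≤ (2 * n + k).choose n) : r + 2 ≤ hm m n k l := by
  have := lower_block (j := 1) (κ := k + l) hl hr (by omega) (by simpa using hm1) hm2
  omega

theorem thr_upper {m n k l r : ℕ} (hn : 1 ≤ n)
    (h : (m : ℝ) < ((n : ℝ) / (3 * (k + 2 * l))) ^ r / r.factorial) : hm m n k l ≤ r + 1 := by
  refine hm_le_sep m n k l r hn ?_
  set J := n / (3 * (k + 2 * l)) with hJ
  have h1 : ((J + r + 1 - r : ℕ) : ℝ) ^ r / r.factorial ≤ ((J + r).choose r : ℝ) :=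
    Nat.pow_le_choose r (J + r)
  have h2 : (n : ℝ) / (3 * (k + 2 * l)) ≤ ((J + r + 1 - r : ℕ) : ℝ) := by
    rw [show J + r + 1 - r = J + 1 by rw [Nat.add_right_comm, Nat.add_sub_cancel]]
    rcases Nat.eq_zero_or_pos (k + 2 * l) with h0 | h0
    · have : (k : ℝ) + 2 * l = 0 := by exact_mod_cast h0
      rw [this]; simp; positivity
    · have h3 : n < 3 * (k + 2 * l) * (J + 1) := Nat.lt_mul_div_succ n (by omega)
      have h4 : (0 : ℝ) < 3 * (k + 2 * l) := by exact_mod_cast (by omega : 0 < 3 * (k + 2 * l))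
      rw [div_le_iff₀ h4]
      have : ((n : ℕ) : ℝ) ≤ ((3 * (k + 2 * l) * (J + 1) : ℕ) : ℝ) := by exact_mod_cast h3.le
      push_cast at this ⊢
      linarith
  have h3 : (m : ℝ) < ((J + r).choose r : ℝ) := by
    refine lt_of_lt_of_le h (le_trans ?_ h1)
    gcongr
  exact_mod_cast h3

theorem log_two_ge : (0.69 : ℝ) ≤ Real.log 2 := by linarith [Real.log_two_gt_d9]

theorem phi_upper {m n k : ℕ} (hn : 1 ≤ n) (h1 : 1 ≤ m) : (hm m n k 0 : ℝ) ≤ 3 * Phi m n k := by
  have hn' : (1 : ℝ) ≤ n := by exact_mod_cast hn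
  have hm' : (1 : ℝ) ≤ m := by exact_mod_cast h1
  have hk0 : (0 : ℝ) ≤ k := by positivity
  set f : ℝ := (2 * n + k : ℝ) / n with hf
  set L := Real.log (1 + m / f) with hL
  set ρ : ℝ := (n : ℝ) / (k + 1) with hρ
  set ℓ := Real.log (2 + ρ) with hℓ
  have f2 : 2 ≤ f := by rw [hf, le_div_iff₀ (by linarith)]; linarith
  have ρ0 : 0 ≤ ρ := by positivity
  have ℓ0 : 0.69 ≤ ℓ := log_two_ge.trans (Real.log_le_log (by norm_num) (by linarith))
  have L0 : 0 ≤ L := Real.log_nonneg (by have : 0 ≤ m / f := by positivity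
                                         linarith)
  have main : (hm m n k 0 : ℝ) ≤ 3 * (1 + f * L / ℓ) := by
    rcases lt_or_ge k n with hk | hk
    · have hk' : (k : ℝ) ≤ n := by exact_mod_cast hk.le
      have f3 : f ≤ 3 := by rw [hf, div_le_iff₀ (by linarith)]; linarith
      have lm0 : 0 ≤ Real.log m := Real.log_nonneg hm'
      set s := ⌊2 * Real.log m / ℓ⌋₊ + 1 with hs
      have s1 : 2 * Real.log m / ℓ < s := by rw [hs]; push_cast; exact Nat.lt_floor_add_one _
      have s2 : (s : ℝ) ≤ 2 * Real.log m / ℓ + 1 := by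
        rw [hs]; push_cast; linarith [Nat.floor_le (show 0 ≤ 2 * Real.log m / ℓ by positivity)]
      have a1 : (k : ℝ) / ((2 * n + k : ℕ) : ℝ) ≤ Real.exp (-ℓ) := by
        rw [Real.exp_neg, hℓ, Real.exp_log (by linarith), inv_eq_one_div]
        push_cast
        rw [div_le_div_iff₀ (by linarith) (by linarith)]
        have : k * ρ ≤ n := by
          rw [hρ, ← mul_div_assoc, div_le_iff₀ (by linarith)]; nlinarith
        linarith
      have a2 : (m : ℝ) ^ 2 * ((k : ℝ) / ((2 * n + k : ℕ) : ℝ)) ^ s < 1 := by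
        have b1 : ((k : ℝ) / ((2 * n + k : ℕ) : ℝ)) ^ s ≤ Real.exp (-ℓ) ^ s := by gcongr
        have b2 : (m : ℝ) ^ 2 = Real.exp (2 * Real.log m) := by
          rw [show (2 : ℝ) * Real.log m = (2 : ℕ) * Real.log m by norm_num, Real.exp_nat_mul,
            Real.exp_log (by linarith)]
        have b3 : 2 * Real.log m < s * ℓ := by rwa [div_lt_iff₀ (by linarith)] at s1
        calc _ ≤ (m : ℝ) ^ 2 * Real.exp (-ℓ) ^ s := by gcongr
          _ = Real.exp (2 * Real.log m + s * -ℓ) := by rw [b2, Real.exp_add, Real.exp_nat_mul]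
          _ < 1 := Real.exp_lt_one_iff.2 (by linarith)
      have a3 : (hm m n k 0 : ℝ) ≤ s + 1 := by exact_mod_cast hm_le_edges m n k s hn a2
      have a4 : Real.log m ≤ f * L := by
        have b1 : Real.log (1 + m / 3) ≤ L := by
          refine Real.log_le_log (by positivity) ?_
          have : (m : ℝ) / 3 ≤ m / f := by gcongr
          linarith
        have b2 : Real.log m ≤ 2 * Real.log (1 + m / 3) := by
          rw [show (2 : ℝ) * Real.log (1 + m / 3) = (2 : ℕ) * Real.log (1 + m / 3) by norm_num,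
            ← Real.log_pow]
          exact Real.log_le_log (by linarith) (by nlinarith [sq_nonneg ((m : ℝ) / 3 - 1)])
        nlinarith
      have a5 : 2 * Real.log m / ℓ ≤ 2 * (f * L / ℓ) := by
        rw [← mul_div_assoc]; gcongr
      have a6 : 0 ≤ f * L / ℓ := by positivity
      linarith
    · have hk' : (n : ℝ) ≤ k := by exact_mod_cast hk
      have ρ1 : ρ ≤ 1 := by rw [hρ, div_le_iff₀ (by linarith)]; linarith
      have ℓ1 : ℓ ≤ 1.2 := by
        rw [hℓ, Real.log_le_iff_le_exp (by linarith)]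
        have e1 : Real.exp 1.2 = Real.exp 1 * Real.exp 0.2 := by rw [← Real.exp_add]; norm_num
        have e2 := Real.add_one_le_exp (0.2 : ℝ)
        have e3 := Real.exp_one_gt_d9
        rw [e1]; nlinarith
      have a0 : f * L ≤ 1.2 * (f * L / ℓ) := by
        rw [← mul_div_assoc, le_div_iff₀ (by linarith)]
        have : 0 ≤ f * L := by positivity
        nlinarith
      have a6 : 0 ≤ f * L / ℓ := by positivity
      rcases le_or_gt (m : ℝ) f with hmf | hmf
      · have a1 := hm_le_cover m n k 0 hn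
        simp only [Nat.cast_zero, pow_zero, mul_one, zero_add] at a1
        have a2 : m / f / 2 ≤ L := by
          have x0 : 0 ≤ m / f := by positivity
          have x1 : m / f ≤ 1 := by rw [div_le_one (by linarith)]; exact hmf
          have := Real.one_sub_inv_le_log_of_pos (show 0 < 1 + m / f by linarith)
          refine le_trans ?_ this
          rw [inv_eq_one_div, le_sub_comm, div_le_iff₀ (by linarith)]
          nlinarith
        have a3 : (m : ℝ) ≤ 2 * (f * L) := by
          have : (m : ℝ) = 2 * (f * (m / f / 2)) := by field_simp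
          rw [this]; gcongr
        linarith
      · set s := ⌈f * L⌉₊ with hs
        have s1 : f * L ≤ s := Nat.le_ceil _
        have s2 : (s : ℝ) < f * L + 1 := Nat.ceil_lt_add_one (by positivity)
        have a1 := hm_le_cover m n k s hn
        have a2 : (((n + k : ℕ) : ℝ) / ((2 * n + k : ℕ) : ℝ)) ≤ Real.exp (-(1 / f)) := by
          refine le_trans (le_of_eq ?_) (Real.add_one_le_exp _)
          rw [hf]; push_cast; field_simp; ring
        have a3 : (((n + k : ℕ) : ℝ) / ((2 * n + k : ℕ) : ℝ)) ^ s ≤ Real.exp (-L) := by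
          calc _ ≤ Real.exp (-(1 / f)) ^ s := by gcongr
            _ = Real.exp (s * -(1 / f)) := by rw [Real.exp_nat_mul]
            _ ≤ _ := by
              refine Real.exp_le_exp.2 ?_
              have : L ≤ s / f := by rw [le_div_iff₀ (by linarith)]; linarith
              have e : (s : ℝ) * -(1 / f) = -(s / f) := by ring
              linarith
        have x1 : 1 ≤ m / f := by rw [one_le_div (by linarith)]; exact hmf.le
        have a4 : m * Real.exp (-L) ≤ f := by
          rw [Real.exp_neg, hL, Real.exp_log (by linarith), ← div_eq_mul_inv,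
            div_le_iff₀ (by linarith)]
          have : f * (1 + m / f) = f + m := by field_simp
          linarith
        have a5 : (m : ℝ) * (((n + k : ℕ) : ℝ) / ((2 * n + k : ℕ) : ℝ)) ^ s ≤ f :=
          le_trans (by gcongr) a4
        have L1 : 0.69 ≤ L := log_two_ge.trans (Real.log_le_log (by norm_num) (by linarith))
        have a7 : 0.69 * f ≤ f * L := by nlinarith
        linarith
  have h2 : (hm m n k 0 : ℝ) ≤ k + 2 := by exact_mod_cast hm_le_kneser m n k hn
  unfold Phi
  rw [mul_min_of_nonneg _ _ (by norm_num : (0 : ℝ) ≤ 3)]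
  exact le_min (by linarith) main

theorem phi_lower {m n k l : ℕ} (hl : l < n) (h1 : 1 ≤ m) (hm2 : m ≤ (2 * n + k).choose n) :
    Phi m (n - l) (k + l) ≤ 40 * (hm m n k l : ℝ) := by
  have hone : (1 : ℝ) ≤ hm m n k l := by exact_mod_cast one_le_hm h1 hm2
  have thr := fun r => @thr_lower m n k l r hl
  have blk := fun r j => @lower_block m n k l r j (n - l) hl
  obtain ⟨n', hn'⟩ : ∃ n', n' = n - l := ⟨_, rfl⟩
  obtain ⟨k', hk'⟩ : ∃ k', k' = k + l := ⟨_, rfl⟩
  have eN : 2 * n + k = l + (2 * n' + k') := by omega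
  rw [← hn'] at thr blk ⊢
  rw [← hk'] at thr ⊢
  have hn1 : 1 ≤ n' := by omega
  have hn : (1 : ℝ) ≤ n' := by exact_mod_cast hn1
  have hm' : (1 : ℝ) ≤ m := by exact_mod_cast h1
  have hk0 : (0 : ℝ) ≤ k' := by positivity
  unfold Phi
  set f : ℝ := (2 * n' + k' : ℝ) / n' with hf
  set L := Real.log (1 + m / f) with hL
  set ρ : ℝ := (n' : ℝ) / (k' + 1) with hρ
  set ℓ := Real.log (2 + ρ) with hℓ
  set h : ℝ := (hm m n k l : ℝ) with hh
  have f2 : 2 ≤ f := by rw [hf, le_div_iff₀ (by linarith)]; linarith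
  have ρ0 : 0 ≤ ρ := by positivity
  have ℓ2 : Real.log 2 ≤ ℓ := Real.log_le_log (by norm_num) (by linarith)
  have ℓ0 : 0.69 ≤ ℓ := log_two_ge.trans ℓ2
  have x0 : 0 ≤ m / f := by positivity
  have L0 : 0 ≤ L := Real.log_nonneg (by linarith)
  rcases lt_or_ge k' n' with hk | hk
  · have hk' : (k' : ℝ) ≤ n' := by exact_mod_cast hk.le
    have f3 : f ≤ 3 := by rw [hf, div_le_iff₀ (by linarith)]; linarith
    have lm0 : 0 ≤ Real.log m := Real.log_nonneg hm'
    set y := Real.log m / (5 * ℓ) with hy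
    have y0 : 0 ≤ y := by positivity
    have a1 : L ≤ Real.log 2 + Real.log m := by
      rw [← Real.log_mul (by norm_num) (by linarith)]
      refine Real.log_le_log (by linarith) ?_
      have : m / f ≤ m := div_le_self (by linarith) (by linarith)
      linarith
    have a2 : f * L / ℓ ≤ 3 + 15 * y := by
      rw [div_le_iff₀ (by linarith)]
      have : Real.log m = 5 * ℓ * y := by rw [hy]; field_simp
      nlinarith
    have a3 : ∀ r : ℕ, 1 ≤ r → r ≤ k' → (r : ℝ) ≤ y → (r : ℝ) + 2 ≤ h := by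
      intro r r1 r2 r3
      have b1 : 2 * (36 * ρ + 9) ^ r ≤ (m : ℝ) := by
        have c1 : (2 : ℝ) ≤ 2 ^ r := by
          calc (2 : ℝ) = 2 ^ 1 := by norm_num
            _ ≤ 2 ^ r := pow_le_pow_right₀ (by norm_num) r1
        have c2 : 2 * (36 * ρ + 9) ≤ Real.exp (5 * ℓ) := by
          rw [show (5 : ℝ) * ℓ = (5 : ℕ) * ℓ by norm_num, Real.exp_nat_mul, hℓ,
            Real.exp_log (by linarith)]
          nlinarith [pow_nonneg ρ0 2, pow_nonneg ρ0 3, pow_nonneg ρ0 4, pow_nonneg ρ0 5]
        have c3 : (r : ℝ) * (5 * ℓ) ≤ Real.log m := by rwa [hy, le_div_iff₀ (by linarith)] at r3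
        calc 2 * (36 * ρ + 9) ^ r ≤ 2 ^ r * (36 * ρ + 9) ^ r := by gcongr
          _ = (2 * (36 * ρ + 9)) ^ r := by rw [mul_pow]
          _ ≤ Real.exp (5 * ℓ) ^ r := by gcongr
          _ = Real.exp (r * (5 * ℓ)) := by rw [Real.exp_nat_mul]
          _ ≤ Real.exp (Real.log m) := Real.exp_le_exp.2 c3
          _ = m := Real.exp_log (by linarith)
      have := thr r r2 b1 hm2
      rw [hh]; exact_mod_cast this
    have fl := Nat.floor_le y0
    have fl' := Nat.lt_floor_add_one y
    rcases Nat.eq_zero_or_pos k' with k0 | k0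
    · refine (min_le_left _ _).trans ?_
      rw [k0]; push_cast; linarith
    rcases le_or_gt k' ⌊y⌋₊ with hc | hc
    · refine (min_le_left _ _).trans ?_
      have := a3 k' k0 le_rfl (le_trans (by exact_mod_cast hc) fl)
      linarith
    · refine (min_le_right _ _).trans ?_
      rcases Nat.eq_zero_or_pos ⌊y⌋₊ with z | z
      · rw [z] at fl'; push_cast at fl'; linarith
      · have := a3 _ z hc.le fl
        linarith
  · obtain ⟨j0, hj0⟩ : ∃ j0, j0 = (2 * n' + k') / (3 * n') := ⟨_, rfl⟩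
    have j1 : j0 * (3 * n') ≤ 2 * n' + k' := hj0 ▸ Nat.div_mul_le_self _ _
    have j2 : 2 * n' + k' < 3 * n' * (j0 + 1) := hj0 ▸ Nat.lt_mul_div_succ _ (by omega)
    have j3 : 1 ≤ j0 := hj0 ▸ Nat.div_pos (by omega) (by omega)
    have j3' : (1 : ℝ) ≤ j0 := by exact_mod_cast j3
    have j4 : 3 * (j0 : ℝ) ≤ f := by
      rw [hf, le_div_iff₀ (by linarith)]
      have : ((j0 * (3 * n') : ℕ) : ℝ) ≤ ((2 * n' + k' : ℕ) : ℝ) := by exact_mod_cast j1
      push_cast at this; linarith
    have j5' : (2 * n' + k' : ℝ) ≤ 6 * j0 * n' := by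
      have : 2 * n' + k' ≤ 6 * j0 * n' := by nlinarith
      exact_mod_cast this
    have j5 : f ≤ 6 * (j0 : ℝ) := by rw [hf, div_le_iff₀ (by linarith)]; exact j5'
    have a3 : ∀ r j : ℕ, r ≤ n' → j ≤ j0 → (j : ℝ) * (2 * 45 ^ r) ≤ m → (j : ℝ) * (r + 2) ≤ h := by
      intro r j r1 r2 r3
      have b1 : (n' : ℝ) / (n' + 1) ≤ 1 := by rw [div_le_one (by linarith)]; linarith
      have := blk r j r1 (by
        have := Nat.mul_le_mul_right (3 * n') r2
        rw [eN, show 2 * n' + n' = 3 * n' by ring]; omega)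
        (le_trans (by gcongr; linarith) r3) hm2
      rw [hh]; exact_mod_cast this
    rcases lt_or_ge m (2 * j0) with hc | hc
    · refine (min_le_right _ _).trans ?_
      have b1 := a3 0 (m / 2) (by omega) (by omega) (by
        have : m / 2 * 2 ≤ m := Nat.div_mul_le_self _ _
        simp only [pow_zero, mul_one]
        exact_mod_cast this)
      have b2 : (m : ℝ) ≤ ((m / 2 : ℕ) : ℝ) * 2 + 1 := by
        have : m ≤ m / 2 * 2 + 1 := by omega
        exact_mod_cast this
      have b3 : L ≤ m / f := by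
        have := Real.log_le_sub_one_of_pos (show 0 < 1 + m / f by linarith)
        linarith
      have b4 : f * L ≤ m := by rwa [le_div_iff₀' (by linarith)] at b3
      have b5 : f * L / ℓ ≤ 2 * m := by rw [div_le_iff₀ (by linarith)]; nlinarith
      push_cast at b1
      linarith
    · have hc' : 2 * (j0 : ℝ) ≤ m := by exact_mod_cast hc
      set x : ℝ := m / (2 * j0) with hx
      have x1 : 1 ≤ x := by rw [hx, one_le_div (by linarith)]; exact hc'
      have lx : 0 ≤ Real.log x := Real.log_nonneg x1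
      set y := Real.log x / 4 with hy
      have y0 : 0 ≤ y := by positivity
      have a4 : ∀ r : ℕ, r ≤ n' → (r : ℝ) ≤ y → (j0 : ℝ) * (r + 2) ≤ h := by
        intro r r1 r2
        refine a3 r j0 r1 le_rfl ?_
        have c2 : (45 : ℝ) ≤ Real.exp 4 := by
          rw [show (4 : ℝ) = (4 : ℕ) * 1 by norm_num, Real.exp_nat_mul]
          have : (2.7 : ℝ) ^ 4 ≤ Real.exp 1 ^ 4 := by gcongr; linarith [Real.exp_one_gt_d9]
          linarith [show (45 : ℝ) ≤ 2.7 ^ 4 by norm_num]
        have c3 : (45 : ℝ) ^ r ≤ x := by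
          calc (45 : ℝ) ^ r ≤ Real.exp 4 ^ r := by gcongr
            _ = Real.exp (r * 4) := by rw [Real.exp_nat_mul]
            _ ≤ Real.exp (Real.log x) := Real.exp_le_exp.2 (by rw [hy] at r2; linarith)
            _ = x := Real.exp_log (by linarith)
        rw [hx, le_div_iff₀ (by linarith)] at c3
        linarith
      have fl := Nat.floor_le y0
      have fl' := Nat.lt_floor_add_one y
      rcases le_or_gt n' ⌊y⌋₊ with hd | hd
      · refine (min_le_left _ _).trans ?_
        have := a4 n' le_rfl (le_trans (by exact_mod_cast hd) fl)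
        nlinarith
      · refine (min_le_right _ _).trans ?_
        have b0 := a4 _ hd.le fl
        have b1 : L ≤ Real.log 2 + Real.log x := by
          rw [← Real.log_mul (by norm_num) (by linarith)]
          refine Real.log_le_log (by linarith) ?_
          have : m / f ≤ x := by rw [hx]; gcongr; linarith
          linarith
        have b2 : L / ℓ ≤ 1 + 6 * y := by
          rw [div_le_iff₀ (by linarith)]
          have : Real.log x = 4 * y := by rw [hy]; ring
          nlinarith
        have b3 : f * L / ℓ ≤ 6 * j0 * (1 + 6 * y) := by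
          rw [mul_div_assoc]; gcongr
        have b4 : (j0 : ℝ) * (y + 1) ≤ h :=
          le_trans (mul_le_mul_of_nonneg_left (by linarith) (by linarith)) b0
        nlinarith

end Pool.Agent.Lib.MP_d46fce_co
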