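import Pool.Agent.Lib.MP_d46fce_co.Quad
import Pool.Agent.Lib.MP_d46fce_co.Half
import Pool.Agent.Lib.MP_d46fce_co.Main

/-!
Closed forms of the estimates of `h_m(n; k, l)` in terms of `T = (l + 1) (k + l + 1)`.
-/

namespace Pool.Agent.Lib.MP_d46fce_co

theorem half_j {m n k l j s : ℕ} (hj : 1 ≤ j)
    (hN : 12 * j ^ 2 * (j + 1) * ((l + 1) * (k + l + 1)) ≤ 2 * n + k) (E : ℝ)
    (hE : (m : ℝ) ^ 2 ≤ E ∨ (4 : ℝ) ^ (12 * j ^ 2 * (j + 1) * ((l + 1) * (k + l + 1))) ≤ E)
    (hs : E * (2 / (j : ℝ)) ^ s < 1) : hm m n k l ≤ s + 1 := by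
  set t := l + 1 with ht
  set a := 6 * t ^ 2 * j ^ 2 with ha
  set r := j * (k + l) / t + 1 with hr
  have r1 : j * (k + l) ≤ r * t := by
    have := Nat.lt_div_mul_add (a := j * (k + l)) (b := t) (by omega)
    rw [hr]; nlinarith
  have r2 : r * t ≤ (j + 1) * (k + l + 1) := by
    have := Nat.div_mul_le_self (j * (k + l)) t
    rw [hr]; nlinarith
  have r3 : r * (2 * a) ≤ 12 * j ^ 2 * (j + 1) * (t * (k + l + 1)) := by
    calc r * (2 * a) = 12 * j ^ 2 * t * (r * t) := by rw [ha]; ring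
      _ ≤ 12 * j ^ 2 * t * ((j + 1) * (k + l + 1)) := Nat.mul_le_mul_left _ r2
      _ = _ := by ring
  have c1 : 4 * t * a.centralBinom * j ≤ 4 ^ a := by
    have h1 := centralBinom_sq a
    refine (Nat.pow_le_pow_iff_left (n := 2) (by norm_num)).1 ?_
    calc (4 * t * a.centralBinom * j) ^ 2 = a.centralBinom ^ 2 * (16 * t ^ 2 * j ^ 2) := by ring
      _ ≤ a.centralBinom ^ 2 * (3 * a + 1) := Nat.mul_le_mul_left _ (by rw [ha]; nlinarith)
      _ ≤ 16 ^ a := h1
      _ = (4 ^ a) ^ 2 := by rw [sq, ← mul_pow]; norm_num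
  refine half_upper (r := r) (a := a) (Nat.le_add_left 1 _) (r3.trans hN) (2 / j) E ?_ (hE.imp_right fun h =>
    le_trans (pow_le_pow_right₀ (by norm_num) r3) h) hs
  have hj' : (0 : ℝ) < j := by exact_mod_cast hj
  have ht' : (0 : ℝ) < (t : ℕ) := by exact_mod_cast (show 0 < t by omega)
  have e1 : ((k + l : ℕ) : ℝ) / (t : ℕ) ≤ r / j := by
    rw [div_le_div_iff₀ ht' hj']
    have : ((j * (k + l) : ℕ) : ℝ) ≤ ((r * t : ℕ) : ℝ) := by exact_mod_cast r1
    push_cast at this ⊢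
    linarith
  have e2 : 4 * ((t : ℕ) : ℝ) * a.centralBinom ≤ 4 ^ a / j := by
    rw [le_div_iff₀ hj']
    exact_mod_cast c1
  calc _ ≤ (r : ℝ) / j * 4 ^ a + r * (4 ^ a / j) := by gcongr
    _ = _ := by field_simp; ring

theorem upper_closed {m n k l : ℕ} (h1 : 1 ≤ m) (hn : 480 * ((l + 1) * (k + l + 1)) ≤ n) :
    hm m n k l ≤ 1922 * ((l + 1) * (k + l + 1)) ∧
      (hm m n k l : ℝ) ≤ 2 + 20 * Real.log m / Real.log (n / ((l + 1) * (k + l + 1) : ℕ)) := by
  set T := (l + 1) * (k + l + 1) with hT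
  have T1 : 1 ≤ T := by rw [hT]; nlinarith
  constructor
  · have := half_j (m := m) (n := n) (k := k) (l := l) (j := 4) (s := 1920 * T + 1) (by norm_num)
      (by rw [← hT]; omega) _ (Or.inr le_rfl) (by
        rw [← hT, show 12 * 4 ^ 2 * (4 + 1) * T = 960 * T by ring, pow_succ,
          show 1920 * T = 2 * (960 * T) by ring, pow_mul (2 / ((4 : ℕ) : ℝ)), ← mul_assoc, ← mul_pow]
        norm_num)
    omega
  · have hex : ∃ j : ℕ, n < 6 * (j + 1) ^ 2 * (j + 2) * T := ⟨n, by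
      have h1 : 1 ≤ (n + 1) ^ 2 := Nat.one_le_pow _ _ (by omega)
      calc n < 6 * 1 * (n + 2) * 1 := by omega
        _ ≤ _ := by gcongr⟩
    have hj1 := Nat.find_spec hex
    have hj2 : ∀ i < Nat.find hex, ¬ n < 6 * (i + 1) ^ 2 * (i + 2) * T :=
      fun i hi => Nat.find_min hex hi
    set j := Nat.find hex with hj
    have j4 : 4 ≤ j := by
      by_contra h
      have : 6 * (j + 1) ^ 2 * (j + 2) ≤ 480 := by
        have : j ≤ 3 := by omega
        interval_cases j <;> norm_num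
      have := Nat.mul_le_mul_right T this
      omega
    have j5 := hj2 (j - 1) (by omega)
    rw [show j - 1 + 1 = j by omega, show j - 1 + 2 = j + 1 by omega] at j5
    have j4' : (4 : ℝ) ≤ j := by exact_mod_cast j4
    have hm' : (1 : ℝ) ≤ m := by exact_mod_cast h1
    have lm := Real.log_nonneg hm'
    set q := Real.log (j / 2) with hq
    have q0 : 0 < q := Real.log_pos (by linarith)
    set s := ⌊2 * Real.log m / q⌋₊ + 1 with hs
    have s1 : 2 * Real.log m / q < s := by rw [hs]; push_cast; exact Nat.lt_floor_add_one _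
    have s2 : (s : ℝ) ≤ 2 * Real.log m / q + 1 := by
      rw [hs]; push_cast
      have := Nat.floor_le (show 0 ≤ 2 * Real.log m / q by positivity)
      linarith
    have h2 := half_j (m := m) (n := n) (k := k) (l := l) (j := j) (s := s) (by omega)
      (by rw [← hT]; nlinarith) _ (Or.inl le_rfl) (by
        have e : (2 / (j : ℝ)) = ((j : ℝ) / 2)⁻¹ := by rw [inv_div]
        rw [e, inv_pow, ← div_eq_mul_inv, div_lt_one (by positivity),
          ← Real.log_lt_log_iff (by positivity) (by positivity), Real.log_pow, Real.log_pow, ← hq]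
        rw [div_lt_iff₀ q0] at s1
        exact_mod_cast s1)
    have T' : (0 : ℝ) < T := by exact_mod_cast T1
    have L1 : (480 : ℝ) ≤ n / T := by
      rw [le_div_iff₀ T']; exact_mod_cast hn
    have L2 : (n : ℝ) / T ≤ (j / 2) ^ 10 := by
      rw [div_le_iff₀ T']
      have a1 : (n : ℝ) ≤ 6 * (j + 1) ^ 2 * (j + 2) * T := by exact_mod_cast hj1.le
      refine a1.trans (mul_le_mul_of_nonneg_right ?_ T'.le)
      have a2 : (2 : ℝ) ^ 7 ≤ (j / 2) ^ 7 := pow_le_pow_left₀ (by norm_num) (by linarith) 7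
      have a3 : 6 * ((j : ℝ) + 1) ^ 2 * (j + 2) ≤ 2 ^ 7 * (j / 2) ^ 3 := by
        have b1 : (j : ℝ) + 1 ≤ 5 / 4 * j := by linarith
        have b2 : (j : ℝ) + 2 ≤ 3 / 2 * j := by linarith
        calc 6 * ((j : ℝ) + 1) ^ 2 * (j + 2) ≤ 6 * (5 / 4 * j) ^ 2 * (3 / 2 * j) := by gcongr
          _ = 225 / 16 * (j : ℝ) ^ 3 := by ring
          _ ≤ 16 * (j : ℝ) ^ 3 := by gcongr; norm_num
          _ = _ := by ring
      calc _ ≤ 2 ^ 7 * ((j : ℝ) / 2) ^ 3 := a3
        _ ≤ (j / 2) ^ 7 * ((j : ℝ) / 2) ^ 3 := by gcongr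
        _ = _ := by ring
    have L3 : Real.log (n / T) ≤ 10 * q := by
      have := Real.log_le_log (by linarith) L2
      rwa [Real.log_pow] at this
    have L4 : 0 < Real.log (n / T) := Real.log_pos (by linarith)
    have L5 : 2 * Real.log m / q ≤ 20 * Real.log m / Real.log (n / T) := by
      rw [div_le_div_iff₀ q0 L4]
      nlinarith
    have h3 : (hm m n k l : ℝ) ≤ s + 1 := by exact_mod_cast h2
    linarith

theorem top_closed {n k l : ℕ} (hl : l < n) (h : ℕ) (hh : h = hm ((2 * n + k).choose n) n k l) :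
    ((l : ℝ) + 1) * (k + l + 1) ≤ 16 * (min h (2 * n + k) : ℕ) * Real.log (4 * h) := by
  have h1 := top_lower (k := k) hl (le_refl (k + l))
  rw [← hh] at h1
  by_contra hc
  have h2 : k + l + 2 ≤ min h (2 * n + k) := by omega
  have h3 : ((k + l + 2 : ℕ) : ℝ) ≤ (min h (2 * n + k) : ℕ) := by exact_mod_cast h2
  have hk : (0 : ℝ) ≤ k := by positivity
  have hl' : (0 : ℝ) ≤ l := by positivity
  have := quad_lower (m := (2 * n + k).choose n) (k := k) (M := h) (D := min h (2 * n + k)) hl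
    (by omega) (by omega) (by push_cast at h3 ⊢; linarith) (by rw [← add_assoc]; exact not_le.1 hc)
    (Or.inr rfl) le_rfl
  omega

theorem lower_closed {m n k l : ℕ} (hl : l < n) (h1 : 1 ≤ m) (h2 : m ≤ (2 * n + k).choose n)
    (T : ℝ) (hT : T = (l + 1) * (k + l + 1)) :
    min (max ((k : ℝ) + l + 1) (T / Real.log (2 * T)))
      (1 + Real.log m / Real.log (2 + n / (k + l + 1))) / 16 ≤ hm m n k l := by
  have hk : (0 : ℝ) ≤ k := by positivity
  have hl' : (0 : ℝ) ≤ l := by positivity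
  have hm' : (1 : ℝ) ≤ m := by exact_mod_cast h1
  have T1 : 1 ≤ T := by rw [hT]; nlinarith
  set ρ : ℝ := n / (k + l + 1) with hρ
  have ρ0 : 0 ≤ ρ := by positivity
  set x := min (max ((k : ℝ) + l + 1) (T / Real.log (2 * T)))
      (1 + Real.log m / Real.log (2 + ρ)) with hx
  have ℓ0 : 0 < Real.log (2 + ρ) := Real.log_pos (by linarith)
  have x0 : 0 ≤ x := le_min (le_max_of_le_left (by positivity))
    (by have := Real.log_nonneg hm'; positivity)
  set M := ⌊x / 16⌋₊ with hM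
  have M1 : (M : ℝ) ≤ x / 16 := Nat.floor_le (by positivity)
  have M2 : x / 16 < M + 1 := Nat.lt_floor_add_one _
  suffices h : M + 1 ≤ hm m n k l by
    have : ((M + 1 : ℕ) : ℝ) ≤ hm m n k l := by exact_mod_cast h
    push_cast at this
    linarith
  rcases Nat.eq_zero_or_pos M with h0 | h0
  · rw [h0]; exact one_le_hm h1 h2
  have hpow : ∀ e : ℕ, e + 1 ≤ 16 * M → (2 + ρ) ^ e ≤ m := by
    intro e he
    have a1 : x ≤ 1 + Real.log m / Real.log (2 + ρ) := min_le_right _ _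
    have a2 : ((e + 1 : ℕ) : ℝ) ≤ ((16 * M : ℕ) : ℝ) := by exact_mod_cast he
    push_cast at a2
    have a3 : (e : ℝ) ≤ Real.log m / Real.log (2 + ρ) := by linarith
    rw [le_div_iff₀ ℓ0, ← Real.log_pow] at a3
    exact (Real.log_le_log_iff (by positivity) (by positivity)).1 a3
  by_cases hc : M ≤ k + l + 1
  · obtain ⟨r, hr⟩ : ∃ r, M = r + 1 := ⟨M - 1, by omega⟩
    rw [hr]
    refine thr_lower hl (by omega) (le_trans ?_ (hpow (4 * r + 1) (by omega))) h2
    have b1 : ((n - l : ℕ) : ℝ) / ((k + l : ℕ) + 1) ≤ ρ := by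
      rw [hρ]; push_cast
      refine div_le_div_of_nonneg_right ?_ (by positivity)
      exact_mod_cast Nat.sub_le n l
    have b2 : 36 * ρ + 9 ≤ (2 + ρ) ^ 4 := by nlinarith [sq_nonneg (ρ - 1), sq_nonneg ρ, pow_nonneg ρ0 3, pow_nonneg ρ0 4]
    rw [pow_succ, pow_mul, mul_comm]
    gcongr
    · linarith
    · linarith
  · have c1 : ((k + l + 2 : ℕ) : ℝ) ≤ M := by exact_mod_cast (show k + l + 2 ≤ M by omega)
    push_cast at c1
    have c2 : x ≤ max ((k : ℝ) + l + 1) (T / Real.log (2 * T)) := min_le_left _ _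
    have c3 : 16 * (M : ℝ) ≤ T / Real.log (2 * T) := by
      rcases le_max_iff.1 c2 with h | h <;> linarith
    have c4 : 0.69 ≤ Real.log (2 * T) := log_two_ge.trans (Real.log_le_log (by norm_num) (by linarith))
    rw [le_div_iff₀ (by linarith)] at c3
    have c5 : Real.log (4 * M) < Real.log (2 * T) := Real.log_lt_log (by linarith) (by nlinarith)
    refine quad_lower (D := M) hl h0 (Or.inl le_rfl) (by linarith) ?_
      (Or.inl (le_trans ?_ (hpow (3 * (2 * M) + 1) (by omega)))) h2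
    · rw [← add_assoc, ← hT]
      nlinarith
    · have d1 : ((2 * n + k : ℕ) : ℝ) / (2 * M : ℕ) ≤ ρ + 1 / 2 := by
        push_cast
        rw [div_le_iff₀ (by linarith)]
        have : (n : ℝ) = ρ * (k + l + 1) := by rw [hρ]; field_simp
        nlinarith
      have d2 : 3 * (ρ + 1 / 2 + 1) ≤ (2 + ρ) ^ 3 := by nlinarith [sq_nonneg ρ, pow_nonneg ρ0 3]
      rw [pow_succ, pow_mul (2 + ρ), mul_comm]
      gcongr
      · linarith
      · linarith

end Pool.Agent.Lib.MP_d46fce_co
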