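import Mathlib

/-!
Expectations under product measures on the subsets of a list, and an exponential moment bound for
antitone `1`-Lipschitz set functions under thinning.
-/

namespace Pool.Agent.Lib.MP_d46fce_co

variable {α : Type} [DecidableEq α]

/-- expectation of `f` on the random subset of `L` that contains `x` with probability `a x` -/
noncomputable def Ex (a : α → ℝ) : List α → (Finset α → ℝ) → ℝ
  | [], f => f ∅
  | x :: L, f => a x * Ex a L (fun P => f (insert x P)) + (1 - a x) * Ex a L f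

theorem Ex_add (a : α → ℝ) (L : List α) (f g : Finset α → ℝ) :
    Ex a L (fun P => f P + g P) = Ex a L f + Ex a L g := by
  induction L generalizing f g with
  | nil => rfl
  | cons x L ih => simp only [Ex]; rw [ih, ih]; ring

theorem Ex_mul (a : α → ℝ) (L : List α) (c : ℝ) (f : Finset α → ℝ) :
    Ex a L (fun P => c * f P) = c * Ex a L f := by
  induction L generalizing f with
  | nil => rfl
  | cons x L ih => simp only [Ex]; rw [ih, ih]; ring

theorem Ex_const (a : α → ℝ) (L : List α) (c : ℝ) : Ex a L (fun _ => c) = c := by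
  induction L with
  | nil => rfl
  | cons x L ih => simp only [Ex]; rw [ih]; ring

theorem Ex_sum {ι : Type} (a : α → ℝ) (L : List α) (s : Finset ι) (f : ι → Finset α → ℝ) :
    Ex a L (fun P => ∑ i ∈ s, f i P) = ∑ i ∈ s, Ex a L (f i) := by
  classical
  induction s using Finset.induction_on with
  | empty => simp [Ex_const]
  | insert i s hi ih =>
    simp only [Finset.sum_insert hi]
    rw [Ex_add, ih]

theorem Ex_mono (a : α → ℝ) (L : List α) (ha : ∀ x, 0 ≤ a x ∧ a x ≤ 1) (f g : Finset α → ℝ)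
    (h : ∀ P, f P ≤ g P) : Ex a L f ≤ Ex a L g := by
  induction L generalizing f g with
  | nil => exact h ∅
  | cons x L ih =>
    simp only [Ex]
    have h1 := ih (fun P => f (insert x P)) (fun P => g (insert x P)) (fun P => h _)
    have h2 := ih f g h
    have := ha x
    nlinarith [mul_le_mul_of_nonneg_left h1 this.1, mul_le_mul_of_nonneg_left h2 (sub_nonneg.2 this.2)]

theorem Ex_congr (a : α → ℝ) (L : List α) (f g : Finset α → ℝ)
    (h : ∀ P : Finset α, (∀ x ∈ P, x ∈ L) → f P = g P) : Ex a L f = Ex a L g := by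
  induction L generalizing f g with
  | nil => exact h ∅ (by simp)
  | cons x L ih =>
    simp only [Ex]
    rw [ih (fun P => f (insert x P)) (fun P => g (insert x P)), ih f g]
    · intro P hP
      exact h P fun y hy => List.mem_cons_of_mem _ (hP y hy)
    · intro P hP
      refine h _ fun y hy => ?_
      rcases Finset.mem_insert.1 hy with rfl | hy
      · simp
      · exact List.mem_cons_of_mem _ (hP y hy)

theorem Ex_congr_prob (a b : α → ℝ) (L : List α) (h : ∀ x ∈ L, a x = b x) (f : Finset α → ℝ) :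
    Ex a L f = Ex b L f := by
  induction L generalizing f with
  | nil => rfl
  | cons x L ih =>
    simp only [Ex]
    rw [ih (fun z hz => h z (List.mem_cons_of_mem _ hz)), ih (fun z hz => h z (List.mem_cons_of_mem _ hz)),
      h x (by simp)]

theorem Ex_card (a : α → ℝ) (L : List α) (hL : L.Nodup) :
    Ex a L (fun P => (P.card : ℝ)) = (L.map a).sum := by
  induction L with
  | nil => simp [Ex]
  | cons x L ih =>
    rw [List.nodup_cons] at hL
    simp only [Ex, List.map_cons, List.sum_cons]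
    rw [Ex_congr a L (fun P => ((insert x P).card : ℝ)) (fun P => (P.card : ℝ) + 1), Ex_add,
      Ex_const, ih hL.2]
    · ring
    · intro P hP
      rw [Finset.card_insert_of_notMem (fun h => hL.1 (hP x h))]
      push_cast; ring

/-- antitone set functions that drop by at most one when a point is added -/
def Lip (g : Finset α → ℝ) : Prop := ∀ x P, g P - 1 ≤ g (insert x P) ∧ g (insert x P) ≤ g P

theorem Lip.ins {g : Finset α → ℝ} (h : Lip g) (x : α) : Lip (fun P => g (insert x P)) := by
  intro y P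
  simp only
  rw [Finset.insert_comm]
  exact h y _

theorem Lip.ex {g : Finset α → ℝ} (h : Lip g) (a : α → ℝ) (L : List α)
    (ha : ∀ x, 0 ≤ a x ∧ a x ≤ 1) (x : α) :
    Ex a L g - 1 ≤ Ex a L (fun P => g (insert x P)) ∧
      Ex a L (fun P => g (insert x P)) ≤ Ex a L g := by
  refine ⟨?_, Ex_mono a L ha _ _ fun P => (h x P).2⟩
  have h1 := Ex_mono a L ha (fun P => g P + (-1)) (fun P => g (insert x P))
    (fun P => by have := (h x P).1; linarith)
  rw [Ex_add, Ex_const] at h1
  linarith

theorem Ex_lip (a b : α → ℝ) (L : List α) (ha : ∀ x, 0 ≤ a x ∧ a x ≤ 1)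
    (hb : ∀ x, 0 ≤ b x ∧ b x ≤ 1) (g : Finset α → ℝ) (hg : Lip g) :
    |Ex a L g - Ex b L g| ≤ (L.map (fun x => |a x - b x|)).sum := by
  induction L generalizing g with
  | nil => simp [Ex]
  | cons x L ih =>
    simp only [Ex, List.map_cons, List.sum_cons]
    have h1 := abs_le.1 (ih _ (hg.ins x))
    have h2 := abs_le.1 (ih g hg)
    have h3 := hg.ex b L hb x
    have h4 := ha x
    set S := (L.map (fun x => |a x - b x|)).sum
    set A1 := Ex a L (fun P => g (insert x P))
    set A0 := Ex a L g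
    set B1 := Ex b L (fun P => g (insert x P))
    set B0 := Ex b L g
    have e : a x * A1 + (1 - a x) * A0 - (b x * B1 + (1 - b x) * B0) =
        a x * (A1 - B1) + (1 - a x) * (A0 - B0) + (a x - b x) * (B1 - B0) := by ring
    rw [e]
    have h5 : |(a x - b x) * (B1 - B0)| ≤ |a x - b x| := by
      rw [abs_mul]
      refine mul_le_of_le_one_right (abs_nonneg _) (abs_le.2 ⟨by linarith, by linarith⟩)
    have h6 := abs_le.1 h5
    have h7 : 0 ≤ 1 - a x := by linarith
    refine abs_le.2 ⟨?_, ?_⟩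
    · nlinarith [mul_le_mul_of_nonneg_left h1.1 h4.1, mul_le_mul_of_nonneg_left h2.1 h7]
    · nlinarith [mul_le_mul_of_nonneg_left h1.2 h4.1, mul_le_mul_of_nonneg_left h2.2 h7]

/-- pairs of disjoint sets that have positive probability under the joint law -/
def Reach (a b : α → ℝ) (L : List α) (P Q : Finset α) : Prop :=
  (∀ x ∈ P, x ∈ L ∧ a x ≠ 0) ∧ (∀ x ∈ Q, x ∈ L ∧ b x ≠ 0) ∧ Disjoint P Q ∧
    ∀ x ∈ L, a x + b x = 1 → x ∈ P ∨ x ∈ Q

theorem Ex_couple (a b : α → ℝ) (L : List α) (hL : L.Nodup) (ha : ∀ x, 0 ≤ a x)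
    (hb : ∀ x, 0 ≤ b x) (hab : ∀ x, a x + b x ≤ 1) (c : ℝ) (f g : Finset α → ℝ)
    (h : ∀ P Q, Reach a b L P Q → c ≤ f P + g Q) : c ≤ Ex a L f + Ex b L g := by
  induction L generalizing f g with
  | nil => exact h ∅ ∅ ⟨by simp, by simp, by simp, by simp⟩
  | cons x L ih =>
    rw [List.nodup_cons] at hL
    simp only [Ex]
    have k1 : 0 ≤ a x * (Ex a L (fun P => f (insert x P)) + Ex b L g - c) := by
      by_cases h0 : a x = 0
      · simp [h0]
      refine mul_nonneg (ha x) (sub_nonneg.2 (ih hL.2 _ _ fun P Q hr => h _ _ ⟨?_, ?_, ?_, ?_⟩))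
      · intro y hy
        rcases Finset.mem_insert.1 hy with rfl | hy
        · exact ⟨by simp, h0⟩
        · exact ⟨List.mem_cons_of_mem _ (hr.1 y hy).1, (hr.1 y hy).2⟩
      · intro y hy
        exact ⟨List.mem_cons_of_mem _ (hr.2.1 y hy).1, (hr.2.1 y hy).2⟩
      · exact Finset.disjoint_insert_left.2 ⟨fun hx => hL.1 (hr.2.1 x hx).1, hr.2.2.1⟩
      · intro y hy h1
        rcases List.mem_cons.1 hy with rfl | hy
        · exact Or.inl (by simp)
        · exact (hr.2.2.2 y hy h1).imp_left Finset.mem_insert_of_mem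
    have k2 : 0 ≤ b x * (Ex a L f + Ex b L (fun P => g (insert x P)) - c) := by
      by_cases h0 : b x = 0
      · simp [h0]
      refine mul_nonneg (hb x) (sub_nonneg.2 (ih hL.2 _ _ fun P Q hr => h _ _ ⟨?_, ?_, ?_, ?_⟩))
      · intro y hy
        exact ⟨List.mem_cons_of_mem _ (hr.1 y hy).1, (hr.1 y hy).2⟩
      · intro y hy
        rcases Finset.mem_insert.1 hy with rfl | hy
        · exact ⟨by simp, h0⟩
        · exact ⟨List.mem_cons_of_mem _ (hr.2.1 y hy).1, (hr.2.1 y hy).2⟩
      · exact Finset.disjoint_insert_right.2 ⟨fun hx => hL.1 (hr.1 x hx).1, hr.2.2.1⟩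
      · intro y hy h1
        rcases List.mem_cons.1 hy with rfl | hy
        · exact Or.inr (by simp)
        · exact (hr.2.2.2 y hy h1).imp_right Finset.mem_insert_of_mem
    have k3 : 0 ≤ (1 - a x - b x) * (Ex a L f + Ex b L g - c) := by
      by_cases h0 : a x + b x = 1
      · rw [show 1 - a x - b x = 0 by linarith]; simp
      refine mul_nonneg (by have := hab x; linarith)
        (sub_nonneg.2 (ih hL.2 _ _ fun P Q hr => h _ _ ⟨?_, ?_, hr.2.2.1, ?_⟩))
      · intro y hy
        exact ⟨List.mem_cons_of_mem _ (hr.1 y hy).1, (hr.1 y hy).2⟩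
      · intro y hy
        exact ⟨List.mem_cons_of_mem _ (hr.2.1 y hy).1, (hr.2.1 y hy).2⟩
      · intro y hy h1
        rcases List.mem_cons.1 hy with rfl | hy
        · exact absurd h1 h0
        · exact hr.2.2.2 y hy h1
    nlinarith [k1, k2, k3]

theorem Ex_exp (a y ψ : α → ℝ) (lam : ℝ) (L : List α) (ha : ∀ x, 0 ≤ a x ∧ a x ≤ 1)
    (hy : ∀ x, 0 ≤ y x ∧ y x ≤ 1)
    (h2 : ∀ x ∈ L, ∀ δ : ℝ, 0 ≤ δ → δ ≤ 1 →
      a x * Real.exp (lam * δ) + (1 - a x) ≤ Real.exp (lam * (y x * δ) + ψ x))
    (g : Finset α → ℝ) (hg : Lip g) :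
    Ex a L (fun P => Real.exp (-(lam * g P))) ≤
      Real.exp (-(lam * Ex y L g) + (L.map ψ).sum) := by
  induction L generalizing g with
  | nil => simp [Ex]
  | cons x L ih =>
    simp only [Ex, List.map_cons, List.sum_cons]
    have h1 := ih (fun z hz => h2 z (List.mem_cons_of_mem _ hz)) _ (hg.ins x)
    have h0 := ih (fun z hz => h2 z (List.mem_cons_of_mem _ hz)) g hg
    have h3 := hg.ex y L hy x
    set S := (L.map ψ).sum
    set B1 := Ex y L (fun P => g (insert x P))
    set B0 := Ex y L g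
    have h4 := h2 x (by simp) (B0 - B1) (by linarith) (by linarith)
    have h5 := ha x
    have e1 : Real.exp (-(lam * B1) + S) =
        Real.exp (-(lam * B0) + S) * Real.exp (lam * (B0 - B1)) := by
      rw [← Real.exp_add]; congr 1; ring
    have e2 : Real.exp (-(lam * (y x * B1 + (1 - y x) * B0)) + (ψ x + S)) =
        Real.exp (-(lam * B0) + S) * Real.exp (lam * (y x * (B0 - B1)) + ψ x) := by
      rw [← Real.exp_add]; congr 1; ring
    rw [e2]
    rw [e1] at h1
    have hp := Real.exp_pos (-(lam * B0) + S)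
    calc _ ≤ a x * (Real.exp (-(lam * B0) + S) * Real.exp (lam * (B0 - B1))) +
          (1 - a x) * Real.exp (-(lam * B0) + S) :=
          add_le_add (mul_le_mul_of_nonneg_left h1 h5.1)
            (mul_le_mul_of_nonneg_left h0 (sub_nonneg.2 h5.2))
      _ = Real.exp (-(lam * B0) + S) * (a x * Real.exp (lam * (B0 - B1)) + (1 - a x)) := by ring
      _ ≤ _ := mul_le_mul_of_nonneg_left h4 hp.le

/-- the two point inequality for a thinned coordinate -/
theorem two_point (p s y δ : ℝ) (hp : 0 ≤ p) (hs : 0 ≤ s) (hps : p + s ≤ 1) (hy0 : 0 ≤ y)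
    (hy1 : y ≤ 1) (h0 : 0 ≤ δ) (h1 : δ ≤ 1) :
    (1 - p) * y * Real.exp ((p + s) * δ) + (1 - (1 - p) * y) ≤
      Real.exp ((p + s) * (y * δ) + (p + s) * s) := by
  set u := (p + s) * δ with hu
  have u0 : 0 ≤ u := by positivity
  have u1 : u ≤ p + s := mul_le_of_le_one_right (by positivity) h1
  have h2 := abs_le.1 (Real.abs_exp_sub_one_sub_id_le (x := u) (abs_le.2 ⟨by linarith, by linarith⟩))
  have h3 := Real.add_one_le_exp ((p + s) * (y * δ) + (p + s) * s)
  have e : (p + s) * (y * δ) = y * u := by rw [hu]; ring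
  rw [e] at h3 ⊢
  have h4 : 0 ≤ (1 - p) * y := mul_nonneg (by linarith) hy0
  have h5 : (1 - p) * y * Real.exp u ≤ (1 - p) * y * (1 + u + u ^ 2) :=
    mul_le_mul_of_nonneg_left (by linarith) h4
  have h6 : y * (u * (u - p)) ≤ (p + s) * s := by
    have : u * (u - p) ≤ (p + s) * s := by nlinarith
    rcases le_total 0 (u * (u - p)) with h | h
    · nlinarith
    · have : 0 ≤ (p + s) * s := by positivity
      nlinarith
  have h7 : 0 ≤ p * y * u ^ 2 := by positivity
  nlinarith

end Pool.Agent.Lib.MP_d46fce_co
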