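import Pool.Agent.Lib.MP_d46fce_co.Core
import Pool.Agent.Lib.MP_d46fce_co.Lower

/-!
The lower bound of order `t (k + t) / log` for generalized Kneser graphs and their subgraphs on
sets with few changes.
-/

namespace Pool.Agent.Lib.MP_d46fce_co

theorem card_small (N d : ℕ) (hd : 1 ≤ d) :
    ((((Finset.range N).powerset.filter (fun S => S.card ≤ d)).card : ℕ) : ℝ) ≤
      (3 * ((N : ℝ) / d + 1)) ^ d := by
  have hd' : (0 : ℝ) < d := by exact_mod_cast hd
  have hN : (0 : ℝ) ≤ N := by positivity
  set z : ℝ := d / (N + d) with hz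
  have z0 : 0 < z := by positivity
  have z1 : z ≤ 1 := by rw [hz, div_le_one (by positivity)]; linarith
  have h1 : ((((Finset.range N).powerset.filter (fun S => S.card ≤ d)).card : ℕ) : ℝ) * z ^ d ≤
      ∑ S ∈ (Finset.range N).powerset, z ^ S.card := by
    rw [← nsmul_eq_mul, ← Finset.sum_const]
    refine le_trans (Finset.sum_le_sum fun S hS => ?_)
      (Finset.sum_le_sum_of_subset_of_nonneg (Finset.filter_subset (fun S : Finset ℕ => S.card ≤ d) _)
        fun S _ _ => by positivity)
    exact pow_le_pow_of_le_one z0.le z1 (Finset.mem_filter.1 hS).2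
  have h2 : ∑ S ∈ (Finset.range N).powerset, z ^ S.card = (1 + z) ^ N := by
    have := Finset.prod_one_add (f := fun _ : ℕ => z) (Finset.range N)
    simpa using this.symm
  have h3 : (1 + z) ^ N ≤ 3 ^ d := by
    calc (1 + z) ^ N ≤ Real.exp z ^ N :=
          pow_le_pow_left₀ (by positivity) (by linarith [Real.add_one_le_exp z]) N
      _ = Real.exp (N * z) := by rw [Real.exp_nat_mul]
      _ ≤ Real.exp (d * 1) := by
          refine Real.exp_le_exp.2 ?_
          rw [hz, ← mul_div_assoc, div_le_iff₀ (by positivity)]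
          nlinarith
      _ = Real.exp 1 ^ d := by rw [Real.exp_nat_mul]
      _ ≤ 3 ^ d := pow_le_pow_left₀ (Real.exp_pos 1).le (by linarith [Real.exp_one_lt_d9]) d
  have h4 : ((N : ℝ) / d + 1) * z = 1 := by rw [hz]; field_simp
  have h5 : (3 * ((N : ℝ) / d + 1)) ^ d * z ^ d = 3 ^ d := by
    rw [← mul_pow, mul_assoc, h4, mul_one]
  refine le_of_mul_le_mul_right ?_ (pow_pos z0 d)
  rw [h5]
  linarith

/-- positions where membership in `P` changes -/
def chg (N : ℕ) (P : Finset ℕ) : Finset ℕ :=
  (Finset.range N).filter (fun j => j + 1 < N ∧ ¬ (j ∈ P ↔ j + 1 ∈ P))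

theorem chg_card {N : ℕ} {B P : Finset ℕ} (h : Few N B P) : (chg N P).card ≤ 2 * B.card := by
  have h1 : chg N P ⊆ B ∪ B.image (· - 1) := by
    intro j hj
    have h2 := (Finset.mem_filter.1 hj).2
    by_contra h3
    rw [Finset.mem_union, not_or] at h3
    exact h2.2 (h j h2.1 h3.1 fun h4 => h3.2 (Finset.mem_image.2 ⟨_, h4, by simp⟩))
  have h2 := Finset.card_le_card h1
  have h3 := Finset.card_union_le B (B.image (· - 1))
  have h4 : (B.image (· - 1)).card ≤ B.card := Finset.card_image_le
  omega

theorem card_few (N d : ℕ) :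
    ((Finset.range N).powerset.filter (fun P => (chg N P).card ≤ d)).card ≤
      2 * ((Finset.range N).powerset.filter (fun S => S.card ≤ d)).card := by
  classical
  have : ((Finset.range N).powerset.filter (fun P => (chg N P).card ≤ d)).card ≤
      ((Finset.univ : Finset Bool) ×ˢ
        ((Finset.range N).powerset.filter (fun S => S.card ≤ d))).card := by
    refine Finset.card_le_card_of_injOn (fun P => (decide (0 ∈ P), chg N P)) (fun P hP => ?_) ?_
    · simp only [Finset.coe_filter, Finset.mem_powerset, Set.mem_ofPred_eq, Finset.coe_product,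
        Finset.coe_univ, Set.mem_prod, Set.mem_univ, true_and] at hP ⊢
      exact ⟨Finset.filter_subset _ _, hP.2⟩
    · intro P hP Q hQ e
      simp only [Finset.coe_filter, Finset.mem_powerset, Set.mem_ofPred_eq] at hP hQ
      simp only [Prod.mk.injEq, decide_eq_decide] at e
      have key : ∀ j < N, (j ∈ P ↔ j ∈ Q) := by
        intro j
        induction j with
        | zero => intro _; exact e.1
        | succ j ih =>
          intro hj
          have h1 := ih (by omega)
          have h2 : j ∈ chg N P ↔ j ∈ chg N Q := by rw [e.2]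
          simp only [chg, Finset.mem_filter, Finset.mem_range] at h2
          have h3 : j < N := by omega
          tauto
      ext j
      exact ⟨fun h => (key j (Finset.mem_range.1 (hP.1 h))).1 h,
        fun h => (key j (Finset.mem_range.1 (hQ.1 h))).2 h⟩
  simpa using this

/-- the subset of `Fin N` given by a set of naturals -/
def toF (N : ℕ) (P : Finset ℕ) : Finset (Fin N) := Finset.univ.filter (fun x => x.val ∈ P)

theorem card_toF {N : ℕ} {P : Finset ℕ} (h : P ⊆ Finset.range N) : (toF N P).card = P.card := by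
  refine Finset.card_bij (fun x _ => x.val) (fun x hx => by simpa [toF] using hx)
    (fun x _ y _ e => Fin.ext e) (fun y hy => ?_)
  exact ⟨⟨y, Finset.mem_range.1 (h hy)⟩, by simpa [toF] using hy, rfl⟩

theorem exists_dist {N t : ℕ} (A : Finset (Finset (Fin N)))
    (hA : ∀ u ∈ A, ∀ v ∈ A, t ≤ (u ∩ v).card) :
    ∃ g : Finset ℕ → ℝ, Lip g ∧ (∀ P Q, Disjoint P Q → (t : ℝ) ≤ g P + g Q) ∧
      ∀ P, ∀ u ∈ A, u ⊆ toF N P → g P ≤ 0 := by
  classical
  set G : Finset ℕ → ℕ := fun P => (insert t (A.image fun u => (u \ toF N P).card)).min'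
    (Finset.insert_nonempty _ _) with hG
  have G1 : ∀ P, G P ≤ t := fun P => Finset.min'_le _ _ (Finset.mem_insert_self _ _)
  have G2 : ∀ P, ∀ u ∈ A, G P ≤ (u \ toF N P).card := fun P u hu =>
    Finset.min'_le _ _ (Finset.mem_insert_of_mem (Finset.mem_image_of_mem _ hu))
  have G3 : ∀ P, G P = t ∨ ∃ u ∈ A, (u \ toF N P).card = G P := fun P => by
    have := Finset.min'_mem (insert t (A.image fun u => (u \ toF N P).card))
      (Finset.insert_nonempty _ _)
    rcases Finset.mem_insert.1 this with h | h
    · exact Or.inl h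
    · exact Or.inr (Finset.mem_image.1 h)
  refine ⟨fun P => G P, fun x P => ⟨?_, ?_⟩, fun P Q hd => ?_, fun P u hu h => ?_⟩
  · have : G P ≤ G (insert x P) + 1 := by
      rcases G3 (insert x P) with h | ⟨u, hu, h⟩
      · have := G1 P; omega
      · have h1 : u \ toF N P ⊆ (u \ toF N (insert x P)) ∪ toF N {x} := by
          intro z hz
          simp only [toF, Finset.mem_sdiff, Finset.mem_filter, Finset.mem_univ, true_and,
            Finset.mem_union, Finset.mem_insert, Finset.mem_singleton] at hz ⊢
          tauto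
        have h2 : (toF N {x}).card ≤ 1 := Finset.card_le_one.2 fun a ha b hb => by
          simp only [toF, Finset.mem_filter, Finset.mem_univ, true_and,
            Finset.mem_singleton] at ha hb
          exact Fin.ext (ha.trans hb.symm)
        have h3 := Finset.card_le_card h1
        have h4 := Finset.card_union_le (u \ toF N (insert x P)) (toF N {x})
        have h5 := G2 P u hu
        omega
    have h : (G P : ℝ) ≤ G (insert x P) + 1 := by exact_mod_cast this
    simp only
    linarith
  · have : G (insert x P) ≤ G P := by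
      rcases G3 P with h | ⟨u, hu, h⟩
      · have := G1 (insert x P); omega
      · have h1 : u \ toF N (insert x P) ⊆ u \ toF N P := by
          intro z hz
          simp only [toF, Finset.mem_sdiff, Finset.mem_filter, Finset.mem_univ, true_and,
            Finset.mem_insert] at hz ⊢
          tauto
        have h3 := Finset.card_le_card h1
        have h5 := G2 (insert x P) u hu
        omega
    simp only
    exact_mod_cast this
  · have : t ≤ G P + G Q := by
      rcases G3 P with h | ⟨u, hu, h⟩
      · omega
      rcases G3 Q with h' | ⟨v, hv, h'⟩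
      · omega
      have h1 : u ∩ v ⊆ (u \ toF N P) ∪ (v \ toF N Q) := by
        intro z hz
        have : z.val ∈ P → z.val ∉ Q := fun h => Finset.disjoint_left.1 hd h
        simp only [toF, Finset.mem_sdiff, Finset.mem_filter, Finset.mem_univ, true_and,
          Finset.mem_union, Finset.mem_inter] at hz ⊢
        tauto
      have h3 := Finset.card_le_card h1
      have h4 := Finset.card_union_le (u \ toF N P) (v \ toF N Q)
      have h5 := hA u hu v hv
      omega
    simp only
    exact_mod_cast this
  · have h1 := G2 P u hu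
    rw [Finset.sdiff_eq_empty_iff_subset.2 h, Finset.card_empty] at h1
    have : G P = 0 := by omega
    simp [this]

theorem quad_lower {m n k l M D : ℕ} (hl : l < n) (hM : 1 ≤ M) (hD : M ≤ D ∨ 2 * n + k ≤ D)
    (hkD : (k : ℝ) + 2 + (l + 1) / 2 ≤ 2 * D)
    (hT : 16 * D * Real.log (4 * M) < ((l : ℝ) + 1) * (k + (l + 1)))
    (hm1 : 2 * (3 * (((2 * n + k : ℕ) : ℝ) / (2 * M : ℕ) + 1)) ^ (2 * M) ≤ m ∨
      m = (2 * n + k).choose n) (hm2 : m ≤ (2 * n + k).choose n) : M + 1 ≤ hm m n k l := by
  classical
  set N := 2 * n + k with hN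
  obtain ⟨v0⟩ : Nonempty (Vtx n k) := by
    rw [← Fintype.card_pos_iff, card_vtx]; exact Nat.choose_pos (by omega)
  have hex : ∀ P : Finset ℕ, ∃ v : Vtx n k, P ⊆ Finset.range N → n ≤ P.card → v.1 ⊆ toF N P := by
    intro P
    by_cases h : P ⊆ Finset.range N ∧ n ≤ P.card
    · obtain ⟨S, h1, h2⟩ := Finset.exists_subset_card_eq (s := toF N P) (n := n)
        (by rw [card_toF h.1]; exact h.2)
      exact ⟨⟨S, h2⟩, fun _ _ => h1⟩
    · exact ⟨v0, fun h1 h2 => absurd ⟨h1, h2⟩ h⟩
  choose φ hφ using hex
  set W := ((Finset.range N).powerset.filter (fun P => (chg N P).card ≤ 2 * M)).image φ with hW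
  refine le_hm W ?_ hm2 ?_
  · rcases hm1 with hm1 | hm1
    · have h1 := card_few N (2 * M)
      have h2 := card_small N (2 * M) (by omega)
      have h3 : W.card ≤ _ := Finset.card_image_le
      have h4 : (W.card : ℝ) ≤ 2 * ((((Finset.range N).powerset.filter
          (fun S => S.card ≤ 2 * M)).card : ℕ) : ℝ) := by exact_mod_cast h3.trans h1
      have h5 : (W.card : ℝ) ≤ m := by linarith
      exact_mod_cast h5
    · rw [hm1, ← card_vtx]
      exact Finset.card_le_univ _
  · intro c hc
    by_contra hlt
    set S := W.image c with hS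
    have rk : ∀ x y, x ∈ S → x < y → (S.filter (· < x)).card < (S.filter (· < y)).card := by
      intro x y hx hxy
      refine Finset.card_lt_card ⟨fun z hz => ?_, fun h => ?_⟩
      · rw [Finset.mem_filter] at hz ⊢
        exact ⟨hz.1, hz.2.trans hxy⟩
      · have := h (Finset.mem_filter.2 ⟨hx, hxy⟩)
        simp at this
    have hg : ∀ i : ℕ, ∃ g : Finset ℕ → ℝ, Lip g ∧
        (∀ P Q, Disjoint P Q → ((l + 1 : ℕ) : ℝ) ≤ g P + g Q) ∧
        ∀ P, ∀ u ∈ (W.filter (fun v => (S.filter (· < c v)).card = i)).image Subtype.val,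
          u ⊆ toF N P → g P ≤ 0 := by
      intro i
      refine exists_dist _ fun u' hu' v' hv' => ?_
      obtain ⟨u, hu, rfl⟩ := Finset.mem_image.1 hu'
      obtain ⟨v, hv, rfl⟩ := Finset.mem_image.1 hv'
      rw [Finset.mem_filter] at hu hv
      by_contra h
      have hadj : (genKneser n k l).Adj u v := by
        refine ⟨fun e => ?_, by omega⟩
        rw [← e, Finset.inter_self, u.2] at h
        omega
      rcases lt_or_gt_of_ne (hc u hu.1 v hv.1 hadj) with h1 | h1
      · have := rk _ _ (Finset.mem_image_of_mem c hu.1) h1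
        omega
      · have := rk _ _ (Finset.mem_image_of_mem c hv.1) h1
        omega
    choose g g1 g2 g3 using hg
    have hl0 : (0 : ℝ) ≤ l := by positivity
    have := core n k M D ((l : ℝ) + 1) (by omega) hM (by linarith) hD hkD g g1
      (fun i P Q h => by have := g2 i P Q h; push_cast at this; exact this) (by
        intro P h1 h2 B h3 h4
        have hP : φ P ∈ W := Finset.mem_image_of_mem φ (Finset.mem_filter.2
          ⟨Finset.mem_powerset.2 h1, (chg_card h4).trans (by omega)⟩)
        refine ⟨(S.filter (· < c (φ P))).card, ?_, g3 _ P _ (Finset.mem_image_of_mem _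
          (Finset.mem_filter.2 ⟨hP, rfl⟩)) (hφ P h1 h2)⟩
        have : (S.filter (· < c (φ P))).card < S.card := by
          refine Finset.card_lt_card ⟨Finset.filter_subset _ _, fun h => ?_⟩
          have := h (Finset.mem_image_of_mem c hP)
          simp at this
        omega)
    linarith

end Pool.Agent.Lib.MP_d46fce_co
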