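import Mathlib

/-!
Triangular transport maps from the discrete box onto an arbitrary subset, with a quadratic cost
bounded by the logarithm of the density of the subset.
-/

namespace Pool.Agent.Lib.MP_d46fce_co

open Finset

theorem hell (p u : ℝ) (hp : 0 ≤ p) (hu : 0 < u) :
    (Real.sqrt p - Real.sqrt u) ^ 2 ≤ p * Real.log (p / u) - p + u := by
  rcases hp.eq_or_lt with rfl | h0
  · simp [Real.sq_sqrt hu.le]
  have a1 := Real.sqrt_pos.2 h0
  have a2 := Real.sqrt_pos.2 hu
  have e1 := Real.sq_sqrt h0.le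
  have e2 := Real.sq_sqrt hu.le
  have a3 := Real.one_sub_inv_le_log_of_pos (div_pos a1 a2)
  rw [inv_div] at a3
  have e3 : Real.log (p / u) = 2 * Real.log (Real.sqrt p / Real.sqrt u) := by
    rw [← Real.sqrt_div h0.le, Real.log_sqrt (by positivity)]; ring
  have a4 := mul_le_mul_of_nonneg_left a3 h0.le
  have e4 : p * (1 - Real.sqrt u / Real.sqrt p) = p - Real.sqrt p * Real.sqrt u := by
    rw [mul_sub, mul_one, ← mul_div_assoc]
    congr 1
    rw [div_eq_iff a1.ne']
    nlinarith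
  rw [e3]
  nlinarith

theorem pinsker (M : ℕ) (hM : 0 < M) (p : ℕ → ℝ) (hp : ∀ a, 0 ≤ p a)
    (h1 : ∑ a ∈ range M, p a = 1) :
    (∑ a ∈ range M, |p a - 1 / M|) ^ 2 ≤ 4 * ∑ a ∈ range M, p a * Real.log (p a * M) := by
  have M0 : (0 : ℝ) < M := by exact_mod_cast hM
  have u0 : (0 : ℝ) < 1 / M := by positivity
  have hu : ∑ _a ∈ range M, (1 : ℝ) / M = 1 := by
    rw [sum_const, card_range, nsmul_eq_mul]; field_simp
  have a1 := Finset.sum_mul_sq_le_sq_mul_sq (range M)
    (fun a => |Real.sqrt (p a) - Real.sqrt (1 / M)|) (fun a => Real.sqrt (p a) + Real.sqrt (1 / M))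
  have e1 : ∀ a, |Real.sqrt (p a) - Real.sqrt (1 / M)| * (Real.sqrt (p a) + Real.sqrt (1 / M)) =
      |p a - 1 / M| := by
    intro a
    rw [← abs_of_nonneg (show 0 ≤ Real.sqrt (p a) + Real.sqrt (1 / M) by positivity), ← abs_mul]
    congr 1
    nlinarith [Real.sq_sqrt (hp a), Real.sq_sqrt u0.le]
  simp only [e1, sq_abs] at a1
  have a2 : ∑ a ∈ range M, (Real.sqrt (p a) + Real.sqrt (1 / M)) ^ 2 ≤ 4 := by
    calc _ ≤ ∑ a ∈ range M, (2 * p a + 2 * (1 / M)) := sum_le_sum fun a _ => by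
          nlinarith [Real.sq_sqrt (hp a), Real.sq_sqrt u0.le,
            sq_nonneg (Real.sqrt (p a) - Real.sqrt (1 / M))]
      _ = 4 := by rw [sum_add_distrib, ← mul_sum, ← mul_sum, h1, hu]; norm_num
  have a3 : ∑ a ∈ range M, (Real.sqrt (p a) - Real.sqrt (1 / M)) ^ 2 ≤
      ∑ a ∈ range M, p a * Real.log (p a * M) := by
    refine (sum_le_sum fun a _ => hell (p a) (1 / M) (hp a) u0).trans (le_of_eq ?_)
    rw [sum_add_distrib, sum_sub_distrib, h1, hu]
    simp only [div_div_eq_mul_div, div_one]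
    ring
  have a4 : 0 ≤ ∑ a ∈ range M, (Real.sqrt (p a) - Real.sqrt (1 / M)) ^ 2 :=
    sum_nonneg fun _ _ => sq_nonneg _
  nlinarith

theorem min_super {x x' y y' : ℝ} (hx : x ≤ x') (hy : y ≤ y') :
    0 ≤ min x' y' - min x' y - (min x y' - min x y) ∧
      (0 < min x' y' - min x' y - (min x y' - min x y) → x < y' ∧ y < x') := by
  simp only [min_def]
  split_ifs <;> refine ⟨by linarith, fun h => ⟨by linarith, by linarith⟩⟩

theorem one_dim (M : ℕ) (hM : 0 < M) (s : ℕ → ℝ) (hs : ∀ a, 0 ≤ s a)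
    (hZ : 0 < ∑ a ∈ range M, s a) :
    ∃ t : ℕ → ℕ, (∀ b, t b < M ∧ 0 < s (t b)) ∧
      ∑ b ∈ range M, (((t b : ℝ) - b) ^ 2 - 8 * M ^ 2 * Real.log (s (t b))) ≤
        M * (2 + 8 * M ^ 2 * Real.log (M / ∑ a ∈ range M, s a)) := by
  classical
  have M0 : (0 : ℝ) < M := by exact_mod_cast hM
  set Z := ∑ a ∈ range M, s a with hZd
  set p : ℕ → ℝ := fun a => s a / Z with hp
  have p0 : ∀ a, 0 ≤ p a := fun a => div_nonneg (hs a) hZ.le
  have p1 : ∑ a ∈ range M, p a = 1 := by
    simp only [hp]; rw [← sum_div, div_self hZ.ne']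
  set F : ℕ → ℝ := fun a => ∑ i ∈ range a, p i with hF
  have F1 : ∀ a, F (a + 1) = F a + p a := fun a => sum_range_succ _ _
  have F0 : ∀ a, 0 ≤ F a := fun a => sum_nonneg fun i _ => p0 i
  have F2 : ∀ a ≤ M, F a ≤ 1 := fun a ha => p1 ▸
    sum_le_sum_of_subset_of_nonneg (range_subset_range.2 ha) fun i _ _ => p0 i
  set V := ∑ a ∈ range M, |p a - 1 / M| with hV
  have F3 : ∀ a ≤ M, |F a - a / M| ≤ V := by
    intro a ha
    have : F a - a / M = ∑ i ∈ range a, (p i - 1 / M) := by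
      rw [sum_sub_distrib, sum_const, card_range, nsmul_eq_mul, mul_one_div]
    rw [this]
    exact (abs_sum_le_sum_abs _ _).trans
      (sum_le_sum_of_subset_of_nonneg (range_subset_range.2 ha) fun i _ _ => abs_nonneg _)
  set g : ℕ → ℕ → ℝ := fun b a => min (F a) (((b + 1 : ℕ) : ℝ) / M) - min (F a) ((b : ℝ) / M)
    with hg
  set π : ℕ → ℕ → ℝ := fun b a => g b (a + 1) - g b a with hπ
  have hb : ∀ b : ℕ, (b : ℝ) / M ≤ ((b + 1 : ℕ) : ℝ) / M := fun b => by
    gcongr; omega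
  have π0 : ∀ b a, 0 ≤ π b a ∧ (0 < π b a → F a < ((b + 1 : ℕ) : ℝ) / M ∧ b / M < F (a + 1)) :=
    fun b a => min_super (by rw [F1]; linarith [p0 a]) (hb b)
  have π1 : ∀ b < M, ∑ a ∈ range M, π b a = 1 / M := by
    intro b hb'
    have c1 : ((b + 1 : ℕ) : ℝ) / M ≤ 1 := by
      rw [div_le_one M0]; exact_mod_cast hb'
    have e1 : F M = 1 := p1
    have e0 : F 0 = 0 := by simp [hF]
    rw [hπ, sum_range_sub (g b)]
    simp only [hg, e1, e0]
    rw [min_eq_right c1, min_eq_right ((hb b).trans c1), min_eq_left (by positivity),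
      min_eq_left (by positivity)]
    push_cast; ring
  have π2 : ∀ a < M, ∑ b ∈ range M, π b a = p a := by
    intro a ha
    have e : ∀ a ≤ M, ∑ b ∈ range M, g b a = F a := by
      intro a ha
      simp only [hg]
      rw [sum_range_sub (fun b : ℕ => min (F a) ((b : ℝ) / M)), div_self M0.ne',
        min_eq_left (F2 a ha), Nat.cast_zero, zero_div, min_eq_right (F0 a), sub_zero]
    simp only [hπ]
    rw [sum_sub_distrib, e _ ha, e _ ha.le, F1]; ring
  have ex : ∀ b, ∃ a, (a < M ∧ 0 < s a) ∧ (b < M → 0 < π b a ∧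
      -Real.log (s a) ≤ M * ∑ a' ∈ range M, π b a' * -Real.log (s a')) := by
    intro b
    by_cases hb' : b < M
    · have ne : ((range M).filter fun a => 0 < π b a).Nonempty := by
        by_contra h
        have : ∑ a ∈ range M, π b a ≤ 0 := sum_nonpos fun a ha => not_lt.1 fun h' =>
          h ⟨a, mem_filter.2 ⟨ha, h'⟩⟩
        rw [π1 b hb'] at this
        exact absurd this (not_le.2 (by positivity))
      obtain ⟨a, ha, hmin⟩ := exists_min_image _ (fun a => -Real.log (s a)) ne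
      obtain ⟨ha1, ha2⟩ := mem_filter.1 ha
      have c1 : 0 < p a := by
        rw [← π2 a (mem_range.1 ha1)]
        exact ha2.trans_le (single_le_sum (f := fun b => π b a) (fun i _ => (π0 i a).1)
          (mem_range.2 hb'))
      refine ⟨a, ⟨mem_range.1 ha1, (div_pos_iff_of_pos_right hZ).1 c1⟩, fun _ => ⟨ha2, ?_⟩⟩
      have c2 : ∑ a' ∈ range M, π b a' * -Real.log (s a) ≤
          ∑ a' ∈ range M, π b a' * -Real.log (s a') := by
        refine sum_le_sum fun a' ha' => ?_
        rcases (π0 b a').1.eq_or_lt with h | h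
        · rw [← h]; simp
        · exact mul_le_mul_of_nonneg_left (hmin a' (mem_filter.2 ⟨ha', h⟩)) h.le
      rw [← sum_mul, π1 b hb'] at c2
      have := mul_le_mul_of_nonneg_left c2 M0.le
      rwa [← mul_assoc, mul_one_div_cancel M0.ne', one_mul] at this
    · obtain ⟨a, ha, h⟩ := exists_lt_of_sum_lt (f := fun _ => (0 : ℝ)) (g := s) (s := range M)
        (by rwa [sum_const_zero])
      exact ⟨a, ⟨mem_range.1 ha, h⟩, fun h' => absurd h' hb'⟩
  choose t t1 t2 using ex
  refine ⟨t, t1, ?_⟩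
  set K := ∑ a ∈ range M, p a * Real.log (p a * M) with hK
  have hP : V ^ 2 ≤ 4 * K := pinsker M hM p p0 p1
  have d1 : ∀ b ∈ range M, ((t b : ℝ) - b) ^ 2 ≤ 2 + 8 * M ^ 2 * K := by
    intro b hb'
    obtain ⟨c1, c2⟩ := (π0 b (t b)).2 (t2 b (mem_range.1 hb')).1
    have c3 := abs_le.1 (F3 (t b) (t1 b).1.le)
    have c4 := abs_le.1 (F3 (t b + 1) (t1 b).1)
    have c5 : (t b : ℝ) / M - V < ((b + 1 : ℕ) : ℝ) / M := by linarith [c3.1]
    have c6 : (b : ℝ) / M < ((t b + 1 : ℕ) : ℝ) / M + V := by linarith [c4.2]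
    rw [sub_lt_iff_lt_add, div_lt_iff₀ M0, add_mul, div_mul_cancel₀ _ M0.ne'] at c5
    rw [div_lt_iff₀ M0, add_mul, div_mul_cancel₀ _ M0.ne'] at c6
    push_cast at c5 c6
    have c7 : ((t b : ℝ) - b) ^ 2 ≤ (1 + V * M) ^ 2 := sq_le_sq' (by linarith) (by linarith)
    nlinarith [sq_nonneg (1 - V * M), mul_le_mul_of_nonneg_left hP (sq_nonneg (M : ℝ))]
  have d2 : ∑ b ∈ range M, -Real.log (s (t b)) ≤ M * ∑ a ∈ range M, p a * -Real.log (s a) := by
    refine (sum_le_sum fun b hb' => (t2 b (mem_range.1 hb')).2).trans (le_of_eq ?_)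
    rw [← mul_sum, sum_comm]
    congr 1
    exact sum_congr rfl fun a ha => by rw [← sum_mul, π2 a (mem_range.1 ha)]
  have d3 : K + ∑ a ∈ range M, p a * -Real.log (s a) = Real.log (M / Z) := by
    rw [hK, ← sum_add_distrib, ← one_mul (Real.log (M / Z)), ← p1, sum_mul]
    refine sum_congr rfl fun a _ => ?_
    rcases (hs a).eq_or_lt with h | h
    · simp [hp, ← h]
    · simp only [hp]
      rw [show s a / Z * M = s a * (M / Z) by ring, Real.log_mul h.ne' (by positivity)]
      ring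
  have d4 := sum_le_sum d1
  rw [sum_const, card_range, nsmul_eq_mul] at d4
  rw [sum_neg_distrib] at d2
  rw [sum_sub_distrib, ← mul_sum, ← d3]
  nlinarith [mul_le_mul_of_nonneg_left d2 (show (0 : ℝ) ≤ 8 * M ^ 2 by positivity)]

theorem tri (M : ℕ) (hM : 0 < M) (d : ℕ) (S : Finset (Fin d → Fin M)) (hS : S.Nonempty) :
    ∃ T : (Fin d → Fin M) → Fin d → Fin M, (∀ b, T b ∈ S) ∧
      (∀ b b' j, (∀ i, i ≤ j → b i = b' i) → T b j = T b' j) ∧
      ∑ b, ∑ j, ((T b j : ℝ) - b j) ^ 2 ≤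
        M ^ d * (2 * d + 8 * M ^ 2 * Real.log (M ^ d / S.card)) := by
  classical
  have M0 : (0 : ℝ) < M := by exact_mod_cast hM
  induction d with
  | zero =>
    obtain ⟨x, hx⟩ := hS
    refine ⟨fun _ => x, fun _ => hx, fun _ _ _ _ => rfl, ?_⟩
    have : S = {x} := eq_singleton_iff_unique_mem.2 ⟨hx, fun y _ => Subsingleton.elim _ _⟩
    simp [this]
  | succ d ih =>
    set sl : Fin M → Finset (Fin d → Fin M) := fun a => univ.filter fun x => Fin.cons a x ∈ S
      with hsl
    set s : ℕ → ℝ := fun a => if h : a < M then ((sl ⟨a, h⟩).card : ℝ) else 0 with hs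
    have s1 : ∀ a : Fin M, s a = (sl a).card := fun a => by simp [hs]
    have s2 : ∑ a ∈ range M, s a = S.card := by
      rw [← Fin.sum_univ_eq_sum_range, card_eq_sum_ones S, Nat.cast_sum]
      simp only [s1, hsl, card_filter, Nat.cast_sum]
      rw [← sum_product', univ_product_univ,
        ← (Fin.consEquiv fun _ => Fin M).symm.sum_comp]
      simp [Fin.consEquiv]
    have S0 : (0 : ℝ) < S.card := by exact_mod_cast hS.card_pos
    obtain ⟨t, t1, t2⟩ := one_dim M hM s (fun a => by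
      simp only [hs]; split_ifs <;> positivity) (by rwa [s2])
    set τ : Fin M → Fin M := fun b => ⟨t b, (t1 b).1⟩ with hτ
    have τ1 : ∀ b, (0 : ℝ) < (sl (τ b)).card := fun b => by rw [← s1]; exact (t1 b).2
    choose T T1 T2 T3 using fun b => ih (sl (τ b)) (card_pos.1 (by exact_mod_cast τ1 b))
    refine ⟨fun b => Fin.cons (τ (b 0)) (T (b 0) (Fin.tail b)), fun b => ?_, fun b b' j h => ?_, ?_⟩
    · exact (mem_filter.1 (T1 (b 0) (Fin.tail b))).2
    · have h0 := h 0 (Fin.zero_le _)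
      refine Fin.cases ?_ (fun j h => ?_) j h
      · intro _; simp only [Fin.cons_zero, h0]
      · simp only [Fin.cons_succ, h0]
        exact T2 _ _ _ _ fun i hi => h _ (Fin.succ_le_succ_iff.2 hi)
    · rw [← (Fin.consEquiv fun _ => Fin M).sum_comp, Fintype.sum_prod_type]
      simp only [Fin.consEquiv, Equiv.coe_fn_mk, Fin.sum_univ_succ, Fin.cons_zero, Fin.cons_succ,
        Fin.tail_cons, sum_add_distrib, sum_const, card_univ, Fintype.card_pi, Fintype.card_fin,
        prod_const, nsmul_eq_mul, Nat.cast_pow]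
      rw [s2, ← Fin.sum_univ_eq_sum_range
        (fun b => ((t b : ℝ) - b) ^ 2 - 8 * M ^ 2 * Real.log (s (t b)))] at t2
      have c1 := sum_le_sum fun b (_ : b ∈ univ) => T3 b
      have c2 : ∀ b : Fin M, (M : ℝ) ^ d * (((τ b : ℕ) : ℝ) - b) ^ 2 +
          M ^ d * (2 * d + 8 * M ^ 2 * Real.log (M ^ d / (sl (τ b)).card)) =
          M ^ d * ((((t b : ℕ) : ℝ) - b) ^ 2 - 8 * M ^ 2 * Real.log (s (t b))) +
            M ^ d * (2 * d + 8 * M ^ 2 * Real.log (M ^ d)) := by
        intro b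
        rw [Real.log_div (by positivity) (τ1 b).ne', ← s1]
        simp only [hτ]
        ring
      have c3 := sum_congr (rfl : (univ : Finset (Fin M)) = univ) fun b _ => c2 b
      rw [sum_add_distrib, sum_add_distrib, ← mul_sum _ (fun b : Fin M => (((t b : ℕ) : ℝ) - b) ^ 2 -
        8 * M ^ 2 * Real.log (s (t b))), sum_const, card_univ, Fintype.card_fin,
        nsmul_eq_mul] at c3
      have c4 := mul_le_mul_of_nonneg_left t2 (show (0 : ℝ) ≤ M ^ d by positivity)
      have c5 : Real.log (M ^ (d + 1) / S.card) = Real.log (M / S.card) + Real.log (M ^ d) := by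
        rw [← Real.log_mul (by positivity) (by positivity)]
        congr 1; ring
      rw [c5]
      push_cast
      calc _ ≤ M ^ d * (M * (2 + 8 * M ^ 2 * Real.log (M / S.card))) +
            M * (M ^ d * (2 * d + 8 * M ^ 2 * Real.log (M ^ d))) := by linarith
        _ = _ := by ring

end Pool.Agent.Lib.MP_d46fce_co
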