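import Pool.Agent.Lib.MP_d46fce_co.Lower

namespace Pool.Agent.Lib.MP_d46fce_co

theorem greedy {ι : Type} {N z : ℕ} (hN : 0 < N) (I : Finset ι) (Z : ι → Finset (Fin N))
    (hZ : ∀ i ∈ I, (Z i).card ≤ z) (s : ℕ) :
    ∃ X : Finset (Fin N), X.card ≤ s ∧
      (((I.filter (fun i => X ⊆ Z i)).card : ℕ) : ℝ) ≤ I.card * ((z : ℝ) / N) ^ s := by
  classical
  induction s with
  | zero => exact ⟨∅, le_rfl, by simp⟩
  | succ s ih =>
    obtain ⟨X, h1, h2⟩ := ih
    set J := I.filter (fun i => X ⊆ Z i) with hJ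
    have hsum : ∑ x : Fin N, ((J.filter (fun i => x ∈ Z i)).card * N) ≤
        ∑ _x : Fin N, J.card * z := by
      rw [← Finset.sum_mul]
      have : ∑ x : Fin N, (J.filter (fun i => x ∈ Z i)).card = ∑ i ∈ J, (Z i).card := by
        simp only [Finset.card_filter]
        rw [Finset.sum_comm]
        refine Finset.sum_congr rfl fun i _ => ?_
        simp
      rw [this]
      have h3 : ∑ i ∈ J, (Z i).card ≤ J.card * z := by
        rw [← smul_eq_mul]
        exact Finset.sum_le_card_nsmul _ _ _ fun i hi => hZ i (Finset.mem_filter.1 hi).1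
      simp only [Finset.sum_const, Finset.card_univ, Fintype.card_fin, smul_eq_mul]
      rw [mul_comm N]
      exact Nat.mul_le_mul_right _ h3
    obtain ⟨x, -, hx⟩ := Finset.exists_le_of_sum_le ⟨⟨0, hN⟩, Finset.mem_univ _⟩ hsum
    refine ⟨insert x X, (Finset.card_insert_le _ _).trans (by omega), ?_⟩
    have e : I.filter (fun i => insert x X ⊆ Z i) = J.filter (fun i => x ∈ Z i) := by
      rw [hJ, Finset.filter_filter]
      refine Finset.filter_congr fun i _ => ?_
      rw [Finset.insert_subset_iff, and_comm]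
    rw [e]
    have hN' : (0 : ℝ) < N := by exact_mod_cast hN
    have hx' : (((J.filter (fun i => x ∈ Z i)).card : ℕ) : ℝ) * N ≤ J.card * z := by
      exact_mod_cast hx
    calc (((J.filter (fun i => x ∈ Z i)).card : ℕ) : ℝ) ≤ J.card * ((z : ℝ) / N) := by
          rw [← mul_div_assoc, le_div_iff₀ hN']; exact hx'
      _ ≤ I.card * ((z : ℝ) / N) ^ s * ((z : ℝ) / N) :=
          mul_le_mul_of_nonneg_right h2 (by positivity)
      _ = _ := by ring

theorem colour_stars {n k s q : ℕ} (W : Finset (Vtx n k)) (X : Finset (Fin (2 * n + k)))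
    (hX : X.card ≤ s) (c0 : Vtx n k → ℕ) (h1 : ∀ v ∈ W, X ⊆ v.1ᶜ → c0 v < q)
    (h2 : ∀ u ∈ W, ∀ v ∈ W, X ⊆ u.1ᶜ → X ⊆ v.1ᶜ → (genKneser n k 0).Adj u v → c0 u ≠ c0 v) :
    ∃ c : Vtx n k → ℕ, (∀ v ∈ W, c v < s + q) ∧
      ∀ u ∈ W, ∀ v ∈ W, (genKneser n k 0).Adj u v → c u ≠ c v := by
  classical
  have rk_lt : ∀ x ∈ X, (X.filter (· < x)).card < s := by
    intro x hx
    refine lt_of_lt_of_le (Finset.card_lt_card ⟨Finset.filter_subset _ _, fun h => ?_⟩) hX
    have := h hx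
    simp at this
  have rk_mono : ∀ x ∈ X, ∀ y, x < y → (X.filter (· < x)).card < (X.filter (· < y)).card := by
    intro x hx y hxy
    refine Finset.card_lt_card ⟨fun z hz => ?_, fun h => ?_⟩
    · rw [Finset.mem_filter] at hz ⊢
      exact ⟨hz.1, hz.2.trans hxy⟩
    · have := h (Finset.mem_filter.2 ⟨hx, hxy⟩)
      simp at this
  have hsub : ∀ v : Vtx n k, ¬ (v.1 ∩ X).Nonempty → X ⊆ v.1ᶜ := by
    intro v h x hx
    rw [Finset.mem_compl]
    exact fun hv => h ⟨x, Finset.mem_inter.2 ⟨hv, hx⟩⟩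
  refine ⟨fun v => if h : (v.1 ∩ X).Nonempty then (X.filter (· < h.choose)).card else s + c0 v,
    fun v hv => ?_, fun u hu v hv huv => ?_⟩
  · dsimp only
    split_ifs with h
    · have := rk_lt _ (Finset.mem_inter.1 h.choose_spec).2
      omega
    · have := h1 v hv (hsub v h)
      omega
  · dsimp only
    split_ifs with ha hb hb
    · have a1 := Finset.mem_inter.1 ha.choose_spec
      have b1 := Finset.mem_inter.1 hb.choose_spec
      have hne : ha.choose ≠ hb.choose := by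
        intro e
        have h0 := huv.2
        rw [Nat.le_zero, Finset.card_eq_zero] at h0
        have : ha.choose ∈ u.1 ∩ v.1 := Finset.mem_inter.2 ⟨a1.1, e ▸ b1.1⟩
        rw [h0] at this
        simp at this
      rcases lt_or_gt_of_ne hne with h | h
      · exact (rk_mono _ a1.2 _ h).ne
      · exact (rk_mono _ b1.2 _ h).ne'
    · have := rk_lt _ (Finset.mem_inter.1 ha.choose_spec).2
      omega
    · have := rk_lt _ (Finset.mem_inter.1 hb.choose_spec).2
      omega
    · have := h2 u hu v hv (hsub u ha) (hsub v hb) huv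
      omega

theorem card_compl_union {n k : ℕ} {u v : Vtx n k} (h : (genKneser n k 0).Adj u v) :
    ((u.1 ∪ v.1)ᶜ).card = k := by
  have h0 := h.2
  rw [Nat.le_zero] at h0
  have h1 := Finset.card_union_add_card_inter u.1 v.1
  rw [Finset.card_compl, Fintype.card_fin]
  have := u.2
  have := v.2
  omega

theorem hm_le_kneser (m n k : ℕ) (hn : 1 ≤ n) : hm m n k 0 ≤ k + 2 := by
  obtain ⟨X, -, hX⟩ := Finset.exists_subset_card_eq
    (s := (Finset.univ : Finset (Fin (2 * n + k)))) (n := k + 1) (by simp; omega)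
  refine hm_le fun W _ => colour_stars (s := k + 1) (q := 1) W X hX.le (fun _ => 0)
    (fun _ _ _ => by omega) (fun u _ v _ h1 h2 huv => ?_)
  exfalso
  have : X ⊆ (u.1 ∪ v.1)ᶜ := by
    rw [Finset.compl_union]; exact Finset.subset_inter h1 h2
  have := Finset.card_le_card this
  rw [card_compl_union huv] at this
  omega

theorem hm_le_edges (m n k s : ℕ) (hn : 1 ≤ n)
    (h : (m : ℝ) ^ 2 * ((k : ℝ) / ((2 * n + k : ℕ) : ℝ)) ^ s < 1) : hm m n k 0 ≤ s + 1 := by
  classical
  refine hm_le fun W hW => ?_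
  set I := (W ×ˢ W).filter (fun p => (genKneser n k 0).Adj p.1 p.2) with hI
  obtain ⟨X, h1, h2⟩ := greedy (N := 2 * n + k) (z := k) (by omega) I (fun p => (p.1.1 ∪ p.2.1)ᶜ)
    (fun p hp => (card_compl_union (Finset.mem_filter.1 hp).2).le) s
  have hIc : (I.card : ℝ) ≤ (m : ℝ) ^ 2 := by
    have : I.card ≤ m ^ 2 := by
      refine (Finset.card_filter_le _ _).trans ?_
      rw [Finset.card_product, hW, sq]
    exact_mod_cast this
  have h3 : (((I.filter (fun p => X ⊆ (p.1.1 ∪ p.2.1)ᶜ)).card : ℕ) : ℝ) < 1 :=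
    lt_of_le_of_lt (h2.trans (mul_le_mul_of_nonneg_right hIc (by positivity))) h
  have h4 : (I.filter (fun p => X ⊆ (p.1.1 ∪ p.2.1)ᶜ)).card = 0 := by
    have : (I.filter (fun p => X ⊆ (p.1.1 ∪ p.2.1)ᶜ)).card < 1 := by exact_mod_cast h3
    omega
  refine colour_stars (q := 1) W X h1 (fun _ => 0) (fun _ _ _ => by omega)
    (fun u hu v hv a1 a2 huv => ?_)
  exfalso
  rw [Finset.card_eq_zero] at h4
  have : (u, v) ∈ I.filter (fun p => X ⊆ (p.1.1 ∪ p.2.1)ᶜ) := by
    refine Finset.mem_filter.2 ⟨Finset.mem_filter.2 ⟨Finset.mem_product.2 ⟨hu, hv⟩, huv⟩, ?_⟩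
    rw [Finset.compl_union]; exact Finset.subset_inter a1 a2
  rw [h4] at this
  simp at this

theorem hm_le_cover (m n k s : ℕ) (hn : 1 ≤ n) :
    (hm m n k 0 : ℝ) ≤ s + m * (((n + k : ℕ) : ℝ) / ((2 * n + k : ℕ) : ℝ)) ^ s := by
  classical
  set y : ℝ := m * (((n + k : ℕ) : ℝ) / ((2 * n + k : ℕ) : ℝ)) ^ s with hy
  have hy0 : 0 ≤ y := by positivity
  have : hm m n k 0 ≤ s + ⌊y⌋₊ := by
    refine hm_le fun W hW => ?_
    obtain ⟨X, h1, h2⟩ := greedy (N := 2 * n + k) (z := n + k) (by omega) W (fun v => v.1ᶜ)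
      (fun v _ => by rw [Finset.card_compl, Fintype.card_fin, v.2]; omega) s
    set R := W.filter (fun v => X ⊆ v.1ᶜ) with hR
    have hRc : R.card ≤ ⌊y⌋₊ := Nat.le_floor (by rw [hy, ← hW]; exact h2)
    refine colour_stars W X h1 (fun v => if h : v ∈ R then (R.equivFin ⟨v, h⟩).val else 0)
      (fun v hv hx => ?_) (fun u hu v hv a1 a2 huv => ?_)
    · have : v ∈ R := Finset.mem_filter.2 ⟨hv, hx⟩
      simp only [dif_pos this]
      exact lt_of_lt_of_le (Fin.isLt _) hRc
    · have b1 : u ∈ R := Finset.mem_filter.2 ⟨hu, a1⟩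
      have b2 : v ∈ R := Finset.mem_filter.2 ⟨hv, a2⟩
      simp only [dif_pos b1, dif_pos b2]
      intro e
      have := R.equivFin.injective (Fin.ext e)
      exact huv.1 (congrArg Subtype.val this)
  calc (hm m n k 0 : ℝ) ≤ ((s + ⌊y⌋₊ : ℕ) : ℝ) := by exact_mod_cast this
    _ ≤ s + y := by push_cast; linarith [Nat.floor_le hy0]

end Pool.Agent.Lib.MP_d46fce_co
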